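import Pool.Agent.H98.Flat.O.Final

/-! No overlapping classes, without any size condition. -/

namespace Pool.Agent.H98.Flat

namespace Ap

variable {A : Ap}

/-- **(O)** a flat progression has no overlapping classes -/
theorem no_overlap_all (F : A.Fl) {i m f s : ℤ} (h : A.OvL i m f s) : False := by
  by_cases hR : A.Reg
  · have : Fact A.Reg := ⟨hR⟩
    exact no_overlap F h
  · refine flat_false F ?_
    unfold Reg at hR
    rw [not_and_or] at hR
    rcases hR with hR | hR
    · left; omega
    · right
      rw [Classical.not_imp] at hR
      refine ⟨hR.1, ?_⟩
      have := A.p_ne hR.1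
      omega

end Ap

end Pool.Agent.H98.Flat
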