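import Pool.Agent.H98.Flat.O.E0

/-!
Rule (E0), normalised form without the hypothesis P1: the levels `r`, `Y` are taken in the
fundamental domain `(-w-h, p-w-h]`, where `Φ` has no wrap.
-/

namespace Pool.Agent.H98.Flat

/-- `x` lies in the arc `(lo, hi]` of `ℤ/p` (the three relevant translates) -/
def Ar (p x lo hi : ℤ) : Prop :=
  (lo < x ∧ x ≤ hi) ∨ (lo < x + p ∧ x + p ≤ hi) ∨ (lo < x - p ∧ x - p ≤ hi)

theorem InA_Ar {p x lo len : ℤ} (h1 : -p < x - lo) (h2 : x - lo ≤ 2 * p) (h3 : len ≤ p) :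
    InA p x lo len ↔ Ar p x lo (lo + len) := by
  unfold Ar
  by_cases h : x - lo ≤ p
  · rw [InA_iff h1 h h3]
    constructor
    · rintro (h | h)
      · left; exact h
      · right; left; constructor <;> omega
    · rintro (h | h | h)
      · left; exact h
      · right; constructor <;> omega
      · exfalso; omega
  · have e : InA p x lo len ↔ InA p (x - p) lo len :=
      InA_congr ⟨1, by ring⟩
    rw [e, InA_iff (by omega) (by omega) h3]
    constructor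
    · rintro (h | h)
      · right; right; exact h
      · exfalso; omega
    · rintro (h | h | h)
      · exfalso; omega
      · exfalso; omega
      · left; exact h

/-- the function `Φ` on the fundamental domain `(-w-h, p-w-h]` -/
def phi4 (w h L R T B Y : ℤ) : ℤ :=
  if 0 < Y then 0 else if -w < Y then T - L else if -h < Y then R - L else R - B

namespace Ap

variable {A : Ap}

theorem hwz (A : Ap) : (2 : ℤ) ≤ A.w := by exact_mod_cast A.hw
theorem hwhz (A : Ap) : (A.w : ℤ) ≤ A.h := by exact_mod_cast A.hwh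

theorem HW.shift {i mb fb k : ℤ} (h : A.HW i mb fb k) (t : ℤ) :
    A.HW i (mb + A.p * t) fb k := by
  obtain ⟨m, s, hc, h1⟩ := h
  refine ⟨m + A.p * t, s, by simpa using hc.shift t 0, ?_⟩
  rcases h1 with ⟨h1, h2⟩ | ⟨h1, h2⟩
  · left; exact ⟨by rw [h1]; ring, h2⟩
  · right; exact ⟨by rw [h1]; ring, h2⟩

theorem InL_shift {m f : ℤ} (t : ℤ) : A.InL (m + A.p * t) f ↔ A.InL m f := by
  unfold InL
  rw [emod_congr (a := A.q * (m + A.p * t) + f) (b := A.q * m + f) ⟨t, by ring⟩]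

theorem Phi_ph {mc fc mb fb Y L R T B : ℤ}
    (hL : (if A.InL mc fc then (1 : ℤ) else 0) = L)
    (hR : (if A.InL (mc - A.w) fc then (1 : ℤ) else 0) = R)
    (hT : (if A.InL mb fb then (1 : ℤ) else 0) = T)
    (hB : (if A.InL (mb + A.h) fb then (1 : ℤ) else 0) = B)
    (Y0 : -(A.w : ℤ) - A.h < Y) (Y1 : Y ≤ A.p - A.w - A.h) :
    A.Phi mc fc mb fb Y = phi4 A.w A.h L R T B Y := by
  have hw := A.hwz
  have hwh := A.hwhz
  have P1 := A.h2z
  have ia : ∀ (P Q : Prop) [Decidable P] [Decidable Q],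
      (if P ∧ Q then (1 : ℤ) else 0) = if Q then (if P then 1 else 0) else 0 := by
    intro P Q _ _
    by_cases hP : P <;> by_cases hQ : Q <;> simp [hP, hQ]
  unfold Phi phi4
  rw [ia, ia, ia, ia, hL, hR, hT, hB]
  have c1 : InA A.p Y (-A.h) A.h ↔ (-(A.h : ℤ) < Y ∧ Y ≤ 0) := by
    rw [InA_iff' (by omega) (by omega) (by omega)]
    constructor <;> intro h <;> constructor <;> omega
  have c2 : InA A.p Y (-A.w - A.h) A.h ↔ (-(A.w : ℤ) - A.h < Y ∧ Y ≤ -A.w) := by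
    rw [InA_iff' (by omega) (by omega) (by omega)]
    constructor <;> intro h <;> constructor <;> omega
  have c3 : InA A.p Y (-A.w) A.w ↔ (-(A.w : ℤ) < Y ∧ Y ≤ 0) := by
    rw [InA_iff' (by omega) (by omega) (by omega)]
    constructor <;> intro h <;> constructor <;> omega
  have c4 : InA A.p Y (-A.w - A.h) A.w ↔ (-(A.w : ℤ) - A.h < Y ∧ Y ≤ -A.h) := by
    rw [InA_iff' (by omega) (by omega) (by omega)]
    constructor <;> intro h <;> constructor <;> omega
  simp only [c1, c2, c3, c4]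
  by_cases y1 : 0 < Y
  · rw [if_pos y1, if_neg (by omega), if_neg (by omega), if_neg (by omega), if_neg (by omega)]
    ring
  · by_cases y2 : -(A.w : ℤ) < Y
    · rw [if_neg y1, if_pos y2, if_pos (by omega), if_neg (by omega), if_pos (by omega),
        if_neg (by omega)]
      ring
    · by_cases y3 : -(A.h : ℤ) < Y
      · rw [if_neg y1, if_neg y2, if_pos y3, if_pos (by omega), if_pos (by omega),
          if_neg (by omega), if_neg (by omega)]
        ring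
      · rw [if_neg y1, if_neg y2, if_neg y3, if_neg (by omega), if_pos (by omega),
          if_neg (by omega), if_pos (by omega)]
        ring

/-- the rule (E0), normalised -/
def Rule (p w h g k L R T B r Y : ℤ) : Prop :=
  (Ar p Y (g - h) g ↔ ¬ Ar p r (g - h) g) → (Ar p Y (k - w) k ↔ ¬ Ar p r (k - w) k) →
    phi4 w h L R T B Y = phi4 w h L R T B r

theorem E0x (F : A.Fl) {j i mc fc g mb fb k : ℤ} (hj : A.VW j mc fc g) (hi : A.HW i mb fb k)
    (hij : i ≠ j) (t : ℤ) {r : ℤ} (hr : r = mb - mc + (if fc < fb then 1 else 0) + A.p * t)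
    {L R T B : ℤ}
    (hL : (if A.InL mc fc then (1 : ℤ) else 0) = L)
    (hR : (if A.InL (mc - A.w) fc then (1 : ℤ) else 0) = R)
    (hT : (if A.InL mb fb then (1 : ℤ) else 0) = T)
    (hB : (if A.InL (mb + A.h) fb then (1 : ℤ) else 0) = B)
    (r0 : -(A.w : ℤ) - A.h < r) (r1 : r ≤ A.p - A.w - A.h)
    (g0 : -(A.p : ℤ) - A.w ≤ g) (g1 : g ≤ A.p - A.w)
    (k0 : -(A.p : ℤ) - A.h ≤ k) (k1 : k ≤ A.p - A.h)
    (Y : ℤ) (Y0 : -(A.w : ℤ) - A.h < Y) (Y1 : Y ≤ A.p - A.w - A.h) :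
    Rule A.p A.w A.h g k L R T B r Y := by
  intro h1 h2
  have hw := A.hwz
  have hwh := A.hwhz
  have P1 := A.h2z
  have sg : g - (A.h : ℤ) + A.h = g := by ring
  have sk : k - (A.w : ℤ) + A.w = k := by ring
  have a : ∀ x : ℤ, -(A.w : ℤ) - A.h < x → x ≤ A.p - A.w - A.h →
      (InA A.p x (g - A.h) A.h ↔ Ar A.p x (g - A.h) g) := by
    intro x x0 x1
    rw [InA_Ar (by omega) (by omega) (by omega), sg]
  have b : ∀ x : ℤ, -(A.w : ℤ) - A.h < x → x ≤ A.p - A.w - A.h →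
      (InA A.p x (k - A.w) A.w ↔ Ar A.p x (k - A.w) k) := by
    intro x x0 x1
    rw [InA_Ar (by omega) (by omega) (by omega), sk]
  have h := E0 F hj (hi.shift t) hij (r := r) (by rw [hr]; ring) Y
    (by rw [a Y Y0 Y1, a r r0 r1]; exact h1) (by rw [b Y Y0 Y1, b r r0 r1]; exact h2)
  have hT' : (if A.InL (mb + A.p * t) fb then (1 : ℤ) else 0) = T := by
    rw [← hT]; exact if_congr (InL_shift t) rfl rfl
  have hB' : (if A.InL (mb + A.p * t + A.h) fb then (1 : ℤ) else 0) = B := by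
    rw [← hB, show mb + A.p * t + (A.h : ℤ) = mb + A.h + A.p * t by ring]
    exact if_congr (InL_shift t) rfl rfl
  rw [Phi_ph hL hR hT' hB' Y0 Y1, Phi_ph hL hR hT' hB' r0 r1] at h
  exact h

/-- value of the letter at `(m, f)` -/
theorem vL {m f : ℤ} (f0 : 0 < f) (f1 : f < A.q) (fn : f ≠ A.fd) (m0 : -(A.p : ℤ) ≤ m)
    (m1 : m < A.p) : ∃ v : ℤ, (if A.InL m f then (1 : ℤ) else 0) = v ∧
      ((v = 1 ∧ ((0 ≤ m ∧ (m < A.md ∨ (m = A.md ∧ f < A.fd))) ∨
          (m < 0 ∧ (m + A.p < A.md ∨ (m + A.p = A.md ∧ f < A.fd))))) ∨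
        (v = 0 ∧ ((0 ≤ m ∧ (A.md < m ∨ (m = A.md ∧ A.fd < f))) ∨
          (m < 0 ∧ (A.md < m + A.p ∨ (m + A.p = A.md ∧ A.fd < f)))))) := by
  by_cases h : A.InL m f
  · refine ⟨1, if_pos h, Or.inl ⟨rfl, ?_⟩⟩
    exact (InL_iff f0 f1 m0 m1).1 h
  · refine ⟨0, if_neg h, Or.inr ⟨rfl, ?_⟩⟩
    rw [InL_iff f0 f1 m0 m1] at h
    omega

theorem v1 {m f : ℤ} (f0 : 0 < f) (f1 : f < A.q) (m0 : -(A.p : ℤ) ≤ m)
    (m1 : m < A.p) (h : (0 ≤ m ∧ (m < A.md ∨ (m = A.md ∧ f < A.fd))) ∨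
          (m < 0 ∧ (m + A.p < A.md ∨ (m + A.p = A.md ∧ f < A.fd)))) :
    (if A.InL m f then (1 : ℤ) else 0) = 1 := if_pos ((InL_iff f0 f1 m0 m1).2 h)

theorem v0 {m f : ℤ} (f0 : 0 < f) (f1 : f < A.q) (m0 : -(A.p : ℤ) ≤ m)
    (m1 : m < A.p) (h : ¬ ((0 ≤ m ∧ (m < A.md ∨ (m = A.md ∧ f < A.fd))) ∨
          (m < 0 ∧ (m + A.p < A.md ∨ (m + A.p = A.md ∧ f < A.fd))))) :
    (if A.InL m f then (1 : ℤ) else 0) = 0 := if_neg (mt (InL_iff f0 f1 m0 m1).1 h)

end Ap

end Pool.Agent.H98.Flat
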