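import Pool.Agent.H98.Flat.O.Basic
import Pool.Agent.H67.Flat.E0b
import Pool.Agent.H67.Flat.ShiftA

/-! Rule (E0). -/

namespace Pool.Agent.H98.Flat

namespace Ap

variable {A : Ap}

open Pool.Agent.H67.Flat in
theorem InA_lv {p K n Y : ℤ} (hn0 : 0 < n) (hn : n ≤ p) :
    InA p Y (K - n) n ↔ lv p K n Y = 1 := by
  have hp : 0 < p := by omega
  have t0 := Int.emod_nonneg (K - Y) hp.ne'
  have t1 := Int.emod_lt_of_pos (K - Y) hp
  have te := Int.mul_ediv_add_emod (K - Y) p
  unfold InA lv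
  set t := (K - Y) % p
  set z := (K - Y) / p
  rw [show Y - (K - n) - 1 = (n - 1 - t) + p * (-z) by rw [mul_neg]; omega,
    Int.add_mul_emod_self_left]
  by_cases c : t < n
  · rw [Int.emod_eq_of_lt (by omega) (by omega), if_pos c]
    constructor
    · intro _; rfl
    · intro _; omega
  · have : (n - 1 - t) % p = n - 1 - t + p := by
      refine ((Int.ediv_emod_unique (q := -1) hp).2 ⟨?_, by omega, by omega⟩).2
      rw [mul_neg]; omega
    rw [this, if_neg c]
    constructor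
    · intro _; omega
    · intro h; omega

open Pool.Agent.H67.Flat in
/-- **rule (E0)**: `c = (mc, fc)` a vertical wall of class `j`, rows `(g-h, g]`;
`b = (mb, fb)` a horizontal wall of class `i ≠ j`, rows `(k-w, k]`; `r` the level of `b - c`.
If a level `Y` is separated from `r` by both arcs then `Φ(Y) = Φ(r)`. -/
theorem E0 (F : A.Fl) {j i mc fc g mb fb k r : ℤ} (hj : A.VW j mc fc g) (hi : A.HW i mb fb k)
    (hij : i ≠ j) (hr : r = mb - mc + (if fc < fb then 1 else 0)) (Y : ℤ)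
    (h1 : InA A.p Y (g - A.h) A.h ↔ ¬ InA A.p r (g - A.h) A.h)
    (h2 : InA A.p Y (k - A.w) A.w ↔ ¬ InA A.p r (k - A.w) A.w) :
    A.Phi mc fc mb fb Y = A.Phi mc fc mb fb r := by
  obtain ⟨mj, sj, cj, hj⟩ := hj
  obtain ⟨mi, si, ci, hi⟩ := hi
  have P1 := A.h2
  have hw := A.hw
  have hwh := A.hwh
  have hq0 : (0 : ℤ) < A.q := by exact_mod_cast A.hq
  have hp0 : (0 : ℤ) < A.p := by exact_mod_cast A.hp
  have fc0 := cj.2.2.1
  have fc1 := cj.2.2.2.1
  have fb0 := ci.2.2.1
  have fb1 := ci.2.2.2.1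
  set C := A.cfg 0 with hC
  set d : ℤ := A.q * A.md + A.fd with hd
  have hCN : C.N = (A.p : ℤ) * A.q := rfl
  have hCW : C.W = (A.q : ℤ) * A.w := rfl
  have hCH : C.H = (A.q : ℤ) * A.h := rfl
  have hmd := A.hmd
  have hmd2 := A.hmd2
  have hfd := A.hfd
  have hfd2 := A.hfd2
  have d0 : 0 ≤ d := by positivity
  have dlt : d < A.q * (A.md + 1) := by rw [hd, mul_add]; omega
  have dW : d + C.W < C.N := by
    rw [hCN, hCW]
    have : (A.q : ℤ) * (A.md + 1) + A.q * A.w ≤ A.p * A.q := by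
      rw [← mul_add, mul_comm (A.p : ℤ)]
      apply mul_le_mul_of_nonneg_left _ hq0.le
      omega
    omega
  have dH : d + C.H < C.N := by
    rw [hCN, hCH]
    have : (A.q : ℤ) * (A.md + 1) + A.q * A.h ≤ A.p * A.q := by
      rw [← mul_add, mul_comm (A.p : ℤ)]
      apply mul_le_mul_of_nonneg_left _ hq0.le
      omega
    omega
  have U0 : C.U 0 = 0 := by
    change A.a * (0 + (A.e' * 0 - 0) % (A.p : ℤ)) = 0
    simp
  -- the second window
  have key : ∀ k, (A.cfg 1).N ∣ (mv C d).U k - (A.cfg 1).U k := by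
    intro k
    by_cases hk : (A.p : ℤ) ∣ k
    · have e1 := zero_U0 (A := A) hk
      have e2 := zero_U1 (A := A) hk
      rw [mv_U0 C d k hk]
      have := dvd_sub e1 e2
      rwa [show C.U k - ((A.cfg 1).U k - (A.q * A.md + A.fd)) = C.U k + d - (A.cfg 1).U k by
        rw [hd]; ring] at this
    · obtain ⟨i', m', f', c', _⟩ := Cls.row (A := A) hk 0
      rw [mv_U C d k hk]
      have := dvd_sub c'.U0 c'.U1
      rwa [sub_sub_sub_cancel_right] at this
  have G0 : C.Gen := A.cfg_gen 0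
  have G1 : (mv C d).Gen := wU_gen (C := A.cfg 1) (A.cfg_gen 1) (per' := (mv C d).per) key
  have F1 : (mv C d).IsFlat := wU_flat (C := A.cfg 1) F.one (per' := (mv C d).per) key
  -- rows
  have rowne : ∀ {i m f s : ℤ}, A.Cls i m f s → ¬ (A.p : ℤ) ∣ s := by
    intro i m f s hc hs
    have h3 := hc.2.2.2.2.2
    have h4 := dvd_add h3 hs
    rw [sub_add_cancel] at h4
    have h5 : (A.p : ℤ) ∣ i := by
      have := dvd_sub (h4.mul_right A.e') (A.inv.mul_left i)
      rwa [show A.e * i * A.e' - i * (A.e * A.e' - 1) = i by ring] at this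
    have := Int.le_of_dvd hc.1 h5
    have := hc.2.1
    omega
  have rij : ¬ (A.p : ℤ) ∣ sj - si := fun h => hij (Cls.row_inj cj ci h).symm
  -- the walls
  set c : ℤ := A.q * mc + fc with hc
  set b : ℤ := A.q * mb + fb with hb
  obtain ⟨eV, hV⟩ : ∃ e, Pool.Agent.H67.Flat.VW C sj c g e := by
    rcases hj with ⟨rfl, rfl⟩ | ⟨rfl, rfl⟩
    · refine ⟨1, Or.inl ⟨rfl, ?_, rfl⟩⟩
      have := cj.U0
      rw [← dvd_neg]
      rwa [show -(c - C.U g) = (A.cfg 0).U g - (A.q * mc + fc) by rw [hc, hC]; ring]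
    · refine ⟨-1, Or.inr ⟨rfl, ?_, rfl⟩⟩
      have := cj.U0
      rw [← dvd_neg]
      rwa [show -(c - (C.U sj + C.W)) = (A.cfg 0).U sj - (A.q * mj + fc) by
        rw [hc, hC]; change -(A.q * (mj + A.w) + fc - ((A.cfg 0).U sj + A.q * A.w)) = _; ring]
  obtain ⟨eH, hH⟩ : ∃ e, Pool.Agent.H67.Flat.HW C si b k e := by
    rcases hi with ⟨rfl, rfl⟩ | ⟨rfl, rfl⟩
    · refine ⟨-1, Or.inl ⟨rfl, ?_, rfl⟩⟩
      have := ci.V0
      rw [← dvd_neg]
      rwa [show -(b - C.V k) = (A.cfg 0).V k - (A.q * (mi + k) + fb) by rw [hb, hC]; ring]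
    · refine ⟨1, Or.inr ⟨rfl, ?_, rfl⟩⟩
      have := ci.V0
      rw [← dvd_neg]
      rwa [show -(b - (C.V si - C.H)) = (A.cfg 0).V si - (A.q * (mi + si) + fb) by
        rw [hb, hC]
        change -(A.q * (mi + si - A.h) + fb - ((A.cfg 0).V si - A.q * A.h)) = _; ring]
  -- the level
  have lev : A.q * (r - 1) < b - c ∧ b - c ≤ A.q * r := by
    have e1 : b - c = A.q * (mb - mc) + (fb - fc) := by rw [hb, hc]; ring
    rw [e1, hr]
    split_ifs with h
    · constructor
      · rw [add_sub_cancel_right]; omega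
      · rw [mul_add]; omega
    · constructor
      · rw [show mb - mc + 0 - 1 = (mb - mc) - 1 by ring, mul_sub (A.q : ℤ) (mb - mc) 1]; omega
      · rw [add_zero]; omega
  -- no coincidences
  have n1 : ¬ C.N ∣ b - (C.V sj - C.H) := by
    intro h
    rcases hH with ⟨_, h3, _⟩ | ⟨_, h3, _⟩
    · apply G0.VH si sj
      have := dvd_sub h h3
      rwa [sub_sub_sub_cancel_left] at this
    · apply rij
      apply G0.VV
      have := dvd_sub h3 h
      rwa [show b - (C.V si - C.H) - (b - (C.V sj - C.H)) = C.V sj - C.V si by ring] at this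
  have n2 : ¬ C.N ∣ b - C.V sj := by
    intro h
    rcases hH with ⟨_, h3, _⟩ | ⟨_, h3, _⟩
    · apply rij
      apply G0.VV
      have := dvd_sub h3 h
      rwa [sub_sub_sub_cancel_left] at this
    · apply G0.VH sj si
      have := dvd_sub h3 h
      rwa [sub_sub_sub_cancel_left] at this
  have n3 : ¬ C.N ∣ c - C.U si := by
    intro h
    rcases hV with ⟨_, h3, _⟩ | ⟨_, h3, _⟩
    · apply rij
      apply G0.UU
      have := dvd_sub h h3
      rwa [sub_sub_sub_cancel_left] at this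
    · apply G0.UW si sj
      have := dvd_sub h3 h
      rwa [sub_sub_sub_cancel_left] at this
  have n4 : ¬ C.N ∣ c - (C.U si + C.W) := by
    intro h
    rcases hV with ⟨_, h3, _⟩ | ⟨_, h3, _⟩
    · apply G0.UW sj si
      have := dvd_sub h h3
      rwa [sub_sub_sub_cancel_left] at this
    · apply rij
      apply G0.UU
      have := dvd_sub h h3
      rwa [show c - (C.U si + C.W) - (c - (C.U sj + C.W)) = C.U sj - C.U si by ring] at this
  have L1 := lv_ver (r := r) (s := b - c) hV n1 n2 (by simp) lev.1 lev.2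
  have L2 := lv_hor (r := r) (s := b - c) hH n3 n4 (by simp) lev.1 lev.2
  have hh0 : (0 : ℤ) < A.h := by omega
  have hw0 : (0 : ℤ) < A.w := by omega
  have hhp : (A.h : ℤ) ≤ A.p := by omega
  have hwp : (A.w : ℤ) ≤ A.p := by omega
  rw [InA_lv hh0 hhp, InA_lv hh0 hhp] at h1
  rw [InA_lv hw0 hwp, InA_lv hw0 hwp] at h2
  have L1' : lv A.p g A.h r = C.ver sj b := L1
  have L2' : lv A.p k A.w r = C.hor si c := L2
  have k1 : C.ver sj b ≠ lv C.p g C.h Y := by
    change C.ver sj b ≠ lv A.p g A.h Y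
    rw [← L1']
    intro h
    rw [h] at h1
    tauto
  have k2 : C.hor si c ≠ lv C.p k C.w Y := by
    change C.hor si c ≠ lv A.p k A.w Y
    rw [← L2']
    intro h
    rw [h] at h2
    tauto
  have main := Pool.Agent.H67.Flat.E0 (C := C) (d := d) U0 d0 dW dH G0 G1 F F1 (rowne cj)
    (rowne ci) rij hV hH (r := r) ⟨b - c, by simp, lev.1.le, lev.2⟩ k1 k2
  -- the dictionary for PHI
  have dict : ∀ x : ℤ, PHI C d c b x = A.Phi mc fc mb fb x := by
    intro x
    have ind : ∀ (P Q : Prop) [Decidable P] [Decidable Q] (s t : ℤ), (s = if P then 1 else 0) →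
        (t = 0 ∨ t = 1) → (Q ↔ t = 1) → (if P ∧ Q then (1 : ℤ) else 0) = s * t := by
      intro P Q _ _ s t hs ht hQ
      rw [hs]
      rcases ht with ht | ht
      · rw [ht]
        have : ¬ Q := by rw [hQ, ht]; norm_num
        simp [this]
      · have : Q := hQ.2 ht
        rw [ht]; simp [this]
    have e1 := ind (A.InL mc fc) (InA A.p x (-A.h) A.h) (ph C.N 0 d c) (lv A.p 0 A.h x)
      (by unfold ph InL; rw [sub_zero]; rfl) (lv01 _ _ _ _)
      (by have := InA_lv (p := A.p) (K := 0) (Y := x) hh0 hhp; rwa [zero_sub] at this)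
    have e2 := ind (A.InL (mc - A.w) fc) (InA A.p x (-A.w - A.h) A.h) (ph C.N C.W d c)
      (lv A.p (-A.w) A.h x)
      (by
        unfold ph InL
        rw [show c - C.W = A.q * (mc - A.w) + fc by rw [hc, hCW]; ring]; rfl)
      (lv01 _ _ _ _) (InA_lv (p := A.p) (K := -A.w) (Y := x) hh0 hhp)
    have e3 := ind (A.InL mb fb) (InA A.p x (-A.w) A.w) (ph C.N 0 d b) (lv A.p 0 A.w x)
      (by unfold ph InL; rw [sub_zero]; rfl) (lv01 _ _ _ _)
      (by have := InA_lv (p := A.p) (K := 0) (Y := x) hw0 hwp; rwa [zero_sub] at this)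
    have e4 := ind (A.InL (mb + A.h) fb) (InA A.p x (-A.w - A.h) A.w) (ph C.N (-C.H) d b)
      (lv A.p (-A.h) A.w x)
      (by
        unfold ph InL
        rw [show b - -C.H = A.q * (mb + A.h) + fb by rw [hb, hCH]; ring]; rfl)
      (lv01 _ _ _ _)
      (by
        have := InA_lv (p := A.p) (K := -A.h) (Y := x) hw0 hwp
        rwa [show -(A.h : ℤ) - A.w = -A.w - A.h by ring] at this)
    unfold PHI Phi
    rw [e1, e2, e3, e4]
    rfl
  rw [← dict, ← dict]
  exact main

end Ap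

end Pool.Agent.H98.Flat
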