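import Pool.Agent.H98.Flat.O.E0w

/-!
Rule (E0), version without disjunctions: the orders of the fractional parts are encoded by
integers `e, ec, eb ∈ {0,1}`, the flags `L R T B` by integers `l ρ t β` (numerals in the
applications).
-/

namespace Pool.Agent.H98.Flat

/-- lexicographic order as one linear inequality -/
theorem lex_iff {m f m' f' : ℤ} (hne : f ≠ f') :
    (m < m' ∨ (m = m' ∧ f < f')) ↔ m + (if f' < f then 1 else 0) ≤ m' := by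
  split_ifs <;> omega

/-- indicator of the levels in `(a, b]` -/
def ic (a b Y : ℤ) : ℤ := if a < Y ∧ Y ≤ b then 1 else 0

theorem ic_one {a b Y : ℤ} (h1 : a < Y) (h2 : Y ≤ b) : ic a b Y = 1 := by
  unfold ic; rw [if_pos ⟨h1, h2⟩]
theorem ic_lo {a b Y : ℤ} (h1 : Y ≤ a) : ic a b Y = 0 := by
  unfold ic; rw [if_neg (by omega)]
theorem ic_hi {a b Y : ℤ} (h1 : b < Y) : ic a b Y = 0 := by
  unfold ic; rw [if_neg (by omega)]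

namespace Ap

variable {A : Ap}

/-- windowed (E0) with numeric flags -/
theorem E0n (F : A.Fl) {j i mc fc g mb fb k r : ℤ} (hj : A.VW j mc fc g) (hi : A.HW i mb fb k)
    (hij : i ≠ j) {e ec eb : ℤ} (he : e = if fc < fb then 1 else 0)
    (hec : ec = if A.fd < fc then 1 else 0) (heb : eb = if A.fd < fb then 1 else 0)
    (hr : r = mb - mc + e) (Y : ℤ)
    (cm0 : A.md - A.p < mc - A.w) (cm1 : mc < A.p)
    (bm0 : A.md - A.p < mb) (bm1 : mb + A.h < A.p)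
    (r0 : -(A.p : ℤ) < r) (r1 : r ≤ A.p - A.w - A.h)
    (Y0 : -(A.p : ℤ) < Y) (Y1 : Y ≤ A.p - A.w - A.h)
    (gr0 : g - A.p < r) (gr1 : r ≤ g - A.h + A.p) (gY0 : g - A.p < Y) (gY1 : Y ≤ g - A.h + A.p)
    (kr0 : k - A.p < r) (kr1 : r ≤ k - A.w + A.p) (kY0 : k - A.p < Y) (kY1 : Y ≤ k - A.w + A.p)
    (h1 : (g - A.h < Y ∧ Y ≤ g) ↔ ¬ (g - A.h < r ∧ r ≤ g))
    (h2 : (k - A.w < Y ∧ Y ≤ k) ↔ ¬ (k - A.w < r ∧ r ≤ k))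
    (l ρ t β : ℤ)
    (hl : (l = 1 ∧ 0 ≤ mc ∧ mc + ec ≤ A.md) ∨ (l = 0 ∧ (mc < 0 ∨ A.md < mc + ec)))
    (hρ : (ρ = 1 ∧ 0 ≤ mc - A.w ∧ mc - A.w + ec ≤ A.md) ∨
      (ρ = 0 ∧ (mc - A.w < 0 ∨ A.md < mc - A.w + ec)))
    (ht : (t = 1 ∧ 0 ≤ mb ∧ mb + eb ≤ A.md) ∨ (t = 0 ∧ (mb < 0 ∨ A.md < mb + eb)))
    (hβ : (β = 1 ∧ 0 ≤ mb + A.h ∧ mb + A.h + eb ≤ A.md) ∨
      (β = 0 ∧ (mb + A.h < 0 ∨ A.md < mb + A.h + eb))) :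
    - (l * ic (-A.h) 0 Y) + ρ * ic (-A.w - A.h) (-A.w) Y + t * ic (-A.w) 0 Y
      - β * ic (-A.w - A.h) (-A.h) Y
    = - (l * ic (-A.h) 0 r) + ρ * ic (-A.w - A.h) (-A.w) r + t * ic (-A.w) 0 r
      - β * ic (-A.w - A.h) (-A.h) r := by
  have fc2 : fc ≠ A.fd := by obtain ⟨m, s, h, -⟩ := hj; exact h.f_ne_fd
  have fb2 : fb ≠ A.fd := by obtain ⟨m, s, h, -⟩ := hi; exact h.f_ne_fd
  have hl' : (l = 1 ∧ (0 ≤ mc ∧ mc + ec ≤ A.md)) ∨ (l = 0 ∧ ¬ (0 ≤ mc ∧ mc + ec ≤ A.md)) := by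
    clear * - hl; omega
  have hρ' : (ρ = 1 ∧ (0 ≤ mc - A.w ∧ mc - A.w + ec ≤ A.md)) ∨
      (ρ = 0 ∧ ¬ (0 ≤ mc - A.w ∧ mc - A.w + ec ≤ A.md)) := by
    clear * - hρ; omega
  have ht' : (t = 1 ∧ (0 ≤ mb ∧ mb + eb ≤ A.md)) ∨ (t = 0 ∧ ¬ (0 ≤ mb ∧ mb + eb ≤ A.md)) := by
    clear * - ht; omega
  have hβ' : (β = 1 ∧ (0 ≤ mb + A.h ∧ mb + A.h + eb ≤ A.md)) ∨
      (β = 0 ∧ ¬ (0 ≤ mb + A.h ∧ mb + A.h + eb ≤ A.md)) := by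
    clear * - hβ; omega
  have gen : ∀ (P Q : Prop) [Decidable P] [Decidable Q] (x : ℤ), ((x = 1 ∧ P) ∨ (x = 0 ∧ ¬ P)) →
      (if P ∧ Q then (1 : ℤ) else 0) = x * (if Q then 1 else 0) := by
    intro P Q _ _ x hx
    rcases hx with ⟨rfl, hP⟩ | ⟨rfl, hP⟩
    · simp [hP]
    · simp [hP]
  have key := E0w F hj hi hij (by rw [hr, he]) Y cm0 cm1 bm0 bm1 r0 r1 Y0 Y1 gr0 gr1 gY0 gY1
    kr0 kr1 kY0 kY1 h1 h2
  simp only [lex_iff fc2, lex_iff fb2, ← hec, ← heb] at key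
  unfold ic
  rw [gen _ _ l hl', gen _ _ ρ hρ', gen _ _ t ht', gen _ _ β hβ',
    gen _ _ l hl', gen _ _ ρ hρ', gen _ _ t ht', gen _ _ β hβ'] at key
  exact key

end Ap

end Pool.Agent.H98.Flat
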