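import Pool.Agent.H98.Flat.O.LevC
import Pool.Agent.H98.Flat.O.E0n

namespace Pool.Agent.H98.Flat

/-- encoding of the order of two fractional parts -/
theorem ord01 {f f' : ℤ} : ((if f < f' then (1 : ℤ) else 0) = 0 ∨ (if f < f' then (1 : ℤ) else 0) = 1) := by
  split_ifs <;> simp

theorem ord_swap {f f' : ℤ} (h : f ≠ f') :
    (if f < f' then (1 : ℤ) else 0) = 1 - (if f' < f then 1 else 0) := by
  split_ifs <;> omega

theorem ord_trans {x y z : ℤ} (h : x ≠ y) :
    (if x < y then (1 : ℤ) else 0) + (if z < x then 1 else 0) - 1 ≤ (if z < y then 1 else 0) ∧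
    (if z < y then (1 : ℤ) else 0) - (if x < y then 1 else 0) ≤ (if z < x then 1 else 0) := by
  constructor <;> split_ifs <;> omega

namespace Ap

variable {A : Ap} [Fact (2 * (A.w + A.h) < A.p)]

theorem Cls.row_ne {i m f s : ℤ} (h : A.Cls i m f s) : ¬ (A.p : ℤ) ∣ s := by
  intro hs
  apply not_dvd_e (A := A) h.1 h.2.1
  have := dvd_add h.2.2.2.2.2 hs
  rwa [sub_add_cancel] at this

theorem Cls.s_ne_zero {i m f s : ℤ} (h : A.Cls i m f s) : s ≠ 0 := by
  rintro rfl; exact h.row_ne (dvd_zero _)

/-- case (alpha) -/
theorem alpha (F : A.Fl) {j i mj mc fc g sj m f s : ℤ} (hj : A.Cls j mj fc sj)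
    (hw : (mc = mj ∧ g = sj) ∨ (mc = mj + A.w ∧ g = sj - A.w))
    (c0 : 0 ≤ mc) (cw : mc < A.w) (cd : mc < A.md ∨ (mc = A.md ∧ fc < A.fd))
    (hi : A.Cls i m f s) (hij : i ≠ j) (h1 : m < mc ∨ (m = mc ∧ f < fc))
    (h2 : mc - A.w < m ∨ (mc - A.w = m ∧ fc < f)) (g1 : -(A.w : ℤ) < g) (g0 : g ≤ 0)
    (v0 : 0 ≤ m + s) (v1 : m + s < mc + g ∨ (m + s = mc + g ∧ f < fc)) : False := by
  have P1 := A.P1
  have hw2 := A.hw
  have hwh := A.hwh
  have hp := A.p_pos'
  have hmd := A.hmd
  have hmd2 := A.hmd2
  have fne := hi.f_ne hj hij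
  have hsj := hj.s_ne_zero
  have hV : A.VW i m f s := ⟨m, s, hi, Or.inl ⟨rfl, rfl⟩⟩
  have hH : A.HW j (mj + sj - A.h) fc (sj - A.h) := ⟨mj, sj, hj, Or.inr ⟨rfl, rfl⟩⟩
  rw [lex_iff hj.f_ne_fd] at cd
  rw [lex_iff fne, ord_swap fne.symm] at h1 v1
  rw [lex_iff fne.symm] at h2
  have e01 := @ord01 f fc
  have eb01 := @ord01 A.fd fc
  have ec01 := @ord01 A.fd f
  obtain ⟨tr1, tr2⟩ := @ord_trans f fc A.fd fne
  have E := fun Y => E0n F hV hH (Ne.symm hij) rfl rfl rfl rfl Y
  generalize (if f < fc then (1 : ℤ) else 0) = e at *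
  generalize (if A.fd < fc then (1 : ℤ) else 0) = eb at *
  generalize (if A.fd < f then (1 : ℤ) else 0) = ec at *
  have e0 : 0 ≤ e := by clear * - e01; omega
  have e1 : e ≤ 1 := by clear * - e01; omega
  have eb0 : 0 ≤ eb := by clear * - eb01; omega
  have eb1 : eb ≤ 1 := by clear * - eb01; omega
  have ec0 : 0 ≤ ec := by clear * - ec01; omega
  have ec1 : ec ≤ 1 := by clear * - ec01; omega
  clear e01 eb01 ec01 hV hH
  have fne' := fne
  clear fne hj hi hij
  rcases hw with ⟨rfl, rfl⟩ | ⟨hw1, hw2'⟩
  · have hg : g ≤ -1 := by clear * - g0 hsj; omega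
    clear hsj g0
    rcases le_or_gt 0 m with hm | hm
    · have := E (g - A.w - A.h + 1) (by omega) (by omega) (by omega) (by omega) (by omega) (by omega)
        (by omega) (by omega) (by omega) (by omega) (by omega) (by omega) (by omega) (by omega)
        (by omega) (by omega) (by omega) (by omega) 1 0 0 1 (by omega) (by omega) (by omega) (by omega)
      rw [ic_lo (a := -A.h) (b := 0) (by omega), ic_lo (a := -A.w - A.h) (b := -A.h) (by omega)] at this
      unfold ic at this
      clear E
      split_ifs at this <;> omega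
    · have := E (-A.w - A.h + 1) (by omega) (by omega) (by omega) (by omega) (by omega) (by omega)
        (by omega) (by omega) (by omega) (by omega) (by omega) (by omega) (by omega) (by omega)
        (by omega) (by omega) (by omega) (by omega) 0 0 0 1 (by omega) (by omega) (by omega) (by omega)
      unfold ic at this
      clear E
      split_ifs at this <;> omega
  · have hg : -(A.w : ℤ) < sj - A.w := by omega
    rcases le_or_gt 0 m with hm | hm
    · rcases le_or_gt s 0 with hs | hs
      · have := E 1 (by omega) (by omega) (by omega) (by omega) (by omega) (by omega)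
          (by omega) (by omega) (by omega) (by omega) (by omega) (by omega) (by omega) (by omega)
          (by omega) (by omega) (by omega) (by omega) 1 0 0 1 (by omega) (by omega) (by omega) (by omega)
        unfold ic at this
        clear E
        split_ifs at this <;> omega
      · have := E (s + 1) (by omega) (by omega) (by omega) (by omega) (by omega) (by omega)
          (by omega) (by omega) (by omega) (by omega) (by omega) (by omega) (by omega) (by omega)
          (by omega) (by omega) (by omega) (by omega) 1 0 0 1 (by omega) (by omega) (by omega) (by omega)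
        unfold ic at this
        clear E
        split_ifs at this <;> omega
    · have := E (-A.w - A.h + 1) (by omega) (by omega) (by omega) (by omega) (by omega) (by omega)
        (by omega) (by omega) (by omega) (by omega) (by omega) (by omega) (by omega) (by omega)
        (by omega) (by omega) (by omega) (by omega) 0 0 0 1 (by omega) (by omega) (by omega) (by omega)
      unfold ic at this
      clear E
      split_ifs at this <;> omega

end Ap

end Pool.Agent.H98.Flat
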