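import Pool.Agent.H98.Flat.O.Defs

/-! Elementary facts on arcs, classes and positions. -/

namespace Pool.Agent.H98.Flat

open Finset

theorem InA_iff {p x lo len : ℤ} (h1 : -p < x - lo) (h2 : x - lo ≤ p) (h3 : len ≤ p) :
    InA p x lo len ↔ (lo < x ∧ x ≤ lo + len) ∨ (x ≤ lo ∧ x + p ≤ lo + len) := by
  unfold InA
  have hp : 0 < p := by omega
  have l := Int.emod_nonneg (x - lo - 1) hp.ne'
  have u := Int.emod_lt_of_pos (x - lo - 1) hp
  have e := Int.emod_add_mul_ediv (x - lo - 1) p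
  generalize (x - lo - 1) % p = t at *
  generalize (x - lo - 1) / p = z at *
  have hz : z = 0 ∨ z = -1 := by
    rcases lt_trichotomy z 0 with h | h | h
    · right
      by_contra hc
      have : z ≤ -2 := by omega
      nlinarith
    · left; exact h
    · exfalso
      have : 1 ≤ z := h
      nlinarith
  rcases hz with rfl | rfl
  · simp only [mul_zero, add_zero] at e
    constructor
    · intro h; left; omega
    · rintro (h | h) <;> omega
  · simp only [mul_neg, mul_one] at e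
    constructor
    · intro h; right; omega
    · rintro (h | h) <;> omega

/-- simple form: no wrap -/
theorem InA_iff' {p x lo len : ℤ} (h1 : lo + len - p < x) (h2 : x ≤ lo + p) (h3 : len ≤ p) :
    InA p x lo len ↔ (lo < x ∧ x ≤ lo + len) := by
  by_cases hl : 0 ≤ len
  · rw [InA_iff (by omega) (by omega) h3]
    constructor
    · rintro (h | h) <;> omega
    · intro h; left; exact h
  · unfold InA
    by_cases hp : p = 0
    · subst hp
      rw [Int.emod_zero]
      constructor <;> intro h <;> omega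
    · have l := Int.emod_nonneg (x - lo - 1) hp
      constructor <;> intro h <;> omega

theorem InA_congr {p x x' lo lo' len : ℤ} (h : p ∣ (x - lo) - (x' - lo')) :
    InA p x lo len ↔ InA p x' lo' len := by
  unfold InA
  rw [emod_congr (a := x - lo - 1) (b := x' - lo' - 1)
    (by rwa [show x - lo - 1 - (x' - lo' - 1) = x - lo - (x' - lo') by ring])]

/-- translates of flat configurations are flat -/
theorem flat_translate (C C' : Cfg) (hp : C'.p = C.p) (hq : C'.q = C.q) (hw : C'.w = C.w)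
    (hh : C'.h = C.h) (t c : ℤ) (hU : ∀ k, C.N ∣ C'.U (k + t) - (C.U k + c))
    (hf : C.IsFlat) : C'.IsFlat := by
  have hN : C'.N = C.N := by unfold Cfg.N; rw [hp, hq]
  have hW : C'.W = C.W := by unfold Cfg.W; rw [hq, hw]
  have hH : C'.H = C.H := by unfold Cfg.H; rw [hq, hh]
  have hV : ∀ k, C.N ∣ C'.V (k + t) - (C.V k + (c + C.q * t)) := by
    intro k
    have := hU k
    unfold Cfg.V
    rw [hq]
    rwa [show C'.U (k + t) + C.q * (k + t) - (C.U k + C.q * k + (c + C.q * t))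
      = C'.U (k + t) - (C.U k + c) by ring]
  have hl : ∀ k, C'.ell (k + t) = C.ell k := by
    intro k
    unfold Cfg.ell
    rw [hN, hh]
    apply emod_congr
    have h1 := hU k
    have h2 := hU (k + C.h)
    have := dvd_sub h2 h1
    rwa [show C'.U (k + C.h + t) - (C.U (k + C.h) + c) - (C'.U (k + t) - (C.U k + c))
      = C'.U (k + t + C.h) - C'.U (k + t) - (C.U (k + C.h) - C.U k) by ring_nf] at this
  have hR : ∀ u v, C'.R u v = C.R (u - c) (v - (c + C.q * t)) := by
    intro u v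
    rw [C'.R_shift t]
    unfold Cfg.R
    rw [hp]
    refine Finset.sum_congr rfl fun i _ => ?_
    congr 1
    · unfold Cfg.hor
      rw [hN, hW]
      apply ph_congr
      have := (dvd_neg (a := C.N)).2 (hU i)
      rwa [show u - C'.U (t + i) - (u - c - C.U i) = -(C'.U (i + t) - (C.U i + c)) by
        rw [add_comm t]; ring]
    · unfold Cfg.ver
      rw [hN, hH]
      apply ph_congr
      have := (dvd_neg (a := C.N)).2 (hV i)
      rwa [show v - (C'.V (t + i) - C.H) - (v - (c + C.q * t) - (C.V i - C.H))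
        = -(C'.V (i + t) - (C.V i + (c + C.q * t))) by rw [add_comm t]; ring]
  have hff : ∀ y v, C'.f y v = C.f (y - t) (v - (c + C.q * t)) := by
    intro y v
    unfold Cfg.f
    rw [hw]
    refine Finset.sum_congr rfl fun i _ => ?_
    have e : y + i = y - t + i + t := by ring
    rw [e, hl, hN]
    apply ph_congr
    have := (dvd_neg (a := C.N)).2 (hV (y - t + i))
    rwa [show v - C'.V (y - t + i + t) - (v - (c + C.q * t) - C.V (y - t + i))
      = -(C'.V (y - t + i + t) - (C.V (y - t + i) + (c + C.q * t))) by ring]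
  have hgg : ∀ y u, C'.g y u = C.g (y - t) (u - c) := by
    intro y u
    unfold Cfg.g
    rw [hw, hh]
    congr 1
    · refine Finset.sum_congr rfl fun i _ => ?_
      have e : y + i = y - t + i + t := by ring
      rw [e, hl, hN]
      apply ph_congr
      have := (dvd_neg (a := C.N)).2 (hU (y - t + i))
      rwa [show u - C'.U (y - t + i + t) - (u - c - C.U (y - t + i))
        = -(C'.U (y - t + i + t) - (C.U (y - t + i) + c)) by ring]
    · refine Finset.sum_congr rfl fun i _ => ?_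
      have e : y + C.w + i = y - t + C.w + i + t := by ring
      rw [e, hN, hW]
      apply ph_congr
      have := (dvd_neg (a := C.N)).2 (hU (y - t + C.w + i))
      rwa [show u - C'.U (y - t + C.w + i + t) - (u - c - C.U (y - t + C.w + i))
        = -(C'.U (y - t + C.w + i + t) - (C.U (y - t + C.w + i) + c)) by ring]
  intro u v y
  rw [hR, hff, hgg]
  exact hf _ _ _

namespace Ap

variable {A : Ap}

theorem p_pos' (A : Ap) : (0 : ℤ) < A.p := by exact_mod_cast A.hp
theorem q_pos' (A : Ap) : (0 : ℤ) < A.q := by exact_mod_cast A.hq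
theorem N_pos' (A : Ap) : (0 : ℤ) < (A.p : ℤ) * A.q := mul_pos A.p_pos' A.q_pos'

/-- positions with the same fractional part -/
theorem pos_eq {q m f m' f' : ℤ} (f0 : 0 < f) (f1 : f < q) (f0' : 0 < f') (f1' : f' < q)
    (h : q * m + f = q * m' + f') : m = m' ∧ f = f' := by
  have hq : 0 < q := by omega
  have : q * (m - m') = f' - f := by linear_combination h
  have hm : m - m' = 0 := by
    by_contra hc
    rcases lt_or_gt_of_ne hc with h1 | h1
    · have : m - m' ≤ -1 := by omega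
      nlinarith
    · have : 1 ≤ m - m' := by omega
      nlinarith
  rw [hm, mul_zero] at this
  constructor <;> omega

theorem pos_dvd {q p m f m' f' : ℤ} (f0 : 0 < f) (f1 : f < q) (f0' : 0 < f') (f1' : f' < q)
    (h : p * q ∣ (q * m + f) - (q * m' + f')) : p ∣ m - m' ∧ f = f' := by
  obtain ⟨t, ht⟩ := h
  have h1 : q * m + f = q * (m' + p * t) + f' := by linear_combination ht
  obtain ⟨h2, h3⟩ := pos_eq f0 f1 f0' f1' h1
  exact ⟨⟨t, by omega⟩, h3⟩

theorem InL_iff {m f : ℤ} (f0 : 0 < f) (f1 : f < A.q) (m0 : -(A.p : ℤ) ≤ m) (m1 : m < A.p) :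
    A.InL m f ↔ (0 ≤ m ∧ (m < A.md ∨ (m = A.md ∧ f < A.fd))) ∨
      (m < 0 ∧ (m + A.p < A.md ∨ (m + A.p = A.md ∧ f < A.fd))) := by
  have hN := A.N_pos'
  have hq := A.q_pos'
  have g0 := A.hfd
  have g1 : A.fd < A.q := A.hfd2
  have key : ∀ n : ℤ, 0 ≤ n → n < A.p → (A.p : ℤ) * A.q ∣ (A.q * m + f) - (A.q * n + f) →
      (A.InL m f ↔ (n < A.md ∨ (n = A.md ∧ f < A.fd))) := by
    intro n n0 n1 hd
    unfold InL
    rw [emod_congr hd, Int.emod_eq_of_lt (by nlinarith) (by nlinarith)]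
    constructor
    · intro h
      rcases lt_trichotomy n A.md with h1 | h1 | h1
      · left; exact h1
      · right; subst h1; exact ⟨rfl, by omega⟩
      · exfalso; have : A.md + 1 ≤ n := h1; nlinarith
    · rintro (h | ⟨h, h'⟩)
      · have : n + 1 ≤ A.md := h
        nlinarith
      · rw [h]; omega
  rcases le_or_gt 0 m with h | h
  · rw [key m h m1 (by simp)]
    constructor
    · intro h'; left; exact ⟨h, h'⟩
    · rintro (h' | h')
      · exact h'.2
      · omega
  · rw [key (m + A.p) (by omega) (by omega) ⟨-1, by ring⟩]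
    constructor
    · intro h'; right; exact ⟨h, h'⟩
    · rintro (h' | h')
      · omega
      · exact h'.2

theorem Cls.shift {i m f s : ℤ} (h : A.Cls i m f s) (t t' : ℤ) :
    A.Cls i (m + A.p * t) f (s + A.p * t') := by
  obtain ⟨h1, h2, h3, h4, ⟨x, hx⟩, ⟨y, hy⟩⟩ := h
  exact ⟨h1, h2, h3, h4, ⟨x - t, by linear_combination hx⟩, ⟨y - t', by linear_combination hy⟩⟩

theorem not_dvd_ai {i : ℤ} (h0 : 0 < i) (h1 : i ≤ A.p) : ¬ (A.q : ℤ) ∣ A.a * i :=
  A.gen i h0.ne' (by rw [abs_of_pos h0]; exact h1)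

theorem Cls.exists {i : ℤ} (h0 : 0 < i) (h1 : i < A.p) (lo lo' : ℤ) :
    ∃ m f s, A.Cls i m f s ∧ lo ≤ m ∧ m < lo + A.p ∧ lo' ≤ s ∧ s < lo' + A.p := by
  have hp := A.p_pos'
  have hq := A.q_pos'
  have e := Int.emod_add_mul_ediv (A.a * i) A.q
  have f0 := Int.emod_nonneg (A.a * i) hq.ne'
  have f1 := Int.emod_lt_of_pos (A.a * i) hq
  have fn : (A.a * i) % A.q ≠ 0 := fun h => not_dvd_ai h0 h1.le (Int.dvd_of_emod_eq_zero h)
  have hC : A.Cls i (A.a * i / A.q) (A.a * i % A.q) (A.e * i) :=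
    ⟨h0, h1, by omega, f1, ⟨0, by linear_combination -e⟩, by simp⟩
  have m0 := Int.emod_nonneg (A.a * i / A.q - lo) hp.ne'
  have m1 := Int.emod_lt_of_pos (A.a * i / A.q - lo) hp
  have me := Int.emod_add_mul_ediv (A.a * i / A.q - lo) A.p
  have s0 := Int.emod_nonneg (A.e * i - lo') hp.ne'
  have s1 := Int.emod_lt_of_pos (A.e * i - lo') hp
  have se := Int.emod_add_mul_ediv (A.e * i - lo') A.p
  refine ⟨_, _, _, hC.shift (-((A.a * i / A.q - lo) / A.p)) (-((A.e * i - lo') / A.p)), ?_⟩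
  rw [mul_neg, mul_neg]
  refine ⟨by omega, by omega, by omega, by omega⟩

theorem not_dvd_e {i : ℤ} (h0 : 0 < i) (h1 : i < A.p) : ¬ (A.p : ℤ) ∣ A.e * i := by
  intro h
  have h2 : (A.p : ℤ) ∣ i := by
    obtain ⟨x, hx⟩ := A.inv
    obtain ⟨y, hy⟩ := h
    exact ⟨A.e' * y - x * i, by linear_combination A.e' * hy - i * hx⟩
  have := Int.le_of_dvd h0 h2
  omega

/-- the class of a given row -/
theorem Cls.row {s : ℤ} (hs : ¬ (A.p : ℤ) ∣ s) (lo : ℤ) :
    ∃ i m f, A.Cls i m f s ∧ lo ≤ m ∧ m < lo + A.p := by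
  have hp := A.p_pos'
  have i0 := Int.emod_nonneg (A.e' * s) hp.ne'
  have i1 := Int.emod_lt_of_pos (A.e' * s) hp
  have ie := Int.emod_add_mul_ediv (A.e' * s) A.p
  obtain ⟨x, hx⟩ := A.inv
  have hd : (A.p : ℤ) ∣ A.e * ((A.e' * s) % A.p) - s :=
    ⟨x * s - A.e * ((A.e' * s) / A.p), by linear_combination s * hx + A.e * ie⟩
  have hne : (A.e' * s) % A.p ≠ 0 := by
    intro h
    rw [h, mul_zero, zero_sub] at hd
    exact hs ((dvd_neg).1 hd)
  obtain ⟨m, f, s', h, h1, h2, -, -⟩ := Cls.exists (A := A) (i := (A.e' * s) % A.p) (by omega) i1 lo 0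
  refine ⟨_, m, f, ⟨h.1, h.2.1, h.2.2.1, h.2.2.2.1, h.2.2.2.2.1, hd⟩, h1, h2⟩

theorem Cls.row_inj {i m f s i' m' f' s' : ℤ} (h : A.Cls i m f s) (h' : A.Cls i' m' f' s')
    (hs : (A.p : ℤ) ∣ s - s') : i = i' := by
  have h1 : (A.p : ℤ) ∣ A.e * (i - i') := by
    have := dvd_add (dvd_sub h.2.2.2.2.2 h'.2.2.2.2.2) hs
    rwa [show A.e * i - s - (A.e * i' - s') + (s - s') = A.e * (i - i') by ring] at this
  by_contra hc
  rcases lt_or_gt_of_ne hc with h2 | h2
  · apply not_dvd_e (A := A) (i := i' - i) (by omega) (by have := h.1; have := h'.2.1; omega)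
    rw [show A.e * (i' - i) = -(A.e * (i - i')) by ring]
    exact (dvd_neg).2 h1
  · exact not_dvd_e (A := A) (i := i - i') (by omega) (by have := h'.1; have := h.2.1; omega) h1

theorem Cls.uniq {i m f s m' f' s' : ℤ} (h : A.Cls i m f s) (h' : A.Cls i m' f' s') :
    f = f' ∧ (A.p : ℤ) ∣ m - m' ∧ (A.p : ℤ) ∣ s - s' := by
  have h1 := dvd_sub h'.2.2.2.2.1 h.2.2.2.2.1
  rw [show A.a * i - (A.q * m' + f') - (A.a * i - (A.q * m + f))
    = (A.q * m + f) - (A.q * m' + f') by ring] at h1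
  obtain ⟨h2, h3⟩ := pos_dvd h.2.2.1 h.2.2.2.1 h'.2.2.1 h'.2.2.2.1 h1
  have h4 := dvd_sub h'.2.2.2.2.2 h.2.2.2.2.2
  rw [show A.e * i - s' - (A.e * i - s) = s - s' by ring] at h4
  exact ⟨h3, h2, h4⟩

theorem Cls.f_ne {i m f s i' m' f' s' : ℤ} (h : A.Cls i m f s) (h' : A.Cls i' m' f' s')
    (hi : i ≠ i') : f ≠ f' := by
  intro hf
  subst hf
  have h1 := dvd_sub h.2.2.2.2.1 h'.2.2.2.2.1
  have h2 : (A.q : ℤ) ∣ A.a * (i - i') := by
    obtain ⟨t, ht⟩ := h1
    exact ⟨A.p * t + m - m', by linear_combination ht⟩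
  refine A.gen (i - i') (by omega) ?_ h2
  have := h.1; have := h.2.1; have := h'.1; have := h'.2.1
  rw [abs_le]; constructor <;> omega

theorem Cls.f_ne_fd {i m f s : ℤ} (h : A.Cls i m f s) : f ≠ A.fd := by
  intro hf
  subst hf
  obtain ⟨h1, h2, -, -, ⟨x, hx⟩, -⟩ := h
  obtain ⟨y, hy⟩ := A.hd
  refine A.gen (A.p - i) (by omega) (by rw [abs_le]; constructor <;> omega) ?_
  exact ⟨A.md - m + A.p * (y - x), by linear_combination hy - hx⟩

/-- class `p - i` : `U = d - U_i`, row `- s_i` -/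
theorem Cls.neg {i m f s : ℤ} (h : A.Cls i m f s) :
    (f < A.fd ∧ A.Cls (A.p - i) (A.md - m) (A.fd - f) (-s)) ∨
      (A.fd < f ∧ A.Cls (A.p - i) (A.md - m - 1) (A.fd - f + A.q) (-s)) := by
  have hne := h.f_ne_fd
  obtain ⟨h1, h2, h3, h4, ⟨x, hx⟩, ⟨z, hz⟩⟩ := h
  obtain ⟨y, hy⟩ := A.hd
  have g0 := A.hfd
  have g1 := A.hfd2
  rcases lt_or_gt_of_ne hne with hlt | hlt
  · left
    refine ⟨hlt, by omega, by omega, by omega, by omega, ⟨y - x, by linear_combination hy - hx⟩,
      ⟨A.e - z, by linear_combination -hz⟩⟩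
  · right
    refine ⟨hlt, by omega, by omega, by omega, by omega, ⟨y - x, by linear_combination hy - hx⟩,
      ⟨A.e - z, by linear_combination -hz⟩⟩

theorem Cls.add {i m f s i' m' f' s' : ℤ} (h : A.Cls i m f s) (h' : A.Cls i' m' f' s')
    (hi : i + i' < A.p) :
    (f + f' < A.q ∧ A.Cls (i + i') (m + m') (f + f') (s + s')) ∨
      (A.q < f + f' ∧ A.Cls (i + i') (m + m' + 1) (f + f' - A.q) (s + s')) := by
  obtain ⟨h1, h2, h3, h4, ⟨x, hx⟩, ⟨z, hz⟩⟩ := h
  obtain ⟨h1', h2', h3', h4', ⟨x', hx'⟩, ⟨z', hz'⟩⟩ := h'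
  have hne : f + f' ≠ A.q := by
    intro hf
    apply A.gen (i + i') (by omega) (by rw [abs_le]; constructor <;> omega)
    exact ⟨m + m' + 1 + A.p * (x + x'), by linear_combination hx + hx' + hf⟩
  rcases lt_or_gt_of_ne hne with hlt | hlt
  · left
    refine ⟨hlt, by omega, by omega, by omega, by omega, ⟨x + x', by linear_combination hx + hx'⟩,
      ⟨z + z', by linear_combination hz + hz'⟩⟩
  · right
    refine ⟨hlt, by omega, by omega, by omega, by omega, ⟨x + x', by linear_combination hx + hx'⟩,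
      ⟨z + z', by linear_combination hz + hz'⟩⟩

/-- index of row `k` in the window `n, …, n+p-1` -/
theorem cfg_U (A : Ap) (n k : ℤ) : (A.cfg n).U k = A.a * (n + (A.e' * k - n) % A.p) := rfl

theorem idx_row (A : Ap) (n k : ℤ) : (A.p : ℤ) ∣ A.e * (n + (A.e' * k - n) % A.p) - k := by
  have ie := Int.emod_add_mul_ediv (A.e' * k - n) A.p
  obtain ⟨x, hx⟩ := A.inv
  exact ⟨x * k - A.e * ((A.e' * k - n) / A.p), by linear_combination k * hx + A.e * ie⟩

/-- two indices of the same window with the same row are equal -/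
theorem idx_inj {i i' : ℤ} (h : (A.p : ℤ) ∣ A.e * i - A.e * i') (h1 : i - i' < A.p)
    (h2 : i' - i < A.p) : i = i' := by
  by_contra hc
  rcases lt_or_gt_of_ne hc with h3 | h3
  · apply not_dvd_e (A := A) (i := i' - i) (by omega) (by omega)
    rw [show A.e * (i' - i) = -(A.e * i - A.e * i') by ring]
    exact (dvd_neg).2 h
  · apply not_dvd_e (A := A) (i := i - i') (by omega) (by omega)
    rwa [show A.e * (i - i') = A.e * i - A.e * i' by ring]

/-- class `i` of the window gives row `s` -/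
theorem U_of_idx {n i s : ℤ} (h0 : n ≤ i) (h1 : i < n + A.p) (hs : (A.p : ℤ) ∣ A.e * i - s) :
    (A.cfg n).U s = A.a * i := by
  rw [cfg_U]
  congr 1
  have hp := A.p_pos'
  have m0 := Int.emod_nonneg (A.e' * s - n) hp.ne'
  have m1 := Int.emod_lt_of_pos (A.e' * s - n) hp
  have := A.idx_row n s
  apply idx_inj (A := A)
  · have := dvd_sub this hs
    rwa [show A.e * (n + (A.e' * s - n) % A.p) - s - (A.e * i - s)
      = A.e * (n + (A.e' * s - n) % A.p) - A.e * i by ring] at this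
  · omega
  · omega

/-- the configurations of the windows are generic -/
theorem cfg_gen (A : Ap) (n : ℤ) : (A.cfg n).Gen := by
  have hp := A.p_pos'
  have hq := A.q_pos'
  have hN := A.N_pos'
  have base : ∀ i j c : ℤ, (A.q : ℤ) ∣ (A.cfg n).U i - (A.cfg n).U j + A.q * c →
      n + (A.e' * i - n) % A.p = n + (A.e' * j - n) % A.p := by
    intro i j c h
    have i0 := Int.emod_nonneg (A.e' * i - n) hp.ne'
    have i1 := Int.emod_lt_of_pos (A.e' * i - n) hp
    have j0 := Int.emod_nonneg (A.e' * j - n) hp.ne'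
    have j1 := Int.emod_lt_of_pos (A.e' * j - n) hp
    by_contra hc
    rw [cfg_U, cfg_U] at h
    refine A.gen ((n + (A.e' * i - n) % A.p) - (n + (A.e' * j - n) % A.p)) (by omega)
      (by rw [abs_le]; constructor <;> omega) ?_
    obtain ⟨t, ht⟩ := h
    exact ⟨t - c, by linear_combination ht⟩
  have row : ∀ i j : ℤ, n + (A.e' * i - n) % A.p = n + (A.e' * j - n) % A.p →
      (A.p : ℤ) ∣ i - j := by
    intro i j h
    have h1 := A.idx_row n i
    have h2 := A.idx_row n j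
    rw [h] at h1
    have := dvd_sub h2 h1
    rwa [show A.e * (n + (A.e' * j - n) % A.p) - j - (A.e * (n + (A.e' * j - n) % A.p) - i)
      = i - j by ring] at this
  have qN : (A.q : ℤ) ∣ (A.cfg n).N := ⟨A.p, by show (A.p : ℤ) * A.q = _; ring⟩
  have hW : (A.cfg n).W = A.q * A.w := rfl
  have hH : (A.cfg n).H = A.q * A.h := rfl
  have hV : ∀ k, (A.cfg n).V k = (A.cfg n).U k + A.q * k := fun _ => rfl
  have hw2 := A.hw
  have hwh := A.hwh
  have P1 := A.h2
  refine ⟨?_, ?_, ?_, ?_⟩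
  · intro i j h
    apply row
    apply base i j 0
    rw [mul_zero, add_zero]
    exact qN.trans h
  · intro i j h
    have h1 : n + (A.e' * i - n) % A.p = n + (A.e' * j - n) % A.p := by
      apply base i j (-A.w)
      have := qN.trans h
      rw [hW] at this
      rwa [show (A.cfg n).U i - (A.cfg n).U j + A.q * -(A.w : ℤ)
        = (A.cfg n).U i - ((A.cfg n).U j + A.q * A.w) by ring]
    rw [cfg_U, cfg_U, h1, hW, show ∀ x y : ℤ, x - (x + y) = -y by intros; ring] at h
    have h2 := (dvd_neg).1 h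
    have h3 := Int.le_of_dvd (by have : (0 : ℤ) < A.w := by omega
                                 positivity) h2
    change (A.p : ℤ) * A.q ≤ _ at h3
    have : (A.w : ℤ) < A.p := by omega
    nlinarith
  · intro i j h
    apply row
    apply base i j (i - j)
    have := qN.trans h
    rw [hV, hV] at this
    rwa [show (A.cfg n).U i - (A.cfg n).U j + A.q * (i - j)
      = (A.cfg n).U i + A.q * i - ((A.cfg n).U j + A.q * j) by ring]
  · intro i j h
    have h1 : n + (A.e' * i - n) % A.p = n + (A.e' * j - n) % A.p := by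
      apply base i j (i - j + A.h)
      have := qN.trans h
      rw [hV, hV, hH] at this
      rwa [show (A.cfg n).U i - (A.cfg n).U j + A.q * (i - j + (A.h : ℤ))
        = (A.cfg n).U i + A.q * i - ((A.cfg n).U j + A.q * j - A.q * A.h) by ring]
    have h0 := row i j h1
    rw [hV, hV, cfg_U, cfg_U, h1, hH] at h
    obtain ⟨t, ht⟩ := h0
    obtain ⟨t', ht'⟩ := h
    change _ = (A.p : ℤ) * A.q * t' at ht'
    have h2 : (A.q : ℤ) * (A.h + A.p * (t - t')) = 0 := by linear_combination ht' - A.q * ht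
    have h3 : (A.h : ℤ) + A.p * (t - t') = 0 := by
      rcases mul_eq_zero.1 h2 with h | h
      · omega
      · exact h
    have h4 : (A.p : ℤ) ∣ A.h := ⟨t' - t, by linear_combination h3⟩
    have h5 := Int.le_of_dvd (by omega) h4
    omega

theorem Cls.Un {n i m f s : ℤ} (h : A.Cls i m f s) (n0 : n ≤ i) (n1 : i < n + A.p) :
    (A.p : ℤ) * A.q ∣ (A.cfg n).U s - (A.q * m + f) := by
  rw [U_of_idx n0 n1 h.2.2.2.2.2]
  exact h.2.2.2.2.1

theorem Cls.Vn {n i m f s : ℤ} (h : A.Cls i m f s) (n0 : n ≤ i) (n1 : i < n + A.p) :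
    (A.p : ℤ) * A.q ∣ (A.cfg n).V s - (A.q * (m + s) + f) := by
  have h1 := h.Un n0 n1
  have hV : (A.cfg n).V s = (A.cfg n).U s + A.q * s := rfl
  rw [hV]
  rwa [show (A.cfg n).U s + A.q * s - (A.q * (m + s) + f) = (A.cfg n).U s - (A.q * m + f) by ring]

theorem Cls.U0 {i m f s : ℤ} (h : A.Cls i m f s) :
    (A.p : ℤ) * A.q ∣ (A.cfg 0).U s - (A.q * m + f) :=
  h.Un h.1.le (by have := h.2.1; omega)

theorem Cls.V0 {i m f s : ℤ} (h : A.Cls i m f s) :
    (A.p : ℤ) * A.q ∣ (A.cfg 0).V s - (A.q * (m + s) + f) :=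
  h.Vn h.1.le (by have := h.2.1; omega)

theorem Cls.U1 {i m f s : ℤ} (h : A.Cls i m f s) :
    (A.p : ℤ) * A.q ∣ (A.cfg 1).U s - (A.q * m + f) :=
  h.Un h.1 (by have := h.2.1; omega)

theorem Cls.V1 {i m f s : ℤ} (h : A.Cls i m f s) :
    (A.p : ℤ) * A.q ∣ (A.cfg 1).V s - (A.q * (m + s) + f) :=
  h.Vn h.1 (by have := h.2.1; omega)

theorem zero_U0 {k : ℤ} (hk : (A.p : ℤ) ∣ k) : (A.p : ℤ) * A.q ∣ (A.cfg 0).U k := by
  rw [U_of_idx (i := 0) (by omega) (by have := A.p_pos'; omega)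
    (by rw [mul_zero, zero_sub]; exact (dvd_neg).2 hk)]
  simp

theorem zero_V0 {k : ℤ} (hk : (A.p : ℤ) ∣ k) : (A.p : ℤ) * A.q ∣ (A.cfg 0).V k := by
  have h1 := zero_U0 hk
  obtain ⟨t, ht⟩ := hk
  show _ ∣ (A.cfg 0).U k + A.q * k
  exact dvd_add h1 ⟨t, by rw [ht]; ring⟩

theorem zero_U1 {k : ℤ} (hk : (A.p : ℤ) ∣ k) :
    (A.p : ℤ) * A.q ∣ (A.cfg 1).U k - (A.q * A.md + A.fd) := by
  rw [U_of_idx (i := A.p) (by have := A.p_pos'; omega) (by omega)
    (by exact dvd_sub (dvd_mul_left _ _) hk)]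
  exact A.hd

theorem zero_V1 {k : ℤ} (hk : (A.p : ℤ) ∣ k) :
    (A.p : ℤ) * A.q ∣ (A.cfg 1).V k - (A.q * A.md + A.fd) := by
  have h1 := zero_U1 (A := A) hk
  obtain ⟨t, ht⟩ := hk
  show _ ∣ (A.cfg 1).U k + A.q * k - _
  have : (A.p : ℤ) * A.q ∣ A.q * k := ⟨t, by rw [ht]; ring⟩
  have := dvd_add h1 this
  rwa [show (A.cfg 1).U k - (A.q * A.md + A.fd) + A.q * k
    = (A.cfg 1).U k + A.q * k - (A.q * A.md + A.fd) by ring] at this

/-- the window `1 … p` is a translate of the window `0 … p-1` -/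
theorem Fl.one (F : A.Fl) : (A.cfg 1).IsFlat := by
  refine flat_translate (A.cfg 0) (A.cfg 1) rfl rfl rfl rfl A.e A.a ?_ F
  intro k
  have hp := A.p_pos'
  have k0 := Int.emod_nonneg (A.e' * k - 0) hp.ne'
  have k1 := Int.emod_lt_of_pos (A.e' * k - 0) hp
  have hk := A.idx_row 0 k
  have h1 : (A.cfg 1).U (k + A.e) = A.a * ((0 + (A.e' * k - 0) % A.p) + 1) := by
    apply U_of_idx
    · omega
    · omega
    · rwa [show A.e * (0 + (A.e' * k - 0) % A.p + 1) - (k + A.e)
        = A.e * (0 + (A.e' * k - 0) % A.p) - k by ring]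
  rw [h1, cfg_U]
  rw [show A.a * (0 + (A.e' * k - 0) % A.p + 1) - (A.a * (0 + (A.e' * k - 0) % A.p) + A.a) = 0
    by ring]
  exact dvd_zero _

end Ap

end Pool.Agent.H98.Flat
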