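import Pool.Agent.H98.Flat.Corner

/-!
# Arithmetic progressions of rectangles

`(O)` : a flat arithmetic progression of `w × h` rectangles (`2 ≤ w ≤ h`, `2 (w + h) < p`)
has pairwise disjoint members (the structure `Ap` only contains `2 h < p`; the other size
conditions are the classes `Fact (2 * (A.w + A.h) < A.p)` and `Fact A.Reg`).  Integer model: one real unit is `q`, the circle has length
`N = p q`.  Class `i` has `U_i = a i`, row `e i (mod p)`, `V_i = U_i + q * row`.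
A class is described by lifts `(m, f, s)`: `U_i = q m + f`, `0 < f < q`, row `s`,
hence `V_i = q (m + s) + f`.
-/

namespace Pool.Agent.H98.Flat

open Finset

/-- membership of a level `x` in the arc `(lo, lo + len]` of `ℤ/p` -/
def InA (p x lo len : ℤ) : Prop := (x - lo - 1) % p < len

instance (p x lo len : ℤ) : Decidable (InA p x lo len) := by unfold InA; infer_instance

structure Ap where
  p : ℕ
  q : ℕ
  w : ℕ
  h : ℕ
  a : ℤ
  e : ℤ
  e' : ℤ
  md : ℤ
  fd : ℤ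
  hw : 2 ≤ w
  hwh : w ≤ h
  h2 : 2 * h < p
  inv : (p : ℤ) ∣ e * e' - 1
  gen : ∀ i : ℤ, i ≠ 0 → |i| ≤ p → ¬ (q : ℤ) ∣ a * i
  hmd : 0 ≤ md
  hmd2 : 2 * md < p
  hfd : 0 < fd
  hfd2 : fd < q
  hd : (p : ℤ) * q ∣ a * p - (q * md + fd)
  cwp : IsCoprime (w : ℤ) p
  chp : IsCoprime (h : ℤ) p

namespace Ap

variable (A : Ap)

theorem hq : 0 < A.q := by have := A.hfd; have := A.hfd2; omega
theorem hp : 0 < A.p := by have := A.h2; omega

/-- the window of classes `n, …, n + p - 1`, indexed by rows -/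
def cfg (n : ℤ) : Cfg where
  p := A.p
  q := A.q
  w := A.w
  h := A.h
  U := fun k => A.a * (n + (A.e' * k - n) % A.p)
  hq := A.hq
  hw := by have := A.hw; omega
  hh := by have := A.hw; have := A.hwh; omega
  hwh := by have := A.h2; have := A.hwh; omega
  per := by
    intro k
    have : (A.e' * (k + A.p) - n) % (A.p : ℤ) = (A.e' * k - n) % A.p := by
      apply emod_congr
      exact ⟨A.e', by ring⟩
    show _ ∣ A.a * (n + (A.e' * (k + A.p) - n) % A.p) - A.a * (n + (A.e' * k - n) % A.p)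
    rw [this, sub_self]; exact dvd_zero _

/-- the progression is flat: all charges of triangles are in `{-1,0,1}` (window `0 … p-1`) -/
def Fl : Prop := (A.cfg 0).IsFlat

/-- class `i` has lifts `(m, f, s)`: `U_i ≡ q m + f (mod p q)`, row `≡ s (mod p)` -/
def Cls (i m f s : ℤ) : Prop :=
  0 < i ∧ i < A.p ∧ 0 < f ∧ f < A.q ∧ (A.p : ℤ) * A.q ∣ A.a * i - (A.q * m + f) ∧
    (A.p : ℤ) ∣ A.e * i - s

/-- class `j` has a vertical wall at position `(mc, f)`; `g = V_j - c`; its rows are `(g-h, g]` -/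
def VW (j mc f g : ℤ) : Prop :=
  ∃ m s, A.Cls j m f s ∧ ((mc = m ∧ g = s) ∨ (mc = m + A.w ∧ g = s - A.w))

/-- class `i` has a horizontal wall at height `(mb, f)`, with rows `(k-w, k]` -/
def HW (i mb f k : ℤ) : Prop :=
  ∃ m s, A.Cls i m f s ∧ ((mb = m + s ∧ k = s) ∨ (mb = m + s - A.h ∧ k = s - A.h))

/-- the position `(m, f)` lies in `(0, d)` modulo `p` -/
def InL (m f : ℤ) : Prop :=
  (A.q * m + f) % ((A.p : ℤ) * A.q) < A.q * A.md + A.fd

instance (m f : ℤ) : Decidable (A.InL m f) := by unfold InL; infer_instance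

/-- the function `Φ` of rule (E0) -/
def Phi (mc fc mb fb Y : ℤ) : ℤ :=
  - (if A.InL mc fc ∧ InA A.p Y (-A.h) A.h then 1 else 0)
  + (if A.InL (mc - A.w) fc ∧ InA A.p Y (-A.w - A.h) A.h then 1 else 0)
  + (if A.InL mb fb ∧ InA A.p Y (-A.w) A.w then 1 else 0)
  - (if A.InL (mb + A.h) fb ∧ InA A.p Y (-A.w - A.h) A.w then 1 else 0)

/-- class `i` overlaps class `0`, with lifts in the standard ranges
(`|U_i| < w`, `|V_i| < h`) -/
def OvL (i m f s : ℤ) : Prop :=
  A.Cls i m f s ∧ -(A.w : ℤ) ≤ m ∧ m ≤ A.w - 1 ∧ -(A.h : ℤ) ≤ m + s ∧ m + s ≤ A.h - 1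

theorem h2z (A : Ap) : 2 * (A.h : ℤ) < A.p := by have := A.h2; omega

/-- the regime of the pair arguments: `2w + h ≤ p`, and `4w < p` if `w = h` -/
def Reg : Prop := 2 * A.w + A.h ≤ A.p ∧ (A.w = A.h → 4 * A.w < A.p)

theorem P1 [h : Fact (2 * (A.w + A.h) < A.p)] : 2 * (A.w + A.h) < A.p := h.out

theorem R1 [h : Fact A.Reg] :
    2 * A.w + A.h ≤ A.p ∧ 2 * A.h < A.p ∧ (A.w = A.h → 4 * A.w < A.p) :=
  ⟨h.out.1, A.h2, h.out.2⟩

theorem R1z [h : Fact A.Reg] :
    2 * (A.w : ℤ) + A.h ≤ A.p ∧ 2 * (A.h : ℤ) < A.p ∧ ((A.w : ℤ) = A.h → 4 * (A.w : ℤ) < A.p) := by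
  obtain ⟨h1, h2, h3⟩ := A.R1
  exact ⟨by exact_mod_cast h1, by exact_mod_cast h2, fun h => by
    have := h3 (by exact_mod_cast h)
    exact_mod_cast this⟩

end Ap

end Pool.Agent.H98.Flat
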