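import Pool.Agent.H98.Flat.O.E0

/-!
Rule (E0) in windowed form: if all lifts are in the windows where no arc wraps, the rule is a
statement of linear integer arithmetic.
-/

namespace Pool.Agent.H98.Flat

namespace Ap

variable {A : Ap}

theorem InL_iff' {m f : ℤ} (f0 : 0 < f) (f1 : f < A.q) (m0 : A.md - A.p < m) (m1 : m < A.p) :
    A.InL m f ↔ (0 ≤ m ∧ (m < A.md ∨ (m = A.md ∧ f < A.fd))) := by
  have := A.hmd
  have hp := A.p_pos'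
  rw [InL_iff f0 f1 (by omega) m1]
  constructor
  · rintro (h | h)
    · exact h
    · omega
  · intro h; left; exact h

/-- windowed (E0): every `if` and every hypothesis is linear -/
theorem E0w (F : A.Fl) {j i mc fc g mb fb k r : ℤ} (hj : A.VW j mc fc g) (hi : A.HW i mb fb k)
    (hij : i ≠ j) (hr : r = mb - mc + (if fc < fb then 1 else 0)) (Y : ℤ)
    (cm0 : A.md - A.p < mc - A.w) (cm1 : mc < A.p)
    (bm0 : A.md - A.p < mb) (bm1 : mb + A.h < A.p)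
    (r0 : -(A.p : ℤ) < r) (r1 : r ≤ A.p - A.w - A.h)
    (Y0 : -(A.p : ℤ) < Y) (Y1 : Y ≤ A.p - A.w - A.h)
    (gr0 : g - A.p < r) (gr1 : r ≤ g - A.h + A.p) (gY0 : g - A.p < Y) (gY1 : Y ≤ g - A.h + A.p)
    (kr0 : k - A.p < r) (kr1 : r ≤ k - A.w + A.p) (kY0 : k - A.p < Y) (kY1 : Y ≤ k - A.w + A.p)
    (h1 : (g - A.h < Y ∧ Y ≤ g) ↔ ¬ (g - A.h < r ∧ r ≤ g))
    (h2 : (k - A.w < Y ∧ Y ≤ k) ↔ ¬ (k - A.w < r ∧ r ≤ k)) :
    - (if (0 ≤ mc ∧ (mc < A.md ∨ (mc = A.md ∧ fc < A.fd))) ∧ (-(A.h : ℤ) < Y ∧ Y ≤ 0)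
        then (1 : ℤ) else 0)
    + (if (0 ≤ mc - A.w ∧ (mc - A.w < A.md ∨ (mc - A.w = A.md ∧ fc < A.fd))) ∧
        (-(A.w : ℤ) - A.h < Y ∧ Y ≤ -A.w) then 1 else 0)
    + (if (0 ≤ mb ∧ (mb < A.md ∨ (mb = A.md ∧ fb < A.fd))) ∧ (-(A.w : ℤ) < Y ∧ Y ≤ 0)
        then 1 else 0)
    - (if (0 ≤ mb + A.h ∧ (mb + A.h < A.md ∨ (mb + A.h = A.md ∧ fb < A.fd))) ∧
        (-(A.w : ℤ) - A.h < Y ∧ Y ≤ -A.h) then 1 else 0)
    = - (if (0 ≤ mc ∧ (mc < A.md ∨ (mc = A.md ∧ fc < A.fd))) ∧ (-(A.h : ℤ) < r ∧ r ≤ 0)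
        then 1 else 0)
    + (if (0 ≤ mc - A.w ∧ (mc - A.w < A.md ∨ (mc - A.w = A.md ∧ fc < A.fd))) ∧
        (-(A.w : ℤ) - A.h < r ∧ r ≤ -A.w) then 1 else 0)
    + (if (0 ≤ mb ∧ (mb < A.md ∨ (mb = A.md ∧ fb < A.fd))) ∧ (-(A.w : ℤ) < r ∧ r ≤ 0)
        then 1 else 0)
    - (if (0 ≤ mb + A.h ∧ (mb + A.h < A.md ∨ (mb + A.h = A.md ∧ fb < A.fd))) ∧
        (-(A.w : ℤ) - A.h < r ∧ r ≤ -A.h) then 1 else 0) := by
  have P1 := A.h2
  have hw := A.hw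
  have hwh := A.hwh
  have fc0 : 0 < fc := by obtain ⟨m, s, h, -⟩ := hj; exact h.2.2.1
  have fc1 : fc < A.q := by obtain ⟨m, s, h, -⟩ := hj; exact h.2.2.2.1
  have fb0 : 0 < fb := by obtain ⟨m, s, h, -⟩ := hi; exact h.2.2.1
  have fb1 : fb < A.q := by obtain ⟨m, s, h, -⟩ := hi; exact h.2.2.2.1
  have key := E0 F hj hi hij hr Y
    (by rw [InA_iff' (x := Y) (by omega) (by omega) (by omega),
          InA_iff' (x := r) (by omega) (by omega) (by omega)]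
        rw [show g - (A.h : ℤ) + A.h = g by ring]; exact h1)
    (by rw [InA_iff' (x := Y) (by omega) (by omega) (by omega),
          InA_iff' (x := r) (by omega) (by omega) (by omega)]
        rw [show k - (A.w : ℤ) + A.w = k by ring]; exact h2)
  have e1 : ∀ x : ℤ, -(A.p : ℤ) < x → x ≤ A.p - A.w - A.h →
      (InA A.p x (-A.h) A.h ↔ (-(A.h : ℤ) < x ∧ x ≤ 0)) := by
    intro x x0 x1
    rw [InA_iff' (by omega) (by omega) (by omega)]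
    constructor <;> intro h <;> constructor <;> omega
  have e2 : ∀ x : ℤ, -(A.p : ℤ) < x → x ≤ A.p - A.w - A.h →
      (InA A.p x (-A.w - A.h) A.h ↔ (-(A.w : ℤ) - A.h < x ∧ x ≤ -A.w)) := by
    intro x x0 x1
    rw [InA_iff' (by omega) (by omega) (by omega)]
    constructor <;> intro h <;> constructor <;> omega
  have e3 : ∀ x : ℤ, -(A.p : ℤ) < x → x ≤ A.p - A.w - A.h →
      (InA A.p x (-A.w) A.w ↔ (-(A.w : ℤ) < x ∧ x ≤ 0)) := by
    intro x x0 x1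
    rw [InA_iff' (by omega) (by omega) (by omega)]
    constructor <;> intro h <;> constructor <;> omega
  have e4 : ∀ x : ℤ, -(A.p : ℤ) < x → x ≤ A.p - A.w - A.h →
      (InA A.p x (-A.w - A.h) A.w ↔ (-(A.w : ℤ) - A.h < x ∧ x ≤ -A.h)) := by
    intro x x0 x1
    rw [InA_iff' (by omega) (by omega) (by omega)]
    constructor <;> intro h <;> constructor <;> omega
  unfold Phi at key
  simp only [e1 Y Y0 Y1, e2 Y Y0 Y1, e3 Y Y0 Y1, e4 Y Y0 Y1, e1 r r0 r1, e2 r r0 r1, e3 r r0 r1,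
    e4 r r0 r1, InL_iff' fc0 fc1 (by omega : A.md - A.p < mc) cm1,
    InL_iff' fc0 fc1 cm0 (by omega : mc - (A.w : ℤ) < A.p),
    InL_iff' fb0 fb1 bm0 (by omega : mb < A.p),
    InL_iff' fb0 fb1 (by omega : A.md - A.p < mb + (A.h : ℤ)) bm1] at key
  exact key

end Ap

end Pool.Agent.H98.Flat
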