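import Pool.Agent.H98.Flat.O.Pair

/-! Section 2: (EZ) and the types of overlapping classes. -/

namespace Pool.Agent.H98.Flat

namespace Ap

variable {A : Ap} [Fact A.Reg]

/-- (W): `f0` an overlapping left type (`U < 0`), `c_f = U + w`; no other class has a wall in
`(0, min d c_f)` -/
theorem EZ_W (F : A.Fl) {i m f s j mc fc g : ℤ} (hi : A.OvL i m f s) (hm : m < 0)
    (hj : A.VW j mc fc g) (hij : i ≠ j) (c0 : 0 ≤ mc)
    (cd : mc < A.md ∨ (mc = A.md ∧ fc < A.fd))
    (cf : mc < m + A.w ∨ (mc = m + A.w ∧ fc < f)) : False := by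
  exact Cstar F hj c0 (by omega) cd hi hij (by omega) (by omega)

/-- (E): `i` an overlapping right type (`U > 0`): no other class has a wall in
`(U_i, min d w)` -/
theorem EZ_E (F : A.Fl) {i m f s j mc fc g : ℤ} (hi : A.OvL i m f s) (hm : 0 ≤ m)
    (hj : A.VW j mc fc g) (hij : i ≠ j) (cw : mc < A.w)
    (cd : mc < A.md ∨ (mc = A.md ∧ fc < A.fd))
    (cf : m < mc ∨ (m = mc ∧ f < fc)) : False := by
  exact Cstar F hj (by omega) cw cd hi hij (by omega) (by omega)

/-- `d = p D'`, `a = D' + q T` -/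
theorem base (A : Ap) : ∃ D T : ℤ, A.q * A.md + A.fd = A.p * D ∧ A.a = D + A.q * T ∧ 0 < D ∧
    D < A.q := by
  obtain ⟨k, hk⟩ := A.hd
  have h1 : (A.q : ℤ) * A.md + A.fd = A.p * (A.a - A.q * k) := by linear_combination -hk
  have hp : (0 : ℤ) < A.p := by exact_mod_cast A.hp
  have hq : (0 : ℤ) < A.q := by exact_mod_cast A.hq
  have hmd := A.hmd
  have hfd := A.hfd
  have hfd2 := A.hfd2
  have hmd2 := A.hmd2
  have hpos : 0 < (A.q : ℤ) * A.md + A.fd := by positivity
  refine ⟨A.a - A.q * k, k, h1, by ring, ?_, ?_⟩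
  · rw [h1] at hpos
    exact (mul_pos_iff_of_pos_left hp).1 hpos
  · have h2 : (A.q : ℤ) * A.md + A.fd < A.p * A.q := by nlinarith
    rw [h1] at h2
    exact lt_of_mul_lt_mul_left h2 hp.le

/-- lexicographic comparison from comparison of grid positions -/
theorem lex_of_lt {q m f m' f' : ℤ} (hq : 0 < q) (f0 : 0 ≤ f) (f1 : f' < q)
    (h : q * m + f < q * m' + f') : m < m' ∨ (m = m' ∧ f < f') := by
  rcases lt_trichotomy m m' with h1 | h1 | h1
  · exact Or.inl h1
  · right; subst h1; exact ⟨rfl, by linarith⟩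
  · exfalso; nlinarith

theorem eq_of_eq {q m f m' f' : ℤ} (hq : 0 < q) (f0 : 0 ≤ f) (f1 : f < q) (f0' : 0 ≤ f')
    (f1' : f' < q) (h : q * m + f = q * m' + f') : m = m' ∧ f = f' := by
  have h1 : m = m' := by
    rcases lt_trichotomy m m' with h1 | h1 | h1
    · exfalso; nlinarith
    · exact h1
    · exfalso; nlinarith
  subst h1; exact ⟨rfl, by linarith⟩

/-- some class has its right wall in `(0, d)`, or its left wall -/
theorem wall_exists (A : Ap) : ∃ j mc fc s, (A.Cls j (mc - A.w) fc s ∨ A.Cls j mc fc s) ∧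
    0 ≤ mc ∧ (mc < A.md ∨ (mc = A.md ∧ fc < A.fd)) := by
  obtain ⟨D, T, h1, h2, hD, hDq⟩ := base A
  have hp : (0 : ℤ) < A.p := by exact_mod_cast A.hp
  have hq : (0 : ℤ) < A.q := by exact_mod_cast A.hq
  have hw := A.hw
  have hwh := A.hwh
  have P1 := A.h2
  have hmd := A.hmd
  have hfd := A.hfd
  have hfd2 := A.hfd2
  have hmd2 := A.hmd2
  -- position of `D * i`
  have key : ∀ i : ℤ, 0 < i → i < A.p → ∃ m f : ℤ, D * i = A.q * m + f ∧ 0 < f ∧ f < A.q ∧
      0 ≤ m ∧ (m < A.md ∨ (m = A.md ∧ f < A.fd)) := by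
    intro i h0 hi
    have hne : ¬ (A.q : ℤ) ∣ D * i := by
      intro hdiv
      apply A.gen i h0.ne' (by rw [abs_of_pos h0]; exact_mod_cast hi.le)
      rw [h2, add_mul]
      exact dvd_add hdiv ⟨T * i, by ring⟩
    have hf0 : 0 ≤ (D * i) % A.q := Int.emod_nonneg _ hq.ne'
    have hf1 : (D * i) % A.q < A.q := Int.emod_lt_of_pos _ hq
    have hf : (D * i) % A.q ≠ 0 := fun h => hne (Int.dvd_of_emod_eq_zero h)
    have he := Int.mul_ediv_add_emod (D * i) A.q
    refine ⟨D * i / A.q, D * i % A.q, he.symm, by omega, hf1,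
      Int.ediv_nonneg (by positivity) hq.le, ?_⟩
    apply lex_of_lt hq hf0 (by exact_mod_cast hfd2)
    rw [he, h1]
    nlinarith
  by_cases hcop : IsCoprime (A.p : ℤ) T
  · -- `j` with `T j ≡ -w`
    obtain ⟨x, y, hxy⟩ := hcop
    have hj0 : 0 ≤ (-(A.w : ℤ) * y) % A.p := Int.emod_nonneg _ hp.ne'
    have hj1 : (-(A.w : ℤ) * y) % A.p < A.p := Int.emod_lt_of_pos _ hp
    have he := Int.mul_ediv_add_emod (-(A.w : ℤ) * y) A.p
    set j := (-(A.w : ℤ) * y) % A.p with hj
    have hdiv : (A.p : ℤ) ∣ T * j + A.w := by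
      refine ⟨-(T * (-(A.w : ℤ) * y / A.p)) + A.w * x, ?_⟩
      linear_combination T * he - (A.w : ℤ) * hxy
    have hjne : j ≠ 0 := by
      intro h0
      rw [h0, mul_zero, zero_add] at hdiv
      have := Int.le_of_dvd (by omega) hdiv
      omega
    obtain ⟨mc, fc, hpos, f0, f1, m0, ml⟩ := key j (by omega) hj1
    refine ⟨j, mc, fc, A.e * j, Or.inl ⟨by omega, hj1, f0, f1, ?_, by simp⟩, m0, ml⟩
    obtain ⟨k, hk⟩ := hdiv
    refine ⟨k, ?_⟩
    rw [h2]
    linear_combination hpos + (A.q : ℤ) * hk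
  · -- the class `p / gcd (T, p)`
    rw [Int.isCoprime_iff_gcd_eq_one] at hcop
    obtain ⟨i0, hi0⟩ : (Int.gcd A.p T : ℤ) ∣ A.p := Int.gcd_dvd_left _ _
    obtain ⟨t0, ht0⟩ : (Int.gcd A.p T : ℤ) ∣ T := Int.gcd_dvd_right _ _
    set g : ℤ := (Int.gcd A.p T : ℤ) with hg
    have hg1 : g ≠ 1 := by
      intro h; apply hcop; rw [hg] at h; exact_mod_cast h
    have hg0 : 0 ≤ g := by rw [hg]; positivity
    have hg2 : 0 < g := by
      rcases hg0.lt_or_eq with h | h
      · exact h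
      · exfalso; rw [← h, zero_mul] at hi0; omega
    have i00 : 0 < i0 := by
      by_contra hc
      have : g * i0 ≤ 0 := mul_nonpos_of_nonneg_of_nonpos hg0 (by omega)
      omega
    have i01 : i0 < A.p := by
      rw [hi0]
      have : 2 * i0 ≤ g * i0 := mul_le_mul_of_nonneg_right (by omega) i00.le
      omega
    obtain ⟨mc, fc, hpos, f0, f1, m0, ml⟩ := key i0 i00 i01
    refine ⟨i0, mc, fc, A.e * i0, Or.inr ⟨i00, i01, f0, f1, ⟨t0, ?_⟩, by simp⟩, m0, ml⟩
    rw [h2]
    linear_combination hpos + (A.q : ℤ) * i0 * ht0 - (A.q : ℤ) * t0 * hi0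

/-- the left type has `c_f = U_f + w < d` -/
theorem left_lt (F : A.Fl) {i m f s : ℤ} (h : A.OvL i m f s) (hm : m < 0) :
    m + A.w < A.md ∨ (m + A.w = A.md ∧ f < A.fd) := by
  have hw := A.hw
  have hwh := A.hwh
  have P1 := A.R1
  have hmd2 := A.hmd2
  by_cases hdw : A.md < A.w
  · obtain ⟨j, mc, fc, s', hc | hc, c0, cl⟩ := wall_exists A
    · by_cases hij : i = j
      · subst hij
        obtain ⟨e1, e2, -⟩ := Cls.uniq h.1 hc
        obtain ⟨k, hk⟩ := e2
        have hk0 : k = 0 := by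
          have := h.2.1
          by_contra hk0
          rcases lt_or_gt_of_ne hk0 with h | h
          · have : (A.p : ℤ) * k ≤ - A.p := by nlinarith
            omega
          · have : (A.p : ℤ) ≤ A.p * k := by nlinarith
            omega
        subst e1
        rw [hk0] at hk
        omega
      · have hne := Cls.f_ne h.1 hc hij
        by_contra hcon
        refine EZ_W F h hm (j := j) (mc := mc) (fc := fc) (g := s' - A.w)
          ⟨mc - A.w, s', hc, Or.inr ⟨by ring, rfl⟩⟩ hij c0 cl (by omega)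
    · by_cases hij : i = j
      · subst hij
        obtain ⟨e1, e2, -⟩ := Cls.uniq h.1 hc
        obtain ⟨k, hk⟩ := e2
        exfalso
        have := h.2.1
        rcases lt_trichotomy k 0 with h | h | h
        · have : (A.p : ℤ) * k ≤ - A.p := by nlinarith
          omega
        · rw [h] at hk; omega
        · have : (A.p : ℤ) ≤ A.p * k := by nlinarith
          omega
      · have hne := Cls.f_ne h.1 hc hij
        by_contra hcon
        refine EZ_W F h hm (j := j) (mc := mc) (fc := fc) (g := s')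
          ⟨mc, s', hc, Or.inl ⟨rfl, rfl⟩⟩ hij c0 cl (by omega)
  · left; omega

/-- at most one left type -/
theorem left_unique (F : A.Fl) {i m f s i' m' f' s' : ℤ} (h : A.OvL i m f s) (hm : m < 0)
    (h' : A.OvL i' m' f' s') (hm' : m' < 0) : i = i' := by
  by_contra hne
  have hf := Cls.f_ne h.1 h'.1 hne
  have l := left_lt F h hm
  have l' := left_lt F h' hm'
  have a1 := h.2.1
  have a2 := h'.2.1
  rcases lt_or_ge m m' with c | c
  · exact EZ_W F h' hm' (j := i) (mc := m + A.w) (fc := f) (g := s - A.w)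
      ⟨m, s, h.1, Or.inr ⟨rfl, rfl⟩⟩ (Ne.symm hne) (by omega) l (by omega)
  · by_cases c' : m = m' ∧ f < f'
    · exact EZ_W F h' hm' (j := i) (mc := m + A.w) (fc := f) (g := s - A.w)
        ⟨m, s, h.1, Or.inr ⟨rfl, rfl⟩⟩ (Ne.symm hne) (by omega) l (by omega)
    · exact EZ_W F h hm (j := i') (mc := m' + A.w) (fc := f') (g := s' - A.w)
        ⟨m', s', h'.1, Or.inr ⟨rfl, rfl⟩⟩ hne (by omega) l' (by omega)

/-- at most one right type with `U < d` -/
theorem right_unique (F : A.Fl) {i m f s i' m' f' s' : ℤ} (h : A.OvL i m f s) (hm : 0 ≤ m)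
    (hd : m < A.md ∨ (m = A.md ∧ f < A.fd))
    (h' : A.OvL i' m' f' s') (hm' : 0 ≤ m') (hd' : m' < A.md ∨ (m' = A.md ∧ f' < A.fd)) :
    i = i' := by
  by_contra hne
  have hf := Cls.f_ne h.1 h'.1 hne
  have a1 := h.2.2.1
  have a2 := h'.2.2.1
  by_cases c : m < m' ∨ (m = m' ∧ f < f')
  · exact EZ_E F h hm (j := i') (mc := m') (fc := f') (g := s')
      ⟨m', s', h'.1, Or.inl ⟨rfl, rfl⟩⟩ hne (by omega) hd' c
  · exact EZ_E F h' hm' (j := i) (mc := m) (fc := f) (g := s)
      ⟨m, s, h.1, Or.inl ⟨rfl, rfl⟩⟩ (Ne.symm hne) (by omega) hd (by omega)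

/-- a right type with `U > d` is SE with row `≤ -h-1` -/
theorem right_far (F : A.Fl) {i m f s : ℤ} (h : A.OvL i m f s) (hm : 0 ≤ m)
    (hd : A.md < m ∨ (m = A.md ∧ A.fd < f)) : m + s < 0 ∧ s < -(A.h : ℤ) := by
  have hw := A.hw
  have hwh := A.hwh
  have P1 := A.R1
  have hmd2 := A.hmd2
  have hmd := A.hmd
  have hfd := A.hfd
  have hfd2 := A.hfd2
  obtain ⟨hc, a1, a2, a3, a4⟩ := h
  have f0 := hc.2.2.1
  have f1 := hc.2.2.2.1
  by_contra hcon
  have hV : A.md - A.h < m + s ∨ (m + s = A.md - A.h ∧ A.fd < f) := by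
    have := Cls.f_ne_fd hc
    omega
  rcases Cls.neg hc with ⟨hlt, hc1⟩ | ⟨hlt, hc1⟩
  · have := left_lt F (i := A.p - i) (m := A.md - m) (f := A.fd - f) (s := -s)
      ⟨hc1, by omega, by omega, by omega, by omega⟩ (by omega)
    omega
  · have := left_lt F (i := A.p - i) (m := A.md - m - 1) (f := A.fd - f + A.q) (s := -s)
      ⟨hc1, by omega, by omega, by omega, by omega⟩ (by omega)
    omega

end Ap

end Pool.Agent.H98.Flat
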