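import Pool.Agent.H98.Flat.O.SpecialNW2

/-! Section 6: no special NW type. -/

namespace Pool.Agent.H98.Flat

namespace Ap

variable {A : Ap} [Fact A.Reg]

theorem snw_small (F : A.Fl) {n fn : ℤ} (hn : A.Cls n 0 fn (-1)) : False := by
  have hw := A.hw
  have hwh := A.hwh
  have hmd := A.hmd
  have hO : A.OvL n 0 fn (-1) := ⟨hn, by omega, by omega, by omega, by omega⟩
  by_cases hd : 0 < A.md ∨ fn < A.fd
  · exact near_i F hO hd (by omega) (by omega)
  · have := hn.f_ne_fd
    have := right_far F hO le_rfl (by omega)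
    omega

theorem snw_left1 (F : A.Fl) {i m f : ℤ} (h : A.OvL i m f A.h) (hm : m < 0) {j mj fj : ℤ}
    (hO : A.OvL j mj fj 1) (hmj : mj < 0) : False := by
  have hw := A.hw
  have hwh := A.hwh
  have P1 := A.R2
  have e := left_unique F hO hmj h hm
  subst e
  have := (hO.1.uniq h.1).2.2
  have h2 : (A.p : ℤ) ∣ (A.h : ℤ) - 1 := by
    have := (Int.dvd_neg).2 this
    have e : -(1 - (A.h : ℤ)) = A.h - 1 := by ring
    rwa [e] at this
  have := Int.le_of_dvd (by omega) h2
  omega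

theorem snw_ne {i m f : ℤ} (hC : A.Cls i m f A.h) {n u fn : ℤ} (hn : A.Cls n u fn (-1)) :
    n ≠ i := by
  have hw := A.hw
  have hwh := A.hwh
  have P1 := A.R2
  rintro rfl
  have := (hn.uniq hC).2.2
  have h2 : (A.p : ℤ) ∣ (A.h : ℤ) + 1 := by
    have := (Int.dvd_neg).2 this
    have e : -(-1 - (A.h : ℤ)) = A.h + 1 := by ring
    rwa [e] at this
  have := Int.le_of_dvd (by omega) h2
  omega

/-- (E0) for the right wall of the special class and the top of class `n`, `Y = -w` -/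
theorem snw_X1 (F : A.Fl) {i m f : ℤ} (h : A.OvL i m f A.h) (hm : m < 0) {n u fn : ℤ}
    (hn : A.Cls n u fn (-1))
    (hB1 : m + A.w < u ∨ (m + A.w = u ∧ f < fn)) (hB2 : u < m + A.h + 1 ∨ (u = m + A.h + 1 ∧ fn < f)) :
    (u ≤ 0) ∨ (A.w = A.h ∧ 1 ≤ u ∧ ¬ (u - 1 + A.h < A.md ∨ (u - 1 + A.h = A.md ∧ fn < A.fd))) := by
  have hw := A.hw
  have hwh := A.hwh
  have P1 := A.R2
  have hmd := A.hmd
  have hmd2 := A.hmd2
  have hne := snw_ne h.1 hn
  have cd := left_lt F h hm
  have ffn : fn ≠ f := hn.f_ne h.1 hne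
  obtain ⟨hC, m1, m2, v1, v2⟩ := id h
  have hj : A.VW i (m + A.w) f (A.h - A.w) := ⟨m, A.h, hC, Or.inr ⟨rfl, rfl⟩⟩
  have hX1 : A.HW n (u - 1) fn (-1) := ⟨u, -1, hn, Or.inl ⟨by ring, rfl⟩⟩
  obtain ⟨δ, hδ, hδ'⟩ : ∃ δ : ℤ, δ = (if f < fn then 1 else 0) ∧
      ((δ = 1 ∧ f < fn) ∨ (δ = 0 ∧ fn < f)) := by
    refine ⟨_, rfl, ?_⟩
    split_ifs <;> omega
  clear v1 v2
  obtain ⟨T, B, hT, hBB, E⟩ := E0c F hj hX1 hne (by omega) (by omega) cd
    (r := (u - 1) - (m + A.w) + δ) (by rw [hδ]) (-A.w)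
    (by omega) (by omega) (by omega) (by omega) (by omega)
    (by omega) (by omega) (by omega)
    (by omega) (by omega) (by omega) (by omega)
    (by omega) (by omega) (by omega) (by omega)
  clear hδ hj hX1 hn hC h F hne
  have hr0 : 0 ≤ (u - 1) - (m + A.w) + δ := by omega
  have hT1 : (u - 1) - (m + A.w) + δ = 0 → 1 ≤ u → T = 1 := by
    intro hr hu
    rw [if_pos (Or.inl ⟨by omega, by omega⟩)] at hT
    exact hT
  by_cases hlt : A.w < A.h
  · left
    rw [if_pos (by omega), if_neg (by omega), if_neg (by omega),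
      if_neg (c := -(A.w : ℤ) - A.h < (u - 1) - (m + A.w) + δ ∧
        (u - 1) - (m + A.w) + δ ≤ -A.h) (by omega)] at E
    by_cases hr : (u - 1) - (m + A.w) + δ = 0
    · rw [if_pos (by omega), if_pos (by omega)] at E
      by_contra hu
      have := hT1 hr (by omega)
      omega
    · rw [if_neg (by omega), if_neg (by omega)] at E
      omega
  · have hr : (u - 1) - (m + A.w) + δ = 0 := by omega
    rw [if_neg (by omega), if_neg (by omega), if_pos (by omega), if_pos (by omega),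
      if_pos (by omega), if_neg (by omega)] at E
    by_cases hu : u ≤ 0
    · exact Or.inl hu
    · right
      have := hT1 hr (by omega)
      refine ⟨by omega, by omega, ?_⟩
      intro hcc
      rw [if_pos (Or.inl ⟨by omega, hcc⟩)] at hBB
      omega

/-- `w = h`, `1 < u < c + 1`, `d - w < u - 1`: impossible (class `p - n`) -/
theorem snw_eq (F : A.Fl) {i m f : ℤ} (h : A.OvL i m f A.h) (hm : m < 0) {n u fn : ℤ}
    (hn : A.Cls n u fn (-1)) (hwh : A.w = A.h) (hu : 1 ≤ u)
    (hB2 : u < m + A.h + 1 ∨ (u = m + A.h + 1 ∧ fn < f))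
    (hc : ¬ (u - 1 + A.h < A.md ∨ (u - 1 + A.h = A.md ∧ fn < A.fd))) : False := by
  have hw := A.hw
  have P1 := A.R2
  have hmd := A.hmd
  have cd := left_lt F h hm
  have hfd := hn.f_ne_fd
  rcases hn.neg with ⟨h1, h2⟩ | ⟨h1, h2⟩
  · rw [neg_neg] at h2
    by_cases hneg : A.md - u < 0
    · exact snw_left1 F h hm ⟨h2, by omega, by omega, by omega, by omega⟩ hneg
    · have := S2 F ⟨h2, by omega, by omega, by omega, by omega⟩ (by omega) (by omega)
      omega
  · rw [neg_neg] at h2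
    by_cases hneg : A.md - u - 1 < 0
    · exact snw_left1 F h hm ⟨h2, by omega, by omega, by omega, by omega⟩ hneg
    · have := S2 F ⟨h2, by omega, by omega, by omega, by omega⟩ (by omega) (by omega)
      omega

/-- outside `(-z, h-z+1)` -/
theorem snw_X1' (F : A.Fl) {i m f : ℤ} (h : A.OvL i m f A.h) (hm : m < 0) {n u fn : ℤ}
    (hn : A.Cls n u fn (-1)) (u1 : 1 - (A.w : ℤ) - A.h ≤ u) (u2 : u < 1 - (A.w : ℤ) - A.h + A.p)
    (hnw : ¬ (u - 1 + A.p < A.md ∨ (u - 1 + A.p = A.md ∧ fn < A.fd)))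
    (hB : (u < m ∨ (u = m ∧ fn < f)) ∨ (m + A.h + 1 < u ∨ (m + A.h + 1 = u ∧ f < fn))) :
    ((u < m ∨ (u = m ∧ fn < f)) ∧ 1 - (A.h : ℤ) ≤ u) ∨
      ((m + A.h + 1 < u ∨ (m + A.h + 1 = u ∧ f < fn)) ∧
        (u - 1 < A.md ∨ (u - 1 = A.md ∧ fn < A.fd))) := by
  have hw := A.hw
  have hwh := A.hwh
  have P1 := A.R2
  have hmd := A.hmd
  have hmd2 := A.hmd2
  have hne := snw_ne h.1 hn
  have cd := left_lt F h hm
  have ffn : fn ≠ f := hn.f_ne h.1 hne
  obtain ⟨hC, m1, m2, v1, v2⟩ := id h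
  have hj : A.VW i (m + A.w) f (A.h - A.w) := ⟨m, A.h, hC, Or.inr ⟨rfl, rfl⟩⟩
  have hX1 : A.HW n (u - 1) fn (-1) := ⟨u, -1, hn, Or.inl ⟨by ring, rfl⟩⟩
  obtain ⟨δ, hδ, hδ'⟩ : ∃ δ : ℤ, δ = (if f < fn then 1 else 0) ∧
      ((δ = 1 ∧ f < fn) ∨ (δ = 0 ∧ fn < f)) := by
    refine ⟨_, rfl, ?_⟩
    split_ifs <;> omega
  clear v1 v2
  by_cases hwrap : (u - 1) - (m + A.w) + δ + A.p ≤ (A.h : ℤ) - A.w
  · exfalso
    obtain ⟨T, B, hT, hBB, E⟩ := E0c F hj hX1 hne (by omega) (by omega) cd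
      (r := (u - 1) - (m + A.w) + δ) (by rw [hδ]) (-A.w)
      (by omega) (by omega) (by omega) (by omega) (by omega)
      (by omega) (by omega) (by omega)
      (by omega) (by omega) (by omega) (by omega)
      (by omega) (by omega) (by omega) (by omega)
    clear hδ hj hX1 hn hC h F hne hT hBB
    rw [if_pos (by omega), if_neg (by omega), if_neg (by omega), if_neg (by omega),
      if_neg (by omega), if_neg (by omega)] at E
    omega
  obtain ⟨T, B, hT, hBB, E⟩ := E0c F hj hX1 hne (by omega) (by omega) cd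
    (r := (u - 1) - (m + A.w) + δ) (by rw [hδ]) (-1)
    (by omega) (by omega) (by omega) (by omega) (by omega)
    (by omega) (by omega) (by omega)
    (by omega) (by omega) (by omega) (by omega)
    (by omega) (by omega) (by omega) (by omega)
  clear hδ hj hX1 hn hC h F hne
  rw [if_pos (by omega), if_pos (by omega), if_neg (by omega),
    if_neg (c := -(A.w : ℤ) < (u - 1) - (m + A.w) + δ ∧
      (u - 1) - (m + A.w) + δ ≤ 0) (by omega)] at E
  by_cases hTc : (0 ≤ u - 1 ∧ (u - 1 < A.md ∨ (u - 1 = A.md ∧ fn < A.fd))) ∨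
      (u - 1 < 0 ∧ (u - 1 + A.p < A.md ∨ (u - 1 + A.p = A.md ∧ fn < A.fd)))
  · right
    clear E hT hBB
    omega
  · left
    rw [if_neg hTc] at hT
    subst hT
    by_cases hr : -(A.h : ℤ) < (u - 1) - (m + A.w) + δ ∧ (u - 1) - (m + A.w) + δ ≤ 0
    · clear E hBB
      omega
    · rw [if_neg hr] at E
      by_cases hr2 : -(A.w : ℤ) - A.h < (u - 1) - (m + A.w) + δ ∧ (u - 1) - (m + A.w) + δ ≤ -A.h
      · rw [if_pos hr2] at E
        by_cases hBc : (0 ≤ u - 1 + A.h ∧ (u - 1 + A.h < A.md ∨ (u - 1 + A.h = A.md ∧ fn < A.fd))) ∨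
            (u - 1 + A.h < 0 ∧ (u - 1 + A.h + A.p < A.md ∨ (u - 1 + A.h + A.p = A.md ∧ fn < A.fd)))
        · clear E hBB
          omega
        · rw [if_neg hBc] at hBB
          omega
      · rw [if_neg hr2] at E
        omega

/-- `u ∈ (h+1-z, d+1)` is impossible -/
theorem snw_far (F : A.Fl) {i m f : ℤ} (h : A.OvL i m f A.h) (hm : m < 0) {n u fn : ℤ}
    (hn : A.Cls n u fn (-1)) (hB1 : m + A.h + 1 < u ∨ (m + A.h + 1 = u ∧ f < fn))
    (hB2 : u - 1 < A.md ∨ (u - 1 = A.md ∧ fn < A.fd)) : False := by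
  have hw := A.hw
  have hwh := A.hwh
  have P1 := A.R2
  have hmd := A.hmd
  have hmd2 := A.hmd2
  have hne := snw_ne h.1 hn
  have cd := left_lt F h hm
  have ffn : fn ≠ f := hn.f_ne h.1 hne
  obtain ⟨hC, m1, m2, v1, v2⟩ := id h
  have hj : A.VW i (m + A.w) f (A.h - A.w) := ⟨m, A.h, hC, Or.inr ⟨rfl, rfl⟩⟩
  have hX2 : A.HW n (u - 1 - A.h) fn (-1 - A.h) := ⟨u, -1, hn, Or.inr ⟨by ring, rfl⟩⟩
  by_cases hB3 : u < m + 2 * A.h + 1 ∨ (u = m + 2 * A.h + 1 ∧ fn < f)
  · obtain ⟨δ, hδ, hδ'⟩ : ∃ δ : ℤ, δ = (if f < fn then 1 else 0) ∧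
        ((δ = 1 ∧ f < fn) ∨ (δ = 0 ∧ fn < f)) := by
      refine ⟨_, rfl, ?_⟩
      split_ifs <;> omega
    clear v1 v2
    obtain ⟨T, B, hT, hBB, E⟩ := E0c F hj hX2 hne (by omega) (by omega) cd
      (r := (u - 1 - A.h) - (m + A.w) + δ) (by rw [hδ]) (-A.h - A.w)
      (by omega) (by omega) (by omega) (by omega) (by omega)
      (by omega) (by omega) (by omega)
      (by omega) (by omega) (by omega) (by omega)
      (by omega) (by omega) (by omega) (by omega)
    obtain ⟨T', B', hTT, hBB', E'⟩ := E0c F hj hX2 hne (by omega) (by omega) cd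
      (r := (u - 1 - A.h) - (m + A.w) + δ) (by rw [hδ]) (-A.h - 1)
      (by omega) (by omega) (by omega) (by omega) (by omega)
      (by omega) (by omega) (by omega)
      (by omega) (by omega) (by omega) (by omega)
      (by omega) (by omega) (by omega) (by omega)
    have e1 : T' = T := by rw [hT, hTT]
    have e2 : B' = B := by rw [hBB, hBB']
    rw [e1, e2] at E'
    have EE := E.trans E'.symm
    rw [if_pos (Or.inl ⟨by omega, by omega⟩)] at hBB
    clear hBB' hTT hT e1 e2 E E'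
    rw [if_neg (by omega), if_neg (by omega), if_neg (by omega), if_neg (by omega),
      if_neg (by omega), if_pos (by omega)] at EE
    omega
  · have hV : A.VW n u fn (-1) := ⟨u, -1, hn, Or.inl ⟨rfl, rfl⟩⟩
    have hH : A.HW i m f 0 := ⟨m, A.h, hC, Or.inr ⟨by ring, by ring⟩⟩
    obtain ⟨δ, hδ, hδ'⟩ : ∃ δ : ℤ, δ = (if fn < f then 1 else 0) ∧
        ((δ = 1 ∧ fn < f) ∨ (δ = 0 ∧ f < fn)) := by
      refine ⟨_, rfl, ?_⟩
      split_ifs <;> omega
    have f0 := hC.2.2.1
    have f1 := hC.2.2.2.1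
    have g0 := hn.2.2.1
    have g1 := hn.2.2.2.1
    have hfd := hn.f_ne_fd
    have E := E0 F hV hH hne.symm (r := m - u + δ) (by rw [hδ]) (-1)
      (by rw [InA_iff (by omega) (by omega) (by omega), InA_iff (by omega) (by omega) (by omega)]
          omega)
      (by rw [InA_iff (by omega) (by omega) (by omega), InA_iff (by omega) (by omega) (by omega)]
          omega)
    have T0 : ¬ A.InL m f := by
      rw [InL_iff f0 f1 (by omega) (by omega)]; omega
    have k1 : InA A.p (-1) (-A.h) A.h := by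
      rw [InA_iff (by omega) (by omega) (by omega)]; omega
    have k2 : ¬ InA A.p (-1) (-A.w - A.h) A.h := by
      rw [InA_iff (by omega) (by omega) (by omega)]; omega
    have k3 : ¬ InA A.p (-1) (-A.w - A.h) A.w := by
      rw [InA_iff (by omega) (by omega) (by omega)]; omega
    have k4 : ¬ InA A.p (m - u + δ) (-A.h) A.h := by
      rw [InA_iff (by omega) (by omega) (by omega)]; omega
    have k5 : ¬ InA A.p (m - u + δ) (-A.w - A.h) A.h := by
      rw [InA_iff (by omega) (by omega) (by omega)]; omega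
    have k6 : ¬ InA A.p (m - u + δ) (-A.w - A.h) A.w := by
      rw [InA_iff (by omega) (by omega) (by omega)]; omega
    have hL : ¬ A.InL u fn := by
      intro hL
      unfold Phi at E
      simp only [T0, k1, k2, k3, k4, k5, k6, hL, and_false, false_and, and_self, if_true,
        if_false] at E
      omega
    rw [InL_iff g0 g1 (by omega) (by omega)] at hL
    rcases hn.neg with ⟨h1, h2⟩ | ⟨h1, h2⟩
    · rw [neg_neg] at h2
      exact snw_left1 F h hm ⟨h2, by omega, by omega, by omega, by omega⟩ (by omega)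
    · rw [neg_neg] at h2
      exact snw_left1 F h hm ⟨h2, by omega, by omega, by omega, by omega⟩ (by omega)

theorem specialNW (F : A.Fl) {i m f : ℤ} (h : A.OvL i m f A.h) (hm : m < 0) : False := by
  have hw := A.hw
  have hwh := A.hwh
  have P1 := A.R2
  have hmd := A.hmd
  have hmd2 := A.hmd2
  obtain ⟨n, u, fn, hn, u1, u2⟩ := Cls.row (A := A) (s := -1)
    (by intro hd
        have := Int.le_of_dvd (by norm_num) ((Int.dvd_neg).1 hd)
        omega) (1 - A.w - A.h)
  have hne := snw_ne h.1 hn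
  have ffn : fn ≠ f := hn.f_ne h.1 hne
  have cd := left_lt F h hm
  by_cases hwr : u - 1 + A.p < A.md ∨ (u - 1 + A.p = A.md ∧ fn < A.fd)
  · exfalso
    have hn' : A.Cls n (u + A.p) fn (-1) := by
      have := hn.shift 1 0
      have e3 : u + A.p * 1 = u + A.p := by ring
      have e4 : (-1 : ℤ) + A.p * 0 = -1 := by ring
      rwa [e3, e4] at this
    obtain ⟨hC, m1, m2, v1, v2⟩ := id h
    by_cases hfar : u + A.p < m + A.h + 1 ∨ (u + A.p = m + A.h + 1 ∧ fn < f)
    · rcases snw_X1 F h hm hn' (by omega) hfar with h1 | ⟨h1, h2, h3⟩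
      · omega
      · omega
    · exact snw_far F h hm hn' (by omega) (by omega)
  by_cases hA : (m < u ∨ (m = u ∧ f < fn)) ∧ (u < m + A.w ∨ (u = m + A.w ∧ fn < f))
  · by_cases hu : 0 ≤ u
    · exact EZ_W F h hm (⟨u, -1, hn, Or.inl ⟨rfl, rfl⟩⟩ : A.VW n u fn (-1)) hne.symm hu
        (by omega) (by omega)
    · obtain ⟨hC, m1, m2, v1, v2⟩ := id h
      by_cases hu2 : 1 - (A.h : ℤ) ≤ u
      · have hO : A.OvL n u fn (-1) := ⟨hn, by omega, by omega, by omega, by omega⟩
        exact hne (left_unique F hO (by omega) h hm)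
      · have hj : A.VW i (m + A.w) f (A.h - A.w) := ⟨m, A.h, hC, Or.inr ⟨rfl, rfl⟩⟩
        have hX1 : A.HW n (u - 1) fn (-1) := ⟨u, -1, hn, Or.inl ⟨by ring, rfl⟩⟩
        have hum : u = m := by omega
        have hfn : f < fn := by omega
        obtain ⟨T, B, hT, hB, E⟩ := E0c F hj hX1 hne (by omega) (by omega) cd
          (r := (u - 1) - (m + A.w) + 1) (by rw [if_pos hfn]) 0
          (by omega) (by omega) (by omega) (by omega) (by omega) (by omega) (by omega) (by omega)
          (by omega) (by omega) (by omega) (by omega) (by omega) (by omega) (by omega) (by omega)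
        rw [if_neg (by omega)] at hT hB
        rw [if_pos (by omega), if_pos (by omega), if_neg (by omega), if_neg (by omega),
          if_neg (by omega), if_pos (by omega)] at E
        omega
  · by_cases hB : (m + A.w < u ∨ (m + A.w = u ∧ f < fn)) ∧
      (u < m + A.h + 1 ∨ (u = m + A.h + 1 ∧ fn < f))
    · rcases snw_X1 F h hm hn hB.1 hB.2 with h1 | ⟨h1, h2, h3⟩
      · have m1 := h.2.1
        have : u = 0 := by omega
        subst this
        exact snw_small F hn
      · exact snw_eq F h hm hn h1 h2 hB.2 h3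
    · rcases snw_X1' F h hm hn u1 u2 hwr (by omega) with ⟨h1, h2⟩ | ⟨h1, h2⟩
      · by_cases h3 : -(A.w : ℤ) ≤ u
        · have hO : A.OvL n u fn (-1) := ⟨hn, by omega, by omega, by omega, by omega⟩
          exact hne (left_unique F hO (by omega) h hm)
        · exact march F h hm (by omega) hn h2 (by omega)
      · exact snw_far F h hm hn h1 h2


end Ap

end Pool.Agent.H98.Flat
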