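import Pool.Agent.H98.Flat.O.SpecialSE
import Pool.Agent.H98.Flat.O.SpecialNW

/-! Section 7: a flat progression has no overlapping classes. -/

namespace Pool.Agent.H98.Flat

namespace Ap

variable {A : Ap} [Fact A.Reg]

theorem no_overlap (F : A.Fl) {i m f s : ℤ} (h : A.OvL i m f s) : False := by
  have hNW : ∀ i m f, A.OvL i m f A.h → m < 0 → False := fun i m f h hm => specialNW F h hm
  have hw := A.hw
  have hwh := A.hwh
  -- right types with `U < d` and row `> -h`
  have hR1 : ∀ i m f s, A.OvL i m f s → 0 ≤ m → (m < A.md ∨ (m = A.md ∧ f < A.fd)) →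
      -(A.h : ℤ) ≤ s → False := by
    intro i m f s h hm hd hs
    rcases eq_or_lt_of_le hs with e | e
    · subst e
      exact specialSE F h hm hd
    · by_cases hv : 0 ≤ m + s
      · exact near_ii F hNW h hm hd e (S2 F h hm hv)
      · exact near_ii F hNW h hm hd e (by omega)
  have hcmp : ∀ i m f s, A.OvL i m f s → (m < A.md ∨ (m = A.md ∧ f < A.fd)) ∨
      (A.md < m ∨ (m = A.md ∧ A.fd < f)) := by
    intro i m f s h
    have := h.1.f_ne_fd
    omega
  -- no NE type
  have hNE : ∀ i m f s, A.OvL i m f s → 0 ≤ m → 0 ≤ m + s → False := by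
    intro i m f s h hm hv
    rcases hcmp i m f s h with hd | hd
    · have h2 := h.2.2.1
      exact hR1 i m f s h hm hd (by omega)
    · have := right_far F h hm hd
      omega
  -- no right type
  have hE : ∀ i m f s, A.OvL i m f s → 0 ≤ m → False := by
    intro i m f s h hm
    have h4 := S4 F hNE h hm
    rcases hcmp i m f s h with hd | hd
    · exact hR1 i m f s h hm hd h4
    · have := right_far F h hm hd
      omega
  -- left types
  by_cases hm : 0 ≤ m
  · exact hE i m f s h hm
  · push Not at hm
    have h1 := h.2.1
    have h3 := h.2.2.2.1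
    by_cases hv : 0 ≤ m + s
    · have h3' := S3 F h hm hv
      rcases eq_or_lt_of_le h3' with e | e
      · subst e
        exact specialNW F h hm
      · exact near_iv F hE h hm (by omega) e
    · push Not at hv
      have h1' := S1 F h hm hv
      exact near_iv F hE h hm h1' (by omega)

end Ap

end Pool.Agent.H98.Flat
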