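import Pool.Agent.H98.Flat.O.TwoP

namespace Pool.Agent.H98.Flat

section
variable {p w h g r k lo len : ℤ}

theorem Rule.shift (R : Rule p w h g r k lo len) (t : ℤ) :
    Rule p w h g (r + p * t) (k + p * t) lo len := by
  intro Y
  have e1 : InA p (r + p * t) (g - h) h ↔ InA p r (g - h) h := InA_congr ⟨t, by ring⟩
  have e2 : InA p Y (k + p * t - w) w ↔ InA p Y (k - w) w := InA_congr ⟨-t, by ring⟩
  have e3 : InA p (r + p * t) lo len ↔ InA p r lo len := InA_congr ⟨t, by ring⟩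
  rw [e1, e2, e3]
  exact R Y

/-- the lift in a window -/
theorem exists_lift (hp : 0 < p) (r a : ℤ) : ∃ t, a < r + p * t ∧ r + p * t ≤ a + p := by
  refine ⟨-((r - a - 1) / p), ?_⟩
  have l := Int.emod_nonneg (r - a - 1) hp.ne'
  have u := Int.emod_lt_of_pos (r - a - 1) hp
  have e := Int.emod_add_mul_ediv (r - a - 1) p
  rw [mul_neg]
  constructor <;> omega

theorem lev00' (R : Rule p w h g r k (-h) h) (w2 : 2 ≤ w) (wh : w ≤ h) (P1 : 2 * (w + h) < p)
    (g1 : -h < g) (g2 : g < h - w) (k1 : r ≤ k) (k2 : k - w < r) : False := by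
  obtain ⟨t, t1, t2⟩ := exists_lift (p := p) (by omega) r (g - h)
  exact lev00 (R.shift t) w2 wh P1 g1 g2 t1 t2 (by omega) (by omega)

theorem lev11' (R : Rule p w h g r k (-w - h) h) (w2 : 2 ≤ w) (wh : w ≤ h) (P1 : 2 * (w + h) < p)
    (g1 : -h < g) (g2 : g < h - w) (k1 : r ≤ k) (k2 : k - w < r) : False := by
  obtain ⟨t, t1, t2⟩ := exists_lift (p := p) (by omega) r (g - h)
  exact lev11 (R.shift t) w2 wh P1 g1 g2 t1 t2 (by omega) (by omega)

theorem lev01' (R : Rule p w h g r k (-w - h) (w + h)) (w2 : 2 ≤ w) (wh : w ≤ h)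
    (P1 : 2 * (w + h) < p) (g1 : -h < g) (g2 : g < h - w) (k1 : r ≤ k) (k2 : k - w < r) :
    g ≤ 0 ∧ -w ≤ g ∧ (InA p r g (-g) ∨ InA p r (-w - h) (g + w)) := by
  obtain ⟨t, t1, t2⟩ := exists_lift (p := p) (by omega) r (g - h)
  obtain ⟨a1, a2, a3, a4⟩ := lev01 (R.shift t) w2 wh P1 g1 g2 t1 t2 (by omega) (by omega)
  refine ⟨a1, a2, ?_⟩
  rcases a4 with h4 | h4
  · left
    rw [← InA_congr (x := r + p * t) (lo := g) ⟨t, by ring⟩, InA_iff' (by omega) (by omega) (by omega)]
    omega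
  · right
    rw [← InA_congr (x := r + p * t - p) (lo := -w - h) ⟨t - 1, by ring⟩,
      InA_iff' (by omega) (by omega) (by omega)]
    omega

end

namespace Ap

variable {A : Ap} [Fact (2 * (A.w + A.h) < A.p)]

theorem InL_congr {m m' f : ℤ} (h : (A.p : ℤ) ∣ m - m') : A.InL m f ↔ A.InL m' f := by
  unfold InL
  rw [emod_congr (a := A.q * m + f) (b := A.q * m' + f)]
  obtain ⟨t, ht⟩ := h
  exact ⟨t, by linear_combination A.q * ht⟩

/-- (G+), with the lift `0 ≤ m + s < p` -/
theorem GplusP_aux (F : A.Fl) {j i mc fc g m f s : ℤ} (hj : A.VW j mc fc g)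
    (c0 : 0 ≤ mc) (cw : mc < A.w) (cd : mc < A.md ∨ (mc = A.md ∧ fc < A.fd))
    (g1 : -(A.h : ℤ) < g) (g2 : g < A.h - A.w)
    (hi : A.Cls i m f s) (hij : i ≠ j) (h1 : m < mc ∨ (m = mc ∧ f < fc))
    (h2 : mc - A.w < m ∨ (mc - A.w = m ∧ fc < f)) (t1 : 0 ≤ m + s) (t2 : m + s < A.p) : False := by
  have P1 : 2 * ((A.w : ℤ) + A.h) < A.p := by exact_mod_cast A.P1
  have hw2 : (2 : ℤ) ≤ A.w := by exact_mod_cast A.hw
  have hwh : (A.w : ℤ) ≤ A.h := by exact_mod_cast A.hwh
  have hp := A.p_pos'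
  have hmd := A.hmd
  have hmd2 := A.hmd2
  obtain ⟨mj, sj, hjc, hw⟩ := hj
  have hj : A.VW j mc fc g := ⟨mj, sj, hjc, hw⟩
  have fne := hi.f_ne hjc hij
  have f0 := hi.2.2.1
  have f1 := hi.2.2.2.1
  have ffd := hi.f_ne_fd
  have cd' := cd
  have h1' := h1
  have h2' := h2
  rw [lex_iff fne, ord_swap fne.symm] at h1
  rw [lex_iff fne.symm] at h2
  have hTop : A.HW i (m + s) f s := ⟨m, s, hi, Or.inl ⟨rfl, rfl⟩⟩
  have hBot : A.HW i (m + s - A.h) f (s - A.h) := ⟨m, s, hi, Or.inr ⟨rfl, rfl⟩⟩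
  have e01 := @ord01 f fc
  have hsw := ord_swap fne
  obtain ⟨e, he⟩ : ∃ e : ℤ, e = if f < fc then 1 else 0 := ⟨_, rfl⟩
  rw [← he] at h1 h2 e01 hsw
  have hr : m + s - mc + (1 - e) = m + s - mc + (if fc < f then 1 else 0) := by
    clear * - hsw; omega
  have hrb : m + s - A.h - mc + (1 - e) = m + s - A.h - mc + (if fc < f then 1 else 0) := by
    clear * - hsw; omega
  have kt1 : m + s - mc + (1 - e) ≤ s := by clear * - h1; omega
  have kt2 : s - A.w < m + s - mc + (1 - e) := by clear * - h2; omega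
  have kb1 : m + s - A.h - mc + (1 - e) ≤ s - A.h := by clear * - h1; omega
  have kb2 : s - A.h - A.w < m + s - A.h - mc + (1 - e) := by clear * - h2; omega
  have RT := rule_of_E0 F hj hTop c0 cw cd hij hr kt1 kt2 Iff.rfl Iff.rfl
  have RB := rule_of_E0 F hj hBot c0 cw cd hij hrb kb1 kb2 Iff.rfl Iff.rfl
  rw [show m + s - (A.h : ℤ) + A.h = m + s by ring] at RB
  have z1 : -(A.h : ℤ) - A.w = -A.w - A.h := by ring
  have z2 : (A.h : ℤ) + A.w = A.w + A.h := by ring
  by_cases hτ : A.InL (m + s) f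
  · have hτ' : m + s < A.md ∨ (m + s = A.md ∧ f < A.fd) := by
      rw [InL_iff f0 f1 (by clear * - t1 hp; omega) t2] at hτ
      clear * - hτ t1; omega
    by_cases hβ : A.InL (m + s + A.h) f
    · simp only [hτ, hβ, if_true, z1, z2] at RT
      rw [show (A.w : ℤ) + A.h - A.w = A.h by ring] at RT
      exact lev11' RT hw2 hwh P1 g1 g2 kt1 kt2
    by_cases hβ' : A.InL (m + s - A.h) f
    · simp only [hτ, hβ', if_true, z1, z2] at RB
      rw [show (A.w : ℤ) + A.h - A.w = A.h by ring] at RB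
      exact lev11' RB hw2 hwh P1 g1 g2 kb1 kb2
    simp only [hτ, hβ, if_true, if_false, sub_zero, add_zero] at RT
    simp only [hτ, hβ', if_true, if_false, sub_zero, z1, z2] at RB
    obtain ⟨b1, b2, b3⟩ := lev01' RB hw2 hwh P1 g1 g2 kb1 kb2
    -- `V_i < h`
    have vh : m + s < A.h := by
      by_contra hc
      apply hβ'
      rw [InL_iff f0 f1 (by clear * - t1 hc hp; omega) (by clear * - t1 t2 hc hp hwh hw2; omega)]
      left
      clear * - hc hτ' hw2 hwh; omega
    rcases b3 with b3 | b3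
    · -- `g < r_B ≤ 0`
      rw [InA_iff' (by clear * - t1 cw h1 h2 e01 P1 hw2 hwh b1 b2; omega)
        (by clear * - vh c0 e01 P1 hw2 hwh b1 b2; omega) (by clear * - P1 hw2 hwh b1 b2; omega)] at b3
      rcases lt_or_eq_of_le hwh with hlt | heq
      · have C := RT.RN hw2 hwh P1 g1 (by clear * - g2 hw2; omega) (by clear * - b3 P1 hw2 hwh b2; omega)
          (by clear * - vh c0 e01 P1 hw2 hwh b2; omega) kt1 kt2 (by clear * - hw2; omega)
          (by clear * - hlt; omega) (by clear * - hw2; omega) (-A.h + 1)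
          (by clear * - b1; omega) (by clear * - b2 hlt; omega) (by clear * - b3 kt1 b2 hlt hw2; omega)
          (by clear * - kt2 vh c0 e01 P1 hw2; omega)
        have hc := C.1 ⟨by clear * - hw2; omega, by clear * - hlt; omega⟩
        clear * - hc b3 b2 P1 hw2 hwh vh c0 e01
        omega
      · refine two' F (by exact_mod_cast heq) hjc hw c0 cw cd' hi hij h1' h2' b2
          (by clear * - g2 heq; omega) ?_ (by clear * - vh heq; omega) hτ'
        rw [lex_iff fne.symm, ← he]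
        clear * - b3 heq
        omega
    · -- `r_B ≤ g - h`
      rw [InA_iff' (by clear * - t1 cw h1 h2 e01 P1 hw2 hwh b1 b2; omega)
        (by clear * - vh c0 e01 P1 hw2 hwh b1 b2; omega) (by clear * - P1 hw2 hwh b1 b2; omega)] at b3
      refine alpha F hjc hw c0 cw cd' hi hij h1' h2' (by clear * - b3 t1 cw e01; omega) b1 t1 ?_
      rw [lex_iff fne, ord_swap fne.symm, ← he]
      clear * - b3
      omega
  · by_cases hβ' : A.InL (m + s - A.h) f
    swap
    · simp only [hτ, hβ', if_false, sub_zero, add_zero] at RB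
      exact lev00' RB hw2 hwh P1 g1 g2 kb1 kb2
    by_cases hβ : A.InL (m + s + A.h) f
    swap
    · simp only [hτ, hβ, if_false, sub_zero, add_zero] at RT
      exact lev00' RT hw2 hwh P1 g1 g2 kt1 kt2
    exfalso
    simp only [hτ, hβ', if_true, if_false, sub_zero, add_zero] at RB
    simp only [hτ, hβ, if_true, if_false, sub_zero, z1, z2] at RT
    obtain ⟨b1, b2, b3⟩ := lev01' RT hw2 hwh P1 g1 g2 kt1 kt2
    have hτ' : ¬ (m + s < A.md) := by
      intro hc
      apply hτ
      rw [InL_iff f0 f1 (by clear * - t1 hp; omega) t2]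
      left; exact ⟨t1, Or.inl hc⟩
    have hbig : A.p ≤ m + s + A.h := by
      by_contra hc
      have := (InL_iff f0 f1 (by clear * - t1 hp; omega) (by clear * - hc; omega)).1 hβ
      clear * - this hτ' hw2 hwh t1
      omega
    have hb' : m + s - A.h ≤ A.md := by
      have := (InL_iff f0 f1 (by clear * - hbig P1 hw2 hwh; omega) (by clear * - t2 hw2 hwh; omega)).1 hβ'
      clear * - this hbig P1 hw2 hwh
      omega
    have hb3 : InA A.p (m + s - mc + (1 - e) - A.p) g (-g) ∨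
        InA A.p (m + s - mc + (1 - e) - A.p) (-A.w - A.h) (g + A.w) := by
      rw [InA_congr (x := m + s - mc + (1 - e) - A.p) (x' := m + s - mc + (1 - e)) (lo := g)
        (lo' := g) ⟨-1, by ring⟩,
        InA_congr (x := m + s - mc + (1 - e) - A.p) (x' := m + s - mc + (1 - e))
        (lo := -(A.w : ℤ) - A.h) (lo' := -(A.w : ℤ) - A.h) ⟨-1, by ring⟩]
      exact b3
    rw [InA_iff' (by clear * - hbig cw e01 P1 hw2 hwh b1 b2; omega)
        (by clear * - t2 c0 e01 P1 hw2 hwh b1 b2; omega) (by clear * - P1 hw2 hwh b1 b2; omega),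
      InA_iff' (by clear * - hbig cw e01 P1 hw2 hwh b1 b2; omega)
        (by clear * - t2 c0 e01 P1 hw2 hwh b1 b2; omega) (by clear * - P1 hw2 hwh b1 b2; omega)] at hb3
    rcases hb3 with hb3 | hb3
    · clear * - hb3 b2 hb' hmd2 P1 e01 c0
      omega
    · have C := RB.RN hw2 hwh P1 g1 (by clear * - g2 hw2; omega)
        (by clear * - hbig cw e01 P1 hw2 hwh b1 b2; omega)
        (by clear * - hb3; omega) kb1 kb2 (by clear * - hw2; omega)
        (by clear * - hwh; omega) (by clear * - hw2; omega) (-A.w)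
        (by clear * - g2; omega) (by clear * - b2; omega)
        (by clear * - hbig kb1 cw e01 P1 hw2 hwh; omega)
        (by clear * - kb2 hb3 e01 P1 hw2 hwh b1; omega)
      have hlt : (A.w : ℤ) < A.h := by
        clear * - hbig hb' hmd2 P1 hwh
        omega
      have hc := C.1 ⟨by clear * - hlt; omega, by clear * - hlt; omega⟩
      clear * - hc hb3 b1 P1 hw2 hwh hbig cw e01
      omega

/-- (G+): if `-h < g < h - w` then no class `i ≠ j` at all has `U_i` in `(c - w, c)` -/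
theorem GplusP (F : A.Fl) {j i mc fc g m f s : ℤ} (hj : A.VW j mc fc g)
    (c0 : 0 ≤ mc) (cw : mc < A.w) (cd : mc < A.md ∨ (mc = A.md ∧ fc < A.fd))
    (g1 : -(A.h : ℤ) < g) (g2 : g < A.h - A.w)
    (hi : A.Cls i m f s) (hij : i ≠ j) (h1 : m < mc ∨ (m = mc ∧ f < fc))
    (h2 : mc - A.w < m ∨ (mc - A.w = m ∧ fc < f)) : False := by
  obtain ⟨t, t1, t2⟩ := exists_lift A.p_pos' (m + s) (-1)
  have hi' : A.Cls i m f (s + A.p * t) := by simpa using hi.shift 0 t
  exact GplusP_aux F hj c0 cw cd g1 g2 hi' hij h1 h2 (by clear * - t1; omega) (by clear * - t2; omega)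

end Ap

end Pool.Agent.H98.Flat
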