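import Pool.Agent.H98.Flat.O.Defs

/-! Module GAP: three gaps. -/

namespace Pool.Agent.H98.Flat

open Finset

namespace Ap

variable {A : Ap}

/-- a class from a congruence -/
theorem gap_cls (A : Ap) {i x : ℤ} (h0 : 0 < i) (h1 : i < A.p)
    (hx : (A.p : ℤ) * A.q ∣ A.a * i - x) : A.Cls i (x / A.q) (x % A.q) (A.e * i) := by
  have hq : (0 : ℤ) < A.q := by exact_mod_cast A.hq
  have hne : x % (A.q : ℤ) ≠ 0 := by
    intro h
    have h2 : (A.q : ℤ) ∣ x := Int.dvd_of_emod_eq_zero h
    have h3 : (A.q : ℤ) ∣ A.a * i - x := (Dvd.intro_left _ rfl).trans hx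
    have h4 : (A.q : ℤ) ∣ A.a * i := by
      have := dvd_add h3 h2
      rwa [sub_add_cancel] at this
    exact A.gen i (by omega) (by rw [abs_of_pos h0]; omega) h4
  refine ⟨h0, h1, ?_, Int.emod_lt_of_pos _ hq, ?_, ?_⟩
  · have := Int.emod_nonneg x hq.ne'
    omega
  · rw [Int.mul_ediv_add_emod]
    exact hx
  · rw [sub_self]
    exact dvd_zero _

theorem gap_lex {q m f m' f' : ℤ} (hf : 0 ≤ f) (hf2 : f < q) (hf2' : f' < q)
    (h : q * m + f ≤ q * m' + f') : m < m' ∨ (m = m' ∧ f ≤ f') := by
  rcases lt_trichotomy m m' with h1 | h1 | h1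
  · exact Or.inl h1
  · right
    subst h1
    exact ⟨rfl, by linarith⟩
  · exfalso
    have : q * (m' + 1) ≤ q * m := mul_le_mul_of_nonneg_left (by omega) (by omega)
    nlinarith

/-- three gaps: `U_a = (ma, fa)` smallest positive, `U_b = (mb, fb)` largest negative -/
theorem gap (A : Ap) : ∃ a ma fa sa b mb fb sb, A.Cls a ma fa sa ∧ A.Cls b mb fb sb ∧
    0 ≤ ma ∧ mb < 0 ∧
    (∀ i m f s, A.Cls i m f s → 0 ≤ m → ma < m ∨ (ma = m ∧ fa ≤ f)) ∧
    (∀ i m f s, A.Cls i m f s → m < 0 → m < mb ∨ (m = mb ∧ f ≤ fb)) ∧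
    (A.p : ℤ) ≤ a + b ∧
    b * (A.q * ma + fa) - a * (A.q * mb + fb) = A.p * A.q := by
  have hq : (0 : ℤ) < A.q := by exact_mod_cast A.hq
  have hp : (0 : ℤ) < A.p := by exact_mod_cast A.hp
  have hp2 : (2 : ℤ) < A.p := by have := A.h2; have := A.hw; have := A.hwh; omega
  set N : ℤ := (A.p : ℤ) * A.q with hN
  have hN0 : 0 < N := mul_pos hp hq
  -- residues are never `0`
  have hne : ∀ i x : ℤ, 0 < i → i < A.p → N ∣ A.a * i - x → x ≠ 0 := by
    intro i x h0 h1 hx hx0
    subst hx0
    rw [sub_zero] at hx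
    exact A.gen i (by omega) (by rw [abs_of_pos h0]; omega) ((Dvd.intro_left _ rfl).trans hx)
  have hres : ∀ i : ℤ, N ∣ A.a * i - (A.a * i) % N := by
    intro i
    exact Int.dvd_self_sub_emod
  have hrpos : ∀ i : ℤ, 0 < i → i < A.p → 0 < (A.a * i) % N ∧ (A.a * i) % N < N := by
    intro i h0 h1
    have h2 := Int.emod_nonneg (A.a * i) hN0.ne'
    have h3 := hne i _ h0 h1 (hres i)
    exact ⟨by omega, Int.emod_lt_of_pos _ hN0⟩
  have hS : (Finset.Ioo (0 : ℤ) A.p).Nonempty := ⟨1, by rw [Finset.mem_Ioo]; omega⟩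
  obtain ⟨a, ha, hamin⟩ := Finset.exists_min_image _ (fun i : ℤ => (A.a * i) % N) hS
  obtain ⟨b, hb, hbmax⟩ := Finset.exists_max_image _ (fun i : ℤ => (A.a * i) % N) hS
  rw [Finset.mem_Ioo] at ha hb
  set X : ℤ := (A.a * a) % N with hX
  set Z : ℤ := (A.a * b) % N with hZ
  have hXp := hrpos a ha.1 ha.2
  have hZp := hrpos b hb.1 hb.2
  rw [← hX] at hXp
  rw [← hZ] at hZp
  -- minimality for all representatives
  have hmin : ∀ i x : ℤ, 0 < i → i < A.p → N ∣ A.a * i - x → 0 < x → X ≤ x := by
    intro i x h0 h1 hx hx0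
    have h2 := hamin i (by rw [Finset.mem_Ioo]; exact ⟨h0, h1⟩)
    have h3 : (A.a * i) % N = x % N :=
      Int.emod_eq_emod_iff_emod_sub_eq_zero.mpr (Int.emod_eq_zero_of_dvd hx)
    have h4 : x % N ≤ x := by
      have h6 := Int.emod_add_mul_ediv x N
      have h7 : 0 ≤ x / N := Int.ediv_nonneg hx0.le hN0.le
      have h8 : 0 ≤ N * (x / N) := mul_nonneg hN0.le h7
      linarith
    omega
  have hmax : ∀ i x : ℤ, 0 < i → i < A.p → N ∣ A.a * i - x → x < 0 → x ≤ Z - N := by
    intro i x h0 h1 hx hx0
    have h2 := hbmax i (by rw [Finset.mem_Ioo]; exact ⟨h0, h1⟩)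
    have h3 : (A.a * i) % N = x % N :=
      Int.emod_eq_emod_iff_emod_sub_eq_zero.mpr (Int.emod_eq_zero_of_dvd hx)
    have h4 : x + N ≤ x % N := by
      have h5 := Int.emod_nonneg x hN0.ne'
      have h6 := Int.emod_add_mul_ediv x N
      have h7 : x / N < 0 := Int.ediv_neg_of_neg_of_pos hx0 hN0
      have h8 : N * (x / N) ≤ N * (-1) := mul_le_mul_of_nonneg_left (by omega) hN0.le
      linarith
    omega
  have hda : N ∣ A.a * a - X := hres a
  have hdb : N ∣ A.a * b - (Z - N) := by
    have := dvd_add (hres b) (dvd_refl N)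
    have h2 : A.a * b - (Z - N) = A.a * b - Z + N := by ring
    rw [h2]
    exact this
  have hZN : Z - N < 0 := by omega
  -- no class strictly between
  have hno : ∀ i x : ℤ, 0 < i → i < A.p → N ∣ A.a * i - x → x < X → Z - N < x → False := by
    intro i x h0 h1 hx hx1 hx2
    rcases lt_trichotomy x 0 with h2 | h2 | h2
    · have := hmax i x h0 h1 hx h2
      omega
    · exact hne i x h0 h1 hx h2
    · have := hmin i x h0 h1 hx h2
      omega
  -- `a + b ≥ p`
  have hab : (A.p : ℤ) ≤ a + b := by
    by_contra hlt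
    rw [not_le] at hlt
    apply hno (a + b) (X + (Z - N)) (by omega) hlt
    · have h1 := dvd_add hda hdb
      have h2 : A.a * (a + b) - (X + (Z - N)) = A.a * a - X + (A.a * b - (Z - N)) := by ring
      rw [h2]
      exact h1
    · omega
    · omega
  set B : ℤ := N - Z with hB
  have hZB : Z - N = -B := by rw [hB]; ring
  rw [hZB] at hmax hdb hZN hno
  have hBpos : 0 < B := by omega
  set D : ℤ := a * B + b * X with hD
  have hD0 : 0 < D := by
    have h1 : 0 < a * B := mul_pos ha.1 hBpos
    have h2 : 0 < b * X := mul_pos hb.1 hXp.1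
    omega
  -- every vector of the lattice is an integral combination of the two basis vectors
  have hlat : ∀ i x : ℤ, N ∣ A.a * i - x → D ∣ i * B + b * x ∧ D ∣ X * i - a * x := by
    intro i x hx
    set S : ℤ := i * B + b * x with hSd
    set T : ℤ := X * i - a * x with hTd
    set s0 : ℤ := S / D with hs0
    set t0 : ℤ := T / D with ht0
    have hS1 : S % D + D * s0 = S := Int.emod_add_mul_ediv S D
    have hT1 : T % D + D * t0 = T := Int.emod_add_mul_ediv T D
    have hσ0 := Int.emod_nonneg S hD0.ne'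
    have hσ1 := Int.emod_lt_of_pos S hD0
    have hτ0 := Int.emod_nonneg T hD0.ne'
    have hτ1 := Int.emod_lt_of_pos T hD0
    set σ : ℤ := S % D with hσ
    set τ : ℤ := T % D with hτ
    set i' : ℤ := i - s0 * a - t0 * b with hi'
    set x' : ℤ := x - s0 * X + t0 * B with hx'
    have hx'' : N ∣ A.a * i' - x' := by
      have h1 := dvd_sub (dvd_sub hx (hda.mul_left s0)) (hdb.mul_left t0)
      have h2 : A.a * i' - x' = A.a * i - x - s0 * (A.a * a - X) - t0 * (A.a * b - -B) := by
        rw [hi', hx']; ring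
      rw [h2]
      exact h1
    have e1 : D * i' = a * σ + b * τ := by
      have h1 : D * i = a * S + b * T := by rw [hD, hSd, hTd]; ring
      have h2 : a * S + b * T = a * (σ + D * s0) + b * (τ + D * t0) := by rw [hS1, hT1]
      rw [hi']
      linear_combination h1 + h2
    have e2 : D * x' = X * σ - B * τ := by
      have h1 : D * x = X * S - B * T := by rw [hD, hSd, hTd]; ring
      have h2 : X * S - B * T = X * (σ + D * s0) - B * (τ + D * t0) := by rw [hS1, hT1]
      rw [hx']
      linear_combination h1 + h2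
    have hzero : σ = 0 ∧ τ = 0 := by
      have g1 : 0 ≤ a * σ := mul_nonneg ha.1.le hσ0
      have g2 : 0 ≤ b * τ := mul_nonneg hb.1.le hτ0
      have hi0 : 0 ≤ i' := by
        by_contra hneg
        rw [not_le] at hneg
        have : D * i' < 0 := mul_neg_of_pos_of_neg hD0 hneg
        omega
      rcases hi0.eq_or_lt with h | hi0'
      · rw [← h, mul_zero] at e1
        have g3 : a * σ = 0 := by omega
        have g4 : b * τ = 0 := by omega
        rcases mul_eq_zero.mp g3 with h5 | h5
        · omega
        · rcases mul_eq_zero.mp g4 with h6 | h6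
          · omega
          · exact ⟨h5, h6⟩
      · exfalso
        by_cases hip : i' < A.p
        · apply hno i' x' hi0' hip hx''
          · -- `x' < X`
            have g5 : X * σ ≤ X * (D - 1) := mul_le_mul_of_nonneg_left (by omega) hXp.1.le
            have g6 : 0 ≤ B * τ := mul_nonneg hBpos.le hτ0
            have g7 : D * x' < D * X := by
              have : X * (D - 1) = D * X - X := by ring
              have := hXp.1
              omega
            exact lt_of_mul_lt_mul_left g7 hD0.le
          · have g5 : B * τ ≤ B * (D - 1) := mul_le_mul_of_nonneg_left (by omega) hBpos.le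
            have g6 : 0 ≤ X * σ := mul_nonneg hXp.1.le hσ0
            have g7 : D * (-B) < D * x' := by
              have : B * (D - 1) = D * B - B := by ring
              have h9 : D * (-B) = -(D * B) := by ring
              omega
            exact lt_of_mul_lt_mul_left g7 hD0.le
        · rw [not_lt] at hip
          -- the reflected vector
          have e1' : D * (a + b - i') = a * (D - σ) + b * (D - τ) := by
            linear_combination -e1
          have e2' : D * (X - B - x') = X * (D - σ) - B * (D - τ) := by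
            linear_combination -e2
          apply hno (a + b - i') (X - B - x')
          · have g3 : 0 < a * (D - σ) := mul_pos ha.1 (by omega)
            have g4 : 0 < b * (D - τ) := mul_pos hb.1 (by omega)
            have g5 : 0 < D * (a + b - i') := by rw [e1']; omega
            by_contra hle
            rw [not_lt] at hle
            have := mul_nonpos_of_nonneg_of_nonpos hD0.le hle
            omega
          · omega
          · have h1 := dvd_sub (dvd_add hda hdb) hx''
            have h2 : A.a * (a + b - i') - (X - B - x') =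
                A.a * a - X + (A.a * b - -B) - (A.a * i' - x') := by ring
            rw [h2]
            exact h1
          · have g3 : X * (D - σ) ≤ X * D := mul_le_mul_of_nonneg_left (by omega) hXp.1.le
            have g4 : 0 < B * (D - τ) := mul_pos hBpos (by omega)
            have g7 : D * (X - B - x') < D * X := by
              rw [e2', mul_comm D X]
              omega
            exact lt_of_mul_lt_mul_left g7 hD0.le
          · have g3 : B * (D - τ) ≤ B * D := mul_le_mul_of_nonneg_left (by omega) hBpos.le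
            have g4 : 0 < X * (D - σ) := mul_pos hXp.1 (by omega)
            have g7 : D * (-B) < D * (X - B - x') := by
              have h9 : D * (-B) = -(B * D) := by ring
              rw [e2', h9]
              omega
            exact lt_of_mul_lt_mul_left g7 hD0.le
    rw [hzero.1, zero_add] at hS1
    rw [hzero.2, zero_add] at hT1
    exact ⟨⟨s0, hS1.symm⟩, ⟨t0, hT1.symm⟩⟩
  have hDN : D = N := by
    -- `N ∣ D`
    have h1 : N ∣ D := by
      have h2 := dvd_sub (hda.mul_left b) (hdb.mul_left a)
      have h3 : b * (A.a * a - X) - a * (A.a * b - -B) = -D := by rw [hD]; ring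
      rw [h3] at h2
      exact (dvd_neg).mp h2
    -- `D ∣ N`
    have h2 : D ∣ N := by
      obtain ⟨g1, g2⟩ := hlat 0 N (by rw [mul_zero, zero_sub]; exact (dvd_neg).mpr (dvd_refl N))
      obtain ⟨g3, g4⟩ := hlat 1 A.a (by rw [mul_one, sub_self]; exact dvd_zero _)
      have h5 : D * D ∣ (0 * B + b * N) * (X * 1 - a * A.a) - (X * 0 - a * N) * (1 * B + b * A.a) :=
        dvd_sub (mul_dvd_mul g1 g4) (mul_dvd_mul g2 g3)
      have h6 : (0 * B + b * N) * (X * 1 - a * A.a) - (X * 0 - a * N) * (1 * B + b * A.a) = D * N := by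
        rw [hD]; ring
      rw [h6] at h5
      exact (mul_dvd_mul_iff_left hD0.ne').mp h5
    exact Int.dvd_antisymm hD0.le hN0.le h2 h1
  refine ⟨a, X / A.q, X % A.q, A.e * a, b, (-B) / A.q, (-B) % A.q, A.e * b,
    gap_cls A ha.1 ha.2 hda, gap_cls A hb.1 hb.2 hdb, Int.ediv_nonneg hXp.1.le hq.le,
    Int.ediv_neg_of_neg_of_pos (by omega) hq, ?_, ?_, hab, ?_⟩
  · intro i m f s hi hm
    obtain ⟨h0, h1, h2, h3, h4, h5⟩ := hi
    apply gap_lex (q := A.q) (Int.emod_nonneg X hq.ne') (Int.emod_lt_of_pos _ hq) h3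
    rw [Int.mul_ediv_add_emod]
    apply hmin i _ h0 h1 h4
    have := mul_nonneg hq.le hm
    omega
  · intro i m f s hi hm
    obtain ⟨h0, h1, h2, h3, h4, h5⟩ := hi
    apply gap_lex (q := A.q) h2.le h3 (Int.emod_lt_of_pos _ hq)
    rw [Int.mul_ediv_add_emod]
    apply hmax i _ h0 h1 h4
    have : (A.q : ℤ) * m ≤ A.q * (-1) := mul_le_mul_of_nonneg_left (by omega) hq.le
    omega
  · rw [Int.mul_ediv_add_emod, Int.mul_ediv_add_emod, ← hDN, hD]
    ring

end Ap

end Pool.Agent.H98.Flat
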