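import Pool.Agent.H98.Flat.O.Basic

namespace Pool.Agent.H98.Flat

/-- the rule for levels: `J = (g-h, g]`, `K = (k-w, k]`, `I = (lo, lo+len]` -/
def Rule (p w h g r k lo len : ℤ) : Prop := ∀ Y,
  (InA p Y (g - h) h ↔ ¬ InA p r (g - h) h) → ¬ InA p Y (k - w) w →
    (InA p Y lo len ↔ InA p r lo len)

section
variable {p w h g r k lo len : ℤ}

/-- case `r ∈ J` -/
theorem Rule.RJ (R : Rule p w h g r k lo len) (w2 : 2 ≤ w) (wh : w ≤ h) (P1 : 2 * (w + h) < p)
    (g1 : -h < g) (g2 : g < h) (r1 : g - h < r) (r2 : r ≤ g) (k1 : r ≤ k) (k2 : k - w < r)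
    (lo1 : -w - h ≤ lo) (len0 : 0 ≤ len) (hi : lo + len ≤ 0) :
    ¬ (lo < r ∧ r ≤ lo + len) ∧
      ∀ Y, lo < Y → Y ≤ lo + len → (g - h < Y ∧ Y ≤ g) ∨ (k - w < Y ∧ Y ≤ k) := by
  have key : ∀ Y, (g < Y ∧ Y ≤ g - h + p) ∨ (g - p < Y ∧ Y ≤ g - h) → Y ≤ k - w ∨ k < Y →
      k - p < Y → Y ≤ k - w + p → (InA p Y lo len ↔ InA p r lo len) := by
    intro Y hY hK hK1 hK2
    apply R Y
    · rw [InA_iff' (x := r) (by omega) (by omega) (by omega)]
      rcases hY with hY | hY
      · rw [InA_iff' (x := Y) (by omega) (by omega) (by omega)]; omega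
      · rw [InA_iff (x := Y) (by omega) (by omega) (by omega)]; omega
    · rw [InA_iff' (x := Y) (by omega) (by omega) (by omega)]; omega
  have hr : InA p r lo len ↔ (lo < r ∧ r ≤ lo + len) :=
    InA_iff' (by omega) (by omega) (by omega)
  have A1 : ¬ InA p r lo len := by
    rcases le_or_gt 1 (g + w) with h1 | h1
    · rw [← key (g + w) (by omega) (by omega) (by omega) (by omega),
        InA_iff' (by omega) (by omega) (by omega)]
      omega
    · rw [← key 1 (by omega) (by omega) (by omega) (by omega),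
        InA_iff' (by omega) (by omega) (by omega)]
      omega
  refine ⟨by rw [← hr]; exact A1, ?_⟩
  intro Y Y1 Y2
  by_contra hc
  apply A1
  rw [← key Y (by omega) (by omega) (by omega) (by omega),
    InA_iff' (by omega) (by omega) (by omega)]
  omega

/-- case `r ∉ J`, `r` in the window above `J` -/
theorem Rule.RN (R : Rule p w h g r k lo len) (w2 : 2 ≤ w) (wh : w ≤ h) (P1 : 2 * (w + h) < p)
    (g1 : -h < g) (g2 : g < h) (r1 : g < r) (r2 : r ≤ g - h + p) (k1 : r ≤ k) (k2 : k - w < r)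
    (lo1 : -w - h ≤ lo) (len0 : 0 ≤ len) (hi : lo + len ≤ 0) :
    ∀ Y, g - h < Y → Y ≤ g → ¬ (k - w < Y ∧ Y ≤ k) → ¬ (k - w < Y + p ∧ Y + p ≤ k) →
      ((lo < Y ∧ Y ≤ lo + len) ↔ ((lo < r ∧ r ≤ lo + len) ∨ (lo < r - p ∧ r - p ≤ lo + len))) := by
  intro Y Y1 Y2 hK hK'
  have hr : InA p r lo len ↔ (lo < r ∧ r ≤ lo + len) ∨ (lo < r - p ∧ r - p ≤ lo + len) := by
    rcases le_or_gt (r - lo) p with h1 | h1
    · rw [InA_iff' (by omega) (by omega) (by omega)]; omega
    · rw [InA_congr (x' := r - p) (lo' := lo) ⟨1, by ring⟩,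
        InA_iff' (by omega) (by omega) (by omega)]; omega
  have hY : InA p Y lo len ↔ (lo < Y ∧ Y ≤ lo + len) :=
    InA_iff' (by omega) (by omega) (by omega)
  rw [← hr, ← hY]
  apply R Y
  · rw [InA_iff' (x := Y) (by omega) (by omega) (by omega),
      InA_iff' (x := r) (by omega) (by omega) (by omega)]
    omega
  · rcases le_or_gt (Y - (k - w)) (-p) with h1 | h1
    · rw [InA_congr (x' := Y + p) (lo' := k - w) ⟨-1, by ring⟩,
        InA_iff (by omega) (by omega) (by omega)]; omega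
    · rw [InA_iff (by omega) (by omega) (by omega)]; omega

theorem lev00 (R : Rule p w h g r k (-h) h) (w2 : 2 ≤ w) (wh : w ≤ h) (P1 : 2 * (w + h) < p)
    (g1 : -h < g) (g2 : g < h - w) (r1 : g - h < r) (r2 : r ≤ g - h + p)
    (k1 : r ≤ k) (k2 : k - w < r) : False := by
  rcases le_or_gt r g with hr | hr
  · obtain ⟨A1, A2⟩ := R.RJ w2 wh P1 g1 (by omega) r1 hr k1 k2 (by omega) (by omega) (by omega)
    have a1 := A2 (g - h)
    have a2 := A2 0
    omega
  · have C := R.RN w2 wh P1 g1 (by omega) hr r2 k1 k2 (by omega) (by omega) (by omega)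
    have a1 := C 1
    have a2 := C 0
    have a3 := C g
    have a4 := C (g - h + 1)
    have a5 := C (-h + 1)
    omega

theorem lev11 (R : Rule p w h g r k (-w - h) h) (w2 : 2 ≤ w) (wh : w ≤ h) (P1 : 2 * (w + h) < p)
    (g1 : -h < g) (g2 : g < h - w) (r1 : g - h < r) (r2 : r ≤ g - h + p)
    (k1 : r ≤ k) (k2 : k - w < r) : False := by
  rcases le_or_gt r g with hr | hr
  · obtain ⟨A1, A2⟩ := R.RJ w2 wh P1 g1 (by omega) r1 hr k1 k2 (by omega) (by omega) (by omega)
    have a1 := A2 (g - h)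
    have a2 := A2 (-w - h + 1)
    have a3 := A2 (-w)
    omega
  · have C := R.RN w2 wh P1 g1 (by omega) hr r2 k1 k2 (by omega) (by omega) (by omega)
    have a1 := C (-w)
    have a2 := C (g - h + 1)
    have a3 := C g
    have a4 := C (-w + 1)
    have a5 := C (-w - h + 1)
    omega

theorem lev01 (R : Rule p w h g r k (-w - h) (w + h)) (w2 : 2 ≤ w) (wh : w ≤ h)
    (P1 : 2 * (w + h) < p)
    (g1 : -h < g) (g2 : g < h - w) (r1 : g - h < r) (r2 : r ≤ g - h + p)
    (k1 : r ≤ k) (k2 : k - w < r) :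
    g ≤ 0 ∧ -w ≤ g ∧ g < r ∧ (r ≤ 0 ∨ (-w - h < r - p ∧ r - p ≤ g - h)) := by
  rcases le_or_gt r g with hr | hr
  · exfalso
    obtain ⟨A1, A2⟩ := R.RJ w2 wh P1 g1 (by omega) r1 hr k1 k2 (by omega) (by omega) (by omega)
    have a1 := A2 (g - h)
    have a2 := A2 (-w - h + 1)
    have a3 := A2 0
    omega
  · have C := R.RN w2 wh P1 g1 (by omega) hr r2 k1 k2 (by omega) (by omega) (by omega)
    have a1 := C 1
    have a2 := C (g - h + 1)
    have a3 := C g
    have a4 := C 0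
    have a5 := C (-w - h + 1)
    omega

end

end Pool.Agent.H98.Flat
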