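import Pool.Agent.H98.Flat.O.LevA
import Pool.Agent.H98.Flat.O.E0w

namespace Pool.Agent.H98.Flat

theorem InA_sub {p x lo c len : ℤ} (hp : 0 < p) (c0 : 0 ≤ c) (cl : c + len ≤ p) (l0 : 0 ≤ len) :
    InA p x (lo + c) len ↔ (c ≤ (x - lo - 1) % p ∧ (x - lo - 1) % p < c + len) := by
  unfold InA
  have a0 := Int.emod_nonneg (x - lo - 1) hp.ne'
  have a1 := Int.emod_lt_of_pos (x - lo - 1) hp
  have ae := Int.emod_add_mul_ediv (x - lo - 1) p
  have e : x - (lo + c) - 1 = ((x - lo - 1) % p - c) + p * ((x - lo - 1) / p) := by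
    linear_combination -ae
  rw [e, Int.add_mul_emod_self_left]
  generalize (x - lo - 1) % p = t at *
  rcases le_or_gt c t with h | h
  · rw [Int.emod_eq_of_lt (by omega) (by omega)]
    omega
  · rw [show (t - c) % p = (t - c + p) % p by rw [Int.add_emod_right],
      Int.emod_eq_of_lt (by omega) (by omega)]
    omega

namespace Ap

variable {A : Ap} [Fact (2 * (A.w + A.h) < A.p)]

/-- from (E0) to the rule for levels: wall `c ∈ (0, min d w)`, horizontal wall with `r ∈ K` -/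
theorem rule_of_E0 (F : A.Fl) {j i mc fc g mb fb k r : ℤ} (hj : A.VW j mc fc g)
    (hi : A.HW i mb fb k)
    (c0 : 0 ≤ mc) (cw : mc < A.w) (cd : mc < A.md ∨ (mc = A.md ∧ fc < A.fd))
    (hij : i ≠ j) (hr : r = mb - mc + (if fc < fb then 1 else 0)) (k1 : r ≤ k) (k2 : k - A.w < r)
    {T B : Prop} [Decidable T] [Decidable B] (hT : A.InL mb fb ↔ T) (hB : A.InL (mb + A.h) fb ↔ B) :
    Rule A.p A.w A.h g r k (-A.h - (if B then (A.w : ℤ) else 0))
      (A.h + (if B then (A.w : ℤ) else 0) - (if T then (A.w : ℤ) else 0)) := by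
  have P1 := A.P1
  have hw := A.hw
  have hwh := A.hwh
  have hp := A.p_pos'
  have hmd := A.hmd
  have hmd2 := A.hmd2
  have fc0 : 0 < fc := by obtain ⟨m, s, h, -⟩ := hj; exact h.2.2.1
  have fc1 : fc < A.q := by obtain ⟨m, s, h, -⟩ := hj; exact h.2.2.2.1
  intro Y h1 h2
  have hL : A.InL mc fc := by
    rw [InL_iff fc0 fc1 (by omega) (by omega)]; omega
  have hR : ¬ A.InL (mc - A.w) fc := by
    rw [InL_iff fc0 fc1 (by omega) (by omega)]; omega
  have hrK : InA A.p r (k - A.w) A.w := by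
    rw [InA_iff' (by omega) (by omega) (by omega)]; omega
  have key := E0 F hj hi hij hr Y h1 (by
    constructor
    · intro h; exact absurd h h2
    · intro h; exact absurd hrK h)
  unfold Phi at key
  simp only [hL, hR, hT, hB, true_and, false_and, if_false, add_zero] at key
  have e1 : ∀ x : ℤ, InA A.p x (-A.h) A.h ↔ (A.w ≤ (x - (-A.w - A.h) - 1) % (A.p : ℤ) ∧
      (x - (-A.w - A.h) - 1) % (A.p : ℤ) < A.w + A.h) := by
    intro x
    have := InA_sub (p := A.p) (x := x) (lo := -A.w - A.h) (c := A.w) (len := A.h) hp (by omega)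
      (by omega) (by omega)
    rwa [show -(A.w : ℤ) - A.h + A.w = -A.h by ring] at this
  have e2 : ∀ x : ℤ, InA A.p x (-A.w) A.w ↔ (A.h ≤ (x - (-A.w - A.h) - 1) % (A.p : ℤ) ∧
      (x - (-A.w - A.h) - 1) % (A.p : ℤ) < A.h + A.w) := by
    intro x
    have := InA_sub (p := A.p) (x := x) (lo := -A.w - A.h) (c := A.h) (len := A.w) hp (by omega)
      (by omega) (by omega)
    rwa [show -(A.w : ℤ) - A.h + A.h = -A.w by ring] at this
  have e3 : ∀ x : ℤ, InA A.p x (-A.w - A.h) A.w ↔ (x - (-A.w - A.h) - 1) % (A.p : ℤ) < A.w :=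
    fun x => Iff.rfl
  have e4 : ∀ x : ℤ, InA A.p x (-A.h - (if B then (A.w : ℤ) else 0))
      (A.h + (if B then (A.w : ℤ) else 0) - (if T then (A.w : ℤ) else 0)) ↔
      ((if B then (0 : ℤ) else A.w) ≤ (x - (-A.w - A.h) - 1) % (A.p : ℤ) ∧
      (x - (-A.w - A.h) - 1) % (A.p : ℤ) < A.w + A.h - (if T then (A.w : ℤ) else 0)) := by
    intro x
    have := InA_sub (p := A.p) (x := x) (lo := -A.w - A.h) (c := if B then (0 : ℤ) else A.w)
      (len := A.h + (if B then (A.w : ℤ) else 0) - (if T then (A.w : ℤ) else 0)) hp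
      (by split_ifs <;> omega) (by split_ifs <;> omega) (by split_ifs <;> omega)
    rw [show -(A.w : ℤ) - A.h + (if B then (0 : ℤ) else A.w)
      = -A.h - (if B then (A.w : ℤ) else 0) by split_ifs <;> ring] at this
    rw [this]
    split_ifs <;> omega
  rw [e4, e4]
  simp only [e1, e2, e3] at key
  have y0 := Int.emod_nonneg (Y - (-A.w - A.h) - 1) hp.ne'
  have r0 := Int.emod_nonneg (r - (-A.w - A.h) - 1) hp.ne'
  generalize (Y - (-A.w - A.h) - 1) % (A.p : ℤ) = y at *
  generalize (r - (-A.w - A.h) - 1) % (A.p : ℤ) = z at *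
  by_cases hb : B <;> by_cases ht : T <;> simp only [hb, ht, true_and, false_and, if_true, if_false] at key ⊢ <;> omega

end Ap

end Pool.Agent.H98.Flat
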