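import Pool.Agent.H98.Flat.O.LevB

namespace Pool.Agent.H98.Flat

section
variable {p w h g r k lo len : ℤ}

theorem levC (R : Rule p w h g r k lo (-lo)) (hlo : lo = -h ∨ lo = -w - h) (w2 : 2 ≤ w)
    (wh : w ≤ h) (P1 : 2 * (w + h) < p) (g1 : -w - h < g) (g2 : g ≤ p - w - h)
    (r1 : lo < r) (r2 : r ≤ 0) (k1 : r ≤ k) (k2 : k - w < r) :
    lo = -w - h ∧ -w ≤ g ∧ g ≤ 0 ∧ (r ≤ g - h ∨ g < r) := by
  have hrI : InA p r lo (-lo) := by
    rw [InA_iff' (by omega) (by omega) (by omega)]; omega
  have hrJ : InA p r (g - h) h ↔ (g - h < r ∧ r ≤ g) := by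
    rw [InA_iff (by omega) (by omega) (by omega)]; omega
  have nJ : ¬ (g - h < r ∧ r ≤ g) := by
    intro hJ
    have key : ∀ Y, g < Y → k < Y → 0 < Y → Y ≤ h + 1 → Y ≤ g - h + p → False := by
      intro Y Y1 Y2 Y3 Y4 Y5
      have := R Y ?_ ?_
      · rw [InA_iff' (x := Y) (by omega) (by omega) (by omega)] at this
        have := this.2 hrI
        omega
      · rw [hrJ, InA_iff' (x := Y) (by omega) (by omega) (by omega)]; omega
      · rw [InA_iff' (x := Y) (by omega) (by omega) (by omega)]; omega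
    rcases le_or_gt g k with h1 | h1
    · rcases le_or_gt k 0 with h2 | h2
      · exact key 1 (by omega) (by omega) (by omega) (by omega) (by omega)
      · exact key (k + 1) (by omega) (by omega) (by omega) (by omega) (by omega)
    · rcases le_or_gt g 0 with h2 | h2
      · exact key 1 (by omega) (by omega) (by omega) (by omega) (by omega)
      · exact key (g + 1) (by omega) (by omega) (by omega) (by omega) (by omega)
  -- `Y ∈ J \ K → Y ∈ I`
  have key : ∀ Y, g - h < Y → Y ≤ g → ¬ (k - w < Y ∧ Y ≤ k) → ¬ (k - w < Y - p ∧ Y - p ≤ k) →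
      ¬ (k - w < Y + p ∧ Y + p ≤ k) →
      (lo < Y ∧ Y ≤ 0) ∨ (lo < Y - p ∧ Y - p ≤ 0) := by
    intro Y Y1 Y2 h1 h2 h3
    have := R Y ?_ ?_
    · have := this.2 hrI
      rcases le_or_gt (Y - lo) p with h4 | h4
      · rw [InA_iff (by omega) (by omega) (by omega)] at this
        omega
      · rw [InA_congr (x' := Y - p) (lo' := lo) ⟨1, by ring⟩,
          InA_iff (by omega) (by omega) (by omega)] at this
        omega
    · rw [hrJ, InA_iff' (x := Y) (by omega) (by omega) (by omega)]; omega
    · rcases le_or_gt (Y - (k - w)) p with h4 | h4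
      · rcases le_or_gt (Y - (k - w)) (-p) with h5 | h5
        · rw [InA_congr (x' := Y + p) (lo' := k - w) ⟨-1, by ring⟩,
            InA_iff (by omega) (by omega) (by omega)]; omega
        · rw [InA_iff (by omega) (by omega) (by omega)]; omega
      · rw [InA_congr (x' := Y - p) (lo' := k - w) ⟨1, by ring⟩,
          InA_iff (by omega) (by omega) (by omega)]; omega
  have a1 := key (g - h + 1)
  have a2 := key g
  have a3 := key 1
  omega

end

end Pool.Agent.H98.Flat
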