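import Pool.Agent.H98.Flat.O.E0x

/-!
Section 1 without P1, for `w < h`, `2 w + h ≤ p`: the one-witness categories.
-/

namespace Pool.Agent.H98.Flat

namespace Ap

variable {A : Ap}

/-- the level of the difference of two positions with different fractional parts -/
theorem lev {a f f' : ℤ} (hf : f ≠ f') : ∃ r : ℤ, r = a + (if f < f' then 1 else 0) ∧
    ((f < f' ∧ r = a + 1) ∨ (f' < f ∧ r = a)) := by
  by_cases h : f < f'
  · exact ⟨a + 1, by rw [if_pos h], Or.inl ⟨h, rfl⟩⟩
  · exact ⟨a, by rw [if_neg h, add_zero], Or.inr ⟨by omega, rfl⟩⟩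

theorem Cls.s_ne {i m f s : ℤ} (hc : A.Cls i m f s) (t : ℤ) : s ≠ A.p * t := by
  rintro rfl
  apply not_dvd_e hc.1 hc.2.1
  have := hc.2.2.2.2.2
  have h2 : (A.p : ℤ) ∣ A.p * t := ⟨t, rfl⟩
  simpa using dvd_add this h2

/-- category `α`: `0 < V_i < V_j`, `d - h < V_i` -/
theorem loc_alpha (F : A.Fl) {j i mc fc g m f s : ℤ} (hj : A.VW j mc fc g)
    (c0 : 0 ≤ mc) (cw : mc < A.w) (cd : mc < A.md ∨ (mc = A.md ∧ fc < A.fd))
    (hwh' : A.w < A.h) (hP : 2 * A.w + A.h ≤ A.p) (g0 : -(A.w : ℤ) ≤ g) (g1 : g ≤ 0)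
    (hi : A.Cls i m f s) (hij : i ≠ j) (h1 : m < mc ∨ (m = mc ∧ f < fc))
    (h2 : mc - A.w < m ∨ (mc - A.w = m ∧ fc < f))
    (e0 : 0 ≤ m + s) (e1 : m + s < mc + g ∨ (m + s = mc + g ∧ f < fc))
    (e2 : A.md < m + s + A.h ∨ (A.md = m + s + A.h ∧ A.fd < f)) : False := by
  have hw := A.hwz
  have P1 := A.h2z
  have hmd := A.hmd
  have hmd2 := A.hmd2
  obtain ⟨mj, sj, hc, hcw⟩ := hj
  have ffn : f ≠ fc := hi.f_ne hc hij
  have f0 := hi.2.2.1
  have f1 := hi.2.2.2.1
  have k0 := hc.2.2.1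
  have k1 := hc.2.2.2.1
  have sj0 : sj ≠ 0 := by simpa using hc.s_ne 0
  have hVi : A.VW i m f s := ⟨m, s, hi, Or.inl ⟨rfl, rfl⟩⟩
  have hHj : A.HW j (mc + g - A.h) fc (sj - A.h) := by
    refine ⟨mj, sj, hc, Or.inr ⟨?_, rfl⟩⟩
    rcases hcw with ⟨a, b⟩ | ⟨a, b⟩ <;> rw [a, b] <;> ring
  obtain ⟨r, hr, hr'⟩ := lev (a := mc + g - A.h - m) ffn
  have hT := v0 (A := A) (m := mc + g - A.h) k0 k1 (by omega) (by omega) (by omega)
  have hB : (if A.InL (mc + g - A.h + A.h) fc then (1 : ℤ) else 0) = 1 := by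
    rw [show mc + g - (A.h : ℤ) + A.h = mc + g by ring]
    exact v1 k0 k1 (by omega) (by omega) (by omega)
  have rJ : Ar A.p r (s - A.h) s := by unfold Ar; left; constructor <;> omega
  by_cases hE : 0 ≤ m
  · have hL := v1 (A := A) (m := m) f0 f1 (by omega) (by omega) (by omega)
    have hR := v0 (A := A) (m := m - A.w) f0 f1 (by omega) (by omega) (by omega)
    rcases hcw with ⟨a, b⟩ | ⟨a, b⟩
    · have E := E0x F hVi hHj (Ne.symm hij) 0 (r := r) (by rw [hr]; ring) hL hR hT hB
        (by omega) (by omega) (by omega) (by omega) (by omega) (by omega)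
        (g - A.h - A.w + 1 + A.p) (by omega) (by omega)
        (iff_of_false (by unfold Ar; omega) (by simpa using rJ))
        (iff_of_true (by unfold Ar; omega) (by unfold Ar; omega))
      unfold phi4 at E
      omega
    · have E := E0x F hVi hHj (Ne.symm hij) 0 (r := r) (by rw [hr]; ring) hL hR hT hB
        (by omega) (by omega) (by omega) (by omega) (by omega) (by omega) (A.p - A.w - A.h)
        (by omega) (by omega)
        (iff_of_false (by unfold Ar; omega) (by simpa using rJ))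
        (iff_of_false (by unfold Ar; omega) (by unfold Ar; omega))
      unfold phi4 at E
      omega
  · have hL := v0 (A := A) (m := m) f0 f1 (by omega) (by omega) (by omega)
    have hR := v0 (A := A) (m := m - A.w) f0 f1 (by omega) (by omega) (by omega)
    rcases hcw with ⟨a, b⟩ | ⟨a, b⟩
    · obtain ⟨Y, hY⟩ : ∃ Y : ℤ, (-(A.w : ℤ) < g ∧ Y = g - A.h) ∨
          (g = -A.w ∧ Y = g - A.h + A.p) := by
        by_cases h : g = -A.w
        · exact ⟨_, Or.inr ⟨h, rfl⟩⟩
        · exact ⟨_, Or.inl ⟨by omega, rfl⟩⟩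
      have E := E0x F hVi hHj (Ne.symm hij) 0 (r := r) (by rw [hr]; ring) hL hR hT hB
        (by omega) (by omega) (by omega) (by omega) (by omega) (by omega) Y (by omega) (by omega)
        (iff_of_false (by unfold Ar; omega) (by simpa using rJ))
        (iff_of_true (by unfold Ar; omega) (by unfold Ar; omega))
      unfold phi4 at E
      omega
    · have E := E0x F hVi hHj (Ne.symm hij) 0 (r := r) (by rw [hr]; ring) hL hR hT hB
        (by omega) (by omega) (by omega) (by omega) (by omega) (by omega) (g - A.h)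
        (by omega) (by omega)
        (iff_of_false (by unfold Ar; omega) (by simpa using rJ))
        (iff_of_false (by unfold Ar; omega) (by unfold Ar; omega))
      unfold phi4 at E
      omega

end Ap

end Pool.Agent.H98.Flat
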