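import Pool.Agent.H98.Flat.O.LocA

/-! Section 1 without P1 (`w < h`, `2 w + h ≤ p`): categories `β1` and `γ`. -/

namespace Pool.Agent.H98.Flat

namespace Ap

variable {A : Ap}

/-- category `β1`: `V_j < V_i < d + h - p`, `V_i < 0` -/
theorem loc_beta1 (F : A.Fl) {j i mc fc g m f s : ℤ} (hj : A.VW j mc fc g)
    (c0 : 0 ≤ mc) (cw : mc < A.w) (cd : mc < A.md ∨ (mc = A.md ∧ fc < A.fd))
    (hwh' : A.w < A.h) (hP : 2 * A.w + A.h ≤ A.p) (g0 : -(A.w : ℤ) ≤ g) (g1 : g ≤ 0)
    (hi : A.Cls i m f s) (hij : i ≠ j) (h1 : m < mc ∨ (m = mc ∧ f < fc))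
    (h2 : mc - A.w < m ∨ (mc - A.w = m ∧ fc < f))
    (e0 : m + s < 0) (e1 : mc + g < m + s ∨ (mc + g = m + s ∧ fc < f))
    (e2 : m + s < A.md + A.h - A.p ∨ (m + s = A.md + A.h - A.p ∧ f < A.fd)) : False := by
  have hw := A.hwz
  have P1 := A.h2z
  have hmd := A.hmd
  have hmd2 := A.hmd2
  obtain ⟨mj, sj, hc, hcw⟩ := hj
  have ffn : f ≠ fc := hi.f_ne hc hij
  have f0 := hi.2.2.1
  have f1 := hi.2.2.2.1
  have k0 := hc.2.2.1
  have k1 := hc.2.2.2.1
  have sj0 : sj ≠ 0 := by simpa using hc.s_ne 0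
  have q1 : -(A.w : ℤ) ≤ m ∧ m < A.w := by constructor <;> omega
  have q2 : m + s ≤ A.md + A.h - A.p := by omega
  have q3 : mc + g ≤ m + s := by omega
  have q4 : mc + (A.p - A.w - A.h) ≤ A.md := by omega
  have hVi : A.VW i (m + A.w) f (s - A.w) := ⟨m, s, hi, Or.inr ⟨rfl, rfl⟩⟩
  have hHj : A.HW j (mc + g) fc sj := by
    refine ⟨mj, sj, hc, Or.inl ⟨?_, rfl⟩⟩
    rcases hcw with ⟨a, b⟩ | ⟨a, b⟩
    · rw [a, b]
    · rw [a, b]; ring
  obtain ⟨r, hr, hr'⟩ := lev (a := mc + g - (m + A.w)) ffn
  have hL := v1 (A := A) (m := m + A.w) f0 f1 (by omega) (by omega) (by omega)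
  have hT := v0 (A := A) (m := mc + g) k0 k1 (by omega) (by omega) (by omega)
  have hB := v1 (A := A) (m := mc + g + A.h) k0 k1 (by omega) (by omega) (by omega)
  have rJ : Ar A.p r (s - A.w - A.h) (s - A.w) := by unfold Ar; left; constructor <;> omega
  by_cases hE : 0 ≤ m
  · have hR : (if A.InL (m + A.w - A.w) f then (1 : ℤ) else 0) = 1 := by
      rw [show m + (A.w : ℤ) - A.w = m by ring]
      exact v1 f0 f1 (by omega) (by omega) (by omega)
    have r1 : r ≤ -A.w := by omega
    have r2 : g - A.w < r := by omega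
    rcases hcw with ⟨a, b⟩ | ⟨a, b⟩
    · have E := E0x F hVi hHj (Ne.symm hij) 0 (r := r) (by rw [hr]; ring) hL hR hT hB
        (by omega) (by omega) (by omega) (by omega) (by omega) (by omega)
        (g + 1) (by omega) (by omega)
        (iff_of_false (by unfold Ar; omega) (by simpa using rJ))
        (iff_of_false (by unfold Ar; omega) (by unfold Ar; omega))
      unfold phi4 at E
      omega
    · have E := E0x F hVi hHj (Ne.symm hij) 0 (r := r) (by rw [hr]; ring) hL hR hT hB
        (by omega) (by omega) (by omega) (by omega) (by omega) (by omega)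
        (g + 1) (by omega) (by omega)
        (iff_of_false (by unfold Ar; omega) (by simpa using rJ))
        (iff_of_true (by unfold Ar; omega) (by unfold Ar; omega))
      unfold phi4 at E
      omega
  · have hR : (if A.InL (m + A.w - A.w) f then (1 : ℤ) else 0) = 0 := by
      rw [show m + (A.w : ℤ) - A.w = m by ring]
      exact v0 f0 f1 (by omega) (by omega) (by omega)
    have r1 : r ≤ 0 := by omega
    have r2 : g - A.w < r := by omega
    rcases hcw with ⟨a, b⟩ | ⟨a, b⟩
    · have E := E0x F hVi hHj (Ne.symm hij) 0 (r := r) (by rw [hr]; ring) hL hR hT hB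
        (by omega) (by omega) (by omega) (by omega) (by omega) (by omega)
        1 (by omega) (by omega)
        (iff_of_false (by unfold Ar; omega) (by simpa using rJ))
        (iff_of_false (by unfold Ar; omega) (by unfold Ar; omega))
      unfold phi4 at E
      omega
    · have E := E0x F hVi hHj (Ne.symm hij) 0 (r := r) (by rw [hr]; ring) hL hR hT hB
        (by omega) (by omega) (by omega) (by omega) (by omega) (by omega)
        (g + A.w) (by omega) (by omega)
        (iff_of_false (by unfold Ar; omega) (by simpa using rJ))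
        (iff_of_true (by unfold Ar; omega) (by unfold Ar; omega))
      unfold phi4 at E
      omega

/-- category `γ`: `V_j + p - h < V_i < h`, `0 < V_i < d` -/
theorem loc_gamma (F : A.Fl) {j i mc fc g m f s : ℤ} (hj : A.VW j mc fc g)
    (c0 : 0 ≤ mc) (cw : mc < A.w) (cd : mc < A.md ∨ (mc = A.md ∧ fc < A.fd))
    (hwh' : A.w < A.h) (hP : 2 * A.w + A.h ≤ A.p) (g0 : -(A.w : ℤ) ≤ g) (g1 : g ≤ 0)
    (hi : A.Cls i m f s) (hij : i ≠ j) (h1 : m < mc ∨ (m = mc ∧ f < fc))
    (h2 : mc - A.w < m ∨ (mc - A.w = m ∧ fc < f))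
    (e0 : 0 ≤ m + s) (e1 : mc + g + A.p - A.h < m + s ∨ (mc + g + A.p - A.h = m + s ∧ fc < f))
    (e2 : m + s < A.md ∨ (m + s = A.md ∧ f < A.fd)) (e3 : m + s < A.h) : False := by
  have hw := A.hwz
  have P1 := A.h2z
  have hmd := A.hmd
  have hmd2 := A.hmd2
  obtain ⟨mj, sj, hc, hcw⟩ := hj
  have ffn : f ≠ fc := hi.f_ne hc hij
  have f0 := hi.2.2.1
  have f1 := hi.2.2.2.1
  have k0 := hc.2.2.1
  have k1 := hc.2.2.2.1
  have sj0 : sj ≠ 0 := by simpa using hc.s_ne 0
  have q1 : -(A.w : ℤ) ≤ m ∧ m < A.w := by constructor <;> omega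
  have q2 : m + s ≤ A.md := by omega
  have q3 : mc + g + A.p - A.h ≤ m + s := by omega
  have q4 : mc + (A.p - A.w - A.h) ≤ A.md := by omega
  have hVi : A.VW i (m + A.w) f (s - A.w) := ⟨m, s, hi, Or.inr ⟨rfl, rfl⟩⟩
  have hHj : A.HW j (mc + g) fc sj := by
    refine ⟨mj, sj, hc, Or.inl ⟨?_, rfl⟩⟩
    rcases hcw with ⟨a, b⟩ | ⟨a, b⟩
    · rw [a, b]
    · rw [a, b]; ring
  obtain ⟨r, hr, hr'⟩ := lev (a := mc + g - (m + A.w)) ffn
  have hL := v1 (A := A) (m := m + A.w) f0 f1 (by omega) (by omega) (by omega)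
  have hT := v0 (A := A) (m := mc + g) k0 k1 (by omega) (by omega) (by omega)
  have hB := v1 (A := A) (m := mc + g + A.h) k0 k1 (by omega) (by omega) (by omega)
  have rJ : ¬ Ar A.p r (s - A.w - A.h) (s - A.w) := by unfold Ar; omega
  by_cases hE : 0 ≤ m
  · have hR : (if A.InL (m + A.w - A.w) f then (1 : ℤ) else 0) = 1 := by
      rw [show m + (A.w : ℤ) - A.w = m by ring]
      exact v1 f0 f1 (by omega) (by omega) (by omega)
    have r1 : r ≤ -A.w := by omega
    have r2 : g - A.w < r := by omega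
    rcases hcw with ⟨a, b⟩ | ⟨a, b⟩
    · have E := E0x F hVi hHj (Ne.symm hij) 0 (r := r) (by rw [hr]; ring) hL hR hT hB
        (by omega) (by omega) (by omega) (by omega) (by omega) (by omega)
        (g + 1) (by omega) (by omega)
        (iff_of_true (by unfold Ar; omega) (by simpa using rJ))
        (iff_of_false (by unfold Ar; omega) (by unfold Ar; omega))
      unfold phi4 at E
      omega
    · have E := E0x F hVi hHj (Ne.symm hij) 0 (r := r) (by rw [hr]; ring) hL hR hT hB
        (by omega) (by omega) (by omega) (by omega) (by omega) (by omega)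
        (g + 1) (by omega) (by omega)
        (iff_of_true (by unfold Ar; omega) (by simpa using rJ))
        (iff_of_true (by unfold Ar; omega) (by unfold Ar; omega))
      unfold phi4 at E
      omega
  · have hR : (if A.InL (m + A.w - A.w) f then (1 : ℤ) else 0) = 0 := by
      rw [show m + (A.w : ℤ) - A.w = m by ring]
      exact v0 f0 f1 (by omega) (by omega) (by omega)
    have r1 : r ≤ 0 := by omega
    have r2 : g - A.w < r := by omega
    rcases hcw with ⟨a, b⟩ | ⟨a, b⟩
    · have E := E0x F hVi hHj (Ne.symm hij) 0 (r := r) (by rw [hr]; ring) hL hR hT hB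
        (by omega) (by omega) (by omega) (by omega) (by omega) (by omega)
        1 (by omega) (by omega)
        (iff_of_true (by unfold Ar; omega) (by simpa using rJ))
        (iff_of_false (by unfold Ar; omega) (by unfold Ar; omega))
      unfold phi4 at E
      omega
    · have E := E0x F hVi hHj (Ne.symm hij) 0 (r := r) (by rw [hr]; ring) hL hR hT hB
        (by omega) (by omega) (by omega) (by omega) (by omega) (by omega)
        (g + A.w) (by omega) (by omega)
        (iff_of_true (by unfold Ar; omega) (by simpa using rJ))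
        (iff_of_true (by unfold Ar; omega) (by unfold Ar; omega))
      unfold phi4 at E
      omega

end Ap

end Pool.Agent.H98.Flat
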