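import Pool.Agent.H98.Flat.O.LocA

/-! Section 1 without P1 (`w < h`, `2 w + h ≤ p`): categories `β2`, `U`, `D`. -/

namespace Pool.Agent.H98.Flat

namespace Ap

variable {A : Ap}

/-- category `β2`: `-h < V_i < V_j + h - p`, `V_i < d + h - p` -/
theorem loc_beta2 (F : A.Fl) {j i mc fc g m f s : ℤ} (hj : A.VW j mc fc g)
    (c0 : 0 ≤ mc) (cw : mc < A.w) (cd : mc < A.md ∨ (mc = A.md ∧ fc < A.fd))
    (hwh' : A.w < A.h) (hP : 2 * A.w + A.h ≤ A.p) (g0 : -(A.w : ℤ) ≤ g) (g1 : g ≤ 0)
    (hi : A.Cls i m f s) (hij : i ≠ j) (h1 : m < mc ∨ (m = mc ∧ f < fc))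
    (h2 : mc - A.w < m ∨ (mc - A.w = m ∧ fc < f))
    (e0 : -(A.h : ℤ) ≤ m + s)
    (e1 : m + s < mc + g + A.h - A.p ∨ (m + s = mc + g + A.h - A.p ∧ f < fc)) : False := by
  have hw := A.hwz
  have P1 := A.h2z
  have hmd := A.hmd
  have hmd2 := A.hmd2
  obtain ⟨mj, sj, hc, hcw⟩ := hj
  have ffn : f ≠ fc := hi.f_ne hc hij
  have f0 := hi.2.2.1
  have f1 := hi.2.2.2.1
  have k0 := hc.2.2.1
  have k1 := hc.2.2.2.1
  have sj0 : sj ≠ 0 := by simpa using hc.s_ne 0
  have q1 : -(A.w : ℤ) ≤ m ∧ m < A.w := by constructor <;> omega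
  have q3 : A.p - 2 * A.h ≤ mc + g := by omega
  have q4 : m + s ≤ mc + g + A.h - A.p := by omega
  have hVi : A.VW i m f s := ⟨m, s, hi, Or.inl ⟨rfl, rfl⟩⟩
  have hHj : A.HW j (mc + g) fc sj := by
    refine ⟨mj, sj, hc, Or.inl ⟨?_, rfl⟩⟩
    rcases hcw with ⟨a, b⟩ | ⟨a, b⟩
    · rw [a, b]
    · rw [a, b]; ring
  obtain ⟨r, hr, hr'⟩ := lev (a := mc + g - m) ffn
  have hR := v0 (A := A) (m := m - A.w) f0 f1 (by omega) (by omega) (by omega)
  have hT := v1 (A := A) (m := mc + g) k0 k1 (by omega) (by omega) (by omega)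
  have hB := v0 (A := A) (m := mc + g + A.h) k0 k1 (by omega) (by omega) (by omega)
  have r2 : g < r := by omega
  have r3 : r ≤ g + A.w := by omega
  have rJ : Ar A.p r (s - A.h) s := by unfold Ar; right; right; constructor <;> omega
  by_cases hE : 0 ≤ m
  · have hL := v1 (A := A) (m := m) f0 f1 (by omega) (by omega) (by omega)
    rcases hcw with ⟨a, b⟩ | ⟨a, b⟩
    · have E := E0x F hVi hHj (Ne.symm hij) 0 (r := r) (by rw [hr]; ring) hL hR hT hB
        (by omega) (by omega) (by omega) (by omega) (by omega) (by omega)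
        (g - A.w + 1) (by omega) (by omega)
        (iff_of_false (by unfold Ar; omega) (by simpa using rJ))
        (iff_of_true (by unfold Ar; omega) (by unfold Ar; omega))
      unfold phi4 at E
      omega
    · have E := E0x F hVi hHj (Ne.symm hij) 0 (r := r) (by rw [hr]; ring) hL hR hT hB
        (by omega) (by omega) (by omega) (by omega) (by omega) (by omega)
        (-A.w) (by omega) (by omega)
        (iff_of_false (by unfold Ar; omega) (by simpa using rJ))
        (iff_of_false (by unfold Ar; omega) (by unfold Ar; omega))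
      unfold phi4 at E
      omega
  · have hL := v0 (A := A) (m := m) f0 f1 (by omega) (by omega) (by omega)
    have r1 : 0 < r := by omega
    rcases hcw with ⟨a, b⟩ | ⟨a, b⟩
    · have E := E0x F hVi hHj (Ne.symm hij) 0 (r := r) (by rw [hr]; ring) hL hR hT hB
        (by omega) (by omega) (by omega) (by omega) (by omega) (by omega)
        g (by omega) (by omega)
        (iff_of_false (by unfold Ar; omega) (by simpa using rJ))
        (iff_of_true (by unfold Ar; omega) (by unfold Ar; omega))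
      unfold phi4 at E
      omega
    · have E := E0x F hVi hHj (Ne.symm hij) 0 (r := r) (by rw [hr]; ring) hL hR hT hB
        (by omega) (by omega) (by omega) (by omega) (by omega) (by omega)
        g (by omega) (by omega)
        (iff_of_false (by unfold Ar; omega) (by simpa using rJ))
        (iff_of_false (by unfold Ar; omega) (by unfold Ar; omega))
      unfold phi4 at E
      omega

/-- category `D`: `-w-h < g ≤ h - p`, the inner horizontal wall of `i` is below `V_j` -/
theorem loc_D (F : A.Fl) {j i mc fc g m f s : ℤ} (hj : A.VW j mc fc g)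
    (c0 : 0 ≤ mc) (cw : mc < A.w) (cd : mc < A.md ∨ (mc = A.md ∧ fc < A.fd))
    (hwh' : A.w < A.h) (hP : 2 * A.w + A.h ≤ A.p)
    (g0 : -(A.w : ℤ) - A.h < g) (g1 : g ≤ A.h - A.p)
    (hi : A.OvL i m f s) (hij : i ≠ j) (h1 : m < mc ∨ (m = mc ∧ f < fc))
    (h2 : mc - A.w < m ∨ (mc - A.w = m ∧ fc < f))
    (e1 : (0 ≤ m + s ∧ (m + s - A.h < mc + g ∨ (m + s - A.h = mc + g ∧ f < fc))) ∨
      (m + s < 0 ∧ (m + s < mc + g ∨ (m + s = mc + g ∧ f < fc)))) : False := by
  have hw := A.hwz
  have P1 := A.h2z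
  have hmd := A.hmd
  have hmd2 := A.hmd2
  obtain ⟨mj, sj, hc, hcw⟩ := hj
  obtain ⟨hi, -, -, v0', v1'⟩ := hi
  have ffn : f ≠ fc := hi.f_ne hc hij
  have f0 := hi.2.2.1
  have f1 := hi.2.2.2.1
  have k0 := hc.2.2.1
  have k1 := hc.2.2.2.1
  have q1 : -(A.w : ℤ) ≤ m ∧ m < A.w := by constructor <;> omega
  have q3 : -(A.h : ℤ) ≤ mc + g := by omega
  have hVi : A.VW i m f s := ⟨m, s, hi, Or.inl ⟨rfl, rfl⟩⟩
  have hHj : A.HW j (mc + g) fc sj := by
    refine ⟨mj, sj, hc, Or.inl ⟨?_, rfl⟩⟩
    rcases hcw with ⟨a, b⟩ | ⟨a, b⟩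
    · rw [a, b]
    · rw [a, b]; ring
  obtain ⟨r, hr, hr'⟩ := lev (a := mc + g - m) ffn
  have hR := v0 (A := A) (m := m - A.w) f0 f1 (by omega) (by omega) (by omega)
  have hT := v0 (A := A) (m := mc + g) k0 k1 (by omega) (by omega) (by omega)
  have hB := v1 (A := A) (m := mc + g + A.h) k0 k1 (by omega) (by omega) (by omega)
  have r2 : g < r := by omega
  have r3 : r ≤ g + A.w := by omega
  by_cases hE : 0 ≤ m
  · have hL := v1 (A := A) (m := m) f0 f1 (by omega) (by omega) (by omega)
    have aJ : Ar A.p (A.p - A.w - A.h) (s - A.h) s ↔ ¬ Ar A.p r (s - A.h) s := by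
      rcases e1 with ⟨e1, e2⟩ | ⟨e1, e2⟩
      · exact iff_of_false (by unfold Ar; omega) (not_not.2 (by unfold Ar; omega))
      · exact iff_of_true (by unfold Ar; omega) (by unfold Ar; omega)
    rcases hcw with ⟨a, b⟩ | ⟨a, b⟩
    · have E := E0x F hVi hHj (Ne.symm hij) 0 (r := r) (by rw [hr]; ring) hL hR hT hB
        (by omega) (by omega) (by omega) (by omega) (by omega) (by omega)
        (A.p - A.w - A.h) (by omega) (by omega) aJ
        (iff_of_true (by unfold Ar; omega) (by unfold Ar; omega))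
      unfold phi4 at E
      clear e1
      omega
    · have E := E0x F hVi hHj (Ne.symm hij) 0 (r := r) (by rw [hr]; ring) hL hR hT hB
        (by omega) (by omega) (by omega) (by omega) (by omega) (by omega)
        (A.p - A.w - A.h) (by omega) (by omega) aJ
        (iff_of_false (by unfold Ar; omega) (by unfold Ar; omega))
      unfold phi4 at E
      clear e1
      omega
  · have hL := v0 (A := A) (m := m) f0 f1 (by omega) (by omega) (by omega)
    have r1 : -(A.h : ℤ) < r := by omega
    have aJ : Ar A.p g (s - A.h) s ↔ ¬ Ar A.p r (s - A.h) s := by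
      rcases e1 with ⟨e1, e2⟩ | ⟨e1, e2⟩
      · exact iff_of_false (by unfold Ar; omega) (not_not.2 (by unfold Ar; omega))
      · exact iff_of_true (by unfold Ar; omega) (by unfold Ar; omega)
    rcases hcw with ⟨a, b⟩ | ⟨a, b⟩
    · have E := E0x F hVi hHj (Ne.symm hij) 0 (r := r) (by rw [hr]; ring) hL hR hT hB
        (by omega) (by omega) (by omega) (by omega) (by omega) (by omega)
        g (by omega) (by omega) aJ
        (iff_of_true (by unfold Ar; omega) (by unfold Ar; omega))
      unfold phi4 at E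
      clear e1
      omega
    · have E := E0x F hVi hHj (Ne.symm hij) 0 (r := r) (by rw [hr]; ring) hL hR hT hB
        (by omega) (by omega) (by omega) (by omega) (by omega) (by omega)
        g (by omega) (by omega) aJ
        (iff_of_false (by unfold Ar; omega) (by unfold Ar; omega))
      unfold phi4 at E
      clear e1
      omega

/-- category `U`: `M ≤ g ≤ h - 1`, the inner horizontal wall of `i` is above `V_j - h` -/
theorem loc_U (F : A.Fl) {j i mc fc g m f s : ℤ} (hj : A.VW j mc fc g)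
    (c0 : 0 ≤ mc) (cw : mc < A.w) (cd : mc < A.md ∨ (mc = A.md ∧ fc < A.fd))
    (hwh' : A.w < A.h) (hP : 2 * A.w + A.h ≤ A.p)
    (g0 : (A.p : ℤ) - A.w - A.h ≤ g) (g1 : g ≤ A.h - 1)
    (hi : A.OvL i m f s) (hij : i ≠ j) (h1 : m < mc ∨ (m = mc ∧ f < fc))
    (h2 : mc - A.w < m ∨ (mc - A.w = m ∧ fc < f))
    (e1 : (0 ≤ m + s ∧ (mc + g < m + s ∨ (m + s = mc + g ∧ fc < f)) ∧
        (m + s < A.md ∨ (m + s = A.md ∧ f < A.fd))) ∨
      (m + s < 0 ∧ (mc + g - A.h < m + s ∨ (m + s = mc + g - A.h ∧ fc < f)) ∧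
        (m + s < A.md - A.h ∨ (m + s = A.md - A.h ∧ f < A.fd)))) : False := by
  have hw := A.hwz
  have P1 := A.h2z
  have hmd := A.hmd
  have hmd2 := A.hmd2
  obtain ⟨mj, sj, hc, hcw⟩ := hj
  obtain ⟨hi, -, -, v0', v1'⟩ := hi
  have ffn : f ≠ fc := hi.f_ne hc hij
  have f0 := hi.2.2.1
  have f1 := hi.2.2.2.1
  have k0 := hc.2.2.1
  have k1 := hc.2.2.2.1
  have q1 : -(A.w : ℤ) ≤ m ∧ m < A.w := by constructor <;> omega
  have q3 : mc + g < A.h := by omega
  have q4 : mc + g < A.md ∨ (mc + g = A.md ∧ fc < A.fd) := by omega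
  have q5 : mc + g ≤ A.md := by omega
  by_cases hE : 0 ≤ m
  · have hVi : A.VW i (m + A.w) f (s - A.w) := ⟨m, s, hi, Or.inr ⟨rfl, rfl⟩⟩
    have hHj : A.HW j (mc + g) fc sj := by
      refine ⟨mj, sj, hc, Or.inl ⟨?_, rfl⟩⟩
      rcases hcw with ⟨a, b⟩ | ⟨a, b⟩
      · rw [a, b]
      · rw [a, b]; ring
    obtain ⟨r, hr, hr'⟩ := lev (a := mc + g - (m + A.w)) ffn
    have hL := v1 (A := A) (m := m + A.w) f0 f1 (by omega) (by omega) (by omega)
    have hR : (if A.InL (m + A.w - A.w) f then (1 : ℤ) else 0) = 1 := by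
      rw [show m + (A.w : ℤ) - A.w = m by ring]
      exact v1 f0 f1 (by omega) (by omega) (by omega)
    have hT := v1 (A := A) (m := mc + g) k0 k1 (by omega) (by omega) (by omega)
    have hB := v0 (A := A) (m := mc + g + A.h) k0 k1 (by omega) (by omega) (by omega)
    have r2 : g - A.w < r := by omega
    have r3 : r ≤ g := by omega
    have r4 : r ≤ A.h - A.w := by omega
    have aJ : Ar A.p (g + 1 - A.p) (s - A.w - A.h) (s - A.w) ↔
        ¬ Ar A.p r (s - A.w - A.h) (s - A.w) := by
      rcases e1 with ⟨e1, e2, e3⟩ | ⟨e1, e2, e3⟩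
      · exact iff_of_false (by unfold Ar; omega) (not_not.2 (by unfold Ar; omega))
      · exact iff_of_true (by unfold Ar; omega) (by unfold Ar; omega)
    rcases hcw with ⟨a, b⟩ | ⟨a, b⟩
    · have E := E0x F hVi hHj (Ne.symm hij) 0 (r := r) (by rw [hr]; ring) hL hR hT hB
        (by omega) (by omega) (by omega) (by omega) (by omega) (by omega)
        (g + 1 - A.p) (by omega) (by omega) aJ
        (iff_of_false (by unfold Ar; omega) (by unfold Ar; omega))
      unfold phi4 at E
      clear e1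
      omega
    · have hHj2 : A.HW j (mc + g) fc (sj - A.p) := by
        refine ⟨mj + A.p, sj - A.p, ?_, Or.inl ⟨by rw [a, b]; ring, rfl⟩⟩
        have := hc.shift 1 (-1)
        rwa [mul_one, mul_neg, mul_one] at this
      have E := E0x F hVi hHj2 (Ne.symm hij) 0 (r := r) (by rw [hr]; ring) hL hR hT hB
        (by omega) (by omega) (by omega) (by omega) (by omega) (by omega)
        (g + 1 - A.p) (by omega) (by omega) aJ
        (iff_of_true (by unfold Ar; omega) (by unfold Ar; omega))
      unfold phi4 at E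
      clear e1
      omega
  · have hVi : A.VW i (m + A.w) f (s - A.w) := ⟨m, s, hi, Or.inr ⟨rfl, rfl⟩⟩
    have hHj : A.HW j (mc + g - A.h) fc (sj - A.h) := by
      refine ⟨mj, sj, hc, Or.inr ⟨?_, rfl⟩⟩
      rcases hcw with ⟨a, b⟩ | ⟨a, b⟩
      · rw [a, b]
      · rw [a, b]; ring
    obtain ⟨r, hr, hr'⟩ := lev (a := mc + g - A.h - (m + A.w)) ffn
    have hL := v1 (A := A) (m := m + A.w) f0 f1 (by omega) (by omega) (by omega)
    have hR : (if A.InL (m + A.w - A.w) f then (1 : ℤ) else 0) = 0 := by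
      rw [show m + (A.w : ℤ) - A.w = m by ring]
      exact v0 f0 f1 (by omega) (by omega) (by omega)
    have hT := v0 (A := A) (m := mc + g - A.h) k0 k1 (by omega) (by omega) (by omega)
    have hB : (if A.InL (mc + g - A.h + A.h) fc then (1 : ℤ) else 0) = 1 := by
      rw [show mc + g - (A.h : ℤ) + A.h = mc + g by ring]
      exact v1 k0 k1 (by omega) (by omega) (by omega)
    have r2 : g - A.h - A.w < r := by omega
    have r3 : r ≤ g - A.h := by omega
    have aJ : Ar A.p 1 (s - A.w - A.h) (s - A.w) ↔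
        ¬ Ar A.p r (s - A.w - A.h) (s - A.w) := by
      rcases e1 with ⟨e1, e2, e3⟩ | ⟨e1, e2, e3⟩
      · exact iff_of_true (by unfold Ar; omega) (by unfold Ar; omega)
      · exact iff_of_false (by unfold Ar; omega) (not_not.2 (by unfold Ar; omega))
    rcases hcw with ⟨a, b⟩ | ⟨a, b⟩
    · have E := E0x F hVi hHj (Ne.symm hij) 0 (r := r) (by rw [hr]; ring) hL hR hT hB
        (by omega) (by omega) (by omega) (by omega) (by omega) (by omega)
        1 (by omega) (by omega) aJ
        (iff_of_false (by unfold Ar; omega) (by unfold Ar; omega))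
      unfold phi4 at E
      clear e1
      omega
    · have E := E0x F hVi hHj (Ne.symm hij) 0 (r := r) (by rw [hr]; ring) hL hR hT hB
        (by omega) (by omega) (by omega) (by omega) (by omega) (by omega)
        1 (by omega) (by omega) aJ
        (iff_of_true (by unfold Ar; omega) (by unfold Ar; omega))
      unfold phi4 at E
      clear e1
      omega

end Ap

end Pool.Agent.H98.Flat
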