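import Pool.Agent.H98.Flat.O.E0x

/-! Section 1 without P1: the tables of levels for (G+). -/

namespace Pool.Agent.H98.Flat

namespace Ap

/-- pattern `(0,0)` -/
theorem g00 {p w h g k r : ℤ} (hw : 2 ≤ w) (hwh : w < h) (hp : 2 * h < p)
    (hP : 2 * w + h ≤ p) (g0 : -h < g) (g1 : g < h - w)
    (r0 : -w - h < r) (r1 : r ≤ p - w - h) (k0 : k - w < r) (k1 : r ≤ k)
    (E : ∀ Y, -w - h < Y → Y ≤ p - w - h → Rule p w h g k 1 0 0 0 r Y) :
    False := by
  have rK : Ar p r (k - w) k := Or.inl ⟨k0, k1⟩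
  by_cases rJ : Ar p r (g - h) g
  · have E' : ∀ Y, -w - h < Y → Y ≤ p - w - h → ¬ Ar p Y (g - h) g → ¬ Ar p Y (k - w) k →
        phi4 w h 1 0 0 0 Y = phi4 w h 1 0 0 0 r := fun Y Y0 Y1 a b =>
      E Y Y0 Y1 (iff_of_false a (not_not.2 rJ)) (iff_of_false b (not_not.2 rK))
    clear E
    rcases le_or_gt g 0 with h1 | h1
    · rcases le_or_gt (-w) g with h2 | h2
      · have a1 := E' (r + h)
        have a2 := E' (r + h - p)
        unfold Ar phi4 at *
        omega
      · have a1 := E' (r + h)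
        have a2 := E' (r + h - p)
        unfold Ar phi4 at *
        omega
    · have a1 := E' (r - h)
      have a2 := E' (r - h + p)
      unfold Ar phi4 at *
      omega
  · have E' : ∀ Y, -w - h < Y → Y ≤ p - w - h → Ar p Y (g - h) g → ¬ Ar p Y (k - w) k →
        phi4 w h 1 0 0 0 Y = phi4 w h 1 0 0 0 r := fun Y Y0 Y1 a b =>
      E Y Y0 Y1 (iff_of_true a rJ) (iff_of_false b (not_not.2 rK))
    clear E
    rcases le_or_gt g 0 with h1 | h1
    · rcases le_or_gt (-w) g with h2 | h2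
      · have a1 := E' (g)
        have a2 := E' (r - h)
        have a3 := E' (r - h + p)
        unfold Ar phi4 at *
        omega
      · have a1 := E' (-h+1)
        have a2 := E' (-w-h+1)
        unfold Ar phi4 at *
        omega
    · have a1 := E' (-w)
      have a2 := E' (r + h)
      have a3 := E' (r + h - p)
      unfold Ar phi4 at *
      omega

/-- pattern `(1,1)` -/
theorem g11 {p w h g k r : ℤ} (hw : 2 ≤ w) (hwh : w < h) (hp : 2 * h < p)
    (hP : 2 * w + h ≤ p) (g0 : -h < g) (g1 : g < h - w)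
    (r0 : -w - h < r) (r1 : r ≤ p - w - h) (k0 : k - w < r) (k1 : r ≤ k)
    (E : ∀ Y, -w - h < Y → Y ≤ p - w - h → Rule p w h g k 1 0 1 1 r Y) :
    False := by
  have rK : Ar p r (k - w) k := Or.inl ⟨k0, k1⟩
  by_cases rJ : Ar p r (g - h) g
  · have E' : ∀ Y, -w - h < Y → Y ≤ p - w - h → ¬ Ar p Y (g - h) g → ¬ Ar p Y (k - w) k →
        phi4 w h 1 0 1 1 Y = phi4 w h 1 0 1 1 r := fun Y Y0 Y1 a b =>
      E Y Y0 Y1 (iff_of_false a (not_not.2 rJ)) (iff_of_false b (not_not.2 rK))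
    clear E
    rcases le_or_gt g 0 with h1 | h1
    · rcases le_or_gt (-w) g with h2 | h2
      · have a1 := E' (r - h)
        have a2 := E' (r - h + p)
        unfold Ar phi4 at *
        omega
      · have a1 := E' (r + h)
        have a2 := E' (r + h - p)
        unfold Ar phi4 at *
        omega
    · have a1 := E' (r - h)
      have a2 := E' (r - h + p)
      unfold Ar phi4 at *
      omega
  · have E' : ∀ Y, -w - h < Y → Y ≤ p - w - h → Ar p Y (g - h) g → ¬ Ar p Y (k - w) k →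
        phi4 w h 1 0 1 1 Y = phi4 w h 1 0 1 1 r := fun Y Y0 Y1 a b =>
      E Y Y0 Y1 (iff_of_true a rJ) (iff_of_false b (not_not.2 rK))
    clear E
    rcases le_or_gt g 0 with h1 | h1
    · rcases le_or_gt (-w) g with h2 | h2
      · have a1 := E' (g-h+1)
        have a2 := E' (g-h+1+p)
        have a3 := E' (r + h)
        have a4 := E' (r + h - p)
        unfold Ar phi4 at *
        omega
      · have a1 := E' (-h+1)
        have a2 := E' (r - h)
        have a3 := E' (r - h + p)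
        unfold Ar phi4 at *
        omega
    · have a1 := E' (1)
      have a2 := E' (-w)
      unfold Ar phi4 at *
      omega

/-- pattern `(0,1)` -/
theorem g01 {p w h g k r : ℤ} (hw : 2 ≤ w) (hwh : w < h) (hp : 2 * h < p)
    (hP : 2 * w + h ≤ p) (g0 : -h < g) (g1 : g < h - w)
    (r0 : -w - h < r) (r1 : r ≤ p - w - h) (k0 : k - w < r) (k1 : r ≤ k)
    (E : ∀ Y, -w - h < Y → Y ≤ p - w - h → Rule p w h g k 1 0 0 1 r Y) :
    -w ≤ g ∧ g ≤ 0 ∧ ((g < r ∧ r ≤ 0) ∨ r ≤ g - h) := by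
  have rK : Ar p r (k - w) k := Or.inl ⟨k0, k1⟩
  by_cases rJ : Ar p r (g - h) g
  · have E' : ∀ Y, -w - h < Y → Y ≤ p - w - h → ¬ Ar p Y (g - h) g → ¬ Ar p Y (k - w) k →
        phi4 w h 1 0 0 1 Y = phi4 w h 1 0 0 1 r := fun Y Y0 Y1 a b =>
      E Y Y0 Y1 (iff_of_false a (not_not.2 rJ)) (iff_of_false b (not_not.2 rK))
    clear E
    rcases le_or_gt g 0 with h1 | h1
    · rcases le_or_gt (-w) g with h2 | h2
      · have a1 := E' (1)
        have a2 := E' (p - w - h)
        unfold Ar phi4 at *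
        omega
      · have a1 := E' (1)
        have a2 := E' (-w)
        unfold Ar phi4 at *
        omega
    · have a1 := E' (-h+1)
      have a2 := E' (p - w - h)
      unfold Ar phi4 at *
      omega
  · have E' : ∀ Y, -w - h < Y → Y ≤ p - w - h → Ar p Y (g - h) g → ¬ Ar p Y (k - w) k →
        phi4 w h 1 0 0 1 Y = phi4 w h 1 0 0 1 r := fun Y Y0 Y1 a b =>
      E Y Y0 Y1 (iff_of_true a rJ) (iff_of_false b (not_not.2 rK))
    clear E
    rcases le_or_gt g 0 with h1 | h1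
    · rcases le_or_gt (-w) g with h2 | h2
      · have a1 := E' (-w)
        unfold Ar phi4 at *
        omega
      · have a1 := E' (-h+1)
        have a2 := E' (p - w - h)
        unfold Ar phi4 at *
        omega
    · have a1 := E' (1)
      have a2 := E' (-w)
      unfold Ar phi4 at *
      omega

/-- pattern `(1,0)` -/
theorem g10 {p w h g k r : ℤ} (hw : 2 ≤ w) (hwh : w < h) (hp : 2 * h < p)
    (hP : 2 * w + h ≤ p) (g0 : -w ≤ g) (g1 : g ≤ 0)
    (r0 : -w - h < r) (r1 : r ≤ p - w - h) (k0 : k - w < r) (k1 : r ≤ k)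
    (E : ∀ Y, -w - h < Y → Y ≤ p - w - h → Rule p w h g k 1 0 1 0 r Y) :
    (g - h < r ∧ r ≤ -h) ∨ (-w < r ∧ r ≤ g) ∨ (-w ≤ k ∧ k ≤ w - h) := by
  have rK : Ar p r (k - w) k := Or.inl ⟨k0, k1⟩
  by_cases rJ : Ar p r (g - h) g
  · have E' : ∀ Y, -w - h < Y → Y ≤ p - w - h → ¬ Ar p Y (g - h) g → ¬ Ar p Y (k - w) k →
        phi4 w h 1 0 1 0 Y = phi4 w h 1 0 1 0 r := fun Y Y0 Y1 a b =>
      E Y Y0 Y1 (iff_of_false a (not_not.2 rJ)) (iff_of_false b (not_not.2 rK))
    clear E
    have a1 := E' (1)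
    unfold Ar phi4 at *
    omega
  · have E' : ∀ Y, -w - h < Y → Y ≤ p - w - h → Ar p Y (g - h) g → ¬ Ar p Y (k - w) k →
        phi4 w h 1 0 1 0 Y = phi4 w h 1 0 1 0 r := fun Y Y0 Y1 a b =>
      E Y Y0 Y1 (iff_of_true a rJ) (iff_of_false b (not_not.2 rK))
    clear E
    have a1 := E' (-w)
    have a2 := E' (-h+1)
    unfold Ar phi4 at *
    omega

end Ap

end Pool.Agent.H98.Flat
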