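import Pool.Agent.H98.Flat.O.E0x

/-! Section 1 without P1: the two tables of levels. -/

namespace Pool.Agent.H98.Flat

namespace Ap

/-- (C*), inner crossing.  `J = (g-h, g]`, `K = (k-w, k] ∋ ρ`, `Φ = -1` on `(-h, 0]` and, if
`B = 1`, on `(-w-h, 0]`, and `0` elsewhere. -/
theorem cs_table {p w h g k ρ B : ℤ} (hw : 2 ≤ w) (hwh : w < h) (hp : 2 * h < p)
    (hP : 2 * w + h ≤ p) (g0 : -w - h < g) (g1 : g ≤ p - w - h) (r0 : -w - h < ρ) (r1 : ρ ≤ 0)
    (k0 : k - w < ρ) (k1 : ρ ≤ k) (hB : B = 1 ∨ (B = 0 ∧ -h < ρ))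
    (E : ∀ Y, -w - h < Y → Y ≤ p - w - h → Rule p w h g k 1 0 0 B ρ Y) :
    B = 1 ∧ ((-w ≤ g ∧ g ≤ 0 ∧ ¬ Ar p ρ (g - h) g) ∨ (g = p - w - h ∧ g ≤ h - 1 ∧ g - h < ρ) ∨
      (g ≤ h - 1 - p ∧ g + p - h < ρ) ∨ (g ≤ h - p ∧ ρ ≤ g)) := by
  have rK : Ar p ρ (k - w) k := Or.inl ⟨k0, k1⟩
  by_cases rJ : Ar p ρ (g - h) g
  · have E' : ∀ Y, -w - h < Y → Y ≤ p - w - h → ¬ Ar p Y (g - h) g → ¬ Ar p Y (k - w) k →
        phi4 w h 1 0 0 B Y = phi4 w h 1 0 0 B ρ := fun Y Y0 Y1 a b =>
      E Y Y0 Y1 (iff_of_false a (not_not.2 rJ)) (iff_of_false b (not_not.2 rK))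
    clear E
    rcases le_or_gt g 0 with h1 | h1
    · rcases le_or_gt (-w) g with h2 | h2
      · -- `-w ≤ g ≤ 0`
        have a1 := E' 1 (by omega) (by omega)
        have a2 := E' (p - w - h) (by omega) (by omega)
        exfalso
        unfold Ar phi4 at *
        omega
      · rcases hB with hB | ⟨hB, hB'⟩
        · have a1 := E' 1 (by omega) (by omega)
          unfold Ar phi4 at *
          omega
        · have a1 := E' (ρ - h) 
          have a2 := E' (ρ - h + p) 
          unfold Ar phi4 at *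
          omega
    · have a1 := E' (-w - h + 1) (by omega) (by omega)
      have a2 := E' (p - w - h) (by omega) (by omega)
      unfold Ar phi4 at *
      omega
  · have E' : ∀ Y, -w - h < Y → Y ≤ p - w - h → Ar p Y (g - h) g → ¬ Ar p Y (k - w) k →
        phi4 w h 1 0 0 B Y = phi4 w h 1 0 0 B ρ := fun Y Y0 Y1 a b =>
      E Y Y0 Y1 (iff_of_true a rJ) (iff_of_false b (not_not.2 rK))
    clear E
    rcases le_or_gt g 0 with h1 | h1
    · rcases le_or_gt (-w) g with h2 | h2
      · -- `-w ≤ g ≤ 0`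
        rcases hB with hB | ⟨hB, hB'⟩
        · exact ⟨hB, Or.inl ⟨h2, h1, rJ⟩⟩
        · exfalso
          have a1 := E' (g - h + 1) 
          have a2 := E' (g - h + 1 + p) 
          unfold Ar phi4 at *
          omega
      · exfalso
        have a1 := E' (p - w - h) (by omega) (by omega)
        have a2 := E' (g - h + 1 + p) 
        have a3 := E' 1 (by omega) (by omega)
        have a4 := E' (k + 1) 
        unfold Ar phi4 at *
        omega
    · exfalso
      have a1 := E' g (by omega) (by omega)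
      have a2 := E' (k - w) 
      have a3 := E' (k - w + p) 
      unfold Ar phi4 at *
      omega

end Ap

end Pool.Agent.H98.Flat
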