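import Pool.Agent.H98.Flat.O.LocA
import Pool.Agent.H98.Flat.O.LocB
import Pool.Agent.H98.Flat.O.LocC
import Pool.Agent.H98.Flat.O.LocG
import Pool.Agent.H98.Flat.O.LocT

/-! Section 1 without P1: (G+) for `w < h`, `2 w + h ≤ p`. -/

namespace Pool.Agent.H98.Flat

namespace Ap

variable {A : Ap}

/-- the rule for the wall `c ∈ (0, min w d)` and the top of class `i` -/
theorem top_rule (F : A.Fl) {j i mc fc g m f s : ℤ} (hj : A.VW j mc fc g)
    (c0 : 0 ≤ mc) (cw : mc < A.w) (cd : mc < A.md ∨ (mc = A.md ∧ fc < A.fd))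
    (hi : A.Cls i m f s) (hij : i ≠ j) (h1 : m < mc ∨ (m = mc ∧ f < fc))
    (h2 : mc - A.w < m ∨ (mc - A.w = m ∧ fc < f)) (t : ℤ) {r T B : ℤ}
    (hr : r = m + s - mc + (if fc < f then 1 else 0) + A.p * t)
    (hT : (if A.InL (m + s) f then (1 : ℤ) else 0) = T)
    (hB : (if A.InL (m + s + A.h) f then (1 : ℤ) else 0) = B)
    (g0 : -(A.p : ℤ) - A.w ≤ g) (g1 : g ≤ A.p - A.w)
    (r0 : -(A.w : ℤ) - A.h < r) (r1 : r ≤ A.p - A.w - A.h) :
    (s + A.p * t - A.w < r ∧ r ≤ s + A.p * t) ∧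
      ∀ Y, -(A.w : ℤ) - A.h < Y → Y ≤ A.p - A.w - A.h →
        Rule A.p A.w A.h g (s + A.p * t) 1 0 T B r Y := by
  have hw := A.hwz
  have hwh := A.hwhz
  have P1 := A.h2z
  have hmd := A.hmd
  have hmd2 := A.hmd2
  have hj' := hj
  obtain ⟨mj, sj, hc, hcw⟩ := hj'
  have ffn : f ≠ fc := hi.f_ne hc hij
  have f0 := hi.2.2.1
  have f1 := hi.2.2.2.1
  have k0 := hc.2.2.1
  have k1 := hc.2.2.2.1
  have e : (fc < f ∧ (if fc < f then (1 : ℤ) else 0) = 1) ∨
      (f < fc ∧ (if fc < f then (1 : ℤ) else 0) = 0) := by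
    by_cases h : fc < f
    · left; exact ⟨h, if_pos h⟩
    · right; exact ⟨by omega, if_neg h⟩
  have hK : s + A.p * t - A.w < r ∧ r ≤ s + A.p * t := by
    rw [hr]
    generalize (if fc < f then (1 : ℤ) else 0) = z at *
    constructor <;> omega
  refine ⟨hK, fun Y Y0 Y1 => ?_⟩
  have hH : A.HW i (m + s) f (s + A.p * t) := by
    refine ⟨m - A.p * t, s + A.p * t, ?_, Or.inl ⟨by ring, rfl⟩⟩
    have := hi.shift (-t) t
    rwa [mul_neg, ← sub_eq_add_neg] at this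
  have hL := v1 (A := A) (m := mc) k0 k1 (by omega) (by omega) (by omega)
  have hR := v0 (A := A) (m := mc - A.w) k0 k1 (by omega) (by omega) (by omega)
  exact E0x F hj hH hij t (r := r) hr hL hR hT hB r0 r1 g0 g1 (by omega) (by omega) Y Y0 Y1

/-- the rule for the wall `c ∈ (0, min w d)` and the bottom of class `i` -/
theorem bot_rule (F : A.Fl) {j i mc fc g m f s : ℤ} (hj : A.VW j mc fc g)
    (c0 : 0 ≤ mc) (cw : mc < A.w) (cd : mc < A.md ∨ (mc = A.md ∧ fc < A.fd))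
    (hi : A.Cls i m f s) (hij : i ≠ j) (h1 : m < mc ∨ (m = mc ∧ f < fc))
    (h2 : mc - A.w < m ∨ (mc - A.w = m ∧ fc < f)) (t : ℤ) {r T B : ℤ}
    (hr : r = m + s - A.h - mc + (if fc < f then 1 else 0) + A.p * t)
    (hT : (if A.InL (m + s - A.h) f then (1 : ℤ) else 0) = T)
    (hB : (if A.InL (m + s) f then (1 : ℤ) else 0) = B)
    (g0 : -(A.p : ℤ) - A.w ≤ g) (g1 : g ≤ A.p - A.w)
    (r0 : -(A.w : ℤ) - A.h < r) (r1 : r ≤ A.p - A.w - A.h) :
    (s - A.h + A.p * t - A.w < r ∧ r ≤ s - A.h + A.p * t) ∧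
      ∀ Y, -(A.w : ℤ) - A.h < Y → Y ≤ A.p - A.w - A.h →
        Rule A.p A.w A.h g (s - A.h + A.p * t) 1 0 T B r Y := by
  have hw := A.hwz
  have hwh := A.hwhz
  have P1 := A.h2z
  have hmd := A.hmd
  have hmd2 := A.hmd2
  have hj' := hj
  obtain ⟨mj, sj, hc, hcw⟩ := hj'
  have ffn : f ≠ fc := hi.f_ne hc hij
  have f0 := hi.2.2.1
  have f1 := hi.2.2.2.1
  have k0 := hc.2.2.1
  have k1 := hc.2.2.2.1
  have e : (fc < f ∧ (if fc < f then (1 : ℤ) else 0) = 1) ∨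
      (f < fc ∧ (if fc < f then (1 : ℤ) else 0) = 0) := by
    by_cases h : fc < f
    · left; exact ⟨h, if_pos h⟩
    · right; exact ⟨by omega, if_neg h⟩
  have hK : s - A.h + A.p * t - A.w < r ∧ r ≤ s - A.h + A.p * t := by
    rw [hr]
    generalize (if fc < f then (1 : ℤ) else 0) = z at *
    constructor <;> omega
  refine ⟨hK, fun Y Y0 Y1 => ?_⟩
  have hH : A.HW i (m + s - A.h) f (s - A.h + A.p * t) := by
    refine ⟨m - A.p * t, s + A.p * t, ?_, Or.inr ⟨by ring, by ring⟩⟩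
    have := hi.shift (-t) t
    rwa [mul_neg, ← sub_eq_add_neg] at this
  have hL := v1 (A := A) (m := mc) k0 k1 (by omega) (by omega) (by omega)
  have hR := v0 (A := A) (m := mc - A.w) k0 k1 (by omega) (by omega) (by omega)
  have hB' : (if A.InL (m + s - A.h + A.h) f then (1 : ℤ) else 0) = B := by
    rw [sub_add_cancel]; exact hB
  exact E0x F hj hH hij t (r := r) hr hL hR hT hB' r0 r1 g0 g1 (by omega) (by omega) Y Y0 Y1

end Ap

end Pool.Agent.H98.Flat
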