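import Pool.Agent.H98.Flat.O.LocGA

/-! Section 1 without P1: (G+) for `w < h`, `2 w + h ≤ p`. -/

namespace Pool.Agent.H98.Flat

namespace Ap

variable {A : Ap}

theorem GplusA0 (F : A.Fl) {j i mc fc g m f s : ℤ} (hj : A.VW j mc fc g)
    (c0 : 0 ≤ mc) (cw : mc < A.w) (cd : mc < A.md ∨ (mc = A.md ∧ fc < A.fd))
    (hwh' : A.w < A.h) (hP : 2 * A.w + A.h ≤ A.p)
    (g1 : -(A.h : ℤ) < g) (g2 : g < A.h - A.w)
    (hi : A.Cls i m f s) (hij : i ≠ j) (h1 : m < mc ∨ (m = mc ∧ f < fc))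
    (h2 : mc - A.w < m ∨ (mc - A.w = m ∧ fc < f)) (v0' : -(A.h : ℤ) ≤ m + s)
    (v1' : m + s < A.p - A.h) : False := by
  have hw := A.hwz
  have P1 := A.h2z
  have hmd := A.hmd
  have hmd2 := A.hmd2
  have hwz' : (A.w : ℤ) < A.h := by exact_mod_cast hwh'
  have hPz : 2 * (A.w : ℤ) + A.h ≤ A.p := by exact_mod_cast hP
  have hj' := hj
  obtain ⟨mj, sj, hc, hcw⟩ := hj'
  have ffn : f ≠ fc := hi.f_ne hc hij
  have ffd := hi.f_ne_fd
  have f0 := hi.2.2.1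
  have f1 := hi.2.2.2.1
  clear hcw hc
  have e : (fc < f ∧ (if fc < f then (1 : ℤ) else 0) = 1) ∨
      (f < fc ∧ (if fc < f then (1 : ℤ) else 0) = 0) := by
    by_cases h : fc < f
    · left; exact ⟨h, if_pos h⟩
    · right; exact ⟨by omega, if_neg h⟩
  obtain ⟨z, hz⟩ : ∃ z : ℤ, z = (if fc < f then (1 : ℤ) else 0) := ⟨_, rfl⟩
  have ez : (fc < f ∧ z = 1) ∨ (f < fc ∧ z = 0) := by rw [hz]; exact e
  clear e
  -- the top
  obtain ⟨t, ht, t0, t1⟩ : ∃ t : ℤ, ((t = 0 ∧ (A.p : ℤ) * t = 0) ∨ (t = -1 ∧ (A.p : ℤ) * t = -A.p)) ∧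
      -(A.w : ℤ) - A.h < m + s - mc + z + A.p * t ∧
      m + s - mc + z + A.p * t ≤ A.p - A.w - A.h := by
    by_cases h : m + s - mc + z ≤ A.p - A.w - A.h
    · exact ⟨0, Or.inl ⟨rfl, mul_zero _⟩, by omega, by omega⟩
    · exact ⟨-1, Or.inr ⟨rfl, by ring⟩, by omega, by omega⟩
  have top := fun T B hT hB => top_rule F hj c0 cw cd hi hij h1 h2 t
    (r := m + s - mc + z + A.p * t) (T := T) (B := B) (by rw [hz]) hT hB (by omega) (by omega)
    t0 t1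
  obtain ⟨u, hu, u0, u1⟩ : ∃ u : ℤ, ((u = 0 ∧ (A.p : ℤ) * u = 0) ∨ (u = 1 ∧ (A.p : ℤ) * u = A.p)) ∧
      -(A.w : ℤ) - A.h < m + s - A.h - mc + z + A.p * u ∧
      m + s - A.h - mc + z + A.p * u ≤ A.p - A.w - A.h := by
    by_cases h : -(A.w : ℤ) - A.h < m + s - A.h - mc + z
    · exact ⟨0, Or.inl ⟨rfl, mul_zero _⟩, by omega, by omega⟩
    · exact ⟨1, Or.inr ⟨rfl, mul_one _⟩, by omega, by omega⟩
  have bot := fun T B hT hB => bot_rule F hj c0 cw cd hi hij h1 h2 u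
    (r := m + s - A.h - mc + z + A.p * u) (T := T) (B := B) (by rw [hz]) hT hB (by omega) (by omega)
    u0 u1
  by_cases T1 : A.InL (m + s) f
  · -- `V ∈ (0, d)`
    by_cases B1 : A.InL (m + s + A.h) f
    · obtain ⟨K, E⟩ := top 1 1 (if_pos T1) (if_pos B1)
      exact g11 hw hwz' P1 hPz g1 g2 t0 t1 K.1 K.2 E
    · by_cases S1 : A.InL (m + s - A.h) f
      · obtain ⟨K, E⟩ := bot 1 1 (if_pos S1) (if_pos T1)
        exact g11 hw hwz' P1 hPz g1 g2 u0 u1 K.1 K.2 E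
      · obtain ⟨K, E⟩ := bot 0 1 (if_neg S1) (if_pos T1)
        obtain ⟨G1, G2, G3⟩ := g01 hw hwz' P1 hPz g1 g2 u0 u1 K.1 K.2 E
        obtain ⟨K', E'⟩ := top 1 0 (if_pos T1) (if_neg B1)
        have G4 := g10 hw hwz' P1 hPz G1 G2 t0 t1 K'.1 K'.2 E'
        clear E E' top bot
        rw [InL_iff f0 f1 (by omega) (by omega)] at T1 B1 S1
        have V0 : 0 ≤ m + s := by omega
        have V1 : m + s < A.md ∨ (m + s = A.md ∧ f < A.fd) := by omega
        have V2 : A.md < m + s + A.h ∨ (A.md = m + s + A.h ∧ A.fd < f) := by omega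
        have V3 : m + s < A.h := by omega
        have hu0 : u = 0 := by omega
        rcases G3 with G3 | G3
        · have V4 : mc + g + A.p - A.h < m + s ∨ (mc + g + A.p - A.h = m + s ∧ fc < f) := by
            omega
          exact loc_gamma F hj c0 cw cd hwh' hP G1 G2 hi hij h1 h2 V0 V4 V1 V3
        · exact loc_alpha F hj c0 cw cd hwh' hP G1 G2 hi hij h1 h2 V0 (by omega) V2
  · by_cases B1 : A.InL (m + s + A.h) f
    · by_cases S1 : A.InL (m + s - A.h) f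
      · obtain ⟨K, E⟩ := top 0 1 (if_neg T1) (if_pos B1)
        obtain ⟨G1, G2, G3⟩ := g01 hw hwz' P1 hPz g1 g2 t0 t1 K.1 K.2 E
        obtain ⟨K', E'⟩ := bot 1 0 (if_pos S1) (if_neg T1)
        have G4 := g10 hw hwz' P1 hPz G1 G2 u0 u1 K'.1 K'.2 E'
        clear E E' top bot
        rw [InL_iff f0 f1 (by omega) (by omega)] at T1 B1 S1
        have V0 : m + s < 0 := by omega
        have V1 : m + s < A.md + A.h - A.p ∨ (m + s = A.md + A.h - A.p ∧ f < A.fd) := by omega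
        have ht0 : t = 0 := by omega
        rcases G3 with G3 | G3
        · exact loc_beta1 F hj c0 cw cd hwh' hP G1 G2 hi hij h1 h2 V0 (by omega) V1
        · have hu0 : u = 1 := by omega
          exact loc_beta2 F hj c0 cw cd hwh' hP G1 G2 hi hij h1 h2 v0' (by omega)
      · obtain ⟨K, E⟩ := bot 0 0 (if_neg S1) (if_neg T1)
        exact g00 hw hwz' P1 hPz g1 g2 u0 u1 K.1 K.2 E
    · obtain ⟨K, E⟩ := top 0 0 (if_neg T1) (if_neg B1)
      exact g00 hw hwz' P1 hPz g1 g2 t0 t1 K.1 K.2 E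

/-- (G+) for `w < h`, `2 w + h ≤ p` -/
theorem GplusA (F : A.Fl) {j i mc fc g m f s : ℤ} (hj : A.VW j mc fc g)
    (c0 : 0 ≤ mc) (cw : mc < A.w) (cd : mc < A.md ∨ (mc = A.md ∧ fc < A.fd))
    (hwh' : A.w < A.h) (hP : 2 * A.w + A.h ≤ A.p)
    (g1 : -(A.h : ℤ) < g) (g2 : g < A.h - A.w)
    (hi : A.Cls i m f s) (hij : i ≠ j) (h1 : m < mc ∨ (m = mc ∧ f < fc))
    (h2 : mc - A.w < m ∨ (mc - A.w = m ∧ fc < f)) : False := by
  have hp := A.p_pos'
  have e := Int.emod_add_mul_ediv (m + s + A.h) A.p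
  have e0 := Int.emod_nonneg (m + s + A.h) hp.ne'
  have e1 := Int.emod_lt_of_pos (m + s + A.h) hp
  have hi' := hi.shift 0 (-((m + s + A.h) / A.p))
  rw [mul_zero, add_zero, mul_neg] at hi'
  exact GplusA0 F hj c0 cw cd hwh' hP g1 g2 hi' hij h1 h2 (by omega) (by omega)

end Ap

end Pool.Agent.H98.Flat
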