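import Pool.Agent.H98.Flat.O.LocGB

/-! Section 1 without P1: (C*) for `w < h`, `2 w + h ≤ p`. -/

namespace Pool.Agent.H98.Flat

namespace Ap

variable {A : Ap}

theorem VW.shift {j mc f g : ℤ} (h : A.VW j mc f g) (t : ℤ) : A.VW j mc f (g + A.p * t) := by
  obtain ⟨m, s, hc, h1⟩ := h
  refine ⟨m, s + A.p * t, by simpa using hc.shift 0 t, ?_⟩
  rcases h1 with ⟨h1, h2⟩ | ⟨h1, h2⟩
  · left; exact ⟨h1, by rw [h2]⟩
  · right; exact ⟨h1, by rw [h2]; ring⟩

theorem CstarA0 (F : A.Fl) {j i mc fc g m f s : ℤ} (hj : A.VW j mc fc g)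
    (c0 : 0 ≤ mc) (cw : mc < A.w) (cd : mc < A.md ∨ (mc = A.md ∧ fc < A.fd))
    (hwh' : A.w < A.h) (hP : 2 * A.w + A.h ≤ A.p)
    (g0 : -(A.w : ℤ) - A.h < g) (g1 : g ≤ A.p - A.w - A.h)
    (hi : A.OvL i m f s) (hij : i ≠ j) (h1 : m < mc ∨ (m = mc ∧ f < fc))
    (h2 : mc - A.w < m ∨ (mc - A.w = m ∧ fc < f)) : False := by
  have hw := A.hwz
  have P1 := A.h2z
  have hmd := A.hmd
  have hmd2 := A.hmd2
  have hwz' : (A.w : ℤ) < A.h := by exact_mod_cast hwh'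
  have hPz : 2 * (A.w : ℤ) + A.h ≤ A.p := by exact_mod_cast hP
  have hj' := hj
  obtain ⟨mj, sj, hc, hcw⟩ := hj'
  have hi' := hi
  obtain ⟨hi'', -, -, v0', v1'⟩ := hi'
  have ffn : f ≠ fc := hi''.f_ne hc hij
  have ffd := hi''.f_ne_fd
  have f0 := hi''.2.2.1
  have f1 := hi''.2.2.2.1
  clear hcw hc
  have e : (fc < f ∧ (if fc < f then (1 : ℤ) else 0) = 1) ∨
      (f < fc ∧ (if fc < f then (1 : ℤ) else 0) = 0) := by
    by_cases h : fc < f
    · left; exact ⟨h, if_pos h⟩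
    · right; exact ⟨by omega, if_neg h⟩
  obtain ⟨z, hz⟩ : ∃ z : ℤ, z = (if fc < f then (1 : ℤ) else 0) := ⟨_, rfl⟩
  have ez : (fc < f ∧ z = 1) ∨ (f < fc ∧ z = 0) := by rw [hz]; exact e
  clear e
  rcases le_or_gt 0 (m + s) with hV | hV
  · -- inner wall: the bottom
    have T0 : ¬ A.InL (m + s - A.h) f := by
      rw [InL_iff f0 f1 (by omega) (by omega)]; omega
    have bot := fun B hB => bot_rule F hj c0 cw cd hi'' hij h1 h2 0
      (r := m + s - A.h - mc + z) (T := 0) (B := B) (by rw [hz]; ring) (if_neg T0) hB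
      (by omega) (by omega) (by omega) (by omega)
    have key : ∀ B : ℤ, (if A.InL (m + s) f then (1 : ℤ) else 0) = B →
        (B = 1 ∨ (B = 0 ∧ -(A.h : ℤ) < m + s - A.h - mc + z)) →
        B = 1 ∧ ((-(A.w : ℤ) ≤ g ∧ g ≤ 0 ∧ ¬ Ar A.p (m + s - A.h - mc + z) (g - A.h) g) ∨
        (g = A.p - A.w - A.h ∧ g ≤ A.h - 1 ∧ g - A.h < m + s - A.h - mc + z) ∨
        (g ≤ A.h - 1 - A.p ∧ g + A.p - A.h < m + s - A.h - mc + z) ∨
        (g ≤ A.h - A.p ∧ m + s - A.h - mc + z ≤ g)) := by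
      intro B hB hB'
      obtain ⟨K, E⟩ := bot B hB
      rw [mul_zero, add_zero] at K
      simp only [mul_zero, add_zero] at E
      exact cs_table hw hwz' P1 hPz g0 g1 (by omega) (by omega) K.1 K.2 hB' E
    clear bot
    by_cases B1 : A.InL (m + s) f
    · obtain ⟨-, h⟩ := key 1 (if_pos B1) (Or.inl rfl)
      rw [InL_iff f0 f1 (by omega) (by omega)] at B1
      rcases h with h | h | h | h
      · exact GplusA F hj c0 cw cd hwh' hP (by omega) (by omega) hi'' hij h1 h2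
      · exact loc_U F hj c0 cw cd hwh' hP (by omega) (by omega) hi hij h1 h2 (by omega)
      · have hj2 := hj.shift 1
        rw [mul_one] at hj2
        exact loc_U F hj2 c0 cw cd hwh' hP (by omega) (by omega) hi hij h1 h2 (by omega)
      · exact loc_D F hj c0 cw cd hwh' hP (by omega) (by omega) hi hij h1 h2 (by omega)
    · have B2 := B1
      rw [InL_iff f0 f1 (by omega) (by omega)] at B2
      obtain ⟨h, -⟩ := key 0 (if_neg B1) (Or.inr ⟨rfl, by omega⟩)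
      exact absurd h (by norm_num)
  · -- inner wall: the top
    have T0 : ¬ A.InL (m + s) f := by
      rw [InL_iff f0 f1 (by omega) (by omega)]; omega
    have top := fun B hB => top_rule F hj c0 cw cd hi'' hij h1 h2 0
      (r := m + s - mc + z) (T := 0) (B := B) (by rw [hz]; ring) (if_neg T0) hB
      (by omega) (by omega) (by omega) (by omega)
    have key : ∀ B : ℤ, (if A.InL (m + s + A.h) f then (1 : ℤ) else 0) = B →
        (B = 1 ∨ (B = 0 ∧ -(A.h : ℤ) < m + s - mc + z)) →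
        B = 1 ∧ ((-(A.w : ℤ) ≤ g ∧ g ≤ 0 ∧ ¬ Ar A.p (m + s - mc + z) (g - A.h) g) ∨
        (g = A.p - A.w - A.h ∧ g ≤ A.h - 1 ∧ g - A.h < m + s - mc + z) ∨
        (g ≤ A.h - 1 - A.p ∧ g + A.p - A.h < m + s - mc + z) ∨
        (g ≤ A.h - A.p ∧ m + s - mc + z ≤ g)) := by
      intro B hB hB'
      obtain ⟨K, E⟩ := top B hB
      rw [mul_zero, add_zero] at K
      simp only [mul_zero, add_zero] at E
      exact cs_table hw hwz' P1 hPz g0 g1 (by omega) (by omega) K.1 K.2 hB' E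
    clear top
    by_cases B1 : A.InL (m + s + A.h) f
    · obtain ⟨-, h⟩ := key 1 (if_pos B1) (Or.inl rfl)
      rw [InL_iff f0 f1 (by omega) (by omega)] at B1
      rcases h with h | h | h | h
      · exact GplusA F hj c0 cw cd hwh' hP (by omega) (by omega) hi'' hij h1 h2
      · exact loc_U F hj c0 cw cd hwh' hP (by omega) (by omega) hi hij h1 h2 (by omega)
      · have hj2 := hj.shift 1
        rw [mul_one] at hj2
        exact loc_U F hj2 c0 cw cd hwh' hP (by omega) (by omega) hi hij h1 h2 (by omega)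
      · exact loc_D F hj c0 cw cd hwh' hP (by omega) (by omega) hi hij h1 h2 (by omega)
    · have B2 := B1
      rw [InL_iff f0 f1 (by omega) (by omega)] at B2
      obtain ⟨h, -⟩ := key 0 (if_neg B1) (Or.inr ⟨rfl, by omega⟩)
      exact absurd h (by norm_num)

/-- (C*) for `w < h`, `2 w + h ≤ p` -/
theorem CstarA (F : A.Fl) {j i mc fc g m f s : ℤ} (hj : A.VW j mc fc g)
    (c0 : 0 ≤ mc) (cw : mc < A.w) (cd : mc < A.md ∨ (mc = A.md ∧ fc < A.fd))
    (hwh' : A.w < A.h) (hP : 2 * A.w + A.h ≤ A.p)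
    (hi : A.OvL i m f s) (hij : i ≠ j) (h1 : m < mc ∨ (m = mc ∧ f < fc))
    (h2 : mc - A.w < m ∨ (mc - A.w = m ∧ fc < f)) : False := by
  have hp := A.p_pos'
  have e := Int.emod_add_mul_ediv (g + A.w + A.h - 1) A.p
  have e0 := Int.emod_nonneg (g + A.w + A.h - 1) hp.ne'
  have e1 := Int.emod_lt_of_pos (g + A.w + A.h - 1) hp
  have hj' := hj.shift (-((g + A.w + A.h - 1) / A.p))
  rw [mul_neg] at hj'
  exact CstarA0 F hj' c0 cw cd hwh' hP (by omega) (by omega) hi hij h1 h2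

/-- (C*), the form of `Pair.lean` -/
theorem Cstar_A (F : A.Fl) (hwh' : A.w < A.h) (hP : 2 * A.w + A.h ≤ A.p)
    (_hn : A.p < 2 * (A.w + A.h))
    {j i mc fc g m f s : ℤ} (hj : A.VW j mc fc g)
    (c0 : 0 ≤ mc) (cw : mc < A.w) (cd : mc < A.md ∨ (mc = A.md ∧ fc < A.fd))
    (hi : A.OvL i m f s) (hij : i ≠ j) (h1 : m < mc ∨ (m = mc ∧ f < fc))
    (h2 : mc - A.w < m ∨ (mc - A.w = m ∧ fc < f)) : False :=
  CstarA F hj c0 cw cd hwh' hP hi hij h1 h2

/-- (G+), the form of `Pair.lean` -/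
theorem Gplus_A (F : A.Fl) (hwh' : A.w < A.h) (hP : 2 * A.w + A.h ≤ A.p)
    (_hn : A.p < 2 * (A.w + A.h))
    {j i mc fc g m f s : ℤ} (hj : A.VW j mc fc g)
    (c0 : 0 ≤ mc) (cw : mc < A.w) (cd : mc < A.md ∨ (mc = A.md ∧ fc < A.fd))
    (g1 : -(A.h : ℤ) < g) (g2 : g < A.h - A.w)
    (hi : A.Cls i m f s) (hij : i ≠ j) (h1 : m < mc ∨ (m = mc ∧ f < fc))
    (h2 : mc - A.w < m ∨ (mc - A.w = m ∧ fc < f)) : False :=
  GplusA F hj c0 cw cd hwh' hP g1 g2 hi hij h1 h2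

end Ap

end Pool.Agent.H98.Flat
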