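import Pool.Agent.H98.Flat.O.GPlus

/-! Section 1: the local lemmas (C*) and (G+). -/

namespace Pool.Agent.H98.Flat

namespace Ap

variable {A : Ap} [Fact (2 * (A.w + A.h) < A.p)]

theorem CstarP_aux (F : A.Fl) {j i mj sj mc fc g m f s : ℤ} (hjc : A.Cls j mj fc sj)
    (hw : (mc = mj ∧ g = sj) ∨ (mc = mj + A.w ∧ g = sj - A.w))
    (ga : -(A.w : ℤ) - A.h < g) (gb : g ≤ A.p - A.w - A.h)
    (c0 : 0 ≤ mc) (cw : mc < A.w) (cd : mc < A.md ∨ (mc = A.md ∧ fc < A.fd))
    (hi : A.OvL i m f s) (hij : i ≠ j) (h1 : m < mc ∨ (m = mc ∧ f < fc))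
    (h2 : mc - A.w < m ∨ (mc - A.w = m ∧ fc < f)) : False := by
  have P1 : 2 * ((A.w : ℤ) + A.h) < A.p := by exact_mod_cast A.P1
  have hw2 : (2 : ℤ) ≤ A.w := by exact_mod_cast A.hw
  have hwh : (A.w : ℤ) ≤ A.h := by exact_mod_cast A.hwh
  have hp := A.p_pos'
  have hmd := A.hmd
  have hmd2 := A.hmd2
  have hj : A.VW j mc fc g := ⟨mj, sj, hjc, hw⟩
  obtain ⟨hic, o1, o2, o3, o4⟩ := hi
  have fne := hic.f_ne hjc hij
  have f0 := hic.2.2.1
  have f1 := hic.2.2.2.1
  have hTop : A.HW i (m + s) f s := ⟨m, s, hic, Or.inl ⟨rfl, rfl⟩⟩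
  have hBot : A.HW i (m + s - A.h) f (s - A.h) := ⟨m, s, hic, Or.inr ⟨rfl, rfl⟩⟩
  have h1' := h1
  have h2' := h2
  have cd' := cd
  have ffd := hic.f_ne_fd
  have cfd := hjc.f_ne_fd
  rw [lex_iff fne, ord_swap fne.symm] at h1
  rw [lex_iff fne.symm] at h2
  have e01 := @ord01 f fc
  have hsw := ord_swap fne
  obtain ⟨e, he⟩ : ∃ e : ℤ, e = if f < fc then 1 else 0 := ⟨_, rfl⟩
  rw [← he] at h1 h2 e01 hsw
  -- `InL` facts for negative heights
  have hneg : ∀ x : ℤ, -(A.h : ℤ) - A.h ≤ x → x < 0 → (A.w = A.h ∨ -(A.h : ℤ) ≤ x) →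
      ¬ A.InL x f := by
    intro x x0 x1 x2
    rw [InL_iff f0 f1 (by clear * - x0 P1 hwh hw2 x2; omega) (by clear * - x1 hp; omega)]
    clear * - x0 x1 x2 P1 hwh hw2 hmd2
    omega
  -- the inner wall
  have inner : ∀ mb k, A.HW i mb f k → mb < 0 → -(A.h : ℤ) ≤ mb → (k = mb - m) →
      (A.InL (mb + A.h) f → mb + A.h = m + s ∨ True) →
      A.InL (mb + A.h) f ∧ -(A.w : ℤ) ≤ g ∧ g ≤ 0 ∧
        (mb - mc + (1 - e) ≤ g - A.h ∨ g < mb - mc + (1 - e)) := by
    intro mb k hH mb0 mb1 hk _
    have hr : mb - mc + (1 - e) = mb - mc + (if fc < f then 1 else 0) := by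
      clear * - hsw; omega
    have k1 : mb - mc + (1 - e) ≤ k := by clear * - h1 hk; omega
    have k2 : k - A.w < mb - mc + (1 - e) := by clear * - h2 hk; omega
    have R := rule_of_E0 F hj hH c0 cw cd' hij hr k1 k2 Iff.rfl Iff.rfl
    have hT := hneg mb (by clear * - mb1 hw2 hwh; omega) mb0 (Or.inr mb1)
    simp only [hT, if_false, sub_zero] at R
    by_cases hB : A.InL (mb + A.h) f
    · simp only [hB, if_true] at R
      have := levC (lo := -(A.h : ℤ) - A.w) (by rwa [show -(-(A.h : ℤ) - A.w) = A.h + A.w by ring])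
        (Or.inr (by ring)) hw2 hwh P1 ga gb (by clear * - mb1 cw e01; omega)
        (by clear * - mb0 c0 e01; omega) k1 k2
      exact ⟨hB, this.2⟩
    · simp only [hB, if_false, sub_zero, add_zero] at R
      have hlo : -(A.h : ℤ) < mb - mc + (1 - e) := by
        have h3 : ¬ (mb + A.h < A.md ∨ (mb + A.h = A.md ∧ f < A.fd)) := by
          intro h4
          apply hB
          rw [InL_iff f0 f1 (by clear * - mb1 hp; omega) (by clear * - mb0 P1 hw2 hwh; omega)]
          left; exact ⟨by clear * - mb1; omega, h4⟩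
        rcases lt_or_gt_of_ne fne with h5 | h5
        · have : e = 1 := by rw [he, if_pos h5]
          clear * - this h3 cd h5 ffd cfd; omega
        · have : e = 0 := by rw [he, if_neg (by omega)]
          clear * - this h3 cd h5 ffd cfd; omega
      have := levC (lo := -(A.h : ℤ)) (by rwa [neg_neg])
        (Or.inl rfl) hw2 hwh P1 ga gb hlo
        (by clear * - mb0 c0 e01; omega) k1 k2
      exfalso
      clear * - this hw2
      omega
  -- conclusion
  have fin : ∀ mb k, A.HW i mb f k → mb < 0 → -(A.h : ℤ) ≤ mb → (k = mb - m) →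
      ((mb = m + s ∧ m + s < 0) ∨ (mb = m + s - A.h ∧ 0 ≤ m + s)) → False := by
    intro mb k hH mb0 mb1 hk hmb
    obtain ⟨hB, a1, a2, a3⟩ := inner mb k hH mb0 mb1 hk (fun _ => Or.inr trivial)
    rcases lt_or_eq_of_le hwh with hlt | heq
    · exact GplusP F hj c0 cw cd' (by clear * - a1 hlt; omega) (by clear * - a2 hlt; omega) hic hij
        h1' h2'
    · have heq' : A.w = A.h := by exact_mod_cast heq
      by_cases g0 : g = 0
      · -- (E1)
        rcases hmb with ⟨rfl, hv⟩ | ⟨rfl, hv⟩
        · -- S type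
          have hr : m + s - A.h - mc + (1 - e) = m + s - A.h - mc + (if fc < f then 1 else 0) := by
            clear * - hsw; omega
          have k1 : m + s - A.h - mc + (1 - e) ≤ s - A.h := by clear * - h1; omega
          have k2 : s - A.h - A.w < m + s - A.h - mc + (1 - e) := by clear * - h2; omega
          have R := rule_of_E0 F hj hBot c0 cw cd' hij hr k1 k2 Iff.rfl Iff.rfl
          have hT := hneg (m + s - A.h) (by clear * - o3; omega) (by clear * - hv hw2 hwh; omega)
            (Or.inl heq')
          have hB' := hneg (m + s - A.h + A.h) (by clear * - o3 hw2 hwh; omega)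
            (by clear * - hv; omega) (Or.inr (by clear * - o3; omega))
          simp only [hT, hB', if_false, sub_zero, add_zero] at R
          have := R 0 ?_ ?_
          · rw [InA_iff' (x := 0) (by clear * - P1 hw2 hwh; omega) (by clear * - P1 hw2 hwh; omega)
                (by clear * - P1 hw2 hwh; omega),
              InA_iff' (lo := -(A.h : ℤ)) (by clear * - o3 cw e01 P1 hw2 hwh heq; omega)
                (by clear * - hv c0 e01 P1 hw2 hwh; omega) (by clear * - P1 hw2 hwh; omega)] at this
            clear * - this a3 g0 hw2 hwh heq hv c0 e01 o3 cw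
            omega
          · rw [InA_iff' (x := 0) (by clear * - P1 hw2 hwh g0; omega)
                (by clear * - P1 hw2 hwh g0; omega) (by clear * - P1 hw2 hwh; omega),
              InA_iff' (x := m + s - A.h - mc + (1 - e)) (by clear * - o3 cw e01 P1 hw2 hwh heq g0; omega)
                (by clear * - hv c0 e01 P1 hw2 hwh g0; omega) (by clear * - P1 hw2 hwh; omega)]
            clear * - a3 g0 hw2 hwh heq hv c0 e01 o3 cw
            omega
          · rw [InA_iff' (by clear * - k1 k2 o3 cw hv e01 a3 g0 P1 hw2 hwh heq c0 o1 o2; omega)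
                (by clear * - k1 k2 o3 cw hv e01 P1 hw2 hwh heq; omega)
                (by clear * - P1 hw2 hwh; omega)]
            clear * - k1 k2 a3 g0 hw2 hwh heq hv c0 e01
            omega
        · -- N type
          refine alpha F hjc hw c0 cw cd' hic hij h1' h2' (by clear * - g0 hw2; omega) a2 hv ?_
          rw [lex_iff fne, ord_swap fne.symm, ← he]
          clear * - a3 g0 heq o4 c0 e01 hv
          omega
      by_cases gw : g = -A.w
      · -- (E2)
        rcases hmb with ⟨rfl, hv⟩ | ⟨rfl, hv⟩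
        · have hr : m + s - A.h - mc + (1 - e) = m + s - A.h - mc + (if fc < f then 1 else 0) := by
            clear * - hsw; omega
          have k1 : m + s - A.h - mc + (1 - e) ≤ s - A.h := by clear * - h1; omega
          have k2 : s - A.h - A.w < m + s - A.h - mc + (1 - e) := by clear * - h2; omega
          have R := rule_of_E0 F hj hBot c0 cw cd' hij hr k1 k2 Iff.rfl Iff.rfl
          have hT := hneg (m + s - A.h) (by clear * - o3; omega) (by clear * - hv hw2 hwh; omega)
            (Or.inl heq')
          have hB' := hneg (m + s - A.h + A.h) (by clear * - o3 hw2 hwh; omega)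
            (by clear * - hv; omega) (Or.inr (by clear * - o3; omega))
          simp only [hT, hB', if_false, sub_zero, add_zero] at R
          have := R 0 ?_ ?_
          · rw [InA_iff' (x := 0) (by clear * - P1 hw2 hwh; omega) (by clear * - P1 hw2 hwh; omega)
                (by clear * - P1 hw2 hwh; omega),
              InA_iff' (lo := -(A.h : ℤ)) (by clear * - o3 cw e01 P1 hw2 hwh heq; omega)
                (by clear * - hv c0 e01 P1 hw2 hwh; omega) (by clear * - P1 hw2 hwh; omega)] at this
            clear * - this a3 gw hw2 hwh heq hv c0 e01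
            omega
          · rw [InA_iff' (x := 0) (by clear * - P1 hw2 hwh gw; omega)
                (by clear * - P1 hw2 hwh gw; omega) (by clear * - P1 hw2 hwh; omega),
              InA_iff' (x := m + s - A.h - mc + (1 - e)) (by clear * - o3 cw e01 P1 hw2 hwh heq gw; omega)
                (by clear * - hv c0 e01 P1 hw2 hwh gw; omega) (by clear * - P1 hw2 hwh; omega)]
            clear * - a3 gw hw2 hwh heq hv c0 e01 o3 cw
            omega
          · rw [InA_iff' (by clear * - k1 k2 o3 cw hv e01 a3 gw P1 hw2 hwh heq c0; omega)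
                (by clear * - k1 k2 o3 cw hv e01 P1 hw2 hwh heq c0; omega)
                (by clear * - P1 hw2 hwh; omega)]
            clear * - k1 k2 a3 gw hw2 hwh heq hv c0 e01
            omega
        · refine two' F heq' hjc hw c0 cw cd' hic hij h1' h2' a1 (by clear * - gw hw2; omega) ?_
            (by clear * - o4 heq; omega) ?_
          · rw [lex_iff fne.symm, ← he]
            clear * - a3 gw heq hv o4 c0 cw e01
            omega
          · rw [show m + s - (A.h : ℤ) + A.h = m + s by ring,
              InL_iff f0 f1 (by clear * - hv hp; omega) (by clear * - o4 P1 hw2 hwh; omega)] at hB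
            clear * - hB hv; omega
      · exact GplusP F hj c0 cw cd' (by clear * - a1 heq gw; omega) (by clear * - a2 heq g0; omega)
          hic hij h1' h2'
  rcases le_or_gt 0 (m + s) with hv | hv
  · exact fin _ _ hBot (by clear * - o4; omega) (by clear * - hv; omega) (by ring)
      (Or.inr ⟨rfl, hv⟩)
  · exact fin _ _ hTop hv o3 (by ring) (Or.inl ⟨rfl, hv⟩)

/-- (C*): a class `j` with a wall `c` in `(0, min d w)` and an overlapping class `i ≠ j`
never have `U_i` in `(c - w, c)` -/
theorem CstarP (F : A.Fl) {j i mc fc g m f s : ℤ} (hj : A.VW j mc fc g)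
    (c0 : 0 ≤ mc) (cw : mc < A.w) (cd : mc < A.md ∨ (mc = A.md ∧ fc < A.fd))
    (hi : A.OvL i m f s) (hij : i ≠ j) (h1 : m < mc ∨ (m = mc ∧ f < fc))
    (h2 : mc - A.w < m ∨ (mc - A.w = m ∧ fc < f)) : False := by
  obtain ⟨mj, sj, hjc, hw⟩ := hj
  obtain ⟨t, t1, t2⟩ := exists_lift A.p_pos' g (-A.w - A.h)
  have hjc' : A.Cls j mj fc (sj + A.p * t) := by simpa using hjc.shift 0 t
  exact CstarP_aux F hjc' (g := g + A.p * t) (by clear * - hw; omega) t1
    (by clear * - t2; omega) c0 cw cd hi hij h1 h2

end Ap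

end Pool.Agent.H98.Flat
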