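import Pool.Agent.H98.Flat.O.Basic

/-! MONO: monotonicity of the number of rectangles over a column. -/

namespace Pool.Agent.H98.Flat

open Finset

namespace Cfg

variable {C : Cfg}

/-- number of rectangles over the column `u` -/
def nUc (C : Cfg) (u : ℤ) : ℤ := ∑ k ∈ range C.p, C.hor k u

theorem Mono_sum_f (v : ℤ) : ∑ y ∈ range C.p, C.f y v = C.w * C.M v := by
  unfold f M
  rw [Finset.sum_comm]
  have : ∀ i ∈ range C.w, ∑ y ∈ range C.p, ph C.N (C.V (y + i)) (C.ell (y + i)) v =
      ∑ k ∈ range C.p, ph C.N (C.V k) (C.ell k) v := by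
    intro i _
    exact C.sum_shift' (fun k => ph C.N (C.V k) (C.ell k) v)
      (fun k => C.arcV_congr (by simp) (by simp)) i
  rw [Finset.sum_congr rfl this, Finset.sum_const, Finset.card_range, nsmul_eq_mul]

theorem Mono_sum_g (u : ℤ) : ∑ y ∈ range C.p, C.g y u = C.w * C.T u + C.h * C.nUc u := by
  unfold g T nUc
  rw [Finset.sum_add_distrib, Finset.sum_comm, Finset.sum_comm (s := range C.p) (t := range C.h)]
  congr 1
  · have : ∀ i ∈ range C.w, ∑ y ∈ range C.p, ph C.N (C.U (y + i)) (C.ell (y + i)) u =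
        ∑ k ∈ range C.p, ph C.N (C.U k) (C.ell k) u := by
      intro i _
      exact C.sum_shift' (fun k => ph C.N (C.U k) (C.ell k) u)
        (fun k => C.arcU_congr (by simp) (by simp)) i
    rw [Finset.sum_congr rfl this, Finset.sum_const, Finset.card_range, nsmul_eq_mul]
  · have : ∀ i ∈ range C.h, ∑ y ∈ range C.p, ph C.N (C.U (y + C.w + i)) C.W u =
        ∑ k ∈ range C.p, C.hor k u := by
      intro i _
      have h := C.sum_shift' (fun k => C.hor k u)
        (fun k => C.hor_congr (by simp) (by simp)) (C.w + i)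
      rw [← h]
      refine Finset.sum_congr rfl fun y _ => ?_
      rw [← add_assoc]
      rfl
    rw [Finset.sum_congr rfl this, Finset.sum_const, Finset.card_range, nsmul_eq_mul]

/-- the sum over the levels of the signed charges -/
theorem Mono_sum (u v : ℤ) : ∑ y ∈ range C.p, (C.R u v - C.g y u + C.f y v) =
    C.p * C.R u v - C.h * C.nUc u - C.w * C.nV v + C.w * C.h := by
  rw [Finset.sum_add_distrib, Finset.sum_sub_distrib, Mono_sum_f, Mono_sum_g, Finset.sum_const,
    Finset.card_range, nsmul_eq_mul, T_const (C := C) u 0]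
  have h := M_add_nV (C := C) v
  have h2 : C.M v = C.T 0 + C.h - C.nV v := by omega
  rw [h2]
  ring

/-- one level has charge zero -/
theorem Mono_zero (u v : ℤ) : ∃ y : ℤ, C.R u v - C.g y u + C.f y v = 0 := by
  have hq : (0 : ℤ) < C.q := by exact_mod_cast C.hq
  refine ⟨(v - u) / C.q + 1, ?_⟩
  have h1 := Int.emod_add_mul_ediv (v - u) C.q
  have h2 := Int.emod_nonneg (v - u) hq.ne'
  have h3 := Int.emod_lt_of_pos (v - u) hq
  have h4 := C.gid ((v - u) / C.q + 1) u (v - u)
    (by rw [add_sub_cancel_right]; omega) (by rw [mul_add, mul_one]; omega)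
  rw [show u + (v - u) = v by ring] at h4
  omega

theorem Mono_abs (hfl : C.IsFlat) (u v : ℤ) :
    |C.p * C.R u v - C.h * C.nUc u - C.w * C.nV v + C.w * C.h| ≤ C.p - 1 := by
  obtain ⟨y, hy⟩ := Mono_zero (C := C) u v
  rw [← Mono_sum, ← C.sum_shift (fun y => C.R u v - C.g y u + C.f y v) (fun k => by
    rw [C.g_congr (y := k + C.p) (y' := k) (v := u) (v' := u) (by simp) (by simp),
      C.f_congr (y := k + C.p) (y' := k) (v := v) (v' := v) (by simp) (by simp)]) y]
  have hp := C.p_pos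
  obtain ⟨m, hm⟩ : ∃ m, C.p = m + 1 := ⟨C.p - 1, by omega⟩
  rw [hm, Finset.sum_range_succ']
  simp only [Nat.cast_zero, add_zero]
  rw [hy, add_zero]
  refine (Finset.abs_sum_le_sum_abs _ _).trans ?_
  refine (Finset.sum_le_card_nsmul (range m) _ 1 fun i _ => hfl _ _ _).trans ?_
  rw [Finset.card_range]
  simp

theorem Mono_main (hfl : C.IsFlat) {u u' v : ℤ} (h : 2 ≤ C.R u v) (h' : C.R u' v = 0) :
    C.nUc u' < C.nUc u := by
  have h1 := abs_le.1 (Mono_abs hfl u v)
  have h2 := abs_le.1 (Mono_abs hfl u' v)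
  rw [h'] at h2
  have hp : (0 : ℤ) < C.p := by exact_mod_cast C.p_pos
  have hh : (0 : ℤ) < C.h := by exact_mod_cast C.hh
  have h3 : (C.p : ℤ) * 2 ≤ C.p * C.R u v := by nlinarith
  have h4 : (C.h : ℤ) * C.nUc u' < C.h * C.nUc u := by linarith [h1.2, h2.1]
  exact lt_of_mul_lt_mul_left h4 hh.le

end Cfg

namespace Ap

variable {A : Ap}

/-- number of rectangles of the window `0 … p-1` over the column `u` -/
def nU (A : Ap) (u : ℤ) : ℤ := ∑ k ∈ range A.p, (A.cfg 0).hor k u

/-- MONO -/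
theorem mono (F : A.Fl) {u u' v : ℤ} (h : 2 ≤ (A.cfg 0).R u v) (h' : (A.cfg 0).R u' v = 0) :
    A.nU u' < A.nU u :=
  Cfg.Mono_main (C := A.cfg 0) F h h'

end Ap

end Pool.Agent.H98.Flat
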