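import Pool.Agent.H98.Flat.O.Stat
import Pool.Agent.H98.Flat.O.Gap
import Pool.Agent.H98.Flat.O.Mono

/-! Section 4: near types. -/

namespace Pool.Agent.H98.Flat

open Finset

/-- sum over a period of a nonnegative function, two classes -/
theorem near_sum_two {C : Cfg} {G : ℤ → ℤ} (hG : ∀ k, 0 ≤ G k)
    (hper : ∀ k j, (C.p : ℤ) ∣ k - j → G k = G j) {k j : ℤ} (hkj : ¬ (C.p : ℤ) ∣ k - j) :
    G k + G j ≤ ∑ i ∈ range C.p, G i := by
  obtain ⟨x, hx, hkx⟩ := C.exists_mod k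
  obtain ⟨y, hy, hjy⟩ := C.exists_mod j
  have hxy : x ≠ y := by
    intro h
    subst h
    apply hkj
    have := dvd_sub hkx hjy
    rwa [show k - (x : ℤ) - (j - x) = k - j by ring] at this
  rw [hper k x hkx, hper j y hjy]
  have h1 : ∑ i ∈ ({x, y} : Finset ℕ), G i ≤ ∑ i ∈ range C.p, G i := by
    apply Finset.sum_le_sum_of_subset_of_nonneg
    · intro i hi
      simp only [Finset.mem_insert, Finset.mem_singleton] at hi
      rcases hi with rfl | rfl <;> simpa
    · intro i _ _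
      exact hG i
  rwa [Finset.sum_pair hxy] at h1

/-- sum over a period of a function with values `0, 1` supported on two classes -/
theorem near_sum_le {C : Cfg} {G : ℤ → ℤ} (hG : ∀ k, G k = 0 ∨ G k = 1) {a b : ℤ}
    (hs : ∀ k, G k = 1 → (C.p : ℤ) ∣ k - a ∨ (C.p : ℤ) ∣ k - b) :
    ∑ i ∈ range C.p, G i ≤ 2 := by
  obtain ⟨x, hx, hax⟩ := C.exists_mod a
  obtain ⟨y, hy, hby⟩ := C.exists_mod b
  have key : ∀ i ∈ range C.p, G i ≤ (if i = x then 1 else 0) + (if i = y then 1 else 0) := by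
    intro i hi
    rw [Finset.mem_range] at hi
    rcases hG i with h | h
    · rw [h]
      split_ifs <;> norm_num
    · rw [h]
      rcases hs i h with h1 | h1
      · have h2 := dvd_add h1 hax
        rw [show (i : ℤ) - a + (a - x) = i - x by ring] at h2
        have h3 : |(i : ℤ) - x| < C.p := by rw [abs_lt]; constructor <;> omega
        have h4 := Int.eq_zero_of_abs_lt_dvd h2 h3
        have h5 : i = x := by omega
        rw [if_pos h5]
        split_ifs <;> norm_num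
      · have h2 := dvd_add h1 hby
        rw [show (i : ℤ) - b + (b - y) = i - y by ring] at h2
        have h3 : |(i : ℤ) - y| < C.p := by rw [abs_lt]; constructor <;> omega
        have h4 := Int.eq_zero_of_abs_lt_dvd h2 h3
        have h5 : i = y := by omega
        rw [if_pos h5]
        split_ifs <;> norm_num
  refine (Finset.sum_le_sum key).trans ?_
  rw [Finset.sum_add_distrib, Finset.sum_ite_eq', Finset.sum_ite_eq']
  split_ifs <;> norm_num

namespace Ap

variable {A : Ap} [Fact A.Reg]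

/-- arithmetic of the two extreme gaps -/
theorem near_arith {a b p q w X Y : ℤ} (ha : 0 < a) (hX : 0 < X) (hq : 0 < q)
    (hw : 2 ≤ w) (e : b * X + a * Y = p * q) (hab : p ≤ a + b) (hXY : q * w ≤ X + Y)
    (hXq : X < q) (hne : a ≠ b) : 2 * a < p := by
  have h1 : a * (q * w) ≤ a * (X + Y) := mul_le_mul_of_nonneg_left hXY ha.le
  have h2 : a * (X + Y) = p * q - (b - a) * X := by linear_combination e
  have h3 : a * (q * w) = q * (a * w) := by ring
  have h4 : a * 2 ≤ a * w := mul_le_mul_of_nonneg_left hw ha.le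
  rcases lt_or_gt_of_ne hne with h | h
  · have h5 : 0 < (b - a) * X := mul_pos (by omega) hX
    have h6 : q * (a * w) < q * p := by rw [mul_comm q p]; omega
    have h7 : a * w < p := lt_of_mul_lt_mul_left h6 hq.le
    omega
  · exfalso
    have h5 : (a - b) * X < (a - b) * q := mul_lt_mul_of_pos_left hXq (by omega)
    have h6 : -((b - a) * X) = (a - b) * X := by ring
    have h7 : q * (a * w) < q * (p + (a - b)) := by
      have : q * (p + (a - b)) = p * q + (a - b) * q := by ring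
      omega
    have h8 : a * w < p + (a - b) := lt_of_mul_lt_mul_left h7 hq.le
    omega

/-- the two extreme classes are different -/
theorem near_ne {a ma fa sa b mb fb sb : ℤ} (ha : A.Cls a ma fa sa) (hb : A.Cls b mb fb sb)
    (hab : (A.p : ℤ) ≤ a + b)
    (e : b * (A.q * ma + fa) - a * (A.q * mb + fb) = A.p * A.q) : a ≠ b := by
  intro h
  subst h
  obtain ⟨h1, h2, _⟩ := Cls.uniq ha hb
  obtain ⟨t, ht⟩ := h2
  have hq := A.q_pos'
  have hp := A.p_pos'
  have ha0 := ha.1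
  have hp2 : (2 : ℤ) < A.p := by have := A.R1; have := A.hw; have := A.hwh; omega
  subst h1
  have e2 : (A.p : ℤ) * A.q * (a * t) = A.p * A.q * 1 := by
    have : ma = mb + A.p * t := by omega
    rw [this] at e
    linear_combination e
  have e3 : a * t = 1 := mul_left_cancel₀ (mul_pos hp hq).ne' e2
  have e4 : a = 1 := by
    have h3 : a ∣ 1 := ⟨t, e3.symm⟩
    exact Int.eq_one_of_dvd_one ha0.le h3
  omega

/-- near right type: it is the smallest positive class, and the largest negative one is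
at distance `≥ w` -/
theorem near_right (F : A.Fl) {i m f s : ℤ} (h : A.OvL i m f s) (hm : 0 ≤ m)
    (hd : m < A.md ∨ (m = A.md ∧ f < A.fd))
    (s0 : -(A.h : ℤ) < s) (s1 : s < A.h - A.w)
    {a ma fa sa b mb fb sb : ℤ} (ha : A.Cls a ma fa sa) (hb : A.Cls b mb fb sb)
    (hma : 0 ≤ ma) (hmb : mb < 0)
    (hmin : ∀ i m f s, A.Cls i m f s → 0 ≤ m → ma < m ∨ (ma = m ∧ fa ≤ f)) :
    a = i ∧ ma = m ∧ fa = f ∧ A.q * (A.w : ℤ) ≤ A.q * ma + fa - (A.q * mb + fb) := by
  obtain ⟨hc, h1, h2, h3, h4⟩ := h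
  have hVW : A.VW i m f s := ⟨m, s, hc, Or.inl ⟨rfl, rfl⟩⟩
  have hmn := hmin i m f s hc hm
  have hq := A.q_pos'
  have hw : (2 : ℤ) ≤ A.w := by exact_mod_cast A.hw
  have hP := A.R1z
  have hai : a = i := by
    by_contra hne
    have hf := Cls.f_ne ha hc hne
    exact Gplus F hVW hm (by omega) hd s0 s1 ha hne (by omega) (Or.inl (by omega))
  subst hai
  obtain ⟨g1, g2, _⟩ := Cls.uniq ha hc
  have g3 : ma = m := by
    have h5 : |ma - m| < A.p := by rw [abs_lt]; constructor <;> omega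
    have := Int.eq_zero_of_abs_lt_dvd g2 h5
    omega
  refine ⟨rfl, g3, g1, ?_⟩
  rw [g3, g1]
  have g4 : mb < m - A.w ∨ (mb = m - A.w ∧ fb ≤ f) := by
    by_contra hcon
    by_cases hbi : b = a
    · subst hbi
      obtain ⟨k1, k2, _⟩ := Cls.uniq hb hc
      obtain ⟨t, ht⟩ := k2
      have ht0 : t < 0 := by
        by_contra hge
        rw [not_lt] at hge
        have := mul_nonneg A.p_pos'.le hge
        omega
      have ht1 : (A.p : ℤ) * t ≤ A.p * (-1) := mul_le_mul_of_nonneg_left (by omega) A.p_pos'.le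
      omega
    · have hf := Cls.f_ne hb hc hbi
      exact Gplus F hVW hm (by omega) hd s0 s1 hb hbi (by omega) (by omega)
  obtain ⟨_, _, hf0, hf1, _⟩ := hc
  obtain ⟨_, _, hfb0, hfb1, _⟩ := hb
  rcases g4 with g | ⟨g, g'⟩
  · have h6 : (A.q : ℤ) * mb ≤ A.q * (m - A.w - 1) := mul_le_mul_of_nonneg_left (by omega) hq.le
    have h7 : (A.q : ℤ) * (m - A.w - 1) = A.q * m - A.q * A.w - A.q := by ring
    omega
  · have h7 : (A.q : ℤ) * mb = A.q * m - A.q * A.w := by rw [g]; ring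
    omega

/-- near left type: it is the largest negative class -/
theorem near_left (F : A.Fl) {i m f s : ℤ} (h : A.OvL i m f s) (hm : m < 0)
    (s0 : -(A.h : ℤ) < s - A.w) (s1 : s < A.h)
    {a ma fa sa b mb fb sb : ℤ} (ha : A.Cls a ma fa sa) (hb : A.Cls b mb fb sb)
    (hma : 0 ≤ ma) (hmb : mb < 0)
    (hmax : ∀ i m f s, A.Cls i m f s → m < 0 → m < mb ∨ (m = mb ∧ f ≤ fb)) :
    b = i ∧ mb = m ∧ fb = f ∧ A.q * (A.w : ℤ) ≤ A.q * ma + fa - (A.q * mb + fb) := by
  have hlt := left_lt F h hm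
  obtain ⟨hc, h1, h2, h3, h4⟩ := h
  have hVW : A.VW i (m + A.w) f (s - A.w) := ⟨m, s, hc, Or.inr ⟨rfl, rfl⟩⟩
  have hmn := hmax i m f s hc hm
  have hq := A.q_pos'
  have hw : (2 : ℤ) ≤ A.w := by exact_mod_cast A.hw
  have hP := A.R1z
  have hbi : b = i := by
    by_contra hne
    have hf := Cls.f_ne hb hc hne
    exact Gplus F hVW (by omega) (by omega) hlt s0 (by omega) hb hne (Or.inl (by omega)) (by omega)
  subst hbi
  obtain ⟨g1, g2, _⟩ := Cls.uniq hb hc
  have g3 : mb = m := by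
    have h5 : |mb - m| < A.p := by rw [abs_lt]; constructor <;> omega
    have := Int.eq_zero_of_abs_lt_dvd g2 h5
    omega
  refine ⟨rfl, g3, g1, ?_⟩
  rw [g3, g1]
  have g4 : m + A.w < ma ∨ (m + A.w = ma ∧ f ≤ fa) := by
    by_contra hcon
    by_cases hai : a = b
    · subst hai
      obtain ⟨k1, k2, _⟩ := Cls.uniq ha hc
      obtain ⟨t, ht⟩ := k2
      have ht0 : 0 < t := by
        by_contra hge
        rw [not_lt] at hge
        have := mul_nonpos_of_nonneg_of_nonpos A.p_pos'.le hge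
        omega
      have ht1 : (A.p : ℤ) * 1 ≤ A.p * t := mul_le_mul_of_nonneg_left (by omega) A.p_pos'.le
      omega
    · have hf := Cls.f_ne ha hc hai
      exact Gplus F hVW (by omega) (by omega) hlt s0 (by omega) ha hai (by omega) (Or.inl (by omega))
  obtain ⟨_, _, hf0, hf1, _⟩ := hc
  obtain ⟨_, _, hfa0, hfa1, _⟩ := ha
  rcases g4 with g | ⟨g, g'⟩
  · have h6 : (A.q : ℤ) * (m + A.w + 1) ≤ A.q * ma := mul_le_mul_of_nonneg_left (by omega) hq.le
    have h7 : (A.q : ℤ) * (m + A.w + 1) = A.q * m + A.q * A.w + A.q := by ring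
    omega
  · have h7 : (A.q : ℤ) * ma = A.q * m + A.q * A.w := by rw [← g]; ring
    omega

/-- (i): no near right type with `U < 1`, `U < d` -/
theorem near_i (F : A.Fl) {i f s : ℤ} (h : A.OvL i 0 f s) (hd : 0 < A.md ∨ f < A.fd)
    (s0 : -(A.h : ℤ) < s) (s1 : s < A.h - A.w) : False := by
  obtain ⟨a, ma, fa, sa, b, mb, fb, sb, ha, hb, hma, hmb, hmin, hmax, hab, e⟩ := gap A
  have hd' : (0 : ℤ) < A.md ∨ ((0 : ℤ) = A.md ∧ f < A.fd) := by
    have := A.hmd
    omega
  obtain ⟨g1, g2, g3, g4⟩ := near_right F h le_rfl hd' s0 s1 ha hb hma hmb hmin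
  have hne := near_ne ha hb hab e
  subst g1 g2 g3
  have hq := A.q_pos'
  have hw : (2 : ℤ) ≤ A.w := by exact_mod_cast A.hw
  have hc := h.1
  obtain ⟨hi0, hi1, hf0, hf1, _⟩ := hc
  have h2a : 2 * a < A.p := by
    apply near_arith (X := A.q * 0 + fa) (Y := -(A.q * mb + fb)) hi0 (by omega) hq hw
      (by linear_combination e) hab (by omega) (by omega) hne
  -- the class `p - a`
  have hfd := A.hfd
  have hfd2 := A.hfd2
  have hneg := Cls.neg h.1
  have hhalf : 2 * fa ≤ A.q * A.md + A.fd := by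
    have hqm : (A.q : ℤ) * 1 ≤ A.q * A.md ∨ A.md = 0 := by
      rcases A.hmd.eq_or_lt with h0 | h0
      · right; exact h0.symm
      · left; exact mul_le_mul_of_nonneg_left (by omega) hq.le
    rcases hneg with ⟨k1, k2⟩ | ⟨k1, k2⟩
    · have := hmin _ _ _ _ k2 (by have := A.hmd; omega)
      rcases hqm with h0 | h0
      · omega
      · rw [h0] at this ⊢
        omega
    · have := hmin _ _ _ _ k2 (by omega)
      rcases hqm with h0 | h0
      · rcases this with h5 | ⟨h5, h6⟩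
        · have : (A.q : ℤ) * 2 ≤ A.q * A.md := mul_le_mul_of_nonneg_left (by omega) hq.le
          omega
        · omega
      · omega
  have hadd := Cls.add h.1 h.1 (by omega)
  rcases hadd with ⟨k1, k2⟩ | ⟨k1, k2⟩
  · have hfne := Cls.f_ne_fd k2
    apply EZ_E F h le_rfl (j := a + a) (mc := 0 + 0) (fc := fa + fa) (g := s + s)
      ⟨_, _, k2, Or.inl ⟨rfl, rfl⟩⟩ (by omega) (by omega)
    · rcases A.hmd.eq_or_lt with h0 | h0
      · right
        rw [← h0] at hhalf ⊢
        omega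
      · left; omega
    · right; omega
  · have hfne := Cls.f_ne_fd k2
    apply EZ_E F h le_rfl (j := a + a) (mc := 0 + 0 + 1) (fc := fa + fa - A.q) (g := s + s)
      ⟨_, _, k2, Or.inl ⟨rfl, rfl⟩⟩ (by omega) (by omega)
    · rcases A.hmd.eq_or_lt with h0 | h0
      · rw [← h0] at hhalf
        omega
      · by_cases h1 : A.md = 1
        · right
          rw [h1] at hhalf ⊢
          omega
        · left; omega
    · left; omega

/-- (iii): no near left type with `-1 < U` -/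
theorem near_iii (F : A.Fl) {i f s : ℤ} (h : A.OvL i (-1) f s)
    (s0 : -(A.h : ℤ) < s - A.w) (s1 : s < A.h) : False := by
  obtain ⟨a, ma, fa, sa, b, mb, fb, sb, ha, hb, hma, hmb, hmin, hmax, hab, e⟩ := gap A
  obtain ⟨g1, g2, g3, g4⟩ := near_left F h (by norm_num) s0 s1 ha hb hma hmb hmax
  have hne := near_ne ha hb hab e
  have hlt := left_lt F h (by norm_num)
  subst g1 g2 g3
  have hq := A.q_pos'
  have hw : (2 : ℤ) ≤ A.w := by exact_mod_cast A.hw
  obtain ⟨hi0, hi1, hf0, hf1, _⟩ := h.1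
  have h2b : 2 * b < A.p := by
    apply near_arith (a := b) (b := a) (X := -(A.q * (-1) + fb)) (Y := A.q * ma + fa) hi0
      (by omega) hq hw (by linear_combination e) (by omega) (by omega) (by omega) (Ne.symm hne)
  have hadd := Cls.add h.1 h.1 (by omega)
  rcases hadd with ⟨k1, k2⟩ | ⟨k1, k2⟩
  · exact EZ_W F h (by norm_num) (j := b + b) (mc := -1 + -1 + A.w) (fc := fb + fb) (g := s + s - A.w)
      ⟨_, _, k2, Or.inr ⟨rfl, rfl⟩⟩ (by omega) (by omega) (by omega) (by omega)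
  · exact EZ_W F h (by norm_num) (j := b + b) (mc := -1 + -1 + 1 + A.w) (fc := fb + fb - A.q)
      (g := s + s - A.w)
      ⟨_, _, k2, Or.inr ⟨rfl, rfl⟩⟩ (by omega) (by omega) (by omega) (by omega)

theorem near_hor {i m f k u t : ℤ} (hc : A.Cls i m f k)
    (h : (A.p : ℤ) * A.q ∣ u - (A.q * m + f + t)) (t0 : 0 ≤ t) (t1 : t < (A.p : ℤ) * A.q) :
    (A.cfg 0).hor k u = if t < A.q * (A.w : ℤ) then 1 else 0 := by
  have h1 := Cls.U0 hc
  have h2 := dvd_sub h h1
  apply ph_at (t := t) _ t0 t1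
  show (A.p : ℤ) * A.q ∣ _
  have h3 : u - ((A.cfg 0).U k + t) = u - (A.q * m + f + t) - ((A.cfg 0).U k - (A.q * m + f)) := by
    ring
  rw [h3]
  exact h2

theorem near_ver {i m f k s v t : ℤ} (hc : A.Cls i m f k) (hks : (A.p : ℤ) ∣ k - s)
    (h : v + A.q * A.h - (A.q * (m + s) + f) = t ∨
      v + A.q * A.h - (A.q * (m + s) + f) + A.p * A.q = t)
    (t0 : 0 ≤ t) (t1 : t < (A.p : ℤ) * A.q) :
    (A.cfg 0).ver k v = if t < A.q * (A.h : ℤ) then 1 else 0 := by
  have h1 := Cls.V0 hc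
  obtain ⟨j, hj⟩ := hks
  have h2 : (A.p : ℤ) * A.q ∣ (A.cfg 0).V k - (A.q * (m + s) + f) := by
    have h3 := dvd_add h1 (Dvd.intro j rfl : (A.p : ℤ) * A.q ∣ (A.p : ℤ) * A.q * j)
    have h4 : (A.cfg 0).V k - (A.q * (m + s) + f) =
        (A.cfg 0).V k - (A.q * (m + k) + f) + (A.p : ℤ) * A.q * j := by
      linear_combination (A.q : ℤ) * hj
    rw [h4]
    exact h3
  apply ph_at (t := t) _ t0 t1
  show (A.p : ℤ) * A.q ∣ v - ((A.cfg 0).V k - A.q * A.h + t)
  have h5 := (dvd_neg (a := (A.p : ℤ) * A.q)).2 h2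
  rcases h with h | h
  · have h3 : v - ((A.cfg 0).V k - A.q * A.h + t) = -((A.cfg 0).V k - (A.q * (m + s) + f)) := by
      rw [← h]; ring
    rw [h3]
    exact h5
  · have h3 : v - ((A.cfg 0).V k - A.q * A.h + t) =
        -((A.cfg 0).V k - (A.q * (m + s) + f)) - A.p * A.q := by
      rw [← h]; ring
    rw [h3]
    exact dvd_sub h5 (dvd_refl _)

/-- heights of `R_0`: the row has a lift with `|V| < h` -/
theorem near_height {i m f k v : ℤ} (hc : A.Cls i m f k) (hv : (A.cfg 0).ver k v = 1)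
    (v0 : -(A.q * (A.h : ℤ)) ≤ v) (v1 : v < 0) :
    ∃ s, A.Cls i m f s ∧ -(A.h : ℤ) ≤ m + s ∧ m + s ≤ A.h - 1 ∧
      A.q * (m + s - A.h) + f ≤ v ∧ v < A.q * (m + s) + f := by
  have hp := A.p_pos'
  have hq := A.q_pos'
  have hP := A.R1z
  have hw : (2 : ℤ) ≤ A.w := by exact_mod_cast A.hw
  have e1 := Int.emod_add_mul_ediv (m + k + A.h) A.p
  have e2 := Int.emod_nonneg (m + k + A.h) hp.ne'
  have e3 := Int.emod_lt_of_pos (m + k + A.h) hp
  set s : ℤ := k + A.p * (-((m + k + A.h) / A.p)) with hs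
  have e4 : m + s = (m + k + A.h) % A.p - A.h := by
    rw [hs]
    linear_combination -e1
  have hc2 := Cls.shift hc 0 (-((m + k + A.h) / A.p))
  rw [mul_zero, add_zero, ← hs] at hc2
  have hks : (A.p : ℤ) ∣ k - s := ⟨(m + k + A.h) / A.p, by rw [hs]; ring⟩
  have f0 := hc.2.2.1
  have f1 := hc.2.2.2.1
  have g4 : (0 : ℤ) ≤ A.q * A.h := by positivity
  have g5 : (A.q : ℤ) * (m + s - A.h) = A.q * (m + s) - A.q * A.h := by ring
  have k0 : (A.q : ℤ) * (2 * A.h + 1) ≤ A.q * A.p := mul_le_mul_of_nonneg_left (by omega) hq.le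
  have k1 : (A.q : ℤ) * (2 * A.h + 1) = 2 * (A.q * A.h) + A.q := by ring
  have k2 : (A.p : ℤ) * A.q = A.q * A.p := by ring
  by_cases hcon : m + s ≤ A.h - 1
  · refine ⟨s, hc2, by omega, hcon, ?_⟩
    rw [g5]
    have g1 : (A.q : ℤ) * (-A.h) ≤ A.q * (m + s) := mul_le_mul_of_nonneg_left (by omega) hq.le
    have g2 : (A.q : ℤ) * (m + s) ≤ A.q * (A.h - 1) := mul_le_mul_of_nonneg_left (by omega) hq.le
    have g3 : (A.q : ℤ) * (A.h - 1) = A.q * A.h - A.q := by ring
    have g3' : (A.q : ℤ) * (-A.h) = -(A.q * A.h) := by ring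
    by_cases hneg : v + A.q * A.h - (A.q * (m + s) + f) < 0
    · exfalso
      have h5 := near_ver (A := A) (t := v + A.q * A.h - (A.q * (m + s) + f) + A.p * A.q)
        (v := v) (s := s) hc hks (Or.inr rfl) (by omega) (by omega)
      rw [if_neg (by omega), hv] at h5
      omega
    · have h5 := near_ver (A := A) (t := v + A.q * A.h - (A.q * (m + s) + f))
        (v := v) (s := s) hc hks (Or.inl rfl) (by omega) (by omega)
      by_contra hcc
      rw [if_neg (by omega), hv] at h5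
      omega
  · exfalso
    rw [not_le] at hcon
    have g1 : (A.q : ℤ) * A.h ≤ A.q * (m + s) := mul_le_mul_of_nonneg_left (by omega) hq.le
    have g2 : (A.q : ℤ) * (m + s) ≤ A.q * (A.p - A.h - 1) :=
      mul_le_mul_of_nonneg_left (by omega) hq.le
    have g3 : (A.q : ℤ) * (A.p - A.h - 1) = A.p * A.q - A.q * A.h - A.q := by ring
    have h5 := near_ver (A := A) (t := v + A.q * A.h - (A.q * (m + s) + f) + A.p * A.q)
      (v := v) (s := s) hc hks (Or.inr rfl) (by omega) (by omega)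
    rw [if_neg (by omega), hv] at h5
    omega

theorem near_hor_zero {k u t : ℤ} (hk : (A.p : ℤ) ∣ k)
    (h : u = t ∨ u + A.p * A.q = t) (t0 : 0 ≤ t) (t1 : t < (A.p : ℤ) * A.q) :
    (A.cfg 0).hor k u = if t < A.q * (A.w : ℤ) then 1 else 0 := by
  have h1 := zero_U0 (A := A) hk
  have h5 := (dvd_neg (a := (A.p : ℤ) * A.q)).2 h1
  apply ph_at (t := t) _ t0 t1
  show (A.p : ℤ) * A.q ∣ u - ((A.cfg 0).U k + t)
  rcases h with h | h
  · have h3 : u - ((A.cfg 0).U k + t) = -((A.cfg 0).U k) := by rw [← h]; ring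
    rw [h3]
    exact h5
  · have h3 : u - ((A.cfg 0).U k + t) = -((A.cfg 0).U k) - A.p * A.q := by rw [← h]; ring
    rw [h3]
    exact dvd_sub h5 (dvd_refl _)

/-- a rectangle over the column just left of `0`, at the heights of `R_0`, is a left type -/
theorem near_left_of_In {k v : ℤ} (hk : (A.cfg 0).In k (-1) v) (v0 : -(A.q * (A.h : ℤ)) ≤ v)
    (v1 : v < 0) : ∃ i m f s, A.OvL i m f s ∧ m < 0 ∧
      A.q * (m + s - A.h) + f ≤ v ∧ v < A.q * (m + s) + f := by
  have hp := A.p_pos'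
  have hq := A.q_pos'
  have hP := A.R1z
  have hw : (2 : ℤ) ≤ A.w := by exact_mod_cast A.hw
  have g0 : (A.q : ℤ) * (A.w + 1) ≤ A.q * A.p := mul_le_mul_of_nonneg_left (by omega) hq.le
  have g1 : (A.q : ℤ) * (A.w + 1) = A.q * A.w + A.q := by ring
  have g2 : (A.p : ℤ) * A.q = A.q * A.p := by ring
  have g6 : (0 : ℤ) ≤ A.q * A.w := by positivity
  obtain ⟨h1, h2⟩ := hk
  by_cases hd : (A.p : ℤ) ∣ k
  · exfalso
    have h3 := near_hor_zero (A := A) (u := -1) (t := -1 + A.p * A.q) hd (Or.inr rfl)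
      (by omega) (by omega)
    rw [if_neg (by omega), h1] at h3
    omega
  · obtain ⟨i, m, f, hc, m0, m1⟩ := Cls.row hd (-(A.w : ℤ))
    obtain ⟨s, hs, s0, s1, s2, s3⟩ := near_height hc h2 v0 v1
    have hm : m < 0 := by
      by_contra hge
      rw [not_lt] at hge
      have f0 := hc.2.2.1
      have f1 := hc.2.2.2.1
      have g3 : (A.q : ℤ) * m ≤ A.q * (A.p - A.w - 1) := mul_le_mul_of_nonneg_left (by omega) hq.le
      have g4 : (A.q : ℤ) * (A.p - A.w - 1) = A.q * A.p - A.q * A.w - A.q := by ring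
      have g5 : 0 ≤ (A.q : ℤ) * m := mul_nonneg hq.le hge
      have h3 := near_hor (t := -1 - (A.q * m + f) + A.p * A.q) (u := -1) hc
        ⟨-1, by ring⟩ (by omega) (by omega)
      rw [if_neg (by omega), h1] at h3
      omega
    exact ⟨i, m, f, s, ⟨hs, m0, by omega, s0, s1⟩, hm, s2, s3⟩

/-- a rectangle over the column just right of `w`, at the heights of `R_0`, is a right type -/
theorem near_right_of_In {k v : ℤ} (hk : (A.cfg 0).In k (A.q * (A.w : ℤ)) v)
    (v0 : -(A.q * (A.h : ℤ)) ≤ v) (v1 : v < 0) : ∃ i m f s, A.OvL i m f s ∧ 0 ≤ m := by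
  have hp := A.p_pos'
  have hq := A.q_pos'
  have hP := A.R1z
  have hw : (2 : ℤ) ≤ A.w := by exact_mod_cast A.hw
  have g0 : (A.q : ℤ) * (A.w + 1) ≤ A.q * A.p := mul_le_mul_of_nonneg_left (by omega) hq.le
  have g1 : (A.q : ℤ) * (A.w + 1) = A.q * A.w + A.q := by ring
  have g2 : (A.p : ℤ) * A.q = A.q * A.p := by ring
  have g6 : (0 : ℤ) ≤ A.q * A.w := by positivity
  obtain ⟨h1, h2⟩ := hk
  by_cases hd : (A.p : ℤ) ∣ k
  · exfalso
    have h3 := near_hor_zero (A := A) (u := A.q * A.w) (t := A.q * A.w) hd (Or.inl rfl)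
      (by omega) (by omega)
    rw [if_neg (by omega), h1] at h3
    omega
  · obtain ⟨i, m, f, hc, m0, m1⟩ := Cls.row hd 0
    obtain ⟨s, hs, s0, s1, _⟩ := near_height hc h2 v0 v1
    have hm : m ≤ A.w - 1 := by
      by_contra hge
      rw [not_le] at hge
      have f0 := hc.2.2.1
      have f1 := hc.2.2.2.1
      have g3 : (A.q : ℤ) * m ≤ A.q * (A.p - 1) := mul_le_mul_of_nonneg_left (by omega) hq.le
      have g4 : (A.q : ℤ) * (A.p - 1) = A.q * A.p - A.q := by ring
      have g5 : (A.q : ℤ) * A.w ≤ A.q * m := mul_le_mul_of_nonneg_left (by omega) hq.le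
      have h3 := near_hor (t := A.q * A.w - (A.q * m + f) + A.p * A.q) (u := A.q * A.w) hc
        ⟨-1, by ring⟩ (by omega) (by omega)
      rw [if_neg (by omega), h1] at h3
      omega
    exact ⟨i, m, f, s, ⟨hs, by omega, hm, s0, s1⟩, m0⟩

theorem near_row_ne {i m f s : ℤ} (hc : A.Cls i m f s) : ¬ (A.p : ℤ) ∣ s := by
  intro h
  have h1 := hc.2.2.2.2.2
  have h2 := dvd_add h1 h
  rw [sub_add_cancel] at h2
  exact not_dvd_e hc.1 hc.2.1 h2

/-- the heights of `R_0` -/
theorem near_ver_zero {v : ℤ} (v0 : -(A.q * (A.h : ℤ)) ≤ v) (v1 : v < 0) :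
    (A.cfg 0).ver 0 v = 1 := by
  have hp := A.p_pos'
  have hq := A.q_pos'
  have hP := A.R1z
  have g0 : (A.q : ℤ) * (A.h + 1) ≤ A.q * A.p := mul_le_mul_of_nonneg_left (by omega) hq.le
  have g1 : (A.q : ℤ) * (A.h + 1) = A.q * A.h + A.q := by ring
  have g2 : (A.p : ℤ) * A.q = A.q * A.p := by ring
  have h1 := zero_V0 (A := A) (k := 0) (dvd_zero _)
  have h5 := (dvd_neg (a := (A.p : ℤ) * A.q)).2 h1
  have h6 : (A.cfg 0).ver 0 v = if v + A.q * A.h < A.q * (A.h : ℤ) then 1 else 0 := by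
    apply ph_at (t := v + A.q * A.h) _ (by omega) (by show _ < (A.p : ℤ) * A.q; omega)
    show (A.p : ℤ) * A.q ∣ v - ((A.cfg 0).V 0 - A.q * A.h + (v + A.q * A.h))
    have h7 : v - ((A.cfg 0).V 0 - A.q * A.h + (v + A.q * A.h)) = -((A.cfg 0).V 0) := by ring
    rw [h7]
    exact h5
  rw [h6, if_pos (by omega)]

/-- the heights of a class -/
theorem near_ver_self {i m f s v : ℤ} (hc : A.Cls i m f s) (v0 : A.q * (m + s - A.h) + f ≤ v)
    (v1 : v < A.q * (m + s) + f) : (A.cfg 0).ver s v = 1 := by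
  have hp := A.p_pos'
  have hq := A.q_pos'
  have hP := A.R1z
  have g0 : (A.q : ℤ) * (A.h + 1) ≤ A.q * A.p := mul_le_mul_of_nonneg_left (by omega) hq.le
  have g1 : (A.q : ℤ) * (A.h + 1) = A.q * A.h + A.q := by ring
  have g2 : (A.p : ℤ) * A.q = A.q * A.p := by ring
  have g3 : (A.q : ℤ) * (m + s - A.h) = A.q * (m + s) - A.q * A.h := by ring
  rw [near_ver (s := s) hc (by simp) (Or.inl rfl) (by omega) (by omega), if_pos (by omega)]

/-- a common height of `R_0` and of an overlapping class -/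
theorem near_common {i m f s : ℤ} (h : A.OvL i m f s) : ∃ x y : ℤ, 0 ≤ y ∧ y < A.q ∧
    -(A.h : ℤ) ≤ x ∧ x ≤ -1 ∧ (m + s - A.h < x ∨ (m + s - A.h = x ∧ f ≤ y)) ∧
    (x < m + s ∨ (x = m + s ∧ y < f)) := by
  have hq := A.q_pos'
  have hw : (2 : ℤ) ≤ A.w := by exact_mod_cast A.hw
  have hh : (A.w : ℤ) ≤ A.h := by exact_mod_cast A.hwh
  obtain ⟨hc, _, _, h3, h4⟩ := h
  have f0 := hc.2.2.1
  have f1 := hc.2.2.2.1
  by_cases hv : 0 ≤ m + s
  · exact ⟨-1, f, by omega, by omega, by omega, by omega, by omega, by omega⟩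
  · exact ⟨m + s, f - 1, by omega, by omega, by omega, by omega, by omega, by omega⟩

/-- `(x, y)` in lexicographic form is an integer height of `R_0` and of the class -/
theorem near_heights {i m f s x y : ℤ} (hc : A.Cls i m f s) (y0 : 0 ≤ y) (y1 : y < A.q)
    (x0 : -(A.h : ℤ) ≤ x) (x1 : x ≤ -1)
    (l1 : m + s - A.h < x ∨ (m + s - A.h = x ∧ f ≤ y))
    (l2 : x < m + s ∨ (x = m + s ∧ y < f)) :
    -(A.q * (A.h : ℤ)) ≤ A.q * x + y ∧ A.q * x + y < 0 ∧
      A.q * (m + s - A.h) + f ≤ A.q * x + y ∧ A.q * x + y < A.q * (m + s) + f := by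
  have hq := A.q_pos'
  have f0 := hc.2.2.1
  have f1 := hc.2.2.2.1
  have k1 : (A.q : ℤ) * (-A.h) ≤ A.q * x := mul_le_mul_of_nonneg_left x0 hq.le
  have k2 : (A.q : ℤ) * (-A.h) = -(A.q * A.h) := by ring
  have k3 : (A.q : ℤ) * x ≤ A.q * (-1) := mul_le_mul_of_nonneg_left x1 hq.le
  refine ⟨by omega, by omega, ?_, ?_⟩
  · rcases l1 with l | ⟨l, l'⟩
    · have k4 : (A.q : ℤ) * (m + s - A.h + 1) ≤ A.q * x :=
        mul_le_mul_of_nonneg_left (by omega) hq.le
      have k5 : (A.q : ℤ) * (m + s - A.h + 1) = A.q * (m + s - A.h) + A.q := by ring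
      omega
    · rw [l]
      omega
  · rcases l2 with l | ⟨l, l'⟩
    · have k4 : (A.q : ℤ) * (x + 1) ≤ A.q * (m + s) :=
        mul_le_mul_of_nonneg_left (by omega) hq.le
      have k5 : (A.q : ℤ) * (x + 1) = A.q * x + A.q := by ring
      omega
    · rw [l]
      omega

theorem near_R_two {u v s : ℤ} (hs : ¬ (A.p : ℤ) ∣ s) (h1 : (A.cfg 0).In 0 u v)
    (h2 : (A.cfg 0).In s u v) : 2 ≤ (A.cfg 0).R u v := by
  have h3 := near_sum_two (C := A.cfg 0) (G := fun k => (A.cfg 0).hor k u * (A.cfg 0).ver k v)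
    (fun k => mul_nonneg (ph_nonneg _ _ _ _) (ph_nonneg _ _ _ _))
    (by
      intro k j hkj
      show (A.cfg 0).hor k u * (A.cfg 0).ver k v = (A.cfg 0).hor j u * (A.cfg 0).ver j v
      rw [(A.cfg 0).hor_congr hkj (by simp : (A.cfg 0).N ∣ u - u),
        (A.cfg 0).ver_congr hkj (by simp : (A.cfg 0).N ∣ v - v)])
    (k := s) (j := 0) (by rw [sub_zero]; exact hs)
  simp only [h1.1, h1.2, h2.1, h2.2] at h3
  have h4 : (A.cfg 0).R u v = ∑ i ∈ range (A.cfg 0).p, (A.cfg 0).hor (i : ℤ) u * (A.cfg 0).ver (i : ℤ) v := rfl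
  rw [h4]
  linarith

theorem near_nU_two {u k j : ℤ} (hkj : ¬ (A.p : ℤ) ∣ k - j) (h1 : (A.cfg 0).hor k u = 1)
    (h2 : (A.cfg 0).hor j u = 1) : 2 ≤ A.nU u := by
  have h3 := near_sum_two (C := A.cfg 0) (G := fun k => (A.cfg 0).hor k u)
    (fun k => ph_nonneg _ _ _ _)
    (fun k j hkj => (A.cfg 0).hor_congr hkj (by simp : (A.cfg 0).N ∣ u - u))
    (k := k) (j := j) hkj
  simp only [h1, h2] at h3
  have h4 : A.nU u = ∑ i ∈ range (A.cfg 0).p, (A.cfg 0).hor (i : ℤ) u := rfl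
  rw [h4]
  linarith

theorem near_nU_le {u s : ℤ} (hs : ∀ k, (A.cfg 0).hor k u = 1 → ¬ (A.p : ℤ) ∣ k →
    (A.p : ℤ) ∣ k - s) : A.nU u ≤ 2 := by
  apply near_sum_le (C := A.cfg 0) (G := fun k => (A.cfg 0).hor k u) (a := 0) (b := s)
    (fun k => (A.cfg 0).hor01 k u)
  intro k hk
  by_cases hd : (A.p : ℤ) ∣ k
  · left
    rw [sub_zero]
    exact hd
  · right
    exact hs k hk hd

/-- covering part of (ii): near right type with `1 < U`: the column `0-` is covered by left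
types at all the heights of `R_0` and `R_i`; moreover the largest negative class has `B < 1` -/
theorem near_cover_aux (F : A.Fl) {i m f s : ℤ} (h : A.OvL i m f s) (hm1 : 1 ≤ m)
    (hd : m < A.md ∨ (m = A.md ∧ f < A.fd)) (s0 : -(A.h : ℤ) < s) (s1 : s < A.h - A.w)
    {a ma fa sa b mb fb sb : ℤ} (ha : A.Cls a ma fa sa) (hb : A.Cls b mb fb sb)
    (hma : 0 ≤ ma) (hmb : mb < 0)
    (hmin : ∀ i m f s, A.Cls i m f s → 0 ≤ m → ma < m ∨ (ma = m ∧ fa ≤ f))
    (hab : (A.p : ℤ) ≤ a + b)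
    (e : b * (A.q * ma + fa) - a * (A.q * mb + fb) = A.p * A.q) :
    mb = -1 ∧ ∀ v : ℤ, -(A.q * (A.h : ℤ)) ≤ v → v < 0 → A.q * (m + s - A.h) + f ≤ v →
      v < A.q * (m + s) + f → ∃ i' m' f' s', A.OvL i' m' f' s' ∧ m' < 0 ∧
        A.q * (m' + s' - A.h) + f' ≤ v ∧ v < A.q * (m' + s') + f' := by
  have hm : 0 ≤ m := by omega
  obtain ⟨g1, g2, g3, g4⟩ := near_right F h hm hd s0 s1 ha hb hma hmb hmin
  have hne := near_ne ha hb hab e
  subst g1 g2 g3
  have hp := A.p_pos'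
  have hq := A.q_pos'
  have hw : (2 : ℤ) ≤ A.w := by exact_mod_cast A.hw
  have hh : (A.w : ℤ) ≤ A.h := by exact_mod_cast A.hwh
  have hP := A.R1z
  obtain ⟨ha0, ha1, hf0, hf1, _⟩ := h.1
  obtain ⟨hb0, hb1, hfb0, hfb1, _⟩ := id hb
  have hw1 := h.2.2.1
  have kq : (A.q : ℤ) * 1 ≤ A.q * ma := mul_le_mul_of_nonneg_left (by omega) hq.le
  -- `B < 1`
  have hY : -(A.q * mb + fb) < A.q := by
    have k1 : (A.p : ℤ) * A.q ≤ (a + b) * A.q := mul_le_mul_of_nonneg_right hab hq.le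
    have k2 : 0 < b * (A.q * ma + fa - A.q) := mul_pos hb0 (by omega)
    have k3 : a * (-(A.q * mb + fb)) < a * A.q := by linarith
    exact lt_of_mul_lt_mul_left k3 ha0.le
  have hmb1 : mb = -1 := by
    by_contra hcon
    have k1 : (A.q : ℤ) * mb ≤ A.q * (-2) := mul_le_mul_of_nonneg_left (by omega) hq.le
    omega
  have h2b : 2 * b < A.p := by
    apply near_arith (a := b) (b := a) (X := -(A.q * mb + fb)) (Y := A.q * ma + fa) hb0
      (by rw [hmb1]; omega) hq hw (by linear_combination e) (by omega) (by omega) hY (Ne.symm hne)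
  refine ⟨hmb1, ?_⟩
  intro v v0 v1 v2 v3
  subst hmb1
  have hadd := Cls.add hb hb (by omega)
  have kw : (A.q : ℤ) * 2 ≤ A.q * A.w := mul_le_mul_of_nonneg_left hw hq.le
  have kp : (A.q : ℤ) * (2 * A.h + 1) ≤ A.q * A.p := mul_le_mul_of_nonneg_left (by omega) hq.le
  have kp1 : (A.q : ℤ) * (2 * A.h + 1) = 2 * (A.q * A.h) + A.q := by ring
  have kwh : (A.q : ℤ) * A.w ≤ A.q * A.h := mul_le_mul_of_nonneg_left (by omega) hq.le
  have kp2 : (A.p : ℤ) * A.q = A.q * A.p := by ring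
  have kh : (0 : ℤ) ≤ A.q * A.h := by positivity
  have hn1 : 2 ≤ A.nU (-1) := by
    have r1 : ¬ (A.p : ℤ) ∣ sb - (sb + sb) := by
      intro hcon
      apply near_row_ne hb
      have := (dvd_neg (a := (A.p : ℤ))).2 hcon
      rwa [show -(sb - (sb + sb)) = sb by ring] at this
    apply near_nU_two r1
    · rw [near_hor (t := -1 - (A.q * (-1) + fb)) hb ⟨0, by ring⟩ (by omega) (by omega),
        if_pos (by omega)]
    · rcases hadd with ⟨k1, k2⟩ | ⟨k1, k2⟩
      · rw [near_hor (t := 2 * A.q - 2 * fb - 1) k2 ⟨0, by ring⟩ (by omega) (by omega),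
          if_pos (by omega)]
      · rw [near_hor (t := 2 * A.q - 2 * fb - 1) k2 ⟨0, by ring⟩ (by omega) (by omega),
          if_pos (by omega)]
  have hVW : A.VW a ma fa s := ⟨ma, s, h.1, Or.inl ⟨rfl, rfl⟩⟩
  have kX : (A.q : ℤ) * ma ≤ A.q * (A.w - 1) := mul_le_mul_of_nonneg_left hw1 hq.le
  have kX1 : (A.q : ℤ) * (A.w - 1) = A.q * A.w - A.q := by ring
  have hn2 : A.nU (A.q * ma + fa) ≤ 2 := by
    apply near_nU_le (s := s)
    intro k hk hdk
    obtain ⟨i', m', f', hc', m0', m1'⟩ := Cls.row hdk (ma - A.w)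
    have f0' := hc'.2.2.1
    have f1' := hc'.2.2.2.1
    by_cases hi' : i' = a
    · subst hi'
      exact (Cls.uniq hc' h.1).2.2
    · exfalso
      have hf := Cls.f_ne hc' h.1 hi'
      have k1 : (A.q : ℤ) * m' ≤ A.q * (ma - A.w + A.p - 1) :=
        mul_le_mul_of_nonneg_left (by omega) hq.le
      have k2 : (A.q : ℤ) * (ma - A.w + A.p - 1) = A.q * ma - A.q * A.w + A.q * A.p - A.q := by ring
      have k3 : (A.q : ℤ) * (ma - A.w) ≤ A.q * m' := mul_le_mul_of_nonneg_left m0' hq.le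
      have k4 : (A.q : ℤ) * (ma - A.w) = A.q * ma - A.q * A.w := by ring
      by_cases hx : A.q * m' + f' ≤ A.q * ma + fa
      · have h5 := near_hor (t := A.q * ma + fa - (A.q * m' + f')) (u := A.q * ma + fa) hc'
          ⟨0, by ring⟩ (by omega) (by omega)
        rw [hk] at h5
        have h6 : A.q * ma + fa - (A.q * m' + f') < A.q * (A.w : ℤ) := by
          by_contra hcon
          rw [if_neg hcon] at h5
          omega
        have h7 : m' < ma ∨ (m' = ma ∧ f' < fa) := by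
          rcases gap_lex f0'.le f1' hf1 hx with h7 | ⟨h7, h8⟩
          · exact Or.inl h7
          · right; omega
        have h8 : ma - A.w < m' ∨ (ma - A.w = m' ∧ fa < f') := by
          have h9 : A.q * (ma - A.w) + fa ≤ A.q * m' + f' := by omega
          rcases gap_lex hf0.le hf1 f1' h9 with h7 | ⟨h7, h8⟩
          · exact Or.inl h7
          · right; omega
        exact Gplus F hVW hm (by omega) hd s0 s1 hc' hi' h7 h8
      · have h5 := near_hor (t := A.q * ma + fa - (A.q * m' + f') + A.p * A.q)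
          (u := A.q * ma + fa) hc' ⟨-1, by ring⟩ (by omega) (by omega)
        rw [hk, if_neg (by omega)] at h5
        omega
  have hv0 := near_ver_zero v0 v1
  have hvs := near_ver_self h.1 v2 v3
  have hrs := near_row_ne h.1
  have hR2 : 2 ≤ (A.cfg 0).R (A.q * ma + fa) v := by
    apply near_R_two hrs ⟨?_, hv0⟩ ⟨?_, hvs⟩
    · rw [near_hor_zero (t := A.q * ma + fa) (dvd_zero _) (Or.inl rfl) (by omega) (by omega),
        if_pos (by omega)]
    · rw [near_hor (t := 0) h.1 ⟨0, by ring⟩ le_rfl (by omega), if_pos (by omega)]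
  by_cases hR0 : (A.cfg 0).R (-1) v = 0
  · have := mono F hR2 hR0
    omega
  · have hR1 : 1 ≤ (A.cfg 0).R (-1) v := by
      have := (A.cfg 0).R_nonneg (-1) v
      omega
    obtain ⟨k, hk⟩ := Cfg.exists_In hR1
    exact near_left_of_In hk v0 v1

/-- covering part of (ii) -/
theorem near_cover (F : A.Fl) {i m f s : ℤ} (h : A.OvL i m f s) (hm : 1 ≤ m)
    (hd : m < A.md ∨ (m = A.md ∧ f < A.fd)) (s0 : -(A.h : ℤ) < s) (s1 : s < A.h - A.w)
    (x y : ℤ) (y0 : 0 ≤ y) (y1 : y < A.q) (x0 : -(A.h : ℤ) ≤ x) (x1 : x ≤ -1)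
    (l1 : m + s - A.h < x ∨ (m + s - A.h = x ∧ f ≤ y))
    (l2 : x < m + s ∨ (x = m + s ∧ y < f)) :
    ∃ i' m' f' s', A.OvL i' m' f' s' ∧ m' < 0 ∧
      (m' + s' - A.h < x ∨ (m' + s' - A.h = x ∧ f' ≤ y)) ∧
      (x < m' + s' ∨ (x = m' + s' ∧ y < f')) := by
  obtain ⟨a, ma, fa, sa, b, mb, fb, sb, ha, hb, hma, hmb, hmin, hmax, hab, e⟩ := gap A
  obtain ⟨_, hcov⟩ := near_cover_aux F h hm hd s0 s1 ha hb hma hmb hmin hab e
  obtain ⟨v0, v1, v2, v3⟩ := near_heights h.1 y0 y1 x0 x1 l1 l2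
  obtain ⟨i', m', f', s', ho, hm', k1, k2⟩ := hcov _ v0 v1 v2 v3
  have f0' := ho.1.2.2.1
  have f1' := ho.1.2.2.2.1
  refine ⟨i', m', f', s', ho, hm', gap_lex f0'.le f1' y1 k1, ?_⟩
  rcases gap_lex y0 y1 f1' k2.le with k | ⟨k, k'⟩
  · exact Or.inl k
  · right
    refine ⟨k, ?_⟩
    rw [k] at k2
    omega

/-- (ii): no near right type, if there is no special NW type -/
theorem near_ii (F : A.Fl) (hNW : ∀ i m f, A.OvL i m f A.h → m < 0 → False)
    {i m f s : ℤ} (h : A.OvL i m f s) (hm : 0 ≤ m) (hd : m < A.md ∨ (m = A.md ∧ f < A.fd))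
    (s0 : -(A.h : ℤ) < s) (s1 : s < A.h - A.w) : False := by
  rcases hm.eq_or_lt with hm0 | hm0
  · subst hm0
    exact near_i F h (by omega) s0 s1
  obtain ⟨a, ma, fa, sa, b, mb, fb, sb, ha, hb, hma, hmb, hmin, hmax, hab, e⟩ := gap A
  obtain ⟨hmb1, hcov⟩ := near_cover_aux F h (by omega) hd s0 s1 ha hb hma hmb hmin hab e
  obtain ⟨x, y, y0, y1, x0, x1, l1, l2⟩ := near_common h
  obtain ⟨v0, v1, v2, v3⟩ := near_heights h.1 y0 y1 x0 x1 l1 l2
  obtain ⟨i', m', f', s', ho, hm', _, _⟩ := hcov _ v0 v1 v2 v3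
  have hw : (2 : ℤ) ≤ A.w := by exact_mod_cast A.hw
  have hh : (A.w : ℤ) ≤ A.h := by exact_mod_cast A.hwh
  have hs1 : s' < A.h := by
    by_cases hv : m' + s' < 0
    · have := ho.2.1
      omega
    · have h5 := S3 F ho hm' (by omega)
      by_contra hcon
      have h6 : s' = A.h := by omega
      subst h6
      exact hNW _ _ _ ho hm'
  have hs0 : -(A.h : ℤ) < s' - A.w := by
    by_cases hv : m' + s' < 0
    · exact S1 F ho hm' hv
    · omega
  obtain ⟨k1, k2, k3, _⟩ := near_left F ho hm' hs0 hs1 ha hb hma hmb hmax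
  subst k1 k2 k3 hmb1
  exact near_iii F ho hs0 hs1

/-- (iv): no near left type, if there is no right type -/
theorem near_iv (F : A.Fl) (hE : ∀ i m f s, A.OvL i m f s → 0 ≤ m → False)
    {i m f s : ℤ} (h : A.OvL i m f s) (hm : m < 0)
    (s0 : -(A.h : ℤ) < s - A.w) (s1 : s < A.h) : False := by
  obtain ⟨a, ma, fa, sa, b, mb, fb, sb, ha, hb, hma, hmb, hmin, hmax, hab, e⟩ := gap A
  obtain ⟨g1, g2, g3, g4⟩ := near_left F h hm s0 s1 ha hb hma hmb hmax
  have hne := near_ne ha hb hab e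
  have hlt := left_lt F h hm
  subst g1 g2 g3
  have hp := A.p_pos'
  have hq := A.q_pos'
  have hw : (2 : ℤ) ≤ A.w := by exact_mod_cast A.hw
  have hh : (A.w : ℤ) ≤ A.h := by exact_mod_cast A.hwh
  have hP := A.R1z
  by_cases hm1 : mb = -1
  · subst hm1
    exact near_iii F h s0 s1
  obtain ⟨hb0, hb1, hf0, hf1, _⟩ := h.1
  obtain ⟨ha0, ha1, hfa0, hfa1, _⟩ := id ha
  have hw0 := h.2.1
  have kq : (A.q : ℤ) * mb ≤ A.q * (-2) := mul_le_mul_of_nonneg_left (by omega) hq.le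
  -- `A < 1`
  have hX : A.q * ma + fa < A.q := by
    have k1 : (A.p : ℤ) * A.q ≤ (a + b) * A.q := mul_le_mul_of_nonneg_right hab hq.le
    have k2 : 0 < a * (-(A.q * mb + fb) - A.q) := mul_pos ha0 (by omega)
    have k3 : b * (A.q * ma + fa) < b * A.q := by linarith
    exact lt_of_mul_lt_mul_left k3 hb0.le
  have hma0 : ma = 0 := by
    by_contra hcon
    have k1 : (A.q : ℤ) * 1 ≤ A.q * ma := mul_le_mul_of_nonneg_left (by omega) hq.le
    omega
  have h2a : 2 * a < A.p := by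
    apply near_arith (a := a) (b := b) (X := A.q * ma + fa) (Y := -(A.q * mb + fb)) ha0
      (by rw [hma0]; omega) hq hw (by linear_combination e) hab (by omega) hX hne
  subst hma0
  have hadd := Cls.add ha ha (by omega)
  have kw : (A.q : ℤ) * 2 ≤ A.q * A.w := mul_le_mul_of_nonneg_left hw hq.le
  have kp : (A.q : ℤ) * (2 * A.h + 1) ≤ A.q * A.p := mul_le_mul_of_nonneg_left (by omega) hq.le
  have kp1 : (A.q : ℤ) * (2 * A.h + 1) = 2 * (A.q * A.h) + A.q := by ring
  have kwh : (A.q : ℤ) * A.w ≤ A.q * A.h := mul_le_mul_of_nonneg_left (by omega) hq.le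
  have kp2 : (A.p : ℤ) * A.q = A.q * A.p := by ring
  have kh : (0 : ℤ) ≤ A.q * A.h := by positivity
  have hn1 : 2 ≤ A.nU (A.q * A.w) := by
    have r1 : ¬ (A.p : ℤ) ∣ sa - (sa + sa) := by
      intro hcon
      apply near_row_ne ha
      have := (dvd_neg (a := (A.p : ℤ))).2 hcon
      rwa [show -(sa - (sa + sa)) = sa by ring] at this
    apply near_nU_two r1
    · rw [near_hor (t := A.q * A.w - fa) ha ⟨0, by ring⟩ (by omega) (by omega),
        if_pos (by omega)]
    · rcases hadd with ⟨k1, k2⟩ | ⟨k1, k2⟩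
      · rw [near_hor (t := A.q * A.w - 2 * fa) k2 ⟨0, by ring⟩ (by omega) (by omega),
          if_pos (by omega)]
      · rw [near_hor (t := A.q * A.w - 2 * fa) k2 ⟨0, by ring⟩ (by omega) (by omega),
          if_pos (by omega)]
  have hVW : A.VW b (mb + A.w) fb (s - A.w) := ⟨mb, s, h.1, Or.inr ⟨rfl, rfl⟩⟩
  have kX : (A.q : ℤ) * (-A.w) ≤ A.q * mb := mul_le_mul_of_nonneg_left hw0 hq.le
  have kX1 : (A.q : ℤ) * (-A.w) = -(A.q * A.w) := by ring
  have kc : (A.q : ℤ) * (mb + A.w) = A.q * mb + A.q * A.w := by ring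
  have hn2 : A.nU (A.q * mb + fb + A.q * A.w - 1) ≤ 2 := by
    apply near_nU_le (s := s)
    intro k hk hdk
    obtain ⟨i', m', f', hc', m0', m1'⟩ := Cls.row hdk mb
    have f0' := hc'.2.2.1
    have f1' := hc'.2.2.2.1
    by_cases hi' : i' = b
    · subst hi'
      exact (Cls.uniq hc' h.1).2.2
    · exfalso
      have hf := Cls.f_ne hc' h.1 hi'
      have k1 : (A.q : ℤ) * m' ≤ A.q * (mb + A.p - 1) :=
        mul_le_mul_of_nonneg_left (by omega) hq.le
      have k2 : (A.q : ℤ) * (mb + A.p - 1) = A.q * mb + A.q * A.p - A.q := by ring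
      have k3 : (A.q : ℤ) * mb ≤ A.q * m' := mul_le_mul_of_nonneg_left m0' hq.le
      by_cases hx : A.q * m' + f' ≤ A.q * mb + fb + A.q * A.w - 1
      · have h5 := near_hor (t := A.q * mb + fb + A.q * A.w - 1 - (A.q * m' + f'))
          (u := A.q * mb + fb + A.q * A.w - 1) hc' ⟨0, by ring⟩ (by omega) (by omega)
        rw [hk] at h5
        have h6 : A.q * mb + fb + A.q * A.w - 1 - (A.q * m' + f') < A.q * (A.w : ℤ) := by
          by_contra hcon
          rw [if_neg hcon] at h5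
          omega
        have h7 : m' < mb + A.w ∨ (m' = mb + A.w ∧ f' < fb) := by
          have h9 : A.q * m' + f' ≤ A.q * (mb + A.w) + fb := by omega
          rcases gap_lex f0'.le f1' hf1 h9 with h7 | ⟨h7, h8⟩
          · exact Or.inl h7
          · right; omega
        have h8 : mb < m' ∨ (mb = m' ∧ fb < f') := by
          have h9 : A.q * mb + fb ≤ A.q * m' + f' := by omega
          rcases gap_lex hf0.le hf1 f1' h9 with h7 | ⟨h7, h8⟩
          · exact Or.inl h7
          · right; omega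
        exact Gplus F hVW (by omega) (by omega) hlt s0 (by omega) hc' hi' h7 (by omega)
      · have h5 := near_hor (t := A.q * mb + fb + A.q * A.w - 1 - (A.q * m' + f') + A.p * A.q)
          (u := A.q * mb + fb + A.q * A.w - 1) hc' ⟨-1, by ring⟩ (by omega) (by omega)
        rw [hk, if_neg (by omega)] at h5
        omega
  obtain ⟨x, y, y0, y1, x0, x1, l1, l2⟩ := near_common h
  obtain ⟨v0, v1, v2, v3⟩ := near_heights h.1 y0 y1 x0 x1 l1 l2
  set v : ℤ := A.q * x + y with hv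
  have hv0 := near_ver_zero v0 v1
  have hvs := near_ver_self h.1 v2 v3
  have hrs := near_row_ne h.1
  have hR2 : 2 ≤ (A.cfg 0).R (A.q * mb + fb + A.q * A.w - 1) v := by
    apply near_R_two hrs ⟨?_, hv0⟩ ⟨?_, hvs⟩
    · rw [near_hor_zero (t := A.q * mb + fb + A.q * A.w - 1) (dvd_zero _) (Or.inl rfl) (by omega)
        (by omega), if_pos (by omega)]
    · rw [near_hor (t := A.q * A.w - 1) h.1 ⟨0, by ring⟩ (by omega) (by omega), if_pos (by omega)]
  by_cases hR0 : (A.cfg 0).R (A.q * A.w) v = 0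
  · have := mono F hR2 hR0
    omega
  · have hR1 : 1 ≤ (A.cfg 0).R (A.q * A.w) v := by
      have := (A.cfg 0).R_nonneg (A.q * A.w) v
      omega
    obtain ⟨k, hk⟩ := Cfg.exists_In hR1
    obtain ⟨i', m', f', s', ho, hm'⟩ := near_right_of_In hk v0 v1
    exact hE _ _ _ _ ho hm'

end Ap

end Pool.Agent.H98.Flat
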