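import Pool.Agent.H98.Flat.O.Local
import Pool.Agent.H98.Flat.O.LocGC
import Pool.Agent.H81.AP.FlatFalse

/-! (C*) and (G+) in the regime `Reg`: `2w + h ≤ p`, and `4w < p` if `w = h`. -/

namespace Pool.Agent.H98.Flat

namespace Ap

variable {A : Ap}

/-- outside of the regime there is no flat progression at all (helper81) -/
theorem flat_false (F : A.Fl)
    (h : A.p < 2 * A.w + A.h ∨ (A.w = A.h ∧ A.p < 4 * A.w)) : False :=
  Pool.Agent.H81.AP.flat_false F h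

theorem p_ne (A : Ap) (hwh : A.w = A.h) : A.p ≠ 4 * A.w := by
  intro h
  have h1 : (A.w : ℤ) ∣ A.p := ⟨4, by rw [h]; push_cast; ring⟩
  have h2 : IsUnit (A.w : ℤ) := (A.cwp).isUnit_of_dvd' dvd_rfl h1
  have := Int.isUnit_iff.1 h2
  have := A.hw
  omega

theorem reg_cases (A : Ap) [hR : Fact A.Reg] : 2 * (A.w + A.h) < A.p ∨
    (A.w < A.h ∧ 2 * A.w + A.h ≤ A.p) := by
  have h1 := hR.out.1
  have h2 := hR.out.2
  have h3 := A.hwh
  omega

/-- (C*): a class `j` with a wall `c` in `(0, min d w)` and an overlapping class `i ≠ j`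
never have `U_i` in `(c - w, c)` -/
theorem Cstar [Fact A.Reg] (F : A.Fl) {j i mc fc g m f s : ℤ} (hj : A.VW j mc fc g)
    (c0 : 0 ≤ mc) (cw : mc < A.w) (cd : mc < A.md ∨ (mc = A.md ∧ fc < A.fd))
    (hi : A.OvL i m f s) (hij : i ≠ j) (h1 : m < mc ∨ (m = mc ∧ f < fc))
    (h2 : mc - A.w < m ∨ (mc - A.w = m ∧ fc < f)) : False := by
  rcases A.reg_cases with h | ⟨ha, hb⟩
  · haveI : Fact (2 * (A.w + A.h) < A.p) := ⟨h⟩
    exact CstarP F hj c0 cw cd hi hij h1 h2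
  · exact CstarA F hj c0 cw cd ha hb hi hij h1 h2

/-- (G+): if moreover `-h < g < h - w` then no class `i ≠ j` at all has `U_i` in `(c - w, c)` -/
theorem Gplus [Fact A.Reg] (F : A.Fl) {j i mc fc g m f s : ℤ} (hj : A.VW j mc fc g)
    (c0 : 0 ≤ mc) (cw : mc < A.w) (cd : mc < A.md ∨ (mc = A.md ∧ fc < A.fd))
    (g1 : -(A.h : ℤ) < g) (g2 : g < A.h - A.w)
    (hi : A.Cls i m f s) (hij : i ≠ j) (h1 : m < mc ∨ (m = mc ∧ f < fc))
    (h2 : mc - A.w < m ∨ (mc - A.w = m ∧ fc < f)) : False := by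
  rcases A.reg_cases with h | ⟨ha, hb⟩
  · haveI : Fact (2 * (A.w + A.h) < A.p) := ⟨h⟩
    exact GplusP F hj c0 cw cd g1 g2 hi hij h1 h2
  · exact GplusA F hj c0 cw cd ha hb g1 g2 hi hij h1 h2

end Ap

end Pool.Agent.H98.Flat
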