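import Pool.Agent.H98.Flat.O.Near

/-! Section 6: MARCH.  Rule (E0) in explicit form, and the class of row `-1` in the special
NW case. -/

namespace Pool.Agent.H98.Flat

namespace Ap

variable {A : Ap} [Fact A.Reg]

theorem R2 (A : Ap) [Fact A.Reg] :
    2 * A.h < A.p ∧ ((A.w < A.h ∧ 2 * A.w + A.h ≤ A.p) ∨ 2 * (A.w + A.h) < A.p) := by
  have h1 := A.R1
  have h2 := A.hwh
  omega

/-- rule (E0) for a wall `c` of class `j` in `(0, min d w)`, with everything explicit. -/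
theorem E0c (F : A.Fl) {j i mc fc g mb fb k r : ℤ} (hj : A.VW j mc fc g) (hi : A.HW i mb fb k)
    (hij : i ≠ j) (c0 : 0 ≤ mc) (cw : mc < A.w) (cd : mc < A.md ∨ (mc = A.md ∧ fc < A.fd))
    (hr : r = mb - mc + (if fc < fb then 1 else 0)) (Y : ℤ)
    (b1 : -(A.p : ℤ) ≤ mb) (b2 : mb + A.h < A.p)
    (Y1 : -(A.p : ℤ) < Y) (Y2 : Y + A.w + A.h ≤ A.p)
    (r1 : -(A.p : ℤ) < r) (r2 : r + A.w + A.h ≤ A.p)
    (a1 : -(A.p : ℤ) < Y - (g - A.h)) (a2 : Y - (g - A.h) ≤ A.p)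
    (a3 : -(A.p : ℤ) < r - (g - A.h)) (a4 : r - (g - A.h) ≤ A.p)
    (a5 : -(A.p : ℤ) < Y - (k - A.w)) (a6 : Y - (k - A.w) ≤ A.p)
    (a7 : -(A.p : ℤ) < r - (k - A.w)) (a8 : r - (k - A.w) ≤ A.p)
    (h1 : ((g - A.h < Y ∧ Y ≤ g) ∨ (Y ≤ g - A.h ∧ Y + A.p ≤ g)) ↔
      ¬ ((g - A.h < r ∧ r ≤ g) ∨ (r ≤ g - A.h ∧ r + A.p ≤ g)))
    (h2 : ((k - A.w < Y ∧ Y ≤ k) ∨ (Y ≤ k - A.w ∧ Y + A.p ≤ k)) ↔
      ¬ ((k - A.w < r ∧ r ≤ k) ∨ (r ≤ k - A.w ∧ r + A.p ≤ k))) :
    ∃ T B : ℤ, (T = if (0 ≤ mb ∧ (mb < A.md ∨ (mb = A.md ∧ fb < A.fd))) ∨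
      (mb < 0 ∧ (mb + A.p < A.md ∨ (mb + A.p = A.md ∧ fb < A.fd))) then 1 else 0) ∧
      (B = if (0 ≤ mb + A.h ∧ (mb + A.h < A.md ∨ (mb + A.h = A.md ∧ fb < A.fd))) ∨
      (mb + A.h < 0 ∧ (mb + A.h + A.p < A.md ∨ (mb + A.h + A.p = A.md ∧ fb < A.fd)))
        then 1 else 0) ∧
      - (if -(A.h : ℤ) < Y ∧ Y ≤ 0 then 1 else 0) + (if -(A.w : ℤ) < Y ∧ Y ≤ 0 then T else 0)
        - (if -(A.w : ℤ) - A.h < Y ∧ Y ≤ -A.h then B else 0) =
      - (if -(A.h : ℤ) < r ∧ r ≤ 0 then 1 else 0) + (if -(A.w : ℤ) < r ∧ r ≤ 0 then T else 0)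
        - (if -(A.w : ℤ) - A.h < r ∧ r ≤ -A.h then B else 0) := by
  have hw := A.hw
  have hwh := A.hwh
  have P1 := A.R2
  have hmd := A.hmd
  have hmd2 := A.hmd2
  obtain ⟨m1, s1, hc1, hc1'⟩ := hj
  obtain ⟨m2, s2, hc2, hc2'⟩ := hi
  have f1 : 0 < fc ∧ fc < A.q := ⟨hc1.2.2.1, hc1.2.2.2.1⟩
  have f2 : 0 < fb ∧ fb < A.q := ⟨hc2.2.2.1, hc2.2.2.2.1⟩
  have E := E0 F ⟨m1, s1, hc1, hc1'⟩ ⟨m2, s2, hc2, hc2'⟩ hij hr Y
    (by rw [InA_iff a1 a2 (by omega), InA_iff a3 a4 (by omega)]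
        have e1 : g - (A.h : ℤ) + A.h = g := by ring
        rw [e1]; exact h1)
    (by rw [InA_iff a5 a6 (by omega), InA_iff a7 a8 (by omega)]
        have e1 : k - (A.w : ℤ) + A.w = k := by ring
        rw [e1]; exact h2)
  have L1 : A.InL mc fc := (InL_iff f1.1 f1.2 (by omega) (by omega)).2 (Or.inl ⟨c0, cd⟩)
  have R0 : ¬ A.InL (mc - A.w) fc := by
    rw [InL_iff f1.1 f1.2 (by omega) (by omega)]; omega
  have hT := InL_iff (A := A) (m := mb) f2.1 f2.2 (by omega) (by omega)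
  have hB := InL_iff (A := A) (m := mb + A.h) f2.1 f2.2 (by omega) (by omega)
  have q1 : ∀ y : ℤ, -(A.p : ℤ) < y → y + A.w + A.h ≤ A.p →
      (InA A.p y (-A.h) A.h ↔ (-(A.h : ℤ) < y ∧ y ≤ 0)) := by
    intro y y1 y2
    by_cases hy : -(A.h : ℤ) + A.h - A.p < y
    · rw [InA_iff' (by omega) (by omega) (by omega)]; omega
    · exfalso; omega
  have q2 : ∀ y : ℤ, -(A.p : ℤ) < y → y + A.w + A.h ≤ A.p →
      (InA A.p y (-A.w) A.w ↔ (-(A.w : ℤ) < y ∧ y ≤ 0)) := by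
    intro y y1 y2
    rw [InA_iff' (by omega) (by omega) (by omega)]; omega
  have q3 : ∀ y : ℤ, -(A.p : ℤ) < y → y + A.w + A.h ≤ A.p →
      (InA A.p y (-A.w - A.h) A.w ↔ (-(A.w : ℤ) - A.h < y ∧ y ≤ -A.h)) := by
    intro y y1 y2
    rw [InA_iff (by omega) (by omega) (by omega)]; omega
  have ia : ∀ (P Q : Prop) [Decidable P] [Decidable Q],
      (if P ∧ Q then (1 : ℤ) else 0) = if Q then (if P then 1 else 0) else 0 := by
    intro P Q _ _
    by_cases hP : P <;> by_cases hQ : Q <;> simp [hP, hQ]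
  unfold Phi at E
  rw [ia (A.InL mc fc), ia (A.InL mc fc), ia (A.InL (mc - A.w) fc), ia (A.InL (mc - A.w) fc),
    ia (A.InL mb fb), ia (A.InL mb fb), ia (A.InL (mb + A.h) fb), ia (A.InL (mb + A.h) fb),
    if_pos L1, if_neg R0] at E
  simp only [q1 Y Y1 Y2, q1 r r1 r2, q2 Y Y1 Y2, q2 r r1 r2, q3 Y Y1 Y2, q3 r r1 r2, ite_self,
    add_zero] at E
  refine ⟨if A.InL mb fb then 1 else 0, if A.InL (mb + A.h) fb then 1 else 0, ?_, ?_, E⟩
  · exact if_congr hT rfl rfl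
  · exact if_congr hB rfl rfl



/-- the class `i + i' - p` -/
theorem Cls.addp {i m f s i' m' f' s' : ℤ} (h : A.Cls i m f s) (h' : A.Cls i' m' f' s')
    (hi : (A.p : ℤ) < i + i') :
    (f + f' < A.fd ∧ A.Cls (i + i' - A.p) (m + m' - A.md - 1) (f + f' - A.fd + A.q) (s + s')) ∨
      (A.fd < f + f' ∧ f + f' < A.fd + A.q ∧
        A.Cls (i + i' - A.p) (m + m' - A.md) (f + f' - A.fd) (s + s')) ∨
      (A.fd + A.q < f + f' ∧
        A.Cls (i + i' - A.p) (m + m' - A.md + 1) (f + f' - A.fd - A.q) (s + s')) := by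
  obtain ⟨a1, a2, a3, a4, a5, a6⟩ := h
  obtain ⟨b1, b2, b3, b4, b5, b6⟩ := h'
  have hfd := A.hfd
  have hfd2 := A.hfd2
  have hd := A.hd
  have hrow : (A.p : ℤ) ∣ A.e * (i + i' - A.p) - (s + s') := by
    obtain ⟨t, ht⟩ := a6
    obtain ⟨t', ht'⟩ := b6
    exact ⟨t + t' - A.e, by linear_combination ht + ht'⟩
  have key : (A.p : ℤ) * A.q ∣ A.a * (i + i' - A.p) -
      (A.q * (m + m' - A.md) + (f + f' - A.fd)) := by
    have := dvd_sub (dvd_add a5 b5) hd
    have e : A.a * i - (A.q * m + f) + (A.a * i' - (A.q * m' + f')) -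
        (A.a * A.p - (A.q * A.md + A.fd)) = A.a * (i + i' - A.p) -
      (A.q * (m + m' - A.md) + (f + f' - A.fd)) := by ring
    rwa [e] at this
  have gen := A.gen (i + i' - A.p) (by omega) (by rw [abs_le]; constructor <;> omega)
  have nq : ∀ t : ℤ, f + f' - A.fd ≠ A.q * t := by
    intro t ht
    apply gen
    obtain ⟨x, hx⟩ := key
    exact ⟨A.p * x + (m + m' - A.md) + t, by linear_combination hx + ht⟩
  have n0 : f + f' ≠ A.fd := by have := nq 0; omega
  have n1 : f + f' ≠ A.fd + A.q := by have := nq 1; omega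
  rcases lt_or_gt_of_ne n0 with h1 | h1
  · refine Or.inl ⟨h1, by omega, by omega, by omega, by omega, ?_, hrow⟩
    have e : A.a * (i + i' - A.p) -
      (A.q * (m + m' - A.md) + (f + f' - A.fd)) = A.a * (i + i' - A.p) -
      (A.q * (m + m' - A.md - 1) + (f + f' - A.fd + A.q)) := by ring
    rwa [e] at key
  · rcases lt_or_gt_of_ne n1 with h2 | h2
    · exact Or.inr (Or.inl ⟨h1, h2, by omega, by omega, by omega, by omega, key, hrow⟩)
    · refine Or.inr (Or.inr ⟨h2, by omega, by omega, by omega, by omega, ?_, hrow⟩)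
      have e : A.a * (i + i' - A.p) -
        (A.q * (m + m' - A.md) + (f + f' - A.fd)) = A.a * (i + i' - A.p) -
        (A.q * (m + m' - A.md + 1) + (f + f' - A.fd - A.q)) := by ring
      rwa [e] at key

theorem row_ne {i m f : ℤ} (hC : A.Cls i m f A.h) {j mj fj k : ℤ} (hj : A.Cls j mj fj k)
    (k1 : 1 ≤ k) (k2 : k ≤ A.h - 1) : j ≠ i := by
  have P1 := A.R2
  rintro rfl
  have h1 := (hC.uniq hj).2.2
  have := Int.le_of_dvd (by omega) h1
  omega

/-- the claim of MARCH -/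
theorem march_claim (F : A.Fl) {i m f : ℤ} (h : A.OvL i m f A.h) (hm : m < 0) (hwh : A.w < A.h)
    {j mk fk k : ℤ} (hj : A.Cls j mk fk k) (k1 : 1 ≤ k) (k2 : k ≤ A.h - 1) (hd : A.md < A.h)
    (hU : A.w ≤ mk) (hV : A.h ≤ mk + k) (hV2 : mk + k < m + 2 * A.h ∨
      (mk + k = m + 2 * A.h ∧ fk < f)) : False := by
  have hw := A.hw
  have P1 := A.R2
  have hmd := A.hmd
  have hmd2 := A.hmd2
  have cd := left_lt F h hm
  have hne := row_ne h.1 hj k1 k2
  have ffn : fk ≠ f := hj.f_ne h.1 hne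
  obtain ⟨hC, m1, m2, v1, v2⟩ := id h
  have hVW : A.VW i (m + A.w) f (A.h - A.w) := ⟨m, A.h, hC, Or.inr ⟨rfl, rfl⟩⟩
  have hHW : A.HW j (mk + k - A.h) fk (k - A.h) := ⟨mk, k, hj, Or.inr ⟨rfl, rfl⟩⟩
  obtain ⟨δ, hδ, hδ'⟩ : ∃ δ : ℤ, δ = (if f < fk then 1 else 0) ∧
      ((δ = 1 ∧ f < fk) ∨ (δ = 0 ∧ fk < f)) := by
    refine ⟨_, rfl, ?_⟩
    split_ifs <;> omega
  obtain ⟨Y, hY⟩ : ∃ Y : ℤ, (k - A.h ≤ -A.w ∧ Y = k - A.h) ∨ (-(A.w : ℤ) < k - A.h ∧ Y = -A.w) := by
    by_cases hh : k - (A.h : ℤ) ≤ -A.w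
    · exact ⟨_, Or.inl ⟨hh, rfl⟩⟩
    · exact ⟨_, Or.inr ⟨by omega, rfl⟩⟩
  clear v1 v2
  obtain ⟨T, B, hT, hBB, E⟩ := E0c F hVW hHW hne (by omega) (by omega) cd
    (r := (mk + k - A.h) - (m + A.w) + δ) (by rw [hδ]) Y
    (by omega) (by omega) (by omega) (by omega) (by omega)
    (by omega) (by omega) (by omega)
    (by omega) (by omega) (by omega) (by omega)
    (by omega) (by omega) (by omega) (by omega)
  clear hδ hVW hHW hj hC h F hne hBB
  rw [if_pos (by omega), if_neg (by omega), if_neg (by omega),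
    if_neg (c := -(A.w : ℤ) - A.h < mk + k - A.h - (m + A.w) + δ ∧
      mk + k - A.h - (m + A.w) + δ ≤ -A.h) (by omega)] at E
  by_cases hr : mk + k - A.h - (m + A.w) + δ ≤ 0
  · rw [if_pos (Or.inl ⟨by omega, by omega⟩)] at hT
    rw [if_pos (by omega), if_pos (by omega)] at E
    omega
  · rw [if_neg (by omega), if_neg (by omega)] at E
    omega

/-- first step of MARCH: the class `p - n` of row `1` has `V < V_f` -/
theorem march_first (F : A.Fl) {i m f : ℤ} (h : A.OvL i m f A.h) (hm : m < 0) (hwh : A.w < A.h)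
    {j mj fj : ℤ} (hj : A.Cls j mj fj 1) (hU : A.md + A.w ≤ mj) (hU2 : mj ≤ A.md + A.h - 1) :
    mj + 1 < m + A.h ∨ (mj + 1 = m + A.h ∧ fj < f) := by
  have hw := A.hw
  have P1 := A.R2
  have hmd := A.hmd
  have hmd2 := A.hmd2
  have cd := left_lt F h hm
  have hne := row_ne h.1 hj le_rfl (by omega)
  have ffn : fj ≠ f := hj.f_ne h.1 hne
  by_contra hcon
  obtain ⟨hC, m1, m2, v1, v2⟩ := id h
  have f0 := hC.2.2.1
  have f1 := hC.2.2.2.1
  have g0 := hj.2.2.1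
  have g1 := hj.2.2.2.1
  have hVW : A.VW i (m + A.w) f (A.h - A.w) := ⟨m, A.h, hC, Or.inr ⟨rfl, rfl⟩⟩
  have hHW : A.HW j (mj + 1) fj 1 := ⟨mj, 1, hj, Or.inl ⟨rfl, rfl⟩⟩
  obtain ⟨δ, hδ, hδ'⟩ : ∃ δ : ℤ, δ = (if f < fj then 1 else 0) ∧
      ((δ = 1 ∧ f < fj) ∨ (δ = 0 ∧ fj < f)) := by
    refine ⟨_, rfl, ?_⟩
    split_ifs <;> omega
  by_cases hA : mj + 1 < A.p + m ∨ (mj + 1 = A.p + m ∧ fj < f)
  swap
  · by_cases hB : -(A.w : ℤ) ≤ mj - A.p
    · -- class `j` is a second left type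
      have hj' : A.Cls j (mj - A.p) fj 1 := by
        have := hj.shift (-1) 0
        have e1 : mj + A.p * (-1) = mj - A.p := by ring
        have e2 : (1 : ℤ) + A.p * 0 = 1 := by ring
        rwa [e1, e2] at this
      exact hne (left_unique F (i := j) (i' := i) (s := 1) (s' := A.h)
        ⟨hj', by omega, by omega, by omega, by omega⟩ (by omega) h hm)
    · -- thin case
      have e1 : mj = A.p - A.w - 1 := by omega
      have e2 : m = -(A.w : ℤ) := by omega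
      have hff : f < fj := by omega
      have hVW2 : A.VW j (-1) fj (1 - A.w) := by
        refine ⟨mj - A.p, 1, ?_, Or.inr ⟨by omega, rfl⟩⟩
        have := hj.shift (-1) 0
        have e3 : mj + A.p * (-1) = mj - A.p := by ring
        have e4 : (1 : ℤ) + A.p * 0 = 1 := by ring
        rwa [e3, e4] at this
      have hHW2 : A.HW i (m + A.h) f A.h := ⟨m, A.h, hC, Or.inl ⟨rfl, rfl⟩⟩
      have E := E0 F hVW2 hHW2 (Ne.symm hne) (r := A.h - A.w + 1)
        (by rw [if_neg (by omega)]; omega) (1 - A.w)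
        (by rw [InA_iff (by omega) (by omega) (by omega), InA_iff (by omega) (by omega) (by omega)]
            omega)
        (by rw [InA_iff (by omega) (by omega) (by omega), InA_iff (by omega) (by omega) (by omega)]
            omega)
      have L0 : ¬ A.InL (-1) fj := by
        rw [InL_iff g0 g1 (by omega) (by omega)]; omega
      have L1 : ¬ A.InL (-1 - A.w) fj := by
        rw [InL_iff g0 g1 (by omega) (by omega)]; omega
      have L2 : A.InL (m + A.h) f := by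
        rw [InL_iff f0 f1 (by omega) (by omega)]; omega
      have b1 : InA A.p (1 - A.w) (-A.w) A.w := by
        rw [InA_iff (by omega) (by omega) (by omega)]; omega
      have b2 : ¬ InA A.p (1 - A.w) (-A.w - A.h) A.w := by
        rw [InA_iff (by omega) (by omega) (by omega)]; omega
      have b3 : ¬ InA A.p (A.h - A.w + 1) (-A.w) A.w := by
        rw [InA_iff (by omega) (by omega) (by omega)]; omega
      have b4 : ¬ InA A.p (A.h - A.w + 1) (-A.w - A.h) A.w := by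
        rw [InA_iff (by omega) (by omega) (by omega)]; omega
      unfold Phi at E
      simp only [L0, L1, L2, b1, b2, b3, b4, and_false, false_and, and_self, if_true,
        if_false] at E
      omega
  have E0' := E0 F hVW hHW hne (r := (mj + 1) - (m + A.w) + δ) (by rw [hδ]) 0
    (by rw [InA_iff (by omega) (by omega) (by omega), InA_iff (by omega) (by omega) (by omega)]
        omega)
    (by rw [InA_iff (by omega) (by omega) (by omega), InA_iff (by omega) (by omega) (by omega)]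
        omega)
  have E1' := E0 F hVW hHW hne (r := (mj + 1) - (m + A.w) + δ) (by rw [hδ]) 1
    (by rw [InA_iff (by omega) (by omega) (by omega), InA_iff (by omega) (by omega) (by omega)]
        omega)
    (by rw [InA_iff (by omega) (by omega) (by omega), InA_iff (by omega) (by omega) (by omega)]
        omega)
  have E := E0'.trans E1'.symm
  have L1 : A.InL (m + A.w) f := by
    rw [InL_iff f0 f1 (by omega) (by omega)]; omega
  have T0 : ¬ A.InL (mj + 1) fj := by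
    rw [InL_iff g0 g1 (by omega) (by omega)]; omega
  have R0 : ¬ A.InL (m + A.w - A.w) f := by
    rw [InL_iff f0 f1 (by omega) (by omega)]; omega
  have a1 : InA A.p 0 (-A.h) A.h := by
    rw [InA_iff (by omega) (by omega) (by omega)]; omega
  have a2 : ¬ InA A.p 0 (-A.w - A.h) A.w := by
    rw [InA_iff (by omega) (by omega) (by omega)]; omega
  have a3 : ¬ InA A.p 1 (-A.h) A.h := by
    rw [InA_iff (by omega) (by omega) (by omega)]; omega
  have a4 : ¬ InA A.p 1 (-A.w - A.h) A.w := by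
    rw [InA_iff (by omega) (by omega) (by omega)]; omega
  unfold Phi at E
  simp only [L1, T0, R0, a1, a2, a3, a4, and_false, false_and, and_self, if_true, if_false] at E
  omega

/-- MARCH: for `w < h` the class of row `-1` has no `U` in `(1-h, -w)` -/
theorem march (F : A.Fl) {i m f : ℤ} (h : A.OvL i m f A.h) (hm : m < 0) (hwh : A.w < A.h)
    {n u fn : ℤ} (hn : A.Cls n u fn (-1)) (u1 : 1 - (A.h : ℤ) ≤ u) (u2 : u < -(A.w : ℤ)) :
    False := by
  have hw := A.hw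
  have P1 := A.R2
  have hmd := A.hmd
  have hmd2 := A.hmd2
  have cd := left_lt F h hm
  have hfd := A.hfd
  have hfd2 := A.hfd2
  have g0 := hn.2.2.1
  have g1 := hn.2.2.2.1
  -- the class `N = p - n` of row `1`, `U_N = d - u`
  obtain ⟨N, mN, fN, hN, hd1⟩ : ∃ N mN fN, A.Cls N mN fN 1 ∧
      ((fn < A.fd ∧ mN = A.md - u ∧ fN = A.fd - fn) ∨
        (A.fd < fn ∧ mN = A.md - u - 1 ∧ fN = A.fd - fn + A.q)) := by
    rcases hn.neg with ⟨h1, h2⟩ | ⟨h1, h2⟩
    · exact ⟨_, _, _, by rw [neg_neg] at h2; exact h2, Or.inl ⟨h1, rfl, rfl⟩⟩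
    · exact ⟨_, _, _, by rw [neg_neg] at h2; exact h2, Or.inr ⟨h1, rfl, rfl⟩⟩
  have first := march_first F h hm hwh hN (by omega) (by omega)
  have key : ∀ t : ℕ, ((t : ℤ) + 1 ≤ A.h - 1) → ∃ j mk fk, A.Cls j mk fk (t + 1) ∧
      ((t : ℤ) + 1) * A.w ≤ mk ∧ mk + (t + 1) ≤ A.h - 1 := by
    intro t
    induction t with
    | zero =>
      intro _
      refine ⟨N, mN, fN, by simpa using hN, ?_, ?_⟩
      · push_cast; omega
      · push_cast; omega
    | succ t ih =>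
      intro ht
      push_cast at ht
      obtain ⟨j, mk, fk, hj, hj1, hj2⟩ := ih (by clear ih; omega)
      clear ih
      have hpos : (A.w : ℤ) ≤ ((t : ℤ) + 1) * A.w := by nlinarith
      have hexp : (((t + 1 : ℕ) : ℤ) + 1) * A.w = ((t : ℤ) + 1) * A.w + A.w := by
        push_cast; ring
      have hjp := hj.1
      have hjp2 := hj.2.1
      have hNp := hN.1
      have hNp2 := hN.2.1
      have k0 := hj.2.2.1
      have k1 := hj.2.2.2.1
      have hsum : j + N ≠ A.p := by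
        intro e
        have h1 := hj.2.2.2.2.2
        have h2 := hN.2.2.2.2.2
        have h3 : (A.p : ℤ) ∣ (t : ℤ) + 1 + 1 := by
          obtain ⟨x, hx⟩ := h1
          obtain ⟨y, hy⟩ := h2
          exact ⟨A.e - x - y, by linear_combination -hx - hy + A.e * e⟩
        have := Int.le_of_dvd (by omega) h3
        omega
      -- the next class
      obtain ⟨j', M, G, hM, hM1, hM2⟩ : ∃ j' M G : ℤ, A.Cls j' M G ((t : ℤ) + 1 + 1) ∧
          mk + A.w ≤ M ∧ (M + (t + 2) < m + 2 * A.h ∨ (M + (t + 2) = m + 2 * A.h ∧ G < f)) := by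
        rcases lt_or_gt_of_ne hsum with h1 | h1
        · rcases hj.add hN h1 with ⟨h2, h3⟩ | ⟨h2, h3⟩
          · refine ⟨_, _, _, h3, ?_, ?_⟩ <;> omega
          · refine ⟨_, _, _, h3, ?_, ?_⟩ <;> omega
        · rcases hj.addp hN h1 with ⟨h2, h3⟩ | ⟨h2, h2', h3⟩ | ⟨h2, h3⟩
          · refine ⟨_, _, _, h3, ?_, ?_⟩ <;> omega
          · refine ⟨_, _, _, h3, ?_, ?_⟩ <;> omega
          · refine ⟨_, _, _, h3, ?_, ?_⟩ <;> omega
      refine ⟨j', M, G, by push_cast; exact hM, by rw [hexp]; omega, ?_⟩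
      by_contra hcon
      push_cast at hcon
      exact march_claim F h hm hwh hM (by omega) (by omega) (by omega) (by omega) (by omega)
        (by omega)
  obtain ⟨j, mk, fk, -, hj1, hj2⟩ := key (A.h - 2) (by omega)
  have e : (((A.h - 2 : ℕ) : ℤ) + 1) = A.h - 1 := by omega
  rw [e] at hj1 hj2
  nlinarith

end Ap

end Pool.Agent.H98.Flat
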