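import Pool.Agent.H98.Flat.O.LocA

/-!
Section 5 (no special SE type) for `w < h`, `2 w + h ≤ p`: class `e` has lifts `(m, f, -h)` with
`0 ≤ m < w`, `U_e < d`, class `n` has lifts `(u, fu, -1)`, `0 ≤ u < p`.  Nine one-witness cases
(and a second right type if `U_n < U_e`).
-/

namespace Pool.Agent.H98.Flat

namespace Ap

variable {A : Ap}

/-- `U_n > d + 1`, right wall of `n` against the top of `e` -/
theorem sseA_C1 (F : A.Fl) {i m f n u fu : ℤ} (he : A.Cls i m f (-A.h)) (hn : A.Cls n u fu (-1))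
    (hne : i ≠ n) (hwh' : A.w < A.h) (hP : 2 * A.w + A.h ≤ A.p) (m0 : 0 ≤ m) (mw : m < A.w)
    (hd : m < A.md ∨ (m = A.md ∧ f < A.fd)) (u1 : u + A.w < A.p)
    (u0 : A.md + 1 < u ∨ (A.md + 1 = u ∧ A.fd < fu))
    (u2 : u < A.p - A.h + m + 1 ∨ (u = A.p - A.h + m + 1 ∧ fu < f)) : False := by
  have hw := A.hwz
  have P1 := A.h2z
  have hmd := A.hmd
  have hmd2 := A.hmd2
  have hwz' : (A.w : ℤ) < A.h := by exact_mod_cast hwh'
  have hPz : 2 * (A.w : ℤ) + A.h ≤ A.p := by exact_mod_cast hP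
  have ff : f ≠ fu := he.f_ne hn hne
  have f0 := he.2.2.1
  have f1 := he.2.2.2.1
  have k0 := hn.2.2.1
  have k1 := hn.2.2.2.1
  have hV : A.VW n (u + A.w) fu (-1 - A.w) := ⟨u, -1, hn, Or.inr ⟨rfl, rfl⟩⟩
  have hH : A.HW i (m - A.h) f (-A.h) := ⟨m, -A.h, he, Or.inl ⟨by ring, rfl⟩⟩
  obtain ⟨r, hr, hr'⟩ := lev (a := m - A.h - (u + A.w)) (Ne.symm ff)
  have hL := v0 (A := A) (m := u + A.w) k0 k1 (by omega) (by omega) (by omega)
  have hR : (if A.InL (u + A.w - A.w) fu then (1 : ℤ) else 0) = 0 := by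
    rw [show u + (A.w : ℤ) - A.w = u by ring]
    exact v0 k0 k1 (by omega) (by omega) (by omega)
  have hT := v0 (A := A) (m := m - A.h) f0 f1 (by omega) (by omega) (by omega)
  have hB : (if A.InL (m - A.h + A.h) f then (1 : ℤ) else 0) = 1 := by
    rw [show m - (A.h : ℤ) + A.h = m by ring]
    exact v1 f0 f1 (by omega) (by omega) (by omega)
  have r0 : -(A.w : ℤ) ≤ r + A.p := by omega
  have r1 : r + A.p < A.p - A.w - A.h := by omega
  have E := E0x F hV hH hne 1 (r := r + A.p) (by rw [hr]; ring) hL hR hT hB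
    (by omega) (by omega) (by omega) (by omega) (by omega) (by omega)
    (-A.h) (by omega) (by omega)
    (iff_of_true (by unfold Ar; omega) (by unfold Ar; omega))
    (iff_of_true (by unfold Ar; omega) (by unfold Ar; omega))
  clear hr hr' hL hR hT hB hd u0 u1 u2
  unfold phi4 at E
  omega

/-- `U_e + w < d`, `p - w ≤ U_n < p - h + U_e + 1`: right wall of `e` against the top of `n` -/
theorem sseA_C2 (F : A.Fl) {i m f n u fu : ℤ} (he : A.Cls i m f (-A.h)) (hn : A.Cls n u fu (-1))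
    (hne : i ≠ n) (hwh' : A.w < A.h) (hP : 2 * A.w + A.h ≤ A.p) (m0 : 0 ≤ m) (mw : m < A.w)
    (hd : m + A.w < A.md ∨ (m + A.w = A.md ∧ f < A.fd)) (u1 : A.p ≤ u + A.w) (up : u < A.p)
    (u2 : u < A.p - A.h + m + 1 ∨ (u = A.p - A.h + m + 1 ∧ fu < f)) : False := by
  have hw := A.hwz
  have P1 := A.h2z
  have hmd := A.hmd
  have hmd2 := A.hmd2
  have hwz' : (A.w : ℤ) < A.h := by exact_mod_cast hwh'
  have hPz : 2 * (A.w : ℤ) + A.h ≤ A.p := by exact_mod_cast hP
  have ff : f ≠ fu := he.f_ne hn hne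
  have f0 := he.2.2.1
  have f1 := he.2.2.2.1
  have k0 := hn.2.2.1
  have k1 := hn.2.2.2.1
  have hV : A.VW i (m + A.w) f (-A.h - A.w) := ⟨m, -A.h, he, Or.inr ⟨rfl, rfl⟩⟩
  have hH : A.HW n (u - 1 - A.p) fu (-1) := by
    refine ⟨u - A.p, -1, ?_, Or.inl ⟨by ring, rfl⟩⟩
    have := hn.shift (-1) 0
    simpa [sub_eq_add_neg] using this
  obtain ⟨r, hr, hr'⟩ := lev (a := u - 1 - A.p - (m + A.w)) ff
  have hL := v1 (A := A) (m := m + A.w) f0 f1 (by omega) (by omega) (by omega)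
  have hR : (if A.InL (m + A.w - A.w) f then (1 : ℤ) else 0) = 1 := by
    rw [show m + (A.w : ℤ) - A.w = m by ring]
    exact v1 f0 f1 (by omega) (by omega) (by omega)
  have hT := v0 (A := A) (m := u - 1 - A.p) k0 k1 (by omega) (by omega) (by omega)
  have hB := v1 (A := A) (m := u - 1 - A.p + A.h) k0 k1 (by omega) (by omega) (by omega)
  have r0 : 1 ≤ r + A.p := by omega
  have r2 : A.p - 2 * A.h - A.w < r + A.p := by omega
  have r1 : r + A.p ≤ A.p - A.w - A.h := by omega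
  have E := E0x F hV hH (Ne.symm hne) 1 (r := r + A.p) (by rw [hr]; ring) hL hR hT hB
    (by omega) (by omega) (by omega) (by omega) (by omega) (by omega)
    (-A.w + 1) (by omega) (by omega)
    (iff_of_false (by unfold Ar; omega) (by unfold Ar; omega))
    (iff_of_true (by unfold Ar; omega) (by unfold Ar; omega))
  clear hr hr' hL hR hT hB hd u1 u2
  unfold phi4 at E
  omega

/-- `U_e + w < d`, `p - h + U_e + 1 < U_n`: right wall of `e` against the bottom of `n` -/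
theorem sseA_C3 (F : A.Fl) {i m f n u fu : ℤ} (he : A.Cls i m f (-A.h)) (hn : A.Cls n u fu (-1))
    (hne : i ≠ n) (hwh' : A.w < A.h) (hP : 2 * A.w + A.h ≤ A.p) (m0 : 0 ≤ m) (mw : m < A.w)
    (hd : m + A.w < A.md ∨ (m + A.w = A.md ∧ f < A.fd)) (up : u < A.p)
    (u0 : A.md + 1 < u ∨ (A.md + 1 = u ∧ A.fd < fu))
    (u2 : A.p - A.h + m + 1 < u ∨ (A.p - A.h + m + 1 = u ∧ f < fu)) : False := by
  have hw := A.hwz
  have P1 := A.h2z
  have hmd := A.hmd
  have hmd2 := A.hmd2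
  have hwz' : (A.w : ℤ) < A.h := by exact_mod_cast hwh'
  have hPz : 2 * (A.w : ℤ) + A.h ≤ A.p := by exact_mod_cast hP
  have ff : f ≠ fu := he.f_ne hn hne
  have fd := hn.f_ne_fd
  have f0 := he.2.2.1
  have f1 := he.2.2.2.1
  have k0 := hn.2.2.1
  have k1 := hn.2.2.2.1
  have hV : A.VW i (m + A.w) f (-A.h - A.w) := ⟨m, -A.h, he, Or.inr ⟨rfl, rfl⟩⟩
  have hH : A.HW n (u - 1 - A.h) fu (-1 - A.h) := ⟨u, -1, hn, Or.inr ⟨by ring, rfl⟩⟩
  obtain ⟨r, hr, hr'⟩ := lev (a := u - 1 - A.h - (m + A.w)) ff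
  have hL := v1 (A := A) (m := m + A.w) f0 f1 (by omega) (by omega) (by omega)
  have hR : (if A.InL (m + A.w - A.w) f then (1 : ℤ) else 0) = 1 := by
    rw [show m + (A.w : ℤ) - A.w = m by ring]
    exact v1 f0 f1 (by omega) (by omega) (by omega)
  obtain ⟨T, hT, hT'⟩ := vL (A := A) (m := u - 1 - A.h) k0 k1 fd (by omega) (by omega)
  have T01 : 0 ≤ T ∧ T ≤ 1 := by clear hL hR hT hr hr' hd u0 u2; omega
  clear hT'
  have hB : (if A.InL (u - 1 - A.h + A.h) fu then (1 : ℤ) else 0) = 0 := by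
    rw [show u - 1 - (A.h : ℤ) + A.h = u - 1 by ring]
    exact v0 k0 k1 (by omega) (by omega) (by omega)
  have r0 : A.p - 2 * A.h - A.w < r := by omega
  have r1 : r < A.p - A.w - A.h := by omega
  have E := E0x F hV hH (Ne.symm hne) 0 (r := r) (by rw [hr]; ring) hL hR hT hB
    (by omega) (by omega) (by omega) (by omega) (by omega) (by omega)
    (-A.w - A.h + 1) (by omega) (by omega)
    (iff_of_false (by unfold Ar; omega) (by unfold Ar; omega))
    (iff_of_true (by unfold Ar; omega) (by unfold Ar; omega))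
  clear hr hr' hL hR hT hB hd u0 u2
  unfold phi4 at E
  omega

/-- `d < U_e + w`, `p - h ≤ U_n < p - h + U_e + 1`: right wall of `e` against the top of `n` -/
theorem sseA_D2 (F : A.Fl) {i m f n u fu : ℤ} (he : A.Cls i m f (-A.h)) (hn : A.Cls n u fu (-1))
    (hne : i ≠ n) (hwh' : A.w < A.h) (hP : 2 * A.w + A.h ≤ A.p) (m0 : 0 ≤ m) (mw : m < A.w)
    (hd : m < A.md ∨ (m = A.md ∧ f < A.fd))
    (hdw : A.md < m + A.w ∨ (A.md = m + A.w ∧ A.fd < f)) (u1 : A.p ≤ u + A.h) (up : u < A.p)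
    (u0 : A.md + 1 < u ∨ (A.md + 1 = u ∧ A.fd < fu))
    (u2 : u < A.p - A.h + m + 1 ∨ (u = A.p - A.h + m + 1 ∧ fu < f)) : False := by
  have hw := A.hwz
  have P1 := A.h2z
  have hmd := A.hmd
  have hmd2 := A.hmd2
  have hwz' : (A.w : ℤ) < A.h := by exact_mod_cast hwh'
  have hPz : 2 * (A.w : ℤ) + A.h ≤ A.p := by exact_mod_cast hP
  have ff : f ≠ fu := he.f_ne hn hne
  have fd := hn.f_ne_fd
  have f0 := he.2.2.1
  have f1 := he.2.2.2.1
  have k0 := hn.2.2.1
  have k1 := hn.2.2.2.1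
  have hV : A.VW i (m + A.w) f (-A.h - A.w) := ⟨m, -A.h, he, Or.inr ⟨rfl, rfl⟩⟩
  have hH : A.HW n (u - 1 - A.p) fu (-1) := by
    refine ⟨u - A.p, -1, ?_, Or.inl ⟨by ring, rfl⟩⟩
    have := hn.shift (-1) 0
    simpa [sub_eq_add_neg] using this
  obtain ⟨r, hr, hr'⟩ := lev (a := u - 1 - A.p - (m + A.w)) ff
  have hL := v0 (A := A) (m := m + A.w) f0 f1 (by omega) (by omega) (by omega)
  have hR : (if A.InL (m + A.w - A.w) f then (1 : ℤ) else 0) = 1 := by
    rw [show m + (A.w : ℤ) - A.w = m by ring]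
    exact v1 f0 f1 (by omega) (by omega) (by omega)
  have hT := v0 (A := A) (m := u - 1 - A.p) k0 k1 (by omega) (by omega) (by omega)
  obtain ⟨B, hB, hB'⟩ := vL (A := A) (m := u - 1 - A.p + A.h) k0 k1 fd (by omega) (by omega)
  clear hB'
  have r0 : 0 ≤ r + A.p := by omega
  have r2 : A.p - 2 * A.h - A.w < r + A.p := by omega
  have r1 : r + A.p ≤ A.p - A.w - A.h := by omega
  have E := E0x F hV hH (Ne.symm hne) 1 (r := r + A.p) (by rw [hr]; ring) hL hR hT hB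
    (by omega) (by omega) (by omega) (by omega) (by omega) (by omega)
    (-A.w) (by omega) (by omega)
    (iff_of_false (by unfold Ar; omega) (by unfold Ar; omega))
    (iff_of_true (by unfold Ar; omega) (by unfold Ar; omega))
  clear hr hr' hL hR hT hB hd hdw u0 u1 u2
  unfold phi4 at E
  omega

/-- `d < U_e + w`, `p - h + U_e + 1 < U_n`: left wall of `n` against the top of `e` -/
theorem sseA_D3 (F : A.Fl) {i m f n u fu : ℤ} (he : A.Cls i m f (-A.h)) (hn : A.Cls n u fu (-1))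
    (hne : i ≠ n) (hwh' : A.w < A.h) (hP : 2 * A.w + A.h ≤ A.p) (m0 : 0 ≤ m) (mw : m < A.w)
    (hd : m < A.md ∨ (m = A.md ∧ f < A.fd))
    (hdw : A.md < m + A.w ∨ (A.md = m + A.w ∧ A.fd < f)) (up : u < A.p)
    (u0 : A.md + 1 < u ∨ (A.md + 1 = u ∧ A.fd < fu))
    (u2 : A.p - A.h + m + 1 < u ∨ (A.p - A.h + m + 1 = u ∧ f < fu)) : False := by
  have hw := A.hwz
  have P1 := A.h2z
  have hmd := A.hmd
  have hmd2 := A.hmd2
  have hwz' : (A.w : ℤ) < A.h := by exact_mod_cast hwh'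
  have hPz : 2 * (A.w : ℤ) + A.h ≤ A.p := by exact_mod_cast hP
  have ff : f ≠ fu := he.f_ne hn hne
  have fd := hn.f_ne_fd
  have f0 := he.2.2.1
  have f1 := he.2.2.2.1
  have k0 := hn.2.2.1
  have k1 := hn.2.2.2.1
  have hV : A.VW n u fu (-1) := ⟨u, -1, hn, Or.inl ⟨rfl, rfl⟩⟩
  have hH : A.HW i (m - A.h) f (-A.h) := ⟨m, -A.h, he, Or.inl ⟨by ring, rfl⟩⟩
  obtain ⟨r, hr, hr'⟩ := lev (a := m - A.h - u) (Ne.symm ff)
  have hL := v0 (A := A) (m := u) k0 k1 (by omega) (by omega) (by omega)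
  obtain ⟨R, hR, hR'⟩ := vL (A := A) (m := u - A.w) k0 k1 fd (by omega) (by omega)
  have hR'' : (R = 1 ∧ (u - A.w < A.md ∨ (u - A.w = A.md ∧ fu < A.fd))) ∨ R = 0 := by
    clear hL hR hr hr' hd hdw u0 u2; omega
  clear hR'
  have hT := v0 (A := A) (m := m - A.h) f0 f1 (by omega) (by omega) (by omega)
  have hB : (if A.InL (m - A.h + A.h) f then (1 : ℤ) else 0) = 1 := by
    rw [show m - (A.h : ℤ) + A.h = m by ring]
    exact v1 f0 f1 (by omega) (by omega) (by omega)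
  have r0 : -(A.h : ℤ) < r + A.p := by omega
  have r1 : r + A.p ≤ -1 := by omega
  have r2 : R = 0 ∨ r + A.p ≤ -A.w := by
    clear hr hL hT hB hR u0 hd
    omega
  have E := E0x F hV hH hne 1 (r := r + A.p) (by rw [hr]; ring) hL hR hT hB
    (by omega) (by omega) (by omega) (by omega) (by omega) (by omega)
    (-A.w - A.h + 1) (by omega) (by omega)
    (iff_of_false (by unfold Ar; omega) (by unfold Ar; omega))
    (iff_of_true (by unfold Ar; omega) (by unfold Ar; omega))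
  clear hr hr' hL hR hT hB hd hdw u0 u2
  unfold phi4 at E
  omega

/-- `U_e < U_n < U_e + 1`, `U_n < w`: left wall of `n` against the top of `e` -/
theorem sseA_A1 (F : A.Fl) {i m f n u fu : ℤ} (he : A.Cls i m f (-A.h)) (hn : A.Cls n u fu (-1))
    (hne : i ≠ n) (hwh' : A.w < A.h) (hP : 2 * A.w + A.h ≤ A.p) (m0 : 0 ≤ m) (mw : m < A.w)
    (hd : m < A.md ∨ (m = A.md ∧ f < A.fd))
    (u0 : (u = m ∧ f < fu) ∨ (u = m + 1 ∧ fu < f)) (u1 : u < A.w) : False := by
  have hw := A.hwz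
  have P1 := A.h2z
  have hmd := A.hmd
  have hmd2 := A.hmd2
  have hwz' : (A.w : ℤ) < A.h := by exact_mod_cast hwh'
  have hPz : 2 * (A.w : ℤ) + A.h ≤ A.p := by exact_mod_cast hP
  have ff : f ≠ fu := he.f_ne hn hne
  have fd := hn.f_ne_fd
  have f0 := he.2.2.1
  have f1 := he.2.2.2.1
  have k0 := hn.2.2.1
  have k1 := hn.2.2.2.1
  have hV : A.VW n u fu (-1) := ⟨u, -1, hn, Or.inl ⟨rfl, rfl⟩⟩
  have hH : A.HW i (m - A.h) f (-A.h) := ⟨m, -A.h, he, Or.inl ⟨by ring, rfl⟩⟩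
  obtain ⟨r, hr, hr'⟩ := lev (a := m - A.h - u) (Ne.symm ff)
  obtain ⟨L, hL, hL'⟩ := vL (A := A) (m := u) k0 k1 fd (by omega) (by omega)
  clear hL'
  have hR := v0 (A := A) (m := u - A.w) k0 k1 (by omega) (by omega) (by omega)
  have hT := v0 (A := A) (m := m - A.h) f0 f1 (by omega) (by omega) (by omega)
  have hB : (if A.InL (m - A.h + A.h) f then (1 : ℤ) else 0) = 1 := by
    rw [show m - (A.h : ℤ) + A.h = m by ring]
    exact v1 f0 f1 (by omega) (by omega) (by omega)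
  have r0 : r = -A.h := by omega
  have E := E0x F hV hH hne 0 (r := r) (by rw [hr]; ring) hL hR hT hB
    (by omega) (by omega) (by omega) (by omega) (by omega) (by omega)
    1 (by omega) (by omega)
    (iff_of_false (by unfold Ar; omega) (by unfold Ar; omega))
    (iff_of_false (by unfold Ar; omega) (by unfold Ar; omega))
  clear hr hr' hL hR hT hB hd u0
  unfold phi4 at E
  omega

/-- `U_e < U_n < U_e + 1`, `w < U_n`: left wall of `n` against the bottom of `e` -/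
theorem sseA_A2 (F : A.Fl) {i m f n u fu : ℤ} (he : A.Cls i m f (-A.h)) (hn : A.Cls n u fu (-1))
    (hne : i ≠ n) (hwh' : A.w < A.h) (hP : 2 * A.w + A.h ≤ A.p) (m0 : 0 ≤ m) (mw : m < A.w)
    (hd : m < A.md ∨ (m = A.md ∧ f < A.fd))
    (u0 : u = m + 1 ∧ fu < f) (u1 : u = A.w) : False := by
  have hw := A.hwz
  have P1 := A.h2z
  have hmd := A.hmd
  have hmd2 := A.hmd2
  have hwz' : (A.w : ℤ) < A.h := by exact_mod_cast hwh'
  have hPz : 2 * (A.w : ℤ) + A.h ≤ A.p := by exact_mod_cast hP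
  have ff : f ≠ fu := he.f_ne hn hne
  have fd := hn.f_ne_fd
  have fd' := he.f_ne_fd
  have f0 := he.2.2.1
  have f1 := he.2.2.2.1
  have k0 := hn.2.2.1
  have k1 := hn.2.2.2.1
  have hV : A.VW n u fu (-1) := ⟨u, -1, hn, Or.inl ⟨rfl, rfl⟩⟩
  have hH : A.HW i (m - A.h - A.h) f (-A.h - A.h) := ⟨m, -A.h, he, Or.inr ⟨by ring, rfl⟩⟩
  obtain ⟨r, hr, hr'⟩ := lev (a := m - A.h - A.h - u) (Ne.symm ff)
  obtain ⟨L, hL, hL'⟩ := vL (A := A) (m := u) k0 k1 fd (by omega) (by omega)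
  clear hL'
  have hR := v1 (A := A) (m := u - A.w) k0 k1 (by omega) (by omega) (by omega)
  obtain ⟨T, hT, hT'⟩ := vL (A := A) (m := m - A.h - A.h) f0 f1 fd' (by omega) (by omega)
  clear hT'
  have hB : (if A.InL (m - A.h - A.h + A.h) f then (1 : ℤ) else 0) = 0 := by
    rw [show m - (A.h : ℤ) - A.h + A.h = m - A.h by ring]
    exact v0 f0 f1 (by omega) (by omega) (by omega)
  have r0 : r = -A.h - A.h := by omega
  have E := E0x F hV hH hne 1 (r := r + A.p) (by rw [hr]; ring) hL hR hT hB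
    (by omega) (by omega) (by omega) (by omega) (by omega) (by omega)
    (-A.h) (by omega) (by omega)
    (iff_of_true (by unfold Ar; omega) (by unfold Ar; omega))
    (iff_of_false (by unfold Ar; omega) (by unfold Ar; omega))
  clear hr hr' hL hR hT hB hd u0
  unfold phi4 at E
  omega

/-- `U_e + 1 < U_n < d + 1`, `U_n < h + 1`: left wall of `e` against the bottom of `n` -/
theorem sseA_B1 (F : A.Fl) {i m f n u fu : ℤ} (he : A.Cls i m f (-A.h)) (hn : A.Cls n u fu (-1))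
    (hne : i ≠ n) (hwh' : A.w < A.h) (hP : 2 * A.w + A.h ≤ A.p) (m0 : 0 ≤ m) (mw : m < A.w)
    (hd : m < A.md ∨ (m = A.md ∧ f < A.fd))
    (u0 : m + 1 < u ∨ (m + 1 = u ∧ f < fu))
    (u1 : u < A.md + 1 ∨ (u = A.md + 1 ∧ fu < A.fd)) (u2 : u ≤ A.h) : False := by
  have hw := A.hwz
  have P1 := A.h2z
  have hmd := A.hmd
  have hmd2 := A.hmd2
  have hwz' : (A.w : ℤ) < A.h := by exact_mod_cast hwh'
  have hPz : 2 * (A.w : ℤ) + A.h ≤ A.p := by exact_mod_cast hP
  have ff : f ≠ fu := he.f_ne hn hne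
  have f0 := he.2.2.1
  have f1 := he.2.2.2.1
  have k0 := hn.2.2.1
  have k1 := hn.2.2.2.1
  have hV : A.VW i m f (-A.h) := ⟨m, -A.h, he, Or.inl ⟨rfl, rfl⟩⟩
  have hH : A.HW n (u - 1 - A.h) fu (-1 - A.h) := ⟨u, -1, hn, Or.inr ⟨by ring, rfl⟩⟩
  obtain ⟨r, hr, hr'⟩ := lev (a := u - 1 - A.h - m) ff
  have hL := v1 (A := A) (m := m) f0 f1 (by omega) (by omega) (by omega)
  have hR := v0 (A := A) (m := m - A.w) f0 f1 (by omega) (by omega) (by omega)
  have hT := v0 (A := A) (m := u - 1 - A.h) k0 k1 (by omega) (by omega) (by omega)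
  have hB : (if A.InL (u - 1 - A.h + A.h) fu then (1 : ℤ) else 0) = 1 := by
    rw [show u - 1 - (A.h : ℤ) + A.h = u - 1 by ring]
    exact v1 k0 k1 (by omega) (by omega) (by omega)
  have r0 : -(A.h : ℤ) < r := by omega
  have r1 : r ≤ 0 := by omega
  have E := E0x F hV hH (Ne.symm hne) 0 (r := r) (by rw [hr]; ring) hL hR hT hB
    (by omega) (by omega) (by omega) (by omega) (by omega) (by omega)
    (A.p - A.w - A.h) (by omega) (by omega)
    (iff_of_true (by unfold Ar; omega) (by unfold Ar; omega))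
    (iff_of_true (by unfold Ar; omega) (by unfold Ar; omega))
  clear hr hr' hL hR hT hB hd u0 u1
  unfold phi4 at E
  omega

/-- `h + 1 < U_n < d + 1`: left wall of `e` against the bottom of `n` -/
theorem sseA_B2 (F : A.Fl) {i m f n u fu : ℤ} (he : A.Cls i m f (-A.h)) (hn : A.Cls n u fu (-1))
    (hne : i ≠ n) (hwh' : A.w < A.h) (hP : 2 * A.w + A.h ≤ A.p) (m0 : 0 ≤ m) (mw : m < A.w)
    (hd : m < A.md ∨ (m = A.md ∧ f < A.fd))
    (u1 : u < A.md + 1 ∨ (u = A.md + 1 ∧ fu < A.fd)) (u2 : A.h < u) : False := by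
  have hw := A.hwz
  have P1 := A.h2z
  have hmd := A.hmd
  have hmd2 := A.hmd2
  have hwz' : (A.w : ℤ) < A.h := by exact_mod_cast hwh'
  have hPz : 2 * (A.w : ℤ) + A.h ≤ A.p := by exact_mod_cast hP
  have ff : f ≠ fu := he.f_ne hn hne
  have f0 := he.2.2.1
  have f1 := he.2.2.2.1
  have k0 := hn.2.2.1
  have k1 := hn.2.2.2.1
  have hV : A.VW i m f (-A.h) := ⟨m, -A.h, he, Or.inl ⟨rfl, rfl⟩⟩
  have hH : A.HW n (u - 1 - A.h) fu (-1 - A.h) := ⟨u, -1, hn, Or.inr ⟨by ring, rfl⟩⟩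
  obtain ⟨r, hr, hr'⟩ := lev (a := u - 1 - A.h - m) ff
  have hL := v1 (A := A) (m := m) f0 f1 (by omega) (by omega) (by omega)
  have hR := v0 (A := A) (m := m - A.w) f0 f1 (by omega) (by omega) (by omega)
  have hT := v1 (A := A) (m := u - 1 - A.h) k0 k1 (by omega) (by omega) (by omega)
  have hB : (if A.InL (u - 1 - A.h + A.h) fu then (1 : ℤ) else 0) = 1 := by
    rw [show u - 1 - (A.h : ℤ) + A.h = u - 1 by ring]
    exact v1 k0 k1 (by omega) (by omega) (by omega)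
  have r0 : -(A.w : ℤ) < r := by omega
  have r1 : r ≤ A.p - 2 * A.h := by omega
  have E := E0x F hV hH (Ne.symm hne) 0 (r := r) (by rw [hr]; ring) hL hR hT hB
    (by omega) (by omega) (by omega) (by omega) (by omega) (by omega)
    (-A.w - A.h + 1) (by omega) (by omega)
    (iff_of_true (by unfold Ar; omega) (by unfold Ar; omega))
    (iff_of_true (by unfold Ar; omega) (by unfold Ar; omega))
  clear hr hr' hL hR hT hB hd u1
  unfold phi4 at E
  omega

/-- all cases `U_e < U_n` together -/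
theorem sseA (F : A.Fl) {i m f n u fu : ℤ} (he : A.Cls i m f (-A.h)) (hn : A.Cls n u fu (-1))
    (hne : i ≠ n) (hwh' : A.w < A.h) (hP : 2 * A.w + A.h ≤ A.p) (m0 : 0 ≤ m) (mw : m < A.w)
    (hd : m < A.md ∨ (m = A.md ∧ f < A.fd))
    (u0 : m < u ∨ (m = u ∧ f < fu)) (up : u < A.p) : False := by
  have hw := A.hwz
  have P1 := A.h2z
  have hwz' : (A.w : ℤ) < A.h := by exact_mod_cast hwh'
  have hPz : 2 * (A.w : ℤ) + A.h ≤ A.p := by exact_mod_cast hP
  have ff : f ≠ fu := he.f_ne hn hne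
  have fd := hn.f_ne_fd
  have fd' := he.f_ne_fd
  by_cases c1 : u < A.md + 1 ∨ (u = A.md + 1 ∧ fu < A.fd)
  · by_cases c2 : u < m + 1 ∨ (u = m + 1 ∧ fu < f)
    · by_cases c3 : u < A.w
      · exact sseA_A1 F he hn hne hwh' hP m0 mw hd (by omega) c3
      · exact sseA_A2 F he hn hne hwh' hP m0 mw hd (by omega) (by omega)
    · by_cases c3 : u ≤ A.h
      · exact sseA_B1 F he hn hne hwh' hP m0 mw hd (by omega) c1 c3
      · exact sseA_B2 F he hn hne hwh' hP m0 mw hd c1 (by omega)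
  · have c1' : A.md + 1 < u ∨ (A.md + 1 = u ∧ A.fd < fu) := by omega
    clear c1
    by_cases c2 : m + A.w < A.md ∨ (m + A.w = A.md ∧ f < A.fd)
    · by_cases c3 : u < A.p - A.h + m + 1 ∨ (u = A.p - A.h + m + 1 ∧ fu < f)
      · by_cases c4 : u + A.w < A.p
        · exact sseA_C1 F he hn hne hwh' hP m0 mw hd c4 c1' c3
        · exact sseA_C2 F he hn hne hwh' hP m0 mw c2 (by omega) up c3
      · exact sseA_C3 F he hn hne hwh' hP m0 mw c2 up c1' (by omega)
    · have c2' : A.md < m + A.w ∨ (A.md = m + A.w ∧ A.fd < f) := by omega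
      clear c2
      by_cases c3 : u + A.h < A.p
      · exact sseA_C1 F he hn hne hwh' hP m0 mw hd (by omega) c1' (by omega)
      · by_cases c4 : u < A.p - A.h + m + 1 ∨ (u = A.p - A.h + m + 1 ∧ fu < f)
        · exact sseA_D2 F he hn hne hwh' hP m0 mw hd c2' (by omega) up c1' c4
        · exact sseA_D3 F he hn hne hwh' hP m0 mw hd c2' up c1' (by omega)

end Ap

end Pool.Agent.H98.Flat
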