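import Pool.Agent.H98.Flat.O.Near
import Pool.Agent.H98.Flat.O.SseA

/-! Section 5: no special SE type. -/

set_option linter.unusedVariables false

namespace Pool.Agent.H98.Flat


def sPh (w h l ρ τ β Y : ℤ) : ℤ :=
  -(if -h < Y ∧ Y ≤ 0 then l else 0) + (if -w - h < Y ∧ Y ≤ -w then ρ else 0)
  + (if -w < Y ∧ Y ≤ 0 then τ else 0) - (if -w - h < Y ∧ Y ≤ -h then β else 0)

def sRule (w h g k l ρ τ β r : ℤ) : Prop :=
  ∀ Y, -w - h ≤ Y → Y ≤ 1 → ((g - h < Y ∧ Y ≤ g) ↔ ¬ (g - h < r ∧ r ≤ g)) →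
    ((k - w < Y ∧ Y ≤ k) ↔ ¬ (k - w < r ∧ r ≤ k)) → sPh w h l ρ τ β Y = sPh w h l ρ τ β r

theorem sX1_A {w h l ρ : ℤ} (hw : 2 ≤ w) (hwh : w ≤ h)
    (l0 : 0 ≤ l) (l1 : l ≤ 1) (r0 : 0 ≤ ρ) (r1 : ρ ≤ 1)
    (E : sRule w h (-1) (-h) l ρ 0 1 (0 - h)) : l = 0 ∧ ρ = 1 := by
  have e0 := E 0 (by omega) (by omega) (by omega) (by omega)
  have e1 := E 1 (by omega) (by omega) (by omega) (by omega)
  unfold sPh at e0 e1
  clear E
  omega

theorem sX1_B1 {w h t l ρ : ℤ} (hw : 2 ≤ w) (hwh : w ≤ h)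
    (l0 : 0 ≤ l) (l1 : l ≤ 1) (r0 : 0 ≤ ρ) (r1 : ρ ≤ 1) (t0 : -w + 1 ≤ t) (t1 : t ≤ -1)
    (E : sRule w h (-1) (-h) l ρ 0 1 (t - h)) : l + ρ = 1 := by
  have e0 := E (-1) (by omega) (by omega) (by omega) (by omega)
  unfold sPh at e0
  clear E
  omega

theorem sX1_B2 {w h t l ρ : ℤ} (hw : 2 ≤ w) (hwh : w < h)
    (l0 : 0 ≤ l) (l1 : l ≤ 1) (r0 : 0 ≤ ρ) (r1 : ρ ≤ 1) (t0 : -w + 1 ≤ t) (t1 : t ≤ -1)
    (E : sRule w h (-1) (-h) l ρ 0 1 (t - h)) : l = 1 ∧ ρ = 0 := by
  have e0 := E (-1) (by omega) (by omega) (by omega) (by omega)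
  have e1 := E (-h + 1) (by omega) (by omega) (by omega) (by omega)
  unfold sPh at e0 e1
  clear E
  omega

theorem sX1_C {w h t l ρ : ℤ} (hw : 2 ≤ w) (hwh : w ≤ h)
    (l0 : 0 ≤ l) (l1 : l ≤ 1) (r0 : 0 ≤ ρ) (r1 : ρ ≤ 1) (t0 : 1 ≤ t)
    (E : sRule w h (-1) (-h) l ρ 0 1 (t - h)) (hρ : ρ = 0) : l = 1 := by
  by_cases ht : t ≤ h - 1
  · have e0 := E (-h - 1) (by omega) (by omega) (by omega) (by omega)
    unfold sPh at e0
    clear E
    omega
  · have e0 := E (-h) (by omega) (by omega) (by omega) (by omega)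
    unfold sPh at e0
    clear E
    omega

theorem sX1_E {w h t l ρ : ℤ} (hw : 2 ≤ w) (hwh : w ≤ h)
    (l0 : 0 ≤ l) (l1 : l ≤ 1) (r0 : 0 ≤ ρ) (r1 : ρ ≤ 1) (t0 : t ≤ -w)
    (E : sRule w h (-1) (-h) l ρ 0 1 (t - h)) : ρ = 1 := by
  have e0 := E (-h) (by omega) (by omega) (by omega) (by omega)
  unfold sPh at e0
  clear E
  omega

/-- `X2`: left wall of `e` (`g = -h`) against the bottom of `n` (`k = -1-h`) -/
theorem sX2_B {h t τ β : ℤ} (hw : 2 ≤ h)
    (l0 : 0 ≤ τ) (l1 : τ ≤ 1) (r0 : 0 ≤ β) (r1 : β ≤ 1) (t0 : -h + 1 ≤ t) (t1 : t ≤ -1)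
    (E : sRule h h (-h) (-1 - h) 1 0 τ β (-t - h)) : τ + β = 1 := by
  have e0 := E (-h - 1) (by omega) (by omega) (by omega) (by omega)
  unfold sPh at e0
  clear E
  omega

theorem sX2_E1 {w h t τ β : ℤ} (hw : 2 ≤ w) (hwh : w < h)
    (l0 : 0 ≤ τ) (l1 : τ ≤ 1) (r0 : 0 ≤ β) (r1 : β ≤ 1) (t0 : t ≤ -w)
    (E : sRule w h (-h) (-1 - h) 1 0 τ β (-t - h)) : β = 0 ∧ (-h ≤ t → τ = 1) := by
  have e0 := E (-h - w) (by omega) (by omega) (by omega) (by omega)
  have e1 := E (-h - 1) (by omega) (by omega) (by omega) (by omega)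
  unfold sPh at e0 e1
  clear E
  refine ⟨?_, fun _ => ?_⟩
  · omega
  · omega

theorem sX2_E2 {h t τ β : ℤ} (hw : 2 ≤ h)
    (l0 : 0 ≤ τ) (l1 : τ ≤ 1) (r0 : 0 ≤ β) (r1 : β ≤ 1) (t0 : t ≤ -h)
    (E : sRule h h (-h) (-1 - h) 1 0 τ β (-t - h)) : (t < -h → β = 0) ∧ (t = -h → τ + β = 1) := by
  have e1 := E (-h - 1) (by omega) (by omega) (by omega) (by omega)
  unfold sPh at e1
  clear E
  refine ⟨fun _ => ?_, fun _ => ?_⟩
  · omega
  · omega

/-- `Q2`: left wall of `e` against the top of `n` -/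
theorem sQ2 {h τ β : ℤ} (hw : 2 ≤ h)
    (E : sRule h h (-h) (-1) 1 0 τ β h) : β = 0 := by
  have e1 := E (-h) (by omega) (by omega) (by omega) (by omega)
  unfold sPh at e1
  clear E
  omega

theorem sM1 {w h r : ℤ} (hw : 2 ≤ w) (hwh : w ≤ h) (r0 : -2 * h < r) (r1 : r ≤ -h)
    (E : sRule w h (-h) 1 1 0 0 1 r) : False := by
  have e0 := E 0 (by omega) (by omega) (by omega) (by omega)
  have e1 := E 1 (by omega) (by omega) (by omega) (by omega)
  unfold sPh at e0 e1
  clear E
  omega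

theorem sM2 {w h r : ℤ} (hw : 2 ≤ w) (hwh : w ≤ h) (r0 : -h < r) (r1 : r ≤ 1 - w)
    (E : sRule w h (-h) (1 - h) 1 0 0 0 (r - h)) : False := by
  have e0 := E (1 - h) (by omega) (by omega) (by omega) (by omega)
  unfold sPh at e0
  clear E
  omega


namespace Ap

variable {A : Ap} [Fact A.Reg]

theorem sse_rule (F : A.Fl) (hPP : 2 * (A.w + A.h) < A.p) {j i mc fc g mb fb k r : ℤ} (hj : A.VW j mc fc g)
    (hi : A.HW i mb fb k) (hij : i ≠ j) (hr : r = mb - mc + (if fc < fb then 1 else 0))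
    (g0 : -(A.h : ℤ) - 1 ≤ g) (g1 : g ≤ 1) (k0 : -(A.h : ℤ) - 1 ≤ k) (k1 : k ≤ 1)
    (r0 : -(A.p : ℤ) < r) (r1 : r ≤ A.p - A.w - A.h) (r2 : g - A.p < r) (r3 : r ≤ g - A.h + A.p)
    (r4 : k - A.p < r) (r5 : r ≤ k - A.w + A.p)
    {l ρ τ β : ℤ} (hl : (if A.InL mc fc then 1 else 0) = l)
    (hρ : (if A.InL (mc - A.w) fc then 1 else 0) = ρ) (hτ : (if A.InL mb fb then 1 else 0) = τ)
    (hβ : (if A.InL (mb + A.h) fb then 1 else 0) = β) : sRule A.w A.h g k l ρ τ β r := by
  intro Y Y0 Y1 h1 h2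
  have hw : (2 : ℤ) ≤ A.w := by exact_mod_cast A.hw
  have hwh : (A.w : ℤ) ≤ A.h := by exact_mod_cast A.hwh
  have P1 : 2 * ((A.w : ℤ) + A.h) < A.p := by exact_mod_cast hPP
  have key : ∀ x lo len : ℤ, lo + len - A.p < x → x ≤ lo + A.p → len ≤ A.p →
      (InA A.p x lo len ↔ (lo < x ∧ x ≤ lo + len)) := fun x lo len a b c => InA_iff' a b c
  have sg : g - (A.h : ℤ) + A.h = g := by ring
  have sk : k - (A.w : ℤ) + A.w = k := by ring
  have a1 : InA A.p Y (g - A.h) A.h ↔ (g - A.h < Y ∧ Y ≤ g) := by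
    have := key Y (g - A.h) A.h (by omega) (by omega) (by omega); rwa [sg] at this
  have a2 : InA A.p r (g - A.h) A.h ↔ (g - A.h < r ∧ r ≤ g) := by
    have := key r (g - A.h) A.h (by omega) (by omega) (by omega); rwa [sg] at this
  have a3 : InA A.p Y (k - A.w) A.w ↔ (k - A.w < Y ∧ Y ≤ k) := by
    have := key Y (k - A.w) A.w (by omega) (by omega) (by omega); rwa [sk] at this
  have a4 : InA A.p r (k - A.w) A.w ↔ (k - A.w < r ∧ r ≤ k) := by
    have := key r (k - A.w) A.w (by omega) (by omega) (by omega); rwa [sk] at this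
  have h := E0 F hj hi hij hr Y (by rw [a1, a2]; exact h1) (by rw [a3, a4]; exact h2)
  clear h1 h2 a1 a2 a3 a4
  have c1 : ∀ x : ℤ, -(A.p : ℤ) < x → x ≤ A.p - A.w - A.h →
      (InA A.p x (-A.h) A.h ↔ (-(A.h : ℤ) < x ∧ x ≤ 0)) := fun x hx1 hx2 => by
    have := key x (-A.h) A.h (by omega) (by omega) (by omega)
    rwa [show -(A.h : ℤ) + A.h = 0 by ring] at this
  have c2 : ∀ x : ℤ, -(A.p : ℤ) < x → x ≤ A.p - A.w - A.h →
      (InA A.p x (-A.w - A.h) A.h ↔ (-(A.w : ℤ) - A.h < x ∧ x ≤ -A.w)) := fun x hx1 hx2 => by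
    have := key x (-A.w - A.h) A.h (by omega) (by omega) (by omega)
    rwa [show -(A.w : ℤ) - A.h + A.h = -A.w by ring] at this
  have c3 : ∀ x : ℤ, -(A.p : ℤ) < x → x ≤ A.p - A.w - A.h →
      (InA A.p x (-A.w) A.w ↔ (-(A.w : ℤ) < x ∧ x ≤ 0)) := fun x hx1 hx2 => by
    have := key x (-A.w) A.w (by omega) (by omega) (by omega)
    rwa [show -(A.w : ℤ) + A.w = 0 by ring] at this
  have c4 : ∀ x : ℤ, -(A.p : ℤ) < x → x ≤ A.p - A.w - A.h →
      (InA A.p x (-A.w - A.h) A.w ↔ (-(A.w : ℤ) - A.h < x ∧ x ≤ -A.h)) := fun x hx1 hx2 => by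
    have := key x (-A.w - A.h) A.w (by omega) (by omega) (by omega)
    rwa [show -(A.w : ℤ) - A.h + A.w = -A.h by ring] at this
  have ia : ∀ (P Q : Prop) [Decidable P] [Decidable Q],
      (if P ∧ Q then (1 : ℤ) else 0) = if Q then (if P then 1 else 0) else 0 := by
    intro P Q _ _
    by_cases hP : P <;> by_cases hQ : Q <;> simp [hP, hQ]
  have Y2 : -(A.p : ℤ) < Y := by omega
  have Y3 : Y ≤ A.p - A.w - A.h := by omega
  unfold Phi at h
  rw [ia (A.InL mc fc), ia (A.InL mc fc), ia (A.InL (mc - A.w) fc), ia (A.InL (mc - A.w) fc),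
    ia (A.InL mb fb), ia (A.InL mb fb), ia (A.InL (mb + A.h) fb), ia (A.InL (mb + A.h) fb),
    hl, hρ, hτ, hβ] at h
  simp only [c1 Y Y2 Y3, c2 Y Y2 Y3, c3 Y Y2 Y3, c4 Y Y2 Y3, c1 r r0 r1, c2 r r0 r1, c3 r r0 r1,
    c4 r r0 r1] at h
  exact h

theorem sse_one {x fx : ℤ} (f0 : 0 < fx) (f1 : fx < A.q) (b : x < A.p) (c : 0 ≤ x)
    (e : x < A.md ∨ (x = A.md ∧ fx < A.fd)) : (if A.InL x fx then (1 : ℤ) else 0) = 1 := by
  have := A.p_pos'
  rw [if_pos]
  rw [InL_iff f0 f1 (by omega) b]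
  exact Or.inl ⟨c, e⟩

theorem sse_neg {x fx : ℤ} (f0 : 0 < fx) (f1 : fx < A.q) (a : A.md < x + A.p)
    (c : x < 0) : (if A.InL x fx then (1 : ℤ) else 0) = 0 := by
  have := A.p_pos'
  have hmd := A.hmd
  rw [if_neg]
  rw [InL_iff f0 f1 (by omega) (by omega)]
  rintro (h | h)
  · omega
  · have h1 := h.2
    rcases h1 with h1 | h1
    · omega
    · omega

/-- values: `0` or `1`, with the meaning -/
theorem sse_val {x fx : ℤ} (f0 : 0 < fx) (f1 : fx < A.q) (a : A.md < x + A.p) (b : x < A.p) :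
    ∃ v : ℤ, (if A.InL x fx then (1 : ℤ) else 0) = v ∧
      ((v = 1 ∧ 0 ≤ x ∧ (x < A.md ∨ (x = A.md ∧ fx < A.fd))) ∨
        (v = 0 ∧ (x < 0 ∨ A.md < x ∨ (x = A.md ∧ A.fd ≤ fx)))) := by
  have := A.p_pos'
  have hmd := A.hmd
  refine ⟨_, rfl, ?_⟩
  by_cases c : x < 0
  · right
    exact ⟨sse_neg f0 f1 a c, Or.inl c⟩
  · by_cases e : x < A.md ∨ (x = A.md ∧ fx < A.fd)
    · left
      exact ⟨sse_one f0 f1 b (by omega) e, by omega, e⟩
    · right
      refine ⟨?_, ?_⟩
      · rw [if_neg]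
        rw [InL_iff f0 f1 (by omega) (by omega)]
        rintro (h | h)
        · exact e h.2
        · exact c h.1
      · right
        rw [not_or, not_and_or] at e
        obtain ⟨e1, e2⟩ := e
        rcases e2 with e2 | e2
        · left; omega
        · by_cases e3 : x = A.md
          · right; exact ⟨e3, by omega⟩
          · left; omega

/-- class `p - n` -/
theorem sse_comp {n mu fu : ℤ} (hn : A.Cls n mu fu (-1)) :
    ∃ m' f', A.Cls (A.p - n) m' f' 1 ∧
      ((fu < A.fd ∧ m' = A.md - mu ∧ f' = A.fd - fu) ∨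
        (A.fd < fu ∧ m' = A.md - mu - 1 ∧ f' = A.fd - fu + A.q)) := by
  rcases hn.neg with ⟨h1, h2⟩ | ⟨h1, h2⟩
  · exact ⟨_, _, by simpa using h2, Or.inl ⟨h1, rfl, rfl⟩⟩
  · exact ⟨_, _, by simpa using h2, Or.inr ⟨h1, rfl, rfl⟩⟩

theorem sse_KQ (F : A.Fl) {n mu fu : ℤ} (hn : A.Cls n mu fu (-1))
    (a : A.md < mu ∨ (A.md = mu ∧ A.fd < fu))
    (b : mu < A.md + 1 ∨ (mu = A.md + 1 ∧ fu < A.fd)) : False := by
  have hw : (2 : ℤ) ≤ A.w := by exact_mod_cast A.hw
  have hwh : (A.w : ℤ) ≤ A.h := by exact_mod_cast A.hwh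
  obtain ⟨m', f', hc, hv⟩ := sse_comp hn
  have hm' : m' = -1 := by
    rcases hv with hv | hv <;> rcases a with a | a <;> rcases b with b | b <;> omega
  subst hm'
  exact near_iii F (s := 1) ⟨hc, by omega, by omega, by omega, by omega⟩ (by omega) (by omega)

theorem sse_ne {i m f n mu fu : ℤ} (hC : A.Cls i m f (-A.h)) {s : ℤ} (hn : A.Cls n mu fu s)
    (h0 : -(A.h : ℤ) < s) (h1 : s ≤ 1) : i ≠ n := by
  have hw : (2 : ℤ) ≤ A.w := by exact_mod_cast A.hw
  have hwh : (A.w : ℤ) ≤ A.h := by exact_mod_cast A.hwh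
  have P1 := A.R1z
  rintro rfl
  have h2 := (hn.uniq hC).2.2
  have := Int.le_of_dvd (by omega) h2
  omega

theorem sse_KR (F : A.Fl) {i m f : ℤ} (h : A.OvL i m f (-A.h)) (hm : 0 ≤ m)
    (hd : m < A.md ∨ (m = A.md ∧ f < A.fd)) {n mu fu : ℤ} (hn : A.Cls n mu fu (-1))
    (u0 : 1 ≤ mu) (a : mu < A.md ∨ (mu = A.md ∧ fu < A.fd))
    (b : A.md < mu - 1 + A.w ∨ (A.md = mu - 1 + A.w ∧ A.fd < fu)) : False := by
  have hw : (2 : ℤ) ≤ A.w := by exact_mod_cast A.hw
  have hwh : (A.w : ℤ) ≤ A.h := by exact_mod_cast A.hwh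
  obtain ⟨m', f', hc, hv⟩ := sse_comp hn
  have hne := sse_ne h.1 hc (by omega) (by omega)

  have h1 : 0 ≤ m' := by
    rcases hv with hv | hv <;> rcases a with a | a <;> omega
  have h2 : m' ≤ A.w - 2 := by
    rcases hv with hv | hv <;> rcases b with b | b <;> omega
  have h3 : m' < A.md := by
    rcases hv with hv | hv <;> omega
  exact hne (right_unique F h hm hd ⟨hc, by omega, by omega, by omega, by omega⟩ h1 (Or.inl h3))

theorem sse_main (F : A.Fl) (hPP : 2 * (A.w + A.h) < A.p) {i m f : ℤ} (h : A.OvL i m f (-A.h)) (hm : 0 ≤ m)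
    (hd : m < A.md ∨ (m = A.md ∧ f < A.fd)) {n mu fu : ℤ} (hn : A.Cls n mu fu (-1))
    (u0 : A.h + 1 ≤ mu)
    (b : A.md + 1 < mu ∨ (A.md + 1 = mu ∧ A.fd < fu))
    (c : mu - A.w < A.md ∨ (mu - A.w = A.md ∧ fu < A.fd)) : False := by
  have hw : (2 : ℤ) ≤ A.w := by exact_mod_cast A.hw
  have hwh : (A.w : ℤ) ≤ A.h := by exact_mod_cast A.hwh
  have P1 : 2 * ((A.w : ℤ) + A.h) < A.p := by exact_mod_cast hPP
  have hmd2 := A.hmd2
  obtain ⟨m', f', hc, hv⟩ := sse_comp hn
  have hne := sse_ne h.1 hc (by omega) (by omega)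
  have hff := Cls.f_ne h.1 hc hne
  have q1 : m' ≤ -2 := by rcases hv with hv | hv <;> rcases b with b | b <;> omega
  have q2 : -(A.w : ℤ) ≤ m' := by rcases hv with hv | hv <;> rcases c with c | c <;> omega
  have q3 : m' + 1 + A.h < A.md ∨ (m' + 1 + A.h = A.md ∧ f' < A.fd) := by
    have := hn.2.2.1
    rcases hv with hv | hv
    · by_cases e : mu = A.h + 1
      · right; constructor <;> omega
      · left; omega
    · left; omega
  clear b c hv u0
  have f0 := h.1.2.2.1
  have f1 := h.1.2.2.2.1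
  have g0 := hc.2.2.1
  have g1 := hc.2.2.2.1
  have mw : m ≤ A.w - 1 := h.2.2.1
  have hO : A.OvL (A.p - n) m' f' 1 := ⟨hc, by omega, by omega, by omega, by omega⟩
  have q4 : m' + A.w < m ∨ (m' + A.w = m ∧ f' < f) := by
    by_contra hcon
    refine EZ_W F hO (by omega) (j := i) (mc := m) (fc := f) (g := -A.h)
      ⟨m, -A.h, h.1, Or.inl ⟨rfl, rfl⟩⟩ (Ne.symm hne) hm hd ?_
    rw [not_or, not_and_or] at hcon
    obtain ⟨e1, e2⟩ := hcon
    rcases e2 with e2 | e2
    · left; omega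
    · by_cases e3 : m = m' + A.w
      · right; exact ⟨e3, by omega⟩
      · left; omega
  have l1 := sse_one (A := A) f0 f1 (by omega) hm hd
  have l2 := sse_neg (A := A) (x := m - A.w) f0 f1 (by omega) (by omega)
  have t1 := sse_neg (A := A) (x := m' + 1) g0 g1 (by omega) (by omega)
  have b1 := sse_one (A := A) (x := m' + 1 + A.h) g0 g1 (by omega) (by omega) q3
  have t2 := sse_neg (A := A) (x := m' + 1 - A.h) g0 g1 (by omega) (by omega)
  have b2 : (if A.InL (m' + 1 - A.h + A.h) f' then (1 : ℤ) else 0) = 0 := by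
    rw [show m' + 1 - (A.h : ℤ) + A.h = m' + 1 by ring]; exact t1
  have VWe : A.VW i m f (-A.h) := ⟨m, -A.h, h.1, Or.inl ⟨rfl, rfl⟩⟩
  have HW1 : A.HW (A.p - n) (m' + 1) f' 1 := ⟨m', 1, hc, Or.inl ⟨rfl, rfl⟩⟩
  have HW2 : A.HW (A.p - n) (m' + 1 - A.h) f' (1 - A.h) := ⟨m', 1, hc, Or.inr ⟨rfl, rfl⟩⟩
  obtain ⟨r, hr⟩ : ∃ r, r = m' + 1 - m + (if f < f' then 1 else 0) := ⟨_, rfl⟩
  have r1 : r ≤ 1 - A.w := by
    rw [hr]
    rcases q4 with q4 | q4 <;> split_ifs <;> omega
  have r2 : -2 * (A.w : ℤ) + 2 ≤ r := by rw [hr]; split_ifs <;> omega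
  clear q3 hd q4
  by_cases hrh : r ≤ -A.h
  · exact sM1 hw hwh (by omega) hrh (sse_rule F hPP VWe HW1 (Ne.symm hne) hr (by omega) (by omega)
      (by omega) (by omega) (by omega) (by omega) (by omega) (by omega) (by omega) (by omega)
      l1 l2 t1 b1)
  · exact sM2 hw hwh (r := r) (by omega) r1 (sse_rule F hPP VWe HW2 (Ne.symm hne)
      (by rw [hr]; ring) (by omega) (by omega)
      (by omega) (by omega) (by omega) (by omega) (by omega) (by omega) (by omega) (by omega)
      l1 l2 t2 b2)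

theorem specialSE_P (F : A.Fl) (hPP : 2 * (A.w + A.h) < A.p) {i m f : ℤ} (h : A.OvL i m f (-A.h)) (hm : 0 ≤ m)
    (hd : m < A.md ∨ (m = A.md ∧ f < A.fd)) : False := by
  have hw : (2 : ℤ) ≤ A.w := by exact_mod_cast A.hw
  have hwh : (A.w : ℤ) ≤ A.h := by exact_mod_cast A.hwh
  have P1 : 2 * ((A.w : ℤ) + A.h) < A.p := by exact_mod_cast hPP
  have hmd := A.hmd
  have hmd2 := A.hmd2
  have hs : ¬ (A.p : ℤ) ∣ -1 := by
    intro h1
    have := Int.le_of_dvd (by norm_num) ((dvd_neg).1 h1)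
    omega
  obtain ⟨n, mu, fu, hn, lo, hi⟩ := Cls.row (A := A) hs (A.w - A.p / 2)
  have hne : i ≠ n := sse_ne h.1 hn (by omega) (by omega)
  have hff := Cls.f_ne h.1 hn hne
  have hfd := hn.f_ne_fd
  have f0 := h.1.2.2.1
  have f1 := h.1.2.2.2.1
  have g0 := hn.2.2.1
  have g1 := hn.2.2.2.1
  have mw : m ≤ A.w - 1 := h.2.2.1
  have VWe : A.VW i m f (-A.h) := ⟨m, -A.h, h.1, Or.inl ⟨rfl, rfl⟩⟩
  have VWn : A.VW n mu fu (-1) := ⟨mu, -1, hn, Or.inl ⟨rfl, rfl⟩⟩
  have HWe : A.HW i (m - A.h) f (-A.h) := ⟨m, -A.h, h.1, Or.inl ⟨by ring, rfl⟩⟩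
  have HWb : A.HW n (mu - 1 - A.h) fu (-1 - A.h) := ⟨mu, -1, hn, Or.inr ⟨by ring, rfl⟩⟩
  have HWt : A.HW n (mu - 1) fu (-1) := ⟨mu, -1, hn, Or.inl ⟨by ring, rfl⟩⟩
  have e1 := sse_one (A := A) f0 f1 (by omega) hm hd
  have e2 := sse_neg (A := A) (x := m - A.w) f0 f1 (by omega) (by omega)
  have e3 := sse_neg (A := A) (x := m - A.h) f0 f1 (by omega) (by omega)
  have e4 : (if A.InL (m - A.h + A.h) f then (1 : ℤ) else 0) = 1 := by
    rw [show m - (A.h : ℤ) + A.h = m by ring]; exact e1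
  obtain ⟨l, hl, lv⟩ := sse_val (A := A) (x := mu) g0 g1 (by omega) (by omega)
  obtain ⟨ρ, hρ, ρv⟩ := sse_val (A := A) (x := mu - A.w) g0 g1 (by omega) (by omega)
  have l0 : 0 ≤ l := by rcases lv with lv | lv <;> omega
  have l1 : l ≤ 1 := by rcases lv with lv | lv <;> omega
  have ρ0 : 0 ≤ ρ := by rcases ρv with ρv | ρv <;> omega
  have ρ1 : ρ ≤ 1 := by rcases ρv with ρv | ρv <;> omega
  -- a second right type
  have K1 : 0 ≤ mu → mu ≤ m → (mu < A.md ∨ (mu = A.md ∧ fu < A.fd)) → False :=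
    fun h1 h2 h3 => hne (right_unique F h hm hd
      ⟨hn, by omega, by omega, by omega, by omega⟩ h1 h3)
  obtain ⟨t, ht⟩ : ∃ t, t = m - mu + (if fu < f then 1 else 0) := ⟨_, rfl⟩
  have tlo : -(A.p : ℤ) + A.h < t := by rw [ht]; split_ifs <;> omega
  have thi : 2 * t ≤ A.p := by rw [ht]; split_ifs <;> omega
  have X1 : sRule A.w A.h (-1) (-A.h) l ρ 0 1 (t - A.h) :=
    sse_rule F hPP VWn HWe hne (by rw [ht]; ring) (by omega) (by omega) (by omega) (by omega)
      (by omega) (by omega) (by omega) (by omega) (by omega) (by omega) hl hρ e3 e4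
  have hr2 : -t - A.h = mu - 1 - A.h - m + (if f < fu then 1 else 0) := by
    rw [ht]
    rcases lt_or_gt_of_ne hff with hlt | hlt
    · rw [if_neg (by omega), if_pos hlt]; ring
    · rw [if_pos hlt, if_neg (by omega)]; ring
  have X2 : ∀ τ β : ℤ, A.w < t + A.p → (if A.InL (mu - 1 - A.h) fu then (1 : ℤ) else 0) = τ →
      (if A.InL (mu - 1) fu then (1 : ℤ) else 0) = β →
      sRule A.w A.h (-A.h) (-1 - A.h) 1 0 τ β (-t - A.h) := by
    intro τ β hwt hτ hβ
    exact sse_rule F hPP VWe HWb (Ne.symm hne) hr2 (by omega) (by omega) (by omega) (by omega)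
      (by omega) (by omega) (by omega) (by omega) (by omega) (by omega) e1 e2 hτ
      (by rw [show mu - 1 - (A.h : ℤ) + A.h = mu - 1 by ring]; exact hβ)
  have hd' : ∀ x fx : ℤ, 0 < fx → ¬ (x < A.md ∨ (x = A.md ∧ fx < A.fd)) → fx ≠ A.fd →
      A.md < x ∨ (A.md = x ∧ A.fd < fx) := by
    intro x fx _ h1 h2
    rw [not_or, not_and_or] at h1
    obtain ⟨h3, h4⟩ := h1
    rcases h4 with h4 | h4
    · left; omega
    · by_cases h5 : A.md = x
      · right; exact ⟨h5, by omega⟩
      · left; omega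
  rcases lt_trichotomy t 0 with h0 | h0 | h0
  · have hmu1 : m ≤ mu := by
      by_cases c : fu < f
      · rw [if_pos c] at ht; omega
      · rw [if_neg c] at ht; omega
    have hmu2 : m + 1 ≤ mu := by
      by_cases c : fu < f
      · rw [if_pos c] at ht; omega
      · rw [if_neg c] at ht; omega
    obtain ⟨τ, hτ, τv⟩ := sse_val (A := A) (x := mu - 1 - A.h) g0 g1 (by omega) (by omega)
    obtain ⟨β, hβ, βv⟩ := sse_val (A := A) (x := mu - 1) g0 g1 (by omega) (by omega)
    have τ0 : 0 ≤ τ := by clear lv ρv βv hd; rcases τv with τv | τv <;> omega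
    have τ1 : τ ≤ 1 := by clear lv ρv βv hd; rcases τv with τv | τv <;> omega
    have β0 : 0 ≤ β := by clear lv ρv τv hd; rcases βv with βv | βv <;> omega
    have β1 : β ≤ 1 := by clear lv ρv τv hd; rcases βv with βv | βv <;> omega
    have hwt : A.w < t + A.p := by clear lv ρv τv βv hd; omega
    have X2' := X2 τ β hwt hτ hβ
    clear hwt
    by_cases tb : t ≤ -A.w
    · -- case E
      have hρ1 := sX1_E hw hwh l0 l1 ρ0 ρ1 tb X1
      have ρw : 0 ≤ mu - A.w ∧ (mu - A.w < A.md ∨ (mu - A.w = A.md ∧ fu < A.fd)) := by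
        rcases ρv with h1 | h1
        · exact h1.2
        · have := h1.1; omega
      obtain ⟨ρw0, ρw1⟩ := ρw
      clear ρv
      by_cases hwh' : (A.w : ℤ) < A.h
      · obtain ⟨hβ1, hτ1⟩ := sX2_E1 hw hwh' τ0 τ1 β0 β1 tb X2'
        have u0 : A.h + 1 ≤ mu := by
          by_cases c : -(A.h : ℤ) ≤ t
          · have c1 := hτ1 c
            rcases τv with h1 | h1
            · have := h1.2.1; omega
            · have := h1.1; omega
          · clear lv τv βv hd
            by_cases c : fu < f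
            · rw [if_pos c] at ht; omega
            · rw [if_neg c] at ht; omega
        have b : A.md + 1 < mu ∨ (A.md + 1 = mu ∧ A.fd < fu) := by
          rcases βv with h1 | h1
          · have := h1.1; omega
          · rcases h1.2 with h2 | h2 | h2
            · omega
            · left; omega
            · right; constructor <;> omega
        exact sse_main F hPP h hm hd hn u0 b ρw1
      · have hwh2 : (A.w : ℤ) = A.h := by omega
        have X3 : sRule A.h A.h (-A.h) (-1 - A.h) 1 0 τ β (-t - A.h) := by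
          rw [hwh2] at X2'; exact X2'
        obtain ⟨c1, c2⟩ := sX2_E2 (by omega) τ0 τ1 β0 β1 (by omega) X3
        by_cases cm : A.w + 1 ≤ mu
        · have hβ1 : β = 0 := by
            by_cases c3 : t < -A.h
            · exact c1 c3
            · have c4 := c2 (by omega)
              have : τ = 1 := by
                rcases τv with h1 | h1
                · exact h1.1
                · exfalso
                  rcases h1.2 with h2 | h2 | h2
                  · omega
                  · rcases ρw1 with h3 | h3 <;> omega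
                  · rcases ρw1 with h3 | h3 <;> omega
              omega
          have b : A.md + 1 < mu ∨ (A.md + 1 = mu ∧ A.fd < fu) := by
            rcases βv with h1 | h1
            · have := h1.1; omega
            · rcases h1.2 with h2 | h2 | h2
              · omega
              · left; omega
              · right; constructor <;> omega
          exact sse_main F hPP h hm hd hn (by omega) b ρw1
        · have hmuw : mu = A.w := by omega
          have hfu : ¬ fu < f := by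
            intro c
            rw [if_pos c] at ht
            omega
          have htw : t = -A.w := by rw [if_neg hfu] at ht; omega
          have hm0 : m = 0 := by rw [if_neg hfu] at ht; omega
          have hτ0 : τ = 0 := by
            rcases τv with h1 | h1
            · have := h1.2.1; omega
            · exact h1.1
          have hβ1 : β = 1 := by have := c2 (by omega); omega
          have βw : mu - 1 < A.md ∨ (mu - 1 = A.md ∧ fu < A.fd) := by
            rcases βv with h1 | h1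
            · exact h1.2.2
            · have := h1.1; omega
          by_cases cd : mu < A.md ∨ (mu = A.md ∧ fu < A.fd)
          · obtain ⟨β', hβ', βv'⟩ := sse_val (A := A) (x := mu - 1 + A.h) g0 g1 (by omega)
              (by omega)
            have X4 : sRule A.w A.h (-A.h) (-1) 1 0 β β' A.w :=
              sse_rule F hPP VWe HWt (Ne.symm hne)
                (by rw [if_pos (by omega)]; omega) (by omega) (by omega) (by omega) (by omega)
                (by omega) (by omega) (by omega) (by omega) (by omega) (by omega) e1 e2 hβ hβ'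
            have X5 : sRule A.h A.h (-A.h) (-1) 1 0 β β' A.h := by
              rw [hwh2] at X4; exact X4
            rw [hβ1] at X5
            have c5 := sQ2 (by omega) X5
            refine sse_KR F h hm hd hn (by omega) cd ?_
            rcases βv' with h1 | h1
            · have := h1.1; omega
            · rcases h1.2 with h2 | h2 | h2
              · omega
              · left; omega
              · right; constructor <;> omega
          · refine sse_KQ F hn (hd' mu fu g0 cd hfd) ?_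
            rcases βw with h1 | h1
            · left; omega
            · right; constructor <;> omega
    · -- case B
      have hlρ := sX1_B1 hw hwh l0 l1 ρ0 ρ1 (by omega) (by omega) X1
      by_cases hl1 : l = 1
      · have hl2 : mu < A.md ∨ (mu = A.md ∧ fu < A.fd) := by
          rcases lv with h1 | h1
          · exact h1.2.2
          · have := h1.1; omega
        have hl3 : mu < A.w := by
          rcases ρv with h1 | h1
          · have := h1.1; omega
          · rcases h1.2 with h2 | h2 | h2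
            · omega
            · rcases hl2 with h3 | h3 <;> omega
            · rcases hl2 with h3 | h3 <;> omega
        exact EZ_E F h hm VWn hne hl3 hl2 (Or.inl (by omega))
      · have hρ1 : ρ = 1 := by omega
        have hwh2 : (A.w : ℤ) = A.h := by
          by_contra c
          exact hl1 (sX1_B2 hw (by omega) l0 l1 ρ0 ρ1 (by omega) (by omega) X1).1
        have X3 : sRule A.h A.h (-A.h) (-1 - A.h) 1 0 τ β (-t - A.h) := by
          rw [hwh2] at X2'; exact X2'
        have c1 := sX2_B (by omega) τ0 τ1 β0 β1 (by omega) (by omega) X3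
        by_cases hτ1 : τ = 1
        · have hβ1 : β = 0 := by omega
          have b : A.md + 1 < mu ∨ (A.md + 1 = mu ∧ A.fd < fu) := by
            rcases βv with h1 | h1
            · have := h1.1; omega
            · rcases h1.2 with h2 | h2 | h2
              · omega
              · left; omega
              · right; constructor <;> omega
          have ρw1 : mu - A.w < A.md ∨ (mu - A.w = A.md ∧ fu < A.fd) := by
            rcases ρv with h1 | h1
            · exact h1.2.2
            · have := h1.1; omega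
          have u0 : A.h + 1 ≤ mu := by
            rcases τv with h1 | h1
            · have := h1.2.1; omega
            · have := h1.1; omega
          exact sse_main F hPP h hm hd hn u0 b ρw1
        · have hβ1 : β = 1 := by omega
          have cd : ¬ (mu < A.md ∨ (mu = A.md ∧ fu < A.fd)) := by
            rcases lv with h1 | h1
            · have := h1.1; omega
            · intro h2
              rcases h1.2 with h3 | h3 | h3
              · omega
              · rcases h2 with h2 | h2 <;> omega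
              · rcases h2 with h2 | h2 <;> omega
          refine sse_KQ F hn (hd' mu fu g0 cd hfd) ?_
          rcases βv with h1 | h1
          · rcases h1.2.2 with h2 | h2
            · left; omega
            · right; constructor <;> omega
          · have := h1.1; omega
  · -- case A
    rw [h0] at X1
    obtain ⟨hl0, hρ1⟩ := sX1_A hw hwh l0 l1 ρ0 ρ1 X1
    have hmu1 : 0 ≤ mu - A.w := by
      rcases ρv with h1 | h1
      · exact h1.2.1
      · have := h1.1; omega
    have hmu2 : mu = m + 1 ∧ fu < f := by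
      by_cases c : fu < f
      · rw [if_pos c] at ht; constructor <;> omega
      · rw [if_neg c] at ht; omega
    have cd : ¬ (mu < A.md ∨ (mu = A.md ∧ fu < A.fd)) := by
      rcases lv with h1 | h1
      · have := h1.1; omega
      · intro h2
        rcases h1.2 with h3 | h3 | h3
        · omega
        · rcases h2 with h2 | h2 <;> omega
        · rcases h2 with h2 | h2 <;> omega
    refine sse_KQ F hn (hd' mu fu g0 cd hfd) ?_
    rcases hd with h1 | h1
    · left; omega
    · right; constructor <;> omega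
  · -- cases C, D
    have hmu : mu ≤ m := by
      by_cases c : fu < f
      · rw [if_pos c] at ht; omega
      · rw [if_neg c] at ht; omega
    have hρ0 : ρ = 0 := by
      rcases ρv with h1 | h1
      · have := h1.2.1; omega
      · exact h1.1
    have hl1 := sX1_C hw hwh l0 l1 ρ0 ρ1 (by omega) X1 hρ0
    rcases lv with h1 | h1
    · exact K1 h1.2.1 hmu h1.2.2
    · have := h1.1; omega

theorem specialSE (F : A.Fl) {i m f : ℤ} (h : A.OvL i m f (-A.h)) (hm : 0 ≤ m)
    (hd : m < A.md ∨ (m = A.md ∧ f < A.fd)) : False := by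
  have P1 := A.R1
  have hwh := A.hwh
  rcases Nat.lt_or_ge A.w A.h with hlt | hge
  · have hP : 2 * A.w + A.h ≤ A.p := by omega
    have hw := A.hwz
    have hwz' : (A.w : ℤ) < A.h := by exact_mod_cast hlt
    have hp : (2 : ℤ) * A.h < A.p := A.h2z
    have hs : ¬ (A.p : ℤ) ∣ -1 := by
      intro h1
      have := Int.le_of_dvd (by norm_num) ((dvd_neg).1 h1)
      omega
    obtain ⟨n, u, fu, hn, lo, hi⟩ := Cls.row (A := A) hs 0
    have hne : i ≠ n := sse_ne h.1 hn (by omega) (by omega)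
    have ff := Cls.f_ne h.1 hn hne
    have mw : m < A.w := by have := h.2.2.1; omega
    by_cases c : u < m ∨ (u = m ∧ fu < f)
    · exact hne (right_unique F h hm hd ⟨hn, by omega, by omega, by omega, by omega⟩ lo
        (by omega))
    · exact sseA F h.1 hn hne hlt hP hm mw hd (by omega) (by omega)
  · exact specialSE_P F (by omega) h hm hd

end Ap

end Pool.Agent.H98.Flat
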