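import Pool.Agent.H98.Flat.O.Static
import Pool.Agent.H98.Flat.O.EZ

/-! Section 3: consequences of the static triangles (S1, S2, S3, S4). -/

namespace Pool.Agent.H98.Flat

namespace Ap

variable {A : Ap} [Fact A.Reg]

theorem OvL.lift_uniq {i m f s m' f' s' : ℤ} (h : A.OvL i m f s) (h' : A.OvL i m' f' s') :
    m = m' ∧ f = f' ∧ s = s' := by
  obtain ⟨hf, hm, hs⟩ := h.1.uniq h'.1
  obtain ⟨-, a1, a2, a3, a4⟩ := h
  obtain ⟨-, b1, b2, b3, b4⟩ := h'
  have hP := A.R1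
  have hwh := A.hwh
  have e1 : m - m' = 0 := by
    apply Int.eq_zero_of_abs_lt_dvd hm
    rw [abs_lt]
    constructor <;> omega
  have e2 : s - s' = 0 := by
    have h1 : (A.p : ℤ) ∣ (m + s) - (m' + s') := by
      have : (m + s) - (m' + s') = (m - m') + (s - s') := by ring
      rw [this]
      exact dvd_add hm hs
    have h2 : (m + s) - (m' + s') = 0 := by
      apply Int.eq_zero_of_abs_lt_dvd h1
      rw [abs_lt]
      constructor <;> omega
    omega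
  exact ⟨by omega, hf, by omega⟩

/-- S1: SW types are near -/
theorem S1 (F : A.Fl) {i m f s : ℤ} (h : A.OvL i m f s) (hm : m < 0) (hv : m + s < 0) :
    -(A.h : ℤ) < s - A.w := by
  by_contra hcon
  have h0 := h
  obtain ⟨hc, a1, a2, a3, a4⟩ := h0
  have hf0 := hc.2.2.1
  have hf1 := hc.2.2.2.1
  have hlt := left_lt F h hm
  refine static_S1 F (mu := m + A.w) (fu := f) (i := i) (x := m + A.w) (y := m + s) (f := f)
    (by omega) (by omega) hf0 hf1 ⟨m, s, h, Or.inr (Or.inr (Or.inr ⟨hm, hv, rfl, rfl, rfl⟩))⟩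
    (Or.inr ⟨rfl, le_refl _⟩) (by omega) ?_
  rintro i' x' y' f' ⟨m', s', h', hcase⟩ hx hrow
  have hne : i ≠ i' := by
    rintro rfl
    have := h.lift_uniq h'
    omega
  have hfne := hc.f_ne h'.1 hne
  rcases hcase with ⟨_, _, _, _, e⟩ | ⟨b1, b2, b3, b4, -⟩ | ⟨b1, b2, b3, b4, -⟩ | ⟨_, _, _, _, e⟩
  · omega
  · exact EZ_W F h hm (j := i') (mc := m') (fc := f') (g := s') ⟨m', s', h'.1, Or.inl ⟨rfl, rfl⟩⟩
      hne b1 (by omega) (by omega)
  · exact hne (left_unique F h hm h' b1)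
  · omega

/-- S2: NE types are near -/
theorem S2 (F : A.Fl) {i m f s : ℤ} (h : A.OvL i m f s) (hm : 0 ≤ m) (hv : 0 ≤ m + s) :
    s < A.h - A.w := by
  by_contra hcon
  have h0 := h
  obtain ⟨hc, a1, a2, a3, a4⟩ := h0
  have hf0 := hc.2.2.1
  have hf1 := hc.2.2.2.1
  have hwh := A.hwh
  refine static_S2 F (mu := m) (fu := f) (i := i) (x := m) (y := m + s - A.h) (f := f)
    hm (by omega) hf0 hf1 ⟨m, s, h, Or.inl ⟨hm, hv, rfl, rfl, rfl⟩⟩
    (Or.inr ⟨rfl, le_refl _⟩) (by omega) ?_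
  rintro i' x' y' f' ⟨m', s', h', hcase⟩ hx hrow
  have hne : i ≠ i' := by
    rintro rfl
    have := h.lift_uniq h'
    omega
  have hfne := hc.f_ne h'.1 hne
  have hfd := h'.1.f_ne_fd
  have b0 := h'.2.2.1
  rcases hcase with ⟨_, _, _, _, e⟩ | ⟨b1, b2, b3, b4, -⟩ | ⟨b1, b2, b3, b4, -⟩ | ⟨_, _, _, _, e⟩
  · omega
  · have hd : m' < A.md ∨ (m' = A.md ∧ f' < A.fd) := by
      by_contra hd
      have := right_far F h' b1 (by omega)
      omega
    exact EZ_E F h hm (j := i') (mc := m') (fc := f') (g := s') ⟨m', s', h'.1, Or.inl ⟨rfl, rfl⟩⟩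
      hne (by omega) hd (by omega)
  · exact EZ_E F h hm (j := i') (mc := m' + A.w) (fc := f') (g := s' - A.w)
      ⟨m', s', h'.1, Or.inr ⟨rfl, rfl⟩⟩ hne (by omega) (left_lt F h' b1) (by omega)
  · omega

/-- S3: NW types are near or have row `h` -/
theorem S3 (F : A.Fl) {i m f s : ℤ} (h : A.OvL i m f s) (hm : m < 0) (hv : 0 ≤ m + s) :
    s ≤ A.h := by
  by_contra hcon
  have h0 := h
  obtain ⟨hc, a1, a2, a3, a4⟩ := h0
  refine static_S3 F (Y := s - A.w - A.h) (i := i) (x := m + A.w) (y := m + s - A.h) (f := f)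
    (by omega) (by omega)
    ⟨m, s, h, Or.inr (Or.inr (Or.inl ⟨hm, hv, rfl, rfl, rfl⟩))⟩ (by omega) ?_
  rintro i' x' y' f' ⟨m', s', h', hcase⟩ hrow
  rcases hcase with ⟨b1, b2, b3, b4, -⟩ | ⟨_, _, _, _, e⟩ | ⟨_, _, _, _, e⟩ | ⟨b1, b2, b3, b4, -⟩
  · have := S2 F h' b1 b2
    omega
  · omega
  · omega
  · have e := left_unique F h hm h' b1
    subst e
    have := h.lift_uniq h'
    omega

/-- S4: if there is no NE type then SE types have row `≥ -h` -/
theorem S4 (F : A.Fl) (hNE : ∀ i m f s, A.OvL i m f s → 0 ≤ m → 0 ≤ m + s → False)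
    {i m f s : ℤ} (h : A.OvL i m f s) (hm : 0 ≤ m) : -(A.h : ℤ) ≤ s := by
  by_contra hcon
  have h0 := h
  obtain ⟨hc, a1, a2, a3, a4⟩ := h0
  have hv : m + s < 0 := by
    by_contra hv
    exact hNE i m f s h hm (by omega)
  refine static_S4 F (Y := s) (i := i) (x := m) (y := m + s) (f := f)
    (by omega) (by omega) ⟨m, s, h, Or.inr (Or.inl ⟨hm, hv, rfl, rfl, rfl⟩)⟩ (by omega) ?_
  rintro i' x' y' f' ⟨m', s', h', hcase⟩ hrow
  rcases hcase with ⟨b1, b2, b3, b4, -⟩ | ⟨_, _, _, _, e⟩ | ⟨_, _, _, _, e⟩ | ⟨b1, b2, b3, b4, -⟩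
  · exact hNE i' m' f' s' h' b1 b2
  · omega
  · omega
  · have := S1 F h' b1 b2
    omega

end Ap

end Pool.Agent.H98.Flat
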