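import Pool.Agent.H98.Flat.O.Basic

/-! Section 3: static triangles. -/

namespace Pool.Agent.H98.Flat

open Finset

/-- sum of the three distances of a corner to the sides of a triangle -/
def TT (N q p Uc Vc row u0 v0 Y : ℤ) : ℤ :=
  (Uc - u0) % N + q * ((row - Y) % p) + (v0 - Vc) % N

theorem TT_eq {N q p Uc Vc row u0 v0 Y : ℤ} (hN : 0 < N) (hpq : p * q = N) (hq : 0 < q)
    (hp : 0 < p) (hV : N ∣ Vc - (Uc + q * row)) :
    ∃ t, TT N q p Uc Vc row u0 v0 Y = (v0 - u0 - q * Y) % N + N * t ∧ 0 ≤ t ∧ t ≤ 2 := by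
  have x0 := Int.emod_nonneg (Uc - u0) hN.ne'
  have xl := Int.emod_lt_of_pos (Uc - u0) hN
  have w0 := Int.emod_nonneg (v0 - Vc) hN.ne'
  have wl := Int.emod_lt_of_pos (v0 - Vc) hN
  have m0 := Int.emod_nonneg (v0 - u0 - q * Y) hN.ne'
  have ml := Int.emod_lt_of_pos (v0 - u0 - q * Y) hN
  have r0 := Int.emod_nonneg (row - Y) hp.ne'
  have rl := Int.emod_lt_of_pos (row - Y) hp
  have ex := Int.emod_add_mul_ediv (Uc - u0) N
  have ew := Int.emod_add_mul_ediv (v0 - Vc) N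
  have em := Int.emod_add_mul_ediv (v0 - u0 - q * Y) N
  have er := Int.emod_add_mul_ediv (row - Y) p
  obtain ⟨t, ht⟩ := hV
  set X := (Uc - u0) % N
  set Wc := (v0 - Vc) % N
  set m := (v0 - u0 - q * Y) % N
  set r := (row - Y) % p
  have key : N ∣ X + q * r + Wc - m := by
    refine ⟨(v0 - u0 - q * Y) / N - (Uc - u0) / N - (v0 - Vc) / N - (row - Y) / p - t, ?_⟩
    have er' : r = row - Y - p * ((row - Y) / p) := by omega
    rw [er', ← hpq] at *
    have hh : Vc = Uc + q * row + p * q * t := by omega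
    have ex' : X = Uc - u0 - p * q * ((Uc - u0) / (p * q)) := by omega
    have ew' : Wc = v0 - Vc - p * q * ((v0 - Vc) / (p * q)) := by omega
    have em' : m = v0 - u0 - q * Y - p * q * ((v0 - u0 - q * Y) / (p * q)) := by omega
    rw [ex', ew', em']
    linear_combination (-1 : ℤ) * hh
  have qr : 0 ≤ q * r := mul_nonneg hq.le r0
  have qr1 : q * r ≤ N - q := by rw [← hpq]; nlinarith
  obtain ⟨z, hz⟩ := key
  refine ⟨z, ?_, ?_, ?_⟩
  · show X + q * r + Wc = m + N * z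
    omega
  · by_contra c
    have : N * z ≤ N * (-1) := mul_le_mul_of_nonneg_left (by omega) hN.le
    omega
  · by_contra c
    have : N * 3 ≤ N * z := mul_le_mul_of_nonneg_left (by omega) hN.le
    omega

/-- a position with given residues -/
def At (N Uc Vc X Z : ℤ) : Prop := N ∣ Uc - X ∧ N ∣ Vc - Z

open Classical in
/-- indicator that a corner has a position in `T` -/
noncomputable def Ind (N : ℤ) (T : ℤ → ℤ → Prop) (Uc Vc : ℤ) : ℤ :=
  if ∃ X Z, At N Uc Vc X Z ∧ T X Z then 1 else 0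

theorem Ind_nonneg (N : ℤ) (T : ℤ → ℤ → Prop) (Uc Vc : ℤ) : 0 ≤ Ind N T Uc Vc := by
  unfold Ind; split_ifs <;> simp

theorem Ind_one {N : ℤ} {T : ℤ → ℤ → Prop} {Uc Vc X Z : ℤ} (h : At N Uc Vc X Z) (hT : T X Z) :
    Ind N T Uc Vc = 1 := by
  unfold Ind; exact if_pos ⟨X, Z, h, hT⟩

theorem Ind_zero {N : ℤ} {T : ℤ → ℤ → Prop} {Uc Vc : ℤ}
    (h : ∀ X Z, At N Uc Vc X Z → ¬ T X Z) : Ind N T Uc Vc = 0 := by
  unfold Ind; exact if_neg (by rintro ⟨X, Z, h1, h2⟩; exact h X Z h1 h2)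

/-- the closed triangle `U ≥ u0, V ≤ v0, row ≥ Y` -/
def Del (q u0 v0 Y X Z : ℤ) : Prop := u0 ≤ X ∧ Z ≤ v0 ∧ q * Y ≤ Z - X

/-- the closed triangle `U ≤ u0, V ≥ v0, row ≤ Y` -/
def Nab (q u0 v0 Y X Z : ℤ) : Prop := X ≤ u0 ∧ v0 ≤ Z ∧ Z - X ≤ q * Y

theorem emod_eq_of_dvd_sub {N a b : ℤ} (h : N ∣ a - b) (h0 : 0 ≤ b) (h1 : b < N) : a % N = b := by
  rw [emod_congr h, Int.emod_eq_of_lt h0 h1]

theorem Ind_Del {N q p Uc Vc row u0 v0 Y : ℤ} (hN : 0 < N) (hpq : p * q = N) (hq : 0 < q)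
    (hp : 0 < p) (hV : N ∣ Vc - (Uc + q * row)) (s0 : 0 ≤ v0 - u0 - q * Y)
    (s1 : v0 - u0 - q * Y < N) :
    (if TT N q p Uc Vc row u0 v0 Y < N then (1 : ℤ) else 0) = Ind N (Del q u0 v0 Y) Uc Vc := by
  have hs : (v0 - u0 - q * Y) % N = v0 - u0 - q * Y := Int.emod_eq_of_lt s0 s1
  obtain ⟨t, ht, t0, t2⟩ := TT_eq (u0 := u0) (v0 := v0) (Y := Y) hN hpq hq hp hV
  rw [hs] at ht
  have x0 := Int.emod_nonneg (Uc - u0) hN.ne'
  have w0 := Int.emod_nonneg (v0 - Vc) hN.ne'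
  have r0 := Int.emod_nonneg (row - Y) hp.ne'
  have qr : 0 ≤ q * ((row - Y) % p) := mul_nonneg hq.le r0
  by_cases c : TT N q p Uc Vc row u0 v0 Y < N
  · rw [if_pos c]
    have tz : t = 0 := by
      by_contra h
      have : N * 1 ≤ N * t := mul_le_mul_of_nonneg_left (by omega) hN.le
      omega
    rw [tz, mul_zero, add_zero] at ht
    unfold TT at ht
    refine (Ind_one (X := u0 + (Uc - u0) % N) (Z := v0 - (v0 - Vc) % N) ⟨?_, ?_⟩
      ⟨?_, ?_, ?_⟩).symm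
    · have := Int.emod_add_mul_ediv (Uc - u0) N
      exact ⟨(Uc - u0) / N, by omega⟩
    · have := Int.emod_add_mul_ediv (v0 - Vc) N
      exact ⟨-((v0 - Vc) / N), by rw [mul_neg]; omega⟩
    · omega
    · omega
    · omega
  · rw [if_neg c]
    refine (Ind_zero ?_).symm
    rintro X Z ⟨h1, h2⟩ ⟨a1, a2, a3⟩
    apply c
    have e1 : (Uc - u0) % N = X - u0 := emod_eq_of_dvd_sub
      (by rwa [show Uc - u0 - (X - u0) = Uc - X by ring]) (by omega) (by omega)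
    have e2 : (v0 - Vc) % N = v0 - Z := emod_eq_of_dvd_sub
      (by rw [show v0 - Vc - (v0 - Z) = -(Vc - Z) by ring]; exact (dvd_neg).2 h2)
      (by omega) (by omega)
    -- the row
    have h3 : N ∣ Z - X - q * row := by
      have := dvd_sub (dvd_sub hV h2) (dvd_neg.2 h1)
      rwa [show Vc - (Uc + q * row) - (Vc - Z) - -(Uc - X) = Z - X - q * row by ring] at this
    obtain ⟨z, hz⟩ := h3
    have h4 : Z - X = q * (row + p * z) := by
      have : N * z = q * (p * z) := by rw [← hpq]; ring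
      rw [mul_add]; omega
    have h5 : q * (row + p * z - Y) = Z - X - q * Y := by rw [h4]; ring
    have e3 : (row - Y) % p = row + p * z - Y := by
      apply emod_eq_of_dvd_sub
      · exact ⟨-z, by ring⟩
      · by_contra h
        have : q * (row + p * z - Y) ≤ q * (-1) := mul_le_mul_of_nonneg_left (by omega) hq.le
        omega
      · by_contra h
        have : q * p ≤ q * (row + p * z - Y) := mul_le_mul_of_nonneg_left (by omega) hq.le
        have : q * p = N := by rw [← hpq]; ring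
        omega
    unfold TT
    rw [e1, e2, e3, h5]
    omega

theorem Ind_Nab {N q p Uc Vc row u0 v0 Y : ℤ} (hN : 0 < N) (hpq : p * q = N) (hq : 0 < q)
    (hp : 0 < p) (hV : N ∣ Vc - (Uc + q * row)) (s0 : 0 ≤ u0 - v0 + q * Y)
    (s1 : u0 - v0 + q * Y + 2 + q ≤ N) :
    (if 2 * N ≤ TT N q p Uc Vc row (u0 + 1) (v0 - 1) (Y + 1) then (1 : ℤ) else 0)
      = Ind N (Nab q u0 v0 Y) Uc Vc := by
  have x0 := Int.emod_nonneg (Uc - (u0 + 1)) hN.ne'
  have xl := Int.emod_lt_of_pos (Uc - (u0 + 1)) hN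
  have w0 := Int.emod_nonneg (v0 - 1 - Vc) hN.ne'
  have wl := Int.emod_lt_of_pos (v0 - 1 - Vc) hN
  have r0 := Int.emod_nonneg (row - (Y + 1)) hp.ne'
  have rl := Int.emod_lt_of_pos (row - (Y + 1)) hp
  have hs : (v0 - 1 - (u0 + 1) - q * (Y + 1)) % N = v0 - 1 - (u0 + 1) - q * (Y + 1) + N := by
    apply emod_eq_of_dvd_sub
    · exact ⟨-1, by ring⟩
    · rw [mul_add, mul_one]; omega
    · rw [mul_add, mul_one]; omega
  obtain ⟨t, ht, t0, t2⟩ := TT_eq (u0 := u0 + 1) (v0 := v0 - 1) (Y := Y + 1) hN hpq hq hp hV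
  rw [hs, mul_add, mul_one] at ht
  have qr1 : q * ((row - (Y + 1)) % p) ≤ N - q := by rw [← hpq]; nlinarith
  by_cases c : 2 * N ≤ TT N q p Uc Vc row (u0 + 1) (v0 - 1) (Y + 1)
  · rw [if_pos c]
    have tz : t = 2 := by
      by_contra h
      have : N * t ≤ N * 1 := mul_le_mul_of_nonneg_left (by omega) hN.le
      omega
    rw [tz] at ht
    unfold TT at ht
    refine (Ind_one (X := u0 + 1 + (Uc - (u0 + 1)) % N - N) (Z := v0 - 1 - (v0 - 1 - Vc) % N + N)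
      ⟨?_, ?_⟩ ⟨?_, ?_, ?_⟩).symm
    · have := Int.emod_add_mul_ediv (Uc - (u0 + 1)) N
      exact ⟨(Uc - (u0 + 1)) / N + 1, by rw [mul_add]; omega⟩
    · have := Int.emod_add_mul_ediv (v0 - 1 - Vc) N
      exact ⟨-((v0 - 1 - Vc) / N) - 1, by rw [mul_sub, mul_neg]; omega⟩
    · omega
    · omega
    · omega
  · rw [if_neg c]
    refine (Ind_zero ?_).symm
    rintro X Z ⟨h1, h2⟩ ⟨a1, a2, a3⟩
    apply c
    have e1 : (Uc - (u0 + 1)) % N = X - (u0 + 1) + N := emod_eq_of_dvd_sub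
      (by obtain ⟨z, hz⟩ := h1
          exact ⟨z - 1, by rw [mul_sub]; omega⟩) (by omega) (by omega)
    have e2 : (v0 - 1 - Vc) % N = v0 - 1 - Z + N := emod_eq_of_dvd_sub
      (by obtain ⟨z, hz⟩ := h2
          exact ⟨-z - 1, by rw [mul_sub, mul_neg]; omega⟩)
      (by omega) (by omega)
    -- the row
    have h3 : N ∣ Z - X - q * row := by
      have := dvd_sub (dvd_sub hV h2) (dvd_neg.2 h1)
      rwa [show Vc - (Uc + q * row) - (Vc - Z) - -(Uc - X) = Z - X - q * row by ring] at this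
    obtain ⟨z, hz⟩ := h3
    have h4 : Z - X = q * (row + p * z) := by
      have : N * z = q * (p * z) := by rw [← hpq]; ring
      rw [mul_add]; omega
    have h5 : q * (row + p * z - (Y + 1) + p) = Z - X - q * Y - q + N := by
      rw [h4, ← hpq]; ring
    have e3 : (row - (Y + 1)) % p = row + p * z - (Y + 1) + p := by
      apply emod_eq_of_dvd_sub
      · exact ⟨-z - 1, by ring⟩
      · by_contra h
        have : q * (row + p * z - (Y + 1) + p) ≤ q * (-1) :=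
          mul_le_mul_of_nonneg_left (by omega) hq.le
        omega
      · by_contra h
        have : q * p ≤ q * (row + p * z - (Y + 1) + p) :=
          mul_le_mul_of_nonneg_left (by omega) hq.le
        have : q * p = N := by rw [← hpq]; ring
        omega
    unfold TT
    rw [e1, e2, e3, h5]
    omega

namespace Cfg

variable (C : Cfg)

/-- signed sum over the corners of class `k` -/
def four (I : ℤ → ℤ → ℤ → ℤ) (k : ℤ) : ℤ :=
  I (C.U k) (C.V k) k - I (C.U k + C.W) (C.V k) (k - C.w)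
    - I (C.U k) (C.V k - C.H) (k - C.h) + I (C.U k + C.W) (C.V k - C.H) (k - C.w - C.h)

theorem row0 (k : ℤ) : C.N ∣ C.V k - (C.U k + C.q * k) := ⟨0, by unfold V; ring⟩
theorem row1 (k : ℤ) : C.N ∣ C.V k - (C.U k + C.W + C.q * (k - C.w)) :=
  ⟨0, by unfold V W; ring⟩
theorem row2 (k : ℤ) : C.N ∣ C.V k - C.H - (C.U k + C.q * (k - C.h)) :=
  ⟨0, by unfold V H; ring⟩
theorem row3 (k : ℤ) : C.N ∣ C.V k - C.H - (C.U k + C.W + C.q * (k - C.w - C.h)) :=
  ⟨0, by unfold V W H; ring⟩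

/-- neutrality: the opposite triangle has the same charge -/
theorem neutral (u0 v0 Y : ℤ) :
    ∑ k ∈ range C.p, C.four (fun a b r => if 2 * C.N ≤ TT C.N C.q C.p a b r u0 v0 Y
      then (1 : ℤ) else 0) k = C.Fint u0 v0 Y := by
  have hN := C.N_pos
  have hq : (0 : ℤ) < C.q := by exact_mod_cast C.hq
  have hp : (0 : ℤ) < C.p := by exact_mod_cast C.p_pos
  have hpq : (C.p : ℤ) * C.q = C.N := rfl
  -- rows
  have hrow : ∑ k ∈ range C.p, C.four (fun _ _ r => (r - Y) % C.p) k = 0 := by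
    have e : ∀ a : ℤ, ∑ k ∈ range C.p, ((k : ℤ) - a - Y) % C.p
        = ∑ k ∈ range C.p, ((k : ℤ) - Y) % C.p := by
      intro a
      have := sum_shift' (C := C) (fun k => (k - Y) % (C.p : ℤ)) (fun k => by
        show (k + C.p - Y) % (C.p : ℤ) = (k - Y) % C.p
        rw [show k + (C.p : ℤ) - Y = k - Y + C.p by ring, Int.add_emod_right]) (-a)
      rw [← this]
      rfl
    unfold four
    rw [Finset.sum_add_distrib, Finset.sum_sub_distrib, Finset.sum_sub_distrib]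
    have e4 : ∑ k ∈ range C.p, ((k : ℤ) - C.w - C.h - Y) % C.p
        = ∑ k ∈ range C.p, ((k : ℤ) - Y) % C.p := by
      rw [← e (C.w + C.h)]
      refine Finset.sum_congr rfl fun k _ => ?_
      congr 1; ring
    rw [e, e, e4]; ring
  have key : ∀ a b r : ℤ, C.N ∣ b - (a + C.q * r) →
      C.N * (vis C.N C.q C.p a b r u0 v0 Y
        - (if 2 * C.N ≤ TT C.N C.q C.p a b r u0 v0 Y then (1 : ℤ) else 0))
      = (v0 - u0 - C.q * Y) % C.N + C.N - ((a - u0) % C.N + C.q * ((r - Y) % C.p)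
        + (v0 - b) % C.N) := by
    intro a b r h
    obtain ⟨t, ht, t0, t2⟩ := TT_eq (u0 := u0) (v0 := v0) (Y := Y) hN hpq hq hp h
    have ml := Int.emod_nonneg (v0 - u0 - C.q * Y) hN.ne'
    have mu := Int.emod_lt_of_pos (v0 - u0 - C.q * Y) hN
    have hv : vis C.N C.q C.p a b r u0 v0 Y
      = if TT C.N C.q C.p a b r u0 v0 Y < C.N then 1 else 0 := rfl
    rw [hv]
    change _ = _ - TT C.N C.q C.p a b r u0 v0 Y
    have : t = 0 ∨ t = 1 ∨ t = 2 := by omega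
    rcases this with h | h | h <;> subst h
    · rw [if_pos (by omega), if_neg (by omega)]; omega
    · rw [if_neg (by omega), if_neg (by omega)]; omega
    · rw [if_neg (by omega), if_pos (by omega)]; omega
  have tot : C.N * ∑ k ∈ range C.p, (C.four (fun a b r => vis C.N C.q C.p a b r u0 v0 Y) k
      - C.four (fun a b r => if 2 * C.N ≤ TT C.N C.q C.p a b r u0 v0 Y
      then (1 : ℤ) else 0) k) = - (C.q * ∑ k ∈ range C.p, C.four (fun _ _ r => (r - Y) % C.p) k) := by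
    rw [Finset.mul_sum, Finset.mul_sum, ← Finset.sum_neg_distrib]
    refine Finset.sum_congr rfl fun k _ => ?_
    have k0 := key _ _ _ (C.row0 k)
    have k1 := key _ _ _ (C.row1 k)
    have k2 := key _ _ _ (C.row2 k)
    have k3 := key _ _ _ (C.row3 k)
    unfold four
    linear_combination k0 - k1 - k2 + k3
  rw [hrow, mul_zero, neg_zero, mul_eq_zero] at tot
  rcases tot with h | h
  · omega
  · rw [Finset.sum_sub_distrib] at h
    have : C.Fint u0 v0 Y = ∑ k ∈ range C.p, C.four (fun a b r => vis C.N C.q C.p a b r u0 v0 Y) k :=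
      rfl
    rw [this]; omega

end Cfg

namespace Ap

variable {A : Ap}

/-- inner corner at `(x, f)`, `(y, f)` (real abscissa `x + f/q`, height `y + f/q`),
charge `ε = ±1` -/
def Inner (A : Ap) (i x y f ε : ℤ) : Prop := ∃ m s, A.OvL i m f s ∧
  ((0 ≤ m ∧ 0 ≤ m + s ∧ x = m ∧ y = m + s - A.h ∧ ε = -1) ∨
   (0 ≤ m ∧ m + s < 0 ∧ x = m ∧ y = m + s ∧ ε = 1) ∨
   (m < 0 ∧ 0 ≤ m + s ∧ x = m + A.w ∧ y = m + s - A.h ∧ ε = 1) ∨
   (m < 0 ∧ m + s < 0 ∧ x = m + A.w ∧ y = m + s ∧ ε = -1))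

theorem Cls.not_dvd {i m f s : ℤ} (h : A.Cls i m f s) : ¬ (A.p : ℤ) ∣ s := by
  intro hs
  obtain ⟨i0, i1, -, -, -, h6⟩ := h
  have h1 : (A.p : ℤ) ∣ A.e * i := by
    have := dvd_add h6 hs; rwa [sub_add_cancel] at this
  have h2 : (A.p : ℤ) ∣ i := by
    have a1 := dvd_mul_of_dvd_right h1 A.e'
    have a2 := dvd_mul_of_dvd_left A.inv i
    have := dvd_sub a1 a2
    rwa [show A.e' * (A.e * i) - (A.e * A.e' - 1) * i = i by ring] at this
  have := Int.le_of_dvd i0 h2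
  omega

theorem qpos (A : Ap) : (0 : ℤ) < A.q := by exact_mod_cast A.hq

/-- lexicographic bounds -/
theorem lex_lo {x f q a : ℤ} (hq : 0 < q) (f1 : f < q) (h : q * a ≤ q * x + f) : a ≤ x := by
  by_contra c
  have : q * x ≤ q * (a - 1) := mul_le_mul_of_nonneg_left (by omega) hq.le
  rw [mul_sub, mul_one] at this; omega

theorem lex_hi {x f q a : ℤ} (hq : 0 < q) (f0 : 0 < f) (h : q * x + f ≤ q * a) : x < a := by
  by_contra c
  have : q * a ≤ q * x := mul_le_mul_of_nonneg_left (by omega) hq.le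
  omega

theorem lex_le {x f a g q : ℤ} (hq : 0 < q) (f0 : 0 < f) (g1 : g < q)
    (h : q * x + f ≤ q * a + g) : x < a ∨ (x = a ∧ f ≤ g) := by
  rcases lt_trichotomy x a with c | c | c
  · exact Or.inl c
  · subst c; exact Or.inr ⟨rfl, by omega⟩
  · exfalso
    have : q * (a + 1) ≤ q * x := mul_le_mul_of_nonneg_left (by omega) hq.le
    rw [mul_add, mul_one] at this; omega

theorem lex_le' {x f a g q : ℤ} (hq : 0 < q) (f1 : f < q) (g0 : 0 < g)
    (h : x < a ∨ (x = a ∧ f ≤ g)) : q * x + f ≤ q * a + g := by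
  rcases h with h | ⟨rfl, h⟩
  · have : q * (x + 1) ≤ q * a := mul_le_mul_of_nonneg_left (by omega) hq.le
    rw [mul_add, mul_one] at this; omega
  · omega

/-- a corner of a class `k ≢ 0` lying in `R_0` is an inner corner -/
theorem inner_of {k X Z : ℤ} (hk : ¬ (A.p : ℤ) ∣ k) (α β : ℤ) (hα : α = 0 ∨ α = 1)
    (hβ : β = 0 ∨ β = 1)
    (h1 : (A.p : ℤ) * A.q ∣ (A.cfg 0).U k + A.q * A.w * α - X)
    (h2 : (A.p : ℤ) * A.q ∣ (A.cfg 0).V k - A.q * A.h * β - Z)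
    (X0 : 0 ≤ X) (X1 : X ≤ A.q * A.w) (Z0 : -(A.q * A.h : ℤ) ≤ Z) (Z1 : Z ≤ 0) :
    ∃ i x y f, A.Inner i x y f (1 - 2 * α - 2 * β + 4 * (α * β)) ∧ X = A.q * x + f ∧
      Z = A.q * y + f ∧ 0 < f ∧ f < A.q := by
  obtain ⟨i, m, f, hc, -, -⟩ := Cls.row (A := A) hk 0
  have hU := hc.U0
  have hV := hc.V0
  obtain ⟨t, ht⟩ := dvd_sub hU h1
  obtain ⟨t', ht'⟩ := dvd_sub hV h2
  have hq := A.qpos
  have eX : X = A.q * (m + A.w * α + A.p * t) + f := by linear_combination ht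
  have eZ : Z = A.q * (m + k - A.h * β + A.p * t') + f := by linear_combination ht'
  have hc' := hc.shift t (t' - t)
  obtain ⟨-, -, f0, f1, -, -⟩ := hc
  have b1 : 0 ≤ m + A.w * α + A.p * t := lex_lo hq f1 (by rw [mul_zero, ← eX]; exact X0)
  have b2 : m + A.w * α + A.p * t < A.w := lex_hi hq f0 (by rw [← eX]; exact X1)
  have b3 : -(A.h : ℤ) ≤ m + k - A.h * β + A.p * t' :=
    lex_lo hq f1 (by rw [← eZ, mul_neg]; exact Z0)
  have b4 : m + k - A.h * β + A.p * t' < 0 := lex_hi hq f0 (by rw [← eZ, mul_zero]; exact Z1)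
  have e5 : k + A.p * (t' - t) = k + A.p * t' - A.p * t := by ring
  rw [e5] at hc'
  have hw := A.hw
  have hh := A.hwh
  refine ⟨i, m + A.w * α + A.p * t, m + k - A.h * β + A.p * t', f, ?_, eX, eZ, f0, f1⟩
  rcases hα with rfl | rfl <;> rcases hβ with rfl | rfl
  all_goals
    simp only [mul_zero, mul_one, add_zero, sub_zero] at b1 b2 b3 b4 ⊢
    refine ⟨m + A.p * t, k + A.p * t' - A.p * t, ⟨hc', ?_, ?_, ?_, ?_⟩, ?_⟩
    all_goals omega

/-- corner indicator of a configuration -/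
theorem core (A : Ap) (T : ℤ → ℤ → Prop) (ε : ℤ) (hε : ε = 1 ∨ ε = -1)
    (hR : ∀ X Z, T X Z → 0 ≤ X ∧ X ≤ A.q * A.w ∧ -(A.q * A.h : ℤ) ≤ Z ∧ Z ≤ 0)
    (h0 : 1 ≤ ε * (A.cfg 0).four (fun a b _ => Ind (A.cfg 0).N T a b) 0)
    {i x y f : ℤ} (hi : A.Inner i x y f ε) (hT : T (A.q * x + f) (A.q * y + f))
    (hno : ∀ i' x' y' f', A.Inner i' x' y' f' (-ε) → 0 < f' → f' < A.q →
      T (A.q * x' + f') (A.q * y' + f') → False) :
    2 ≤ ε * ∑ k ∈ range (A.cfg 0).p, (A.cfg 0).four (fun a b _ => Ind (A.cfg 0).N T a b) k := by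
  have hN : (A.cfg 0).N = (A.p : ℤ) * A.q := rfl
  have hp : (A.cfg 0).p = A.p := rfl
  have hW : (A.cfg 0).W = A.q * A.w := rfl
  have hH : (A.cfg 0).H = A.q * A.h := rfl
  have gen : ∀ k : ℤ, ¬ (A.p : ℤ) ∣ k → ∀ α β : ℤ, (α = 0 ∨ α = 1) → (β = 0 ∨ β = 1) →
      ε = - (1 - 2 * α - 2 * β + 4 * (α * β)) →
      Ind (A.cfg 0).N T ((A.cfg 0).U k + A.q * A.w * α) ((A.cfg 0).V k - A.q * A.h * β) = 0 := by
    intro k hk α β hα hβ he
    apply Ind_zero
    rintro X Z ⟨a1, a2⟩ hT'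
    obtain ⟨b1, b2, b3, b4⟩ := hR X Z hT'
    obtain ⟨i', x', y', f', c1, c2, c3, c4, c5⟩ := inner_of hk α β hα hβ a1 a2 b1 b2 b3 b4
    rw [c2, c3] at hT'
    refine hno i' x' y' f' ?_ c4 c5 hT'
    rw [he, neg_neg]; exact c1
  have hnn : ∀ k : ℤ, ¬ (A.p : ℤ) ∣ k →
      0 ≤ ε * (A.cfg 0).four (fun a b _ => Ind (A.cfg 0).N T a b) k := by
    intro k hk
    simp only [Cfg.four]
    rw [hW, hH]
    have i1 := Ind_nonneg (A.cfg 0).N T ((A.cfg 0).U k) ((A.cfg 0).V k)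
    have i2 := Ind_nonneg (A.cfg 0).N T ((A.cfg 0).U k + A.q * A.w) ((A.cfg 0).V k)
    have i3 := Ind_nonneg (A.cfg 0).N T ((A.cfg 0).U k) ((A.cfg 0).V k - A.q * A.h)
    have i4 := Ind_nonneg (A.cfg 0).N T ((A.cfg 0).U k + A.q * A.w) ((A.cfg 0).V k - A.q * A.h)
    rcases hε with rfl | rfl
    · have g1 := gen k hk 1 0 (by simp) (by simp) (by norm_num)
      have g2 := gen k hk 0 1 (by simp) (by simp) (by norm_num)
      simp only [mul_zero, mul_one, add_zero, sub_zero] at g1 g2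
      rw [g1, g2]; omega
    · have g1 := gen k hk 0 0 (by simp) (by simp) (by norm_num)
      have g2 := gen k hk 1 1 (by simp) (by simp) (by norm_num)
      simp only [mul_zero, mul_one, add_zero, sub_zero] at g1 g2
      rw [g1, g2]; omega
  -- the class of `i`
  obtain ⟨m, s, hov, hcase⟩ := hi
  have hs := hov.1.not_dvd
  have hp0 : (0 : ℤ) < A.p := by exact_mod_cast A.hp
  obtain ⟨k0, hk0, hk0'⟩ := (A.cfg 0).exists_mod s
  rw [hp] at hk0 hk0'
  have hcl : A.Cls i m f (k0 : ℤ) := by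
    obtain ⟨a1, a2, a3, a4, a5, a6⟩ := hov.1
    refine ⟨a1, a2, a3, a4, a5, ?_⟩
    have := dvd_add a6 hk0'
    rwa [show A.e * i - s + (s - (k0 : ℤ)) = A.e * i - k0 by ring] at this
  have hk0p : ¬ (A.p : ℤ) ∣ (k0 : ℤ) := hcl.not_dvd
  have hU := hcl.U0
  have hV : (A.p : ℤ) * A.q ∣ (A.cfg 0).V k0 - (A.q * (m + s) + f) := by
    have h1 := hcl.V0
    have h2 : (A.p : ℤ) * A.q ∣ A.q * (s - (k0 : ℤ)) := by
      obtain ⟨z, hz⟩ := hk0'
      exact ⟨z, by rw [hz]; ring⟩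
    have := dvd_sub h1 h2
    rwa [show (A.cfg 0).V k0 - (A.q * (m + (k0 : ℤ)) + f) - A.q * (s - (k0 : ℤ))
      = (A.cfg 0).V k0 - (A.q * (m + s) + f) by ring] at this
  have h1' : 1 ≤ ε * (A.cfg 0).four (fun a b _ => Ind (A.cfg 0).N T a b) k0 := by
    have hgen := gen k0 hk0p
    simp only [Cfg.four]
    rw [hW, hH]
    have i1 := Ind_nonneg (A.cfg 0).N T ((A.cfg 0).U k0) ((A.cfg 0).V k0)
    have i2 := Ind_nonneg (A.cfg 0).N T ((A.cfg 0).U k0 + A.q * A.w) ((A.cfg 0).V k0)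
    have i3 := Ind_nonneg (A.cfg 0).N T ((A.cfg 0).U k0) ((A.cfg 0).V k0 - A.q * A.h)
    have i4 := Ind_nonneg (A.cfg 0).N T ((A.cfg 0).U k0 + A.q * A.w) ((A.cfg 0).V k0 - A.q * A.h)
    rcases hcase with ⟨c1, c2, rfl, rfl, rfl⟩ | ⟨c1, c2, rfl, rfl, rfl⟩ | ⟨c1, c2, rfl, rfl, rfl⟩ |
      ⟨c1, c2, rfl, rfl, rfl⟩
    · have g1 := hgen 0 0 (by simp) (by simp) (by norm_num)
      have g2 := hgen 1 1 (by simp) (by simp) (by norm_num)
      simp only [mul_zero, mul_one, add_zero, sub_zero] at g1 g2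
      have g3 : Ind (A.cfg 0).N T ((A.cfg 0).U k0) ((A.cfg 0).V k0 - A.q * A.h) = 1 :=
        Ind_one ⟨hU, by
          rw [hN, show (A.cfg 0).V k0 - A.q * A.h - (A.q * (x + s - A.h) + f)
            = (A.cfg 0).V k0 - (A.q * (x + s) + f) by ring]
          exact hV⟩ hT
      rw [g1, g2, g3]; omega
    · have g1 := hgen 0 1 (by simp) (by simp) (by norm_num)
      have g2 := hgen 1 0 (by simp) (by simp) (by norm_num)
      simp only [mul_zero, mul_one, add_zero, sub_zero] at g1 g2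
      have g3 : Ind (A.cfg 0).N T ((A.cfg 0).U k0) ((A.cfg 0).V k0) = 1 :=
        Ind_one ⟨hU, hV⟩ hT
      rw [g1, g2, g3]; omega
    · have g1 := hgen 0 1 (by simp) (by simp) (by norm_num)
      have g2 := hgen 1 0 (by simp) (by simp) (by norm_num)
      simp only [mul_zero, mul_one, add_zero, sub_zero] at g1 g2
      have g3 : Ind (A.cfg 0).N T ((A.cfg 0).U k0 + A.q * A.w) ((A.cfg 0).V k0 - A.q * A.h) = 1 :=
        Ind_one ⟨by
          rw [hN, show (A.cfg 0).U k0 + A.q * A.w - (A.q * (m + A.w) + f)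
            = (A.cfg 0).U k0 - (A.q * m + f) by ring]
          exact hU, by
          rw [hN, show (A.cfg 0).V k0 - A.q * A.h - (A.q * (m + s - A.h) + f)
            = (A.cfg 0).V k0 - (A.q * (m + s) + f) by ring]
          exact hV⟩ hT
      rw [g1, g2, g3]; omega
    · have g1 := hgen 0 0 (by simp) (by simp) (by norm_num)
      have g2 := hgen 1 1 (by simp) (by simp) (by norm_num)
      simp only [mul_zero, mul_one, add_zero, sub_zero] at g1 g2
      have g3 : Ind (A.cfg 0).N T ((A.cfg 0).U k0 + A.q * A.w) ((A.cfg 0).V k0) = 1 :=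
        Ind_one ⟨by
          rw [hN, show (A.cfg 0).U k0 + A.q * A.w - (A.q * (m + A.w) + f)
            = (A.cfg 0).U k0 - (A.q * m + f) by ring]
          exact hU, hV⟩ hT
      rw [g1, g2, g3]; omega
  -- the sum
  have hk00 : k0 ≠ 0 := by
    rintro rfl; exact hk0p (by simp)
  rw [Finset.mul_sum]
  have hsub : ({0, k0} : Finset ℕ) ⊆ range (A.cfg 0).p := by
    intro z hz
    simp only [Finset.mem_insert, Finset.mem_singleton] at hz
    rw [Finset.mem_range, hp]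
    have := A.hp
    rcases hz with rfl | rfl <;> omega
  have hle := Finset.sum_le_sum_of_subset_of_nonneg (s := ({0, k0} : Finset ℕ))
    (f := fun k : ℕ => ε * (A.cfg 0).four (fun a b _ => Ind (A.cfg 0).N T a b) k) hsub ?_
  · rw [Finset.sum_pair (Ne.symm hk00)] at hle
    have h0' : 1 ≤ ε * (A.cfg 0).four (fun a b _ => Ind (A.cfg 0).N T a b) ((0 : ℕ) : ℤ) := by
      exact_mod_cast h0
    omega
  · intro z hz hz'
    have hzr := Finset.mem_range.1 hz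
    rw [hp] at hzr
    simp only [Finset.mem_insert, Finset.mem_singleton, not_or] at hz'
    apply hnn
    intro hd
    have := Int.le_of_dvd (by omega) hd
    omega


theorem core_Del (F : A.Fl) (u0 v0 Y : ℤ) (s0 : 0 ≤ v0 - u0 - A.q * Y)
    (s1 : v0 - u0 - A.q * Y < (A.cfg 0).N) :
    |∑ k ∈ range (A.cfg 0).p, (A.cfg 0).four
      (fun a b _ => Ind (A.cfg 0).N (Del A.q u0 v0 Y) a b) k| ≤ 1 := by
  have h := F (u0 - 1) v0 Y
  rw [← Cfg.Fint_eq, sub_add_cancel] at h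
  have hN := (A.cfg 0).N_pos
  have hq : (0 : ℤ) < (A.cfg 0).q := by exact_mod_cast (A.cfg 0).hq
  have hp : (0 : ℤ) < (A.cfg 0).p := by exact_mod_cast (A.cfg 0).p_pos
  have hpq : ((A.cfg 0).p : ℤ) * (A.cfg 0).q = (A.cfg 0).N := rfl
  have e : (A.cfg 0).Fint u0 v0 Y = ∑ k ∈ range (A.cfg 0).p, (A.cfg 0).four
      (fun a b _ => Ind (A.cfg 0).N (Del A.q u0 v0 Y) a b) k := by
    refine Finset.sum_congr rfl fun k _ => ?_
    have k0 := Ind_Del hN hpq hq hp ((A.cfg 0).row0 k) s0 s1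
    have k1 := Ind_Del hN hpq hq hp ((A.cfg 0).row1 k) s0 s1
    have k2 := Ind_Del hN hpq hq hp ((A.cfg 0).row2 k) s0 s1
    have k3 := Ind_Del hN hpq hq hp ((A.cfg 0).row3 k) s0 s1
    unfold TT at k0 k1 k2 k3
    unfold vis
    rw [k0, k1, k2, k3]
    rfl
  rwa [e] at h

theorem core_Nab (F : A.Fl) (u0 v0 Y : ℤ) (s0 : 0 ≤ u0 - v0 + A.q * Y)
    (s1 : u0 - v0 + A.q * Y + 2 + A.q ≤ (A.cfg 0).N) :
    |∑ k ∈ range (A.cfg 0).p, (A.cfg 0).four
      (fun a b _ => Ind (A.cfg 0).N (Nab A.q u0 v0 Y) a b) k| ≤ 1 := by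
  have h := F u0 (v0 - 1) (Y + 1)
  rw [← Cfg.Fint_eq, ← Cfg.neutral] at h
  have hN := (A.cfg 0).N_pos
  have hq : (0 : ℤ) < (A.cfg 0).q := by exact_mod_cast (A.cfg 0).hq
  have hp : (0 : ℤ) < (A.cfg 0).p := by exact_mod_cast (A.cfg 0).p_pos
  have hpq : ((A.cfg 0).p : ℤ) * (A.cfg 0).q = (A.cfg 0).N := rfl
  have e : ∑ k ∈ range (A.cfg 0).p, (A.cfg 0).four (fun a b r =>
      if 2 * (A.cfg 0).N ≤ TT (A.cfg 0).N (A.cfg 0).q (A.cfg 0).p a b r (u0 + 1) (v0 - 1) (Y + 1)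
      then (1 : ℤ) else 0) k = ∑ k ∈ range (A.cfg 0).p, (A.cfg 0).four
      (fun a b _ => Ind (A.cfg 0).N (Nab A.q u0 v0 Y) a b) k := by
    refine Finset.sum_congr rfl fun k _ => ?_
    have k0 := Ind_Nab hN hpq hq hp ((A.cfg 0).row0 k) s0 s1
    have k1 := Ind_Nab hN hpq hq hp ((A.cfg 0).row1 k) s0 s1
    have k2 := Ind_Nab hN hpq hq hp ((A.cfg 0).row2 k) s0 s1
    have k3 := Ind_Nab hN hpq hq hp ((A.cfg 0).row3 k) s0 s1
    simp only [Cfg.four]
    rw [k0, k1, k2, k3]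
    rfl
  rwa [e] at h

/-- `q w + q h + 2 + q ≤ N` -/
theorem size_N (A : Ap) [Fact A.Reg] : (A.q * A.w : ℤ) + A.q * A.h + 2 + A.q ≤ (A.cfg 0).N := by
  have hN : (A.cfg 0).N = (A.p : ℤ) * A.q := rfl
  have h1 := A.R1
  have h2 := A.hw
  have h3 := A.hwh
  have h4 : (2 : ℤ) ≤ A.q := by have := A.hfd; have := A.hfd2; omega
  have h5 : (A.w : ℤ) + A.h + 2 ≤ A.p := by omega
  rw [hN]
  nlinarith

theorem lift_eq {N a b : ℤ} (h : N ∣ a - b) (h1 : a - b < N) (h2 : -N < a - b) : a = b := by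
  have := Int.eq_zero_of_abs_lt_dvd h (by rw [abs_lt]; exact ⟨h2, h1⟩)
  omega

/-- the corners of class `0` -/
theorem zero_corner (A : Ap) [Fact A.Reg] {T : ℤ → ℤ → Prop}
    (hR : ∀ X Z, T X Z → 0 ≤ X ∧ X ≤ A.q * A.w ∧ -(A.q * A.h : ℤ) ≤ Z ∧ Z ≤ 0)
    (a b : ℤ) (ha : a = 0 ∨ a = A.q * A.w) (hb : b = 0 ∨ b = A.q * A.h) :
    Ind (A.cfg 0).N T ((A.cfg 0).U 0 + a) ((A.cfg 0).V 0 - b) = Ind (A.cfg 0).N T a (-b) ∧
    (T a (-b) → Ind (A.cfg 0).N T a (-b) = 1) ∧ (¬ T a (-b) → Ind (A.cfg 0).N T a (-b) = 0) := by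
  have hN : (A.cfg 0).N = (A.p : ℤ) * A.q := rfl
  have hU := zero_U0 (A := A) (k := 0) (dvd_zero _)
  have hV := zero_V0 (A := A) (k := 0) (dvd_zero _)
  rw [← hN] at hU hV
  have hsz := A.size_N
  have hq := A.qpos
  have hw : (0 : ℤ) ≤ A.q * A.w := by positivity
  have hh : (0 : ℤ) ≤ A.q * A.h := by positivity
  refine ⟨?_, fun h => Ind_one ⟨by simp, by simp⟩ h, fun h => Ind_zero ?_⟩
  · unfold Ind
    congr 1
    apply propext
    constructor
    · rintro ⟨X, Z, ⟨h1, h2⟩, hT⟩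
      refine ⟨X, Z, ⟨?_, ?_⟩, hT⟩
      · have := dvd_sub h1 hU
        rwa [show (A.cfg 0).U 0 + a - X - (A.cfg 0).U 0 = a - X by ring] at this
      · have := dvd_sub h2 hV
        rwa [show (A.cfg 0).V 0 - b - Z - (A.cfg 0).V 0 = -b - Z by ring] at this
    · rintro ⟨X, Z, ⟨h1, h2⟩, hT⟩
      refine ⟨X, Z, ⟨?_, ?_⟩, hT⟩
      · have := dvd_add h1 hU
        rwa [show a - X + (A.cfg 0).U 0 = (A.cfg 0).U 0 + a - X by ring] at this
      · have := dvd_add h2 hV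
        rwa [show -b - Z + (A.cfg 0).V 0 = (A.cfg 0).V 0 - b - Z by ring] at this
  · rintro X Z ⟨h1, h2⟩ hT
    obtain ⟨b1, b2, b3, b4⟩ := hR X Z hT
    have e1 : a = X := lift_eq h1 (by omega) (by omega)
    have e2 : -b = Z := lift_eq h2 (by omega) (by omega)
    rw [← e1, ← e2] at hT
    exact h hT

/-- the total contribution of class `0` -/
theorem zero_four (A : Ap) [Fact A.Reg] {T : ℤ → ℤ → Prop}
    (hR : ∀ X Z, T X Z → 0 ≤ X ∧ X ≤ A.q * A.w ∧ -(A.q * A.h : ℤ) ≤ Z ∧ Z ≤ 0) :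
    (A.cfg 0).four (fun a b _ => Ind (A.cfg 0).N T a b) 0
    = Ind (A.cfg 0).N T 0 0 - Ind (A.cfg 0).N T (A.q * A.w) 0
      - Ind (A.cfg 0).N T 0 (-(A.q * A.h)) + Ind (A.cfg 0).N T (A.q * A.w) (-(A.q * A.h)) := by
  have hW : (A.cfg 0).W = A.q * A.w := rfl
  have hH : (A.cfg 0).H = A.q * A.h := rfl
  have c1 := (zero_corner A hR 0 0 (by simp) (by simp)).1
  have c2 := (zero_corner A hR (A.q * A.w) 0 (by simp) (by simp)).1
  have c3 := (zero_corner A hR 0 (A.q * A.h) (by simp) (by simp)).1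
  have c4 := (zero_corner A hR (A.q * A.w) (A.q * A.h) (by simp) (by simp)).1
  simp only [add_zero, sub_zero, neg_zero] at c1 c2 c3 c4
  simp only [Cfg.four]
  rw [hW, hH, c1, c2, c3, c4]

variable [Fact A.Reg]

/-- static triangle `{U ≥ u, V ≤ 0, row ≥ Y}` with `u = (mu, fu)` or `u = 0` (`fu = 0`),
inside `R_0`.  Corners of `R_0`: `P_0 = (0,0)` (row 0, `+`), `A_0 = (w,0)` (row `-w`, `-`).
Version S2 : `-h ≤ -w ≤ Y`, contains `A_0` (so `Y = -w`) and not `P_0` (so `u > 0`),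
contains a negative inner corner and no positive inner corner: impossible. -/
theorem static_S2 (F : A.Fl) {mu fu i x y f : ℤ} (u0 : 0 ≤ mu) (u1 : mu < A.w) (fu0 : 0 < fu)
    (fu1 : fu < A.q) (hi : A.Inner i x y f (-1)) (hx : mu < x ∨ (mu = x ∧ fu ≤ f))
    (hrow : -(A.w : ℤ) ≤ y - x)
    (hno : ∀ i' x' y' f', A.Inner i' x' y' f' 1 → (mu < x' ∨ (mu = x' ∧ fu ≤ f')) →
      -(A.w : ℤ) ≤ y' - x' → False) : False := by
  have hq := A.qpos
  have hsz := A.size_N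
  have hw0 : (0 : ℤ) ≤ A.q * A.w := by positivity
  have hh0 : (0 : ℤ) ≤ A.q * A.h := by positivity
  have hwh : (A.q * A.w : ℤ) ≤ A.q * A.h :=
    mul_le_mul_of_nonneg_left (by exact_mod_cast A.hwh) hq.le
  have m0 : 0 ≤ A.q * mu := mul_nonneg hq.le u0
  have m1 : A.q * mu + A.q ≤ A.q * A.w := by
    have : A.q * (mu + 1) ≤ A.q * A.w := mul_le_mul_of_nonneg_left (by omega) hq.le
    rwa [mul_add, mul_one] at this
  have eY : (A.q : ℤ) * (-(A.w : ℤ)) = -(A.q * A.w) := by ring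
  have hb := core_Del F (A.q * mu + fu) 0 (-(A.w : ℤ)) (by rw [eY]; omega) (by rw [eY]; omega)
  have hR : ∀ X Z, Del A.q (A.q * mu + fu) 0 (-(A.w : ℤ)) X Z →
      0 ≤ X ∧ X ≤ A.q * A.w ∧ -(A.q * A.h : ℤ) ≤ Z ∧ Z ≤ 0 := by
    rintro X Z ⟨h1, h2, h3⟩
    rw [eY] at h3
    refine ⟨?_, ?_, ?_, ?_⟩ <;> omega
  have f0 : 0 < f := by obtain ⟨m, s, h, -⟩ := hi; exact h.1.2.2.1
  have f1 : f < A.q := by obtain ⟨m, s, h, -⟩ := hi; exact h.1.2.2.2.1
  have y0 : y < 0 := by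
    obtain ⟨m, s, h, h'⟩ := hi
    obtain ⟨h1, h2, h3, h4, h5⟩ := h
    omega
  have hc := core A (Del A.q (A.q * mu + fu) 0 (-(A.w : ℤ))) (-1) (by simp) hR ?_ hi ?_ ?_
  · rw [abs_le] at hb
    omega
  · rw [zero_four A hR]
    have c1 := (zero_corner A hR 0 0 (by simp) (by simp)).2.2
    have c2 := (zero_corner A hR (A.q * A.w) 0 (by simp) (by simp)).2.1
    have c4 := (zero_corner A hR (A.q * A.w) (A.q * A.h) (by simp) (by simp)).2.2
    simp only [neg_zero] at c1 c2 c4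
    have n3 := Ind_nonneg (A.cfg 0).N (Del A.q (A.q * mu + fu) 0 (-(A.w : ℤ))) 0 (-(A.q * A.h))
    rw [c1 (by rintro ⟨h1, h2, h3⟩; omega), c2 ⟨by omega, le_rfl, by rw [eY]; omega⟩,
      c4 (by
        rintro ⟨h1, h2, h3⟩
        rw [eY] at h3
        have : 0 < (A.q : ℤ) * A.h := mul_pos hq (by have := A.hw; have := A.hwh; omega)
        omega)]
    omega
  · refine ⟨lex_le' hq fu1 f0 (by omega), ?_, ?_⟩
    · have : A.q * (y + 1) ≤ A.q * 0 := mul_le_mul_of_nonneg_left (by omega) hq.le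
      rw [mul_add, mul_one] at this; omega
    · have : A.q * (-(A.w : ℤ)) ≤ A.q * (y - x) := mul_le_mul_of_nonneg_left hrow hq.le
      rw [mul_sub] at this; omega
  · rintro i' x' y' f' hi' f0' f1' ⟨h1, h2, h3⟩
    rw [neg_neg] at hi'
    refine hno i' x' y' f' hi' ?_ ?_
    · have := lex_le hq fu0 f1' h1
      omega
    · by_contra c
      have : A.q * (y' - x') ≤ A.q * (-(A.w : ℤ) - 1) :=
        mul_le_mul_of_nonneg_left (by omega) hq.le
      rw [mul_sub, mul_sub, mul_one] at this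
      omega

/-- S3 : `{U ≥ 0, V ≤ 0, row ≥ Y}`, `-w < Y ≤ 0`: contains `P_0` only among the corners of `R_0` -/
theorem static_S3 (F : A.Fl) {Y i x y f : ℤ} (Y0 : -(A.w : ℤ) < Y) (Y1 : Y ≤ 0)
    (hi : A.Inner i x y f 1) (hrow : Y ≤ y - x)
    (hno : ∀ i' x' y' f', A.Inner i' x' y' f' (-1) → Y ≤ y' - x' → False) : False := by
  have hq := A.qpos
  have hsz := A.size_N
  have hw0 : (0 : ℤ) ≤ A.q * A.w := by positivity
  have hh0 : (0 : ℤ) ≤ A.q * A.h := by positivity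
  have hwh : (A.q * A.w : ℤ) ≤ A.q * A.h :=
    mul_le_mul_of_nonneg_left (by exact_mod_cast A.hwh) hq.le
  have y1 : A.q * Y ≤ 0 := mul_nonpos_of_nonneg_of_nonpos hq.le Y1
  have y2 : -(A.q * A.w : ℤ) + A.q ≤ A.q * Y := by
    have : A.q * (-(A.w : ℤ) + 1) ≤ A.q * Y := mul_le_mul_of_nonneg_left (by omega) hq.le
    rw [mul_add, mul_one, mul_neg] at this; exact this
  have hb := core_Del F 0 0 Y (by omega) (by omega)
  have hR : ∀ X Z, Del A.q 0 0 Y X Z →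
      0 ≤ X ∧ X ≤ A.q * A.w ∧ -(A.q * A.h : ℤ) ≤ Z ∧ Z ≤ 0 := by
    rintro X Z ⟨h1, h2, h3⟩
    refine ⟨?_, ?_, ?_, ?_⟩ <;> omega
  have f0 : 0 < f := by obtain ⟨m, s, h, -⟩ := hi; exact h.1.2.2.1
  have f1 : f < A.q := by obtain ⟨m, s, h, -⟩ := hi; exact h.1.2.2.2.1
  have xy0 : 0 ≤ x ∧ y < 0 := by
    obtain ⟨m, s, h, h'⟩ := hi
    obtain ⟨h1, h2, h3, h4, h5⟩ := h
    omega
  have hc := core A (Del A.q 0 0 Y) 1 (by simp) hR ?_ hi ?_ ?_
  · rw [abs_le] at hb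
    omega
  · rw [zero_four A hR]
    have c1 := (zero_corner A hR 0 0 (by simp) (by simp)).2.1
    have c2 := (zero_corner A hR (A.q * A.w) 0 (by simp) (by simp)).2.2
    have c3 := (zero_corner A hR 0 (A.q * A.h) (by simp) (by simp)).2.2
    simp only [neg_zero] at c1 c2 c3
    have n3 := Ind_nonneg (A.cfg 0).N (Del A.q 0 0 Y) (A.q * A.w) (-(A.q * A.h))
    rw [c1 ⟨le_rfl, le_rfl, by omega⟩, c2 (by rintro ⟨h1, h2, h3⟩; omega),
      c3 (by rintro ⟨h1, h2, h3⟩; omega)]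
    omega
  · refine ⟨?_, ?_, ?_⟩
    · have := mul_nonneg hq.le xy0.1
      omega
    · have : A.q * (y + 1) ≤ A.q * 0 := mul_le_mul_of_nonneg_left (by omega) hq.le
      rw [mul_add, mul_one] at this; omega
    · have : A.q * Y ≤ A.q * (y - x) := mul_le_mul_of_nonneg_left hrow hq.le
      rw [mul_sub] at this; omega
  · rintro i' x' y' f' hi' f0' f1' ⟨h1, h2, h3⟩
    refine hno i' x' y' f' hi' ?_
    by_contra c
    have : A.q * (y' - x') ≤ A.q * (Y - 1) :=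
      mul_le_mul_of_nonneg_left (by omega) hq.le
    rw [mul_sub, mul_sub, mul_one] at this
    omega

/-- S1 : `{U ≤ u, V ≥ -h, row ≤ -h}`, `u = (mu, fu) < w`: contains `B_0` only -/
theorem static_S1 (F : A.Fl) {mu fu i x y f : ℤ} (u0 : 0 ≤ mu) (u1 : mu < A.w) (fu0 : 0 < fu)
    (fu1 : fu < A.q) (hi : A.Inner i x y f (-1)) (hx : x < mu ∨ (x = mu ∧ f ≤ fu))
    (hrow : y - x ≤ -(A.h : ℤ))
    (hno : ∀ i' x' y' f', A.Inner i' x' y' f' 1 → (x' < mu ∨ (x' = mu ∧ f' ≤ fu)) →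
      y' - x' ≤ -(A.h : ℤ) → False) : False := by
  have hq := A.qpos
  have hsz := A.size_N
  have hw0 : (0 : ℤ) ≤ A.q * A.w := by positivity
  have hh0 : (0 : ℤ) ≤ A.q * A.h := by positivity
  have hwh : (A.q * A.w : ℤ) ≤ A.q * A.h :=
    mul_le_mul_of_nonneg_left (by exact_mod_cast A.hwh) hq.le
  have m0 : 0 ≤ A.q * mu := mul_nonneg hq.le u0
  have m1 : A.q * mu + A.q ≤ A.q * A.w := by
    have : A.q * (mu + 1) ≤ A.q * A.w := mul_le_mul_of_nonneg_left (by omega) hq.le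
    rwa [mul_add, mul_one] at this
  have eY : (A.q : ℤ) * (-(A.h : ℤ)) = -(A.q * A.h) := by ring
  have hb := core_Nab F (A.q * mu + fu) (-(A.q * A.h : ℤ)) (-(A.h : ℤ)) (by rw [eY]; omega)
    (by rw [eY]; omega)
  have hR : ∀ X Z, Nab A.q (A.q * mu + fu) (-(A.q * A.h : ℤ)) (-(A.h : ℤ)) X Z →
      0 ≤ X ∧ X ≤ A.q * A.w ∧ -(A.q * A.h : ℤ) ≤ Z ∧ Z ≤ 0 := by
    rintro X Z ⟨h1, h2, h3⟩
    rw [eY] at h3
    refine ⟨?_, ?_, ?_, ?_⟩ <;> omega
  have f0 : 0 < f := by obtain ⟨m, s, h, -⟩ := hi; exact h.1.2.2.1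
  have f1 : f < A.q := by obtain ⟨m, s, h, -⟩ := hi; exact h.1.2.2.2.1
  have y0 : -(A.h : ℤ) ≤ y := by
    obtain ⟨m, s, h, h'⟩ := hi
    obtain ⟨h1, h2, h3, h4, h5⟩ := h
    omega
  have hc := core A (Nab A.q (A.q * mu + fu) (-(A.q * A.h : ℤ)) (-(A.h : ℤ))) (-1) (by simp) hR
    ?_ hi ?_ ?_
  · rw [abs_le] at hb
    omega
  · rw [zero_four A hR]
    have c1 := (zero_corner A hR 0 0 (by simp) (by simp)).2.2
    have c3 := (zero_corner A hR 0 (A.q * A.h) (by simp) (by simp)).2.1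
    have c4 := (zero_corner A hR (A.q * A.w) (A.q * A.h) (by simp) (by simp)).2.2
    simp only [neg_zero] at c1 c3 c4
    have n3 := Ind_nonneg (A.cfg 0).N (Nab A.q (A.q * mu + fu) (-(A.q * A.h : ℤ)) (-(A.h : ℤ)))
      (A.q * A.w) 0
    rw [c1 (by
        rintro ⟨h1, h2, h3⟩
        rw [eY] at h3
        have : 0 < (A.q : ℤ) * A.h := mul_pos hq (by have := A.hw; have := A.hwh; omega)
        omega),
      c3 ⟨by omega, le_rfl, by rw [eY]; omega⟩,
      c4 (by rintro ⟨h1, h2, h3⟩; omega)]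
    omega
  · refine ⟨lex_le' hq f1 fu0 hx, ?_, ?_⟩
    · have : A.q * (-(A.h : ℤ)) ≤ A.q * y := mul_le_mul_of_nonneg_left y0 hq.le
      omega
    · have : A.q * (y - x) ≤ A.q * (-(A.h : ℤ)) := mul_le_mul_of_nonneg_left hrow hq.le
      rw [mul_sub] at this; omega
  · rintro i' x' y' f' hi' f0' f1' ⟨h1, h2, h3⟩
    rw [neg_neg] at hi'
    refine hno i' x' y' f' hi' (lex_le hq f0' fu1 h1) ?_
    by_contra c
    have : A.q * (-(A.h : ℤ) + 1) ≤ A.q * (y' - x') :=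
      mul_le_mul_of_nonneg_left (by omega) hq.le
    rw [mul_sub, mul_add, mul_one] at this
    omega

/-- S4 : `{U ≤ w, V ≥ -h, row ≤ Y}`, `-w-h ≤ Y < -h`: contains `C_0` only -/
theorem static_S4 (F : A.Fl) {Y i x y f : ℤ} (Y0 : -(A.w : ℤ) - A.h ≤ Y) (Y1 : Y < -(A.h : ℤ))
    (hi : A.Inner i x y f 1) (hrow : y - x ≤ Y)
    (hno : ∀ i' x' y' f', A.Inner i' x' y' f' (-1) → y' - x' ≤ Y → False) : False := by
  have hq := A.qpos
  have hsz := A.size_N
  have hw0 : (0 : ℤ) ≤ A.q * A.w := by positivity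
  have hh0 : (0 : ℤ) ≤ A.q * A.h := by positivity
  have hwh : (A.q * A.w : ℤ) ≤ A.q * A.h :=
    mul_le_mul_of_nonneg_left (by exact_mod_cast A.hwh) hq.le
  have y1 : A.q * Y + A.q ≤ -(A.q * A.h : ℤ) := by
    have : A.q * (Y + 1) ≤ A.q * (-(A.h : ℤ)) := mul_le_mul_of_nonneg_left (by omega) hq.le
    rw [mul_add, mul_one, mul_neg] at this; exact this
  have y2 : -(A.q * A.w : ℤ) - A.q * A.h ≤ A.q * Y := by
    have : A.q * (-(A.w : ℤ) - A.h) ≤ A.q * Y := mul_le_mul_of_nonneg_left (by omega) hq.le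
    rw [mul_sub, mul_neg] at this; exact this
  have hb := core_Nab F (A.q * A.w) (-(A.q * A.h : ℤ)) Y (by omega) (by omega)
  have hR : ∀ X Z, Nab A.q (A.q * A.w) (-(A.q * A.h : ℤ)) Y X Z →
      0 ≤ X ∧ X ≤ A.q * A.w ∧ -(A.q * A.h : ℤ) ≤ Z ∧ Z ≤ 0 := by
    rintro X Z ⟨h1, h2, h3⟩
    refine ⟨?_, ?_, ?_, ?_⟩ <;> omega
  have f0 : 0 < f := by obtain ⟨m, s, h, -⟩ := hi; exact h.1.2.2.1
  have f1 : f < A.q := by obtain ⟨m, s, h, -⟩ := hi; exact h.1.2.2.2.1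
  have xy0 : x < A.w ∧ -(A.h : ℤ) ≤ y := by
    obtain ⟨m, s, h, h'⟩ := hi
    obtain ⟨h1, h2, h3, h4, h5⟩ := h
    omega
  have hc := core A (Nab A.q (A.q * A.w) (-(A.q * A.h : ℤ)) Y) 1 (by simp) hR ?_ hi ?_ ?_
  · rw [abs_le] at hb
    omega
  · rw [zero_four A hR]
    have c2 := (zero_corner A hR (A.q * A.w) 0 (by simp) (by simp)).2.2
    have c3 := (zero_corner A hR 0 (A.q * A.h) (by simp) (by simp)).2.2
    have c4 := (zero_corner A hR (A.q * A.w) (A.q * A.h) (by simp) (by simp)).2.1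
    simp only [neg_zero] at c2 c3 c4
    have n3 := Ind_nonneg (A.cfg 0).N (Nab A.q (A.q * A.w) (-(A.q * A.h : ℤ)) Y) 0 0
    rw [c4 ⟨le_rfl, le_rfl, by omega⟩, c2 (by rintro ⟨h1, h2, h3⟩; omega),
      c3 (by rintro ⟨h1, h2, h3⟩; omega)]
    omega
  · refine ⟨?_, ?_, ?_⟩
    · have : A.q * (x + 1) ≤ A.q * A.w := mul_le_mul_of_nonneg_left (by omega) hq.le
      rw [mul_add, mul_one] at this; omega
    · have : A.q * (-(A.h : ℤ)) ≤ A.q * y := mul_le_mul_of_nonneg_left xy0.2 hq.le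
      rw [mul_neg] at this; omega
    · have : A.q * (y - x) ≤ A.q * Y := mul_le_mul_of_nonneg_left hrow hq.le
      rw [mul_sub] at this; omega
  · rintro i' x' y' f' hi' f0' f1' ⟨h1, h2, h3⟩
    refine hno i' x' y' f' hi' ?_
    by_contra c
    have : A.q * (Y + 1) ≤ A.q * (y' - x') :=
      mul_le_mul_of_nonneg_left (by omega) hq.le
    rw [mul_sub, mul_add, mul_one] at this
    omega

end Ap

end Pool.Agent.H98.Flat
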