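import Pool.Agent.H98.Flat.O.Alpha

namespace Pool.Agent.H98.Flat

namespace Ap

variable {A : Ap} [Fact (2 * (A.w + A.h) < A.p)]

/-- case (2') : `w = h` -/
theorem two' (F : A.Fl) (hwe : A.w = A.h) {j i mj mc fc g sj m f s : ℤ} (hj : A.Cls j mj fc sj)
    (hw : (mc = mj ∧ g = sj) ∨ (mc = mj + A.w ∧ g = sj - A.w))
    (c0 : 0 ≤ mc) (cw : mc < A.w) (cd : mc < A.md ∨ (mc = A.md ∧ fc < A.fd))
    (hi : A.Cls i m f s) (hij : i ≠ j) (h1 : m < mc ∨ (m = mc ∧ f < fc))
    (h2 : mc - A.w < m ∨ (mc - A.w = m ∧ fc < f)) (g1 : -(A.w : ℤ) ≤ g) (g0 : g < 0)
    (v1 : mc + g + A.w < m + s ∨ (mc + g + A.w = m + s ∧ fc < f)) (v2 : m + s < A.w)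
    (v3 : m + s < A.md ∨ (m + s = A.md ∧ f < A.fd)) : False := by
  have P1 := A.P1
  have hw2 := A.hw
  have hwh := A.hwh
  have hp := A.p_pos'
  have hmd := A.hmd
  have hmd2 := A.hmd2
  have fne := hi.f_ne hj hij
  have hsj := hj.s_ne_zero
  have hV : A.VW i (m + A.w) f (s - A.w) := ⟨m, s, hi, Or.inr ⟨rfl, rfl⟩⟩
  have hHb : A.HW j (mj + sj - A.h) fc (sj - A.h) := ⟨mj, sj, hj, Or.inr ⟨rfl, rfl⟩⟩
  have hHt : A.HW j (mj + sj) fc sj := ⟨mj, sj, hj, Or.inl ⟨rfl, rfl⟩⟩
  rw [lex_iff hj.f_ne_fd] at cd
  rw [lex_iff hi.f_ne_fd] at v3
  rw [lex_iff fne, ord_swap fne.symm] at h1
  rw [lex_iff fne.symm] at h2 v1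
  obtain ⟨tr1, tr2⟩ := @ord_trans f fc A.fd fne
  have e01 := @ord01 f fc
  have eb01 := @ord01 A.fd fc
  have ec01 := @ord01 A.fd f
  have Eb := fun Y => E0n F hV hHb (Ne.symm hij) rfl rfl rfl rfl Y
  have Et := fun Y => E0n F hV hHt (Ne.symm hij) rfl rfl rfl rfl Y
  generalize (if f < fc then (1 : ℤ) else 0) = e at *
  generalize (if A.fd < fc then (1 : ℤ) else 0) = eb at *
  generalize (if A.fd < f then (1 : ℤ) else 0) = ec at *
  have e0 : 0 ≤ e := by clear * - e01; omega
  have e1 : e ≤ 1 := by clear * - e01; omega
  have eb0 : 0 ≤ eb := by clear * - eb01; omega
  have eb1 : eb ≤ 1 := by clear * - eb01; omega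
  have ec0 : 0 ≤ ec := by clear * - ec01; omega
  have ec1 : ec ≤ 1 := by clear * - ec01; omega
  clear e01 eb01 ec01 hV hHb hHt fne hj hi hij
  rcases hw with ⟨rfl, rfl⟩ | ⟨hw1, hw2'⟩
  · -- left wall of `j`
    clear hsj
    rcases le_or_gt 0 m with hm | hm
    · -- U_i > 0
      have a1 := Eb (-A.w) (by omega) (by omega) (by omega) (by omega) (by omega) (by omega)
        (by omega) (by omega) (by omega) (by omega) (by omega) (by omega) (by omega) (by omega)
        (by omega) (by omega) (by omega) (by omega)
      have a2 := Eb (s - A.w) (by omega) (by omega) (by omega) (by omega) (by omega) (by omega)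
        (by omega) (by omega) (by omega) (by omega) (by omega) (by omega) (by omega) (by omega)
        (by omega) (by omega) (by omega) (by omega)
      clear Eb Et
      rcases le_or_gt (m + A.w + ec) A.md with hL | hL
      · have b1 := a1 1 1 0 0 (by omega) (by omega) (by omega) (by omega)
        have b2 := a2 1 1 0 0 (by omega) (by omega) (by omega) (by omega)
        clear a1 a2
        rw [← b2] at b1
        unfold ic at b1
        clear b2
        split_ifs at b1 <;> omega
      · have b1 := a1 0 1 0 0 (by omega) (by omega) (by omega) (by omega)
        have b2 := a2 0 1 0 0 (by omega) (by omega) (by omega) (by omega)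
        clear a1 a2
        rw [← b2] at b1
        unfold ic at b1
        clear b2
        split_ifs at b1 <;> omega
    · rcases le_or_gt (m + A.w + ec) A.md with hL | hL
      · -- L'' = 1
        clear Et
        rcases le_or_gt s A.w with hs | hs
        · have a1 := Eb (s - A.w) (by omega) (by omega) (by omega) (by omega) (by omega) (by omega)
            (by omega) (by omega) (by omega) (by omega) (by omega) (by omega) (by omega) (by omega)
            (by omega) (by omega) (by omega) (by omega) 1 0 0 0 (by omega) (by omega) (by omega) (by omega)
          unfold ic at a1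
          clear Eb
          split_ifs at a1 <;> omega
        · have a1 := Eb 0 (by omega) (by omega) (by omega) (by omega) (by omega) (by omega)
            (by omega) (by omega) (by omega) (by omega) (by omega) (by omega) (by omega) (by omega)
            (by omega) (by omega) (by omega) (by omega) 1 0 0 0 (by omega) (by omega) (by omega) (by omega)
          unfold ic at a1
          clear Eb
          split_ifs at a1 <;> omega
      · -- L'' = 0
        clear Eb
        have a1 := Et (s - A.w) (by omega) (by omega) (by omega) (by omega) (by omega) (by omega)
          (by omega) (by omega) (by omega) (by omega) (by omega) (by omega) (by omega) (by omega)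
          (by omega) (by omega) (by omega) (by omega) 0 0 0 1 (by omega) (by omega) (by omega) (by omega)
        unfold ic at a1
        clear Et
        split_ifs at a1 <;> omega
  · -- right wall of `j`
    have hg : -(A.w : ℤ) < g := by omega
    clear hsj g1
    rcases le_or_gt 0 m with hm | hm
    · -- U_i > 0
      have a1 := Eb (-A.w) (by omega) (by omega) (by omega) (by omega) (by omega) (by omega)
          (by omega) (by omega) (by omega) (by omega) (by omega) (by omega) (by omega) (by omega)
          (by omega) (by omega) (by omega) (by omega)
      have a2 := Eb (-A.w + 1) (by omega) (by omega) (by omega) (by omega) (by omega) (by omega)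
          (by omega) (by omega) (by omega) (by omega) (by omega) (by omega) (by omega) (by omega)
          (by omega) (by omega) (by omega) (by omega)
      clear Eb Et
      rcases le_or_gt (m + A.w + ec) A.md with hL | hL
      · have b1 := a1 1 1 0 0 (by omega) (by omega) (by omega) (by omega)
        have b2 := a2 1 1 0 0 (by omega) (by omega) (by omega) (by omega)
        clear a1 a2
        rw [← b2] at b1
        unfold ic at b1
        clear b2
        split_ifs at b1 <;> omega
      · have b1 := a1 0 1 0 0 (by omega) (by omega) (by omega) (by omega)
        have b2 := a2 0 1 0 0 (by omega) (by omega) (by omega) (by omega)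
        clear a1 a2
        rw [← b2] at b1
        unfold ic at b1
        clear b2
        split_ifs at b1 <;> omega
    · rcases le_or_gt (m + A.w + ec) A.md with hL | hL
      · -- L'' = 1
        rcases le_or_gt s A.w with hs | hs
        · clear Et
          have a1 := Eb (g) (by omega) (by omega) (by omega) (by omega) (by omega) (by omega)
              (by omega) (by omega) (by omega) (by omega) (by omega) (by omega) (by omega) (by omega)
              (by omega) (by omega) (by omega) (by omega) 1 0 0 0
              (by omega) (by omega) (by omega) (by omega)
          unfold ic at a1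
          clear Eb
          split_ifs at a1 <;> omega
        · clear Eb
          rcases le_or_gt (g + A.w) (s - A.w) with hq | hq
          · have a1 := Et (g + A.w) (by omega) (by omega) (by omega) (by omega) (by omega) (by omega)
                (by omega) (by omega) (by omega) (by omega) (by omega) (by omega) (by omega) (by omega)
                (by omega) (by omega) (by omega) (by omega) 1 0 0 1
                (by omega) (by omega) (by omega) (by omega)
            unfold ic at a1
            clear Et
            split_ifs at a1 <;> omega
          · have a1 := Et (s - A.w) (by omega) (by omega) (by omega) (by omega) (by omega) (by omega)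
                (by omega) (by omega) (by omega) (by omega) (by omega) (by omega) (by omega) (by omega)
                (by omega) (by omega) (by omega) (by omega) 1 0 0 1
                (by omega) (by omega) (by omega) (by omega)
            unfold ic at a1
            clear Et
            split_ifs at a1 <;> omega
      · -- L'' = 0
        clear Eb
        rcases le_or_gt (g + A.w) (s - A.w) with hq | hq
        · have a1 := Et (g + A.w) (by omega) (by omega) (by omega) (by omega) (by omega) (by omega)
              (by omega) (by omega) (by omega) (by omega) (by omega) (by omega) (by omega) (by omega)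
              (by omega) (by omega) (by omega) (by omega) 0 0 0 1
              (by omega) (by omega) (by omega) (by omega)
          unfold ic at a1
          clear Et
          split_ifs at a1 <;> omega
        · have a1 := Et (s - A.w) (by omega) (by omega) (by omega) (by omega) (by omega) (by omega)
              (by omega) (by omega) (by omega) (by omega) (by omega) (by omega) (by omega) (by omega)
              (by omega) (by omega) (by omega) (by omega) 0 0 0 1
              (by omega) (by omega) (by omega) (by omega)
          unfold ic at a1
          clear Et
          split_ifs at a1 <;> omega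

end Ap

end Pool.Agent.H98.Flat
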